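import Mathlib

/-! Combinatorial selections. -/

open Finset

namespace Pool.Agent.H712.NI

lemma geom_le (d K : ℕ) : (∑ k ∈ range K, if 2 ^ k ≤ d then 2 ^ k else 0) ≤ 2 * d ∧
    (∑ k ∈ range K, if 2 ^ k ≤ d then 2 ^ k else 0) ≤ 2 ^ K := by
  induction K with
  | zero => simp
  | succ K ih =>
    rw [Finset.sum_range_succ]
    by_cases h : 2 ^ K ≤ d
    · rw [if_pos h]
      constructor
      · have := ih.2
        omega
      · rw [pow_succ]
        have := ih.2
        omega
    · rw [if_neg h, add_zero]
      refine ⟨ih.1, ih.2.trans ?_⟩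
      exact Nat.pow_le_pow_right (by norm_num) (Nat.le_succ K)

/-- a scale at which few coordinates are heavy -/
lemma exists_threshold {ι : Type} [Fintype ι] (deg : ι → ℕ) (W K : ℕ) (hK : 0 < K)
    (hW : ∑ i, deg i ≤ W) :
    ∃ k < K, K * (2 ^ k * (univ.filter fun i => 2 ^ k ≤ deg i).card) ≤ 2 * W := by
  by_contra hcon
  push Not at hcon
  have h1 : ∑ k ∈ range K, 2 ^ k * (univ.filter fun i => 2 ^ k ≤ deg i).card ≤ 2 * W := by
    calc ∑ k ∈ range K, 2 ^ k * (univ.filter fun i => 2 ^ k ≤ deg i).card
        = ∑ k ∈ range K, ∑ i, (if 2 ^ k ≤ deg i then 2 ^ k else 0) := by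
          refine Finset.sum_congr rfl fun k _ => ?_
          rw [← Finset.sum_filter, Finset.sum_const, smul_eq_mul, mul_comm]
      _ = ∑ i, ∑ k ∈ range K, (if 2 ^ k ≤ deg i then 2 ^ k else 0) := Finset.sum_comm
      _ ≤ ∑ i, 2 * deg i := Finset.sum_le_sum fun i _ => (geom_le (deg i) K).1
      _ = 2 * ∑ i, deg i := by rw [Finset.mul_sum]
      _ ≤ 2 * W := Nat.mul_le_mul_left 2 hW
  have h2 : K * (2 * W) < K * ∑ k ∈ range K, 2 ^ k * (univ.filter fun i => 2 ^ k ≤ deg i).card := by
    rw [Finset.mul_sum]
    calc K * (2 * W) = ∑ _k ∈ range K, 2 * W := by rw [Finset.sum_const, card_range, smul_eq_mul]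
      _ < _ := Finset.sum_lt_sum_of_nonempty (Finset.nonempty_range_iff.mpr hK.ne')
        fun k hk => hcon k (Finset.mem_range.mp hk)
  have h3 := Nat.mul_le_mul_left K h1
  omega

/-- disjoint subfamilies of a family of small sets with small degrees -/
lemma exists_disjoint {A ι : Type} [DecidableEq A] [DecidableEq ι] (B : A → Finset ι) (w D : ℕ) :
    ∀ (N : ℕ) (T : Finset A), T.card ≤ N → (∀ a ∈ T, (B a).Nonempty) → (∀ a ∈ T, (B a).card ≤ w) →
    (∀ i, (T.filter fun a => i ∈ B a).card ≤ D) → ∃ M ⊆ T,
      (∀ a ∈ M, ∀ a' ∈ M, a ≠ a' → Disjoint (B a) (B a')) ∧ T.card ≤ w * D * M.card := by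
  intro N
  induction N with
  | zero =>
    intro T hT _ _ _
    refine ⟨∅, Finset.empty_subset _, by simp, ?_⟩
    simpa using hT
  | succ N ih =>
    intro T hT hne hw hD
    rcases T.eq_empty_or_nonempty with he | ⟨a0, ha0⟩
    · refine ⟨∅, Finset.empty_subset _, by simp, ?_⟩
      rw [he]; simp
    · set T' : Finset A := T.filter fun a => Disjoint (B a0) (B a) with hT'
      have hsub : T' ⊆ T := Finset.filter_subset _ _
      have ha0' : a0 ∉ T' := by
        intro h
        have h1 := (Finset.mem_filter.mp h).2
        rw [disjoint_self] at h1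
        exact (hne a0 ha0).ne_empty h1
      have hlt : T'.card < T.card := Finset.card_lt_card ⟨hsub, fun h => ha0' (h ha0)⟩
      obtain ⟨M, hM, hMd, hMc⟩ := ih T' (by omega) (fun a ha => hne a (hsub ha))
        (fun a ha => hw a (hsub ha)) (fun i => le_trans (Finset.card_le_card
          (Finset.filter_subset_filter _ hsub)) (hD i))
      have ha0M : a0 ∉ M := fun h => ha0' (hM h)
      refine ⟨insert a0 M, ?_, ?_, ?_⟩
      · rw [Finset.insert_subset_iff]
        exact ⟨ha0, hM.trans hsub⟩
      · intro a ha a' ha' haa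
        rw [Finset.mem_insert] at ha ha'
        rcases ha with rfl | ha
        · rcases ha' with rfl | ha'
          · exact absurd rfl haa
          · exact (Finset.mem_filter.mp (hM ha')).2
        · rcases ha' with rfl | ha'
          · exact ((Finset.mem_filter.mp (hM ha)).2).symm
          · exact hMd a ha a' ha' haa
      · rw [Finset.card_insert_of_notMem ha0M]
        have h1 : (T.filter fun a => ¬ Disjoint (B a0) (B a)).card ≤ w * D := by
          calc (T.filter fun a => ¬ Disjoint (B a0) (B a)).card
              ≤ ((B a0).biUnion fun i => T.filter fun a => i ∈ B a).card := by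
                refine Finset.card_le_card fun a ha => ?_
                rw [Finset.mem_filter, Finset.not_disjoint_iff] at ha
                obtain ⟨ha1, i, hi, hi'⟩ := ha
                rw [Finset.mem_biUnion]
                exact ⟨i, hi, Finset.mem_filter.mpr ⟨ha1, hi'⟩⟩
            _ ≤ ∑ i ∈ B a0, (T.filter fun a => i ∈ B a).card := Finset.card_biUnion_le
            _ ≤ ∑ _i ∈ B a0, D := Finset.sum_le_sum fun i _ => hD i
            _ = (B a0).card * D := by rw [Finset.sum_const, smul_eq_mul]
            _ ≤ w * D := Nat.mul_le_mul_right D (hw a0 ha0)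
        have h2 : T.card = T'.card + (T.filter fun a => ¬ Disjoint (B a0) (B a)).card := by
          rw [hT', Finset.card_filter_add_card_filter_not]
        rw [h2, mul_add, mul_one]
        omega

/-- the most frequent size -/
lemma exists_size {A ι : Type} (B : A → Finset ι) (w : ℕ) (M : Finset A)
    (hne : ∀ a ∈ M, (B a).Nonempty) (hw : ∀ a ∈ M, (B a).card ≤ w) (hM : M.Nonempty) :
    ∃ s, 0 < s ∧ s ≤ w ∧ M.card ≤ w * (M.filter fun a => (B a).card = s).card := by
  classical
  by_contra hcon
  push Not at hcon
  have h1 : M.card = ∑ s ∈ Finset.Icc 1 w, (M.filter fun a => (B a).card = s).card :=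
    Finset.card_eq_sum_card_fiberwise fun a ha => by
      simp only [Finset.coe_Icc, Set.mem_Icc]
      exact ⟨Finset.card_pos.mpr (hne a ha), hw a ha⟩
  obtain ⟨a, ha⟩ := hM
  have hw1 : 1 ≤ w := le_trans (Finset.card_pos.mpr (hne a ha)) (hw a ha)
  have h2 : w * M.card < w * M.card := by
    calc w * M.card = ∑ s ∈ Finset.Icc 1 w, w * (M.filter fun a => (B a).card = s).card := by
          rw [← Finset.mul_sum, ← h1]
      _ < ∑ _s ∈ Finset.Icc 1 w, M.card := Finset.sum_lt_sum_of_nonempty
          (Finset.nonempty_Icc.mpr hw1) fun s hs => by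
            rw [Finset.mem_Icc] at hs
            exact hcon s (by omega) hs.2
      _ = w * M.card := by
          rw [Finset.sum_const, Nat.card_Icc, smul_eq_mul]
          simp
  exact lt_irrefl _ h2

/-- a large fiber on which the biases survive on average -/
lemma exists_fiber {X Z A : Type} [DecidableEq Z] (C : Finset X) (hC : C.Nonempty) (r : X → Z)
    (R : ℝ) (hR : ((C.image r).card : ℝ) ≤ R) (T : Finset A) (hT : T.Nonempty) (f : A → X → ℝ)
    (hf : ∀ a x, |f a x| ≤ 1) (β : ℝ) (hβ : 0 < β)
    (h : ∀ a ∈ T, β * C.card ≤ |∑ x ∈ C, f a x|) :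
    ∃ z, β / 4 * C.card < R * (C.filter fun x => r x = z).card ∧
      β / 2 * T.card * (C.filter fun x => r x = z).card <
        ∑ a ∈ T, |∑ x ∈ C.filter (fun x => r x = z), f a x| := by
  classical
  by_contra hcon
  push Not at hcon
  have hCc : (0 : ℝ) < C.card := by exact_mod_cast Finset.card_pos.mpr hC
  have hTc : (0 : ℝ) < T.card := by exact_mod_cast Finset.card_pos.mpr hT
  have hR0 : 0 < R := by
    refine lt_of_lt_of_le ?_ hR
    exact_mod_cast Finset.card_pos.mpr (hC.image r)
  have h1 : ∀ z, ∑ a ∈ T, |∑ x ∈ C.filter (fun x => r x = z), f a x| ≤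
      β / 2 * T.card * (C.filter fun x => r x = z).card + T.card * (β / 4 * C.card / R) := by
    intro z
    by_cases hz : β / 4 * C.card < R * (C.filter fun x => r x = z).card
    · have := hcon z hz
      have h2 : 0 ≤ T.card * (β / 4 * C.card / R) := by positivity
      linarith
    · push Not at hz
      have h2 : ∑ a ∈ T, |∑ x ∈ C.filter (fun x => r x = z), f a x| ≤
          T.card * (C.filter fun x => r x = z).card := by
        calc ∑ a ∈ T, |∑ x ∈ C.filter (fun x => r x = z), f a x|
            ≤ ∑ _a ∈ T, ((C.filter fun x => r x = z).card : ℝ) := by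
              refine Finset.sum_le_sum fun a _ => ?_
              refine (Finset.abs_sum_le_sum_abs _ _).trans ?_
              calc ∑ x ∈ C.filter (fun x => r x = z), |f a x|
                  ≤ ∑ _x ∈ C.filter (fun x => r x = z), (1 : ℝ) :=
                    Finset.sum_le_sum fun x _ => hf a x
                _ = _ := by simp
          _ = _ := by rw [Finset.sum_const, nsmul_eq_mul]
      have h3 : ((C.filter fun x => r x = z).card : ℝ) ≤ β / 4 * C.card / R := by
        rw [le_div_iff₀ hR0]
        linarith
      have h4 := mul_le_mul_of_nonneg_left h3 hTc.le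
      have h5 : 0 ≤ β / 2 * T.card * ((C.filter fun x => r x = z).card : ℝ) := by positivity
      linarith
  have h2 : ∑ z ∈ C.image r, ∑ a ∈ T, |∑ x ∈ C.filter (fun x => r x = z), f a x| ≤
      β / 2 * T.card * C.card + T.card * (β / 4 * C.card) := by
    calc ∑ z ∈ C.image r, ∑ a ∈ T, |∑ x ∈ C.filter (fun x => r x = z), f a x|
        ≤ ∑ z ∈ C.image r, (β / 2 * T.card * (C.filter fun x => r x = z).card +
          T.card * (β / 4 * C.card / R)) := Finset.sum_le_sum fun z _ => h1 z
      _ = β / 2 * T.card * ∑ z ∈ C.image r, ((C.filter fun x => r x = z).card : ℝ) +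
          (C.image r).card * (T.card * (β / 4 * C.card / R)) := by
          rw [Finset.sum_add_distrib, ← Finset.mul_sum, Finset.sum_const, nsmul_eq_mul]
      _ ≤ β / 2 * T.card * C.card + R * (T.card * (β / 4 * C.card / R)) := by
          have h3 : ∑ z ∈ C.image r, ((C.filter fun x => r x = z).card : ℝ) = C.card := by
            have := Finset.card_eq_sum_card_image r C
            exact_mod_cast this.symm
          rw [h3]
          have h4 : 0 ≤ (T.card : ℝ) * (β / 4 * C.card / R) := by positivity
          have := mul_le_mul_of_nonneg_right hR h4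
          linarith
      _ = _ := by
          field_simp
  have h3 : β * C.card * T.card ≤
      ∑ z ∈ C.image r, ∑ a ∈ T, |∑ x ∈ C.filter (fun x => r x = z), f a x| := by
    rw [Finset.sum_comm]
    calc β * C.card * T.card = ∑ _a ∈ T, β * C.card := by
          rw [Finset.sum_const, nsmul_eq_mul]; ring
      _ ≤ ∑ a ∈ T, |∑ x ∈ C, f a x| := Finset.sum_le_sum h
      _ ≤ _ := by
          refine Finset.sum_le_sum fun a _ => ?_
          rw [← Finset.sum_fiberwise_of_maps_to (s := C) (t := C.image r) (g := r)
            (fun x hx => Finset.mem_image_of_mem r hx)]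
          exact Finset.abs_sum_le_sum_abs _ _
  have h4 : 0 < β * (T.card * C.card) := by positivity
  nlinarith

/-- few independent words are supported in a small set -/
lemma card_supported {ι : Type} [Fintype ι] [DecidableEq ι] (T : Finset (ι → ZMod 2))
    (hT : LinearIndependent (ZMod 2) (fun y : T => y.1)) (J : Finset ι) :
    (T.filter fun y => ∀ i, i ∉ J → y i = 0).card ≤ J.card := by
  classical
  set T0 := T.filter fun y => ∀ i, i ∉ J → y i = 0 with hT0
  have h1 : LinearIndependent (ZMod 2) (fun y : T0 => y.1) := by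
    have h := hT.comp (fun y : T0 => (⟨y.1, (Finset.mem_filter.mp y.2).1⟩ : T))
      (fun a b hab => by
        have := congrArg Subtype.val hab
        exact Subtype.ext this)
    exact h
  let S : Submodule (ZMod 2) (ι → ZMod 2) :=
    { carrier := {y | ∀ i, i ∉ J → y i = 0}
      add_mem' := fun {a b} ha hb i hi => by
        show a i + b i = 0
        rw [ha i hi, hb i hi, add_zero]
      zero_mem' := fun i _ => rfl
      smul_mem' := fun c a ha i hi => by
        show c * a i = 0
        rw [ha i hi, mul_zero] }
  have hspan : Submodule.span (ZMod 2) (Set.range fun y : T0 => y.1) ≤ S := by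
    rw [Submodule.span_le]
    rintro _ ⟨y, rfl⟩
    exact (Finset.mem_filter.mp y.2).2
  let f : (ι → ZMod 2) →ₗ[ZMod 2] (J → ZMod 2) :=
    { toFun := fun y i => y i.1
      map_add' := fun a b => rfl
      map_smul' := fun c a => rfl }
  have hf : Set.InjOn f (Submodule.span (ZMod 2) (Set.range fun y : T0 => y.1)) := by
    intro a ha b hb hab
    have ha' := hspan ha
    have hb' := hspan hb
    funext i
    by_cases hi : i ∈ J
    · exact congrFun hab ⟨i, hi⟩
    · rw [ha' i hi, hb' i hi]
  have h2 := h1.map_injOn f hf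
  have h3 := h2.fintype_card_le_finrank
  rw [Module.finrank_fintype_fun_eq_card] at h3
  simpa using h3

end Pool.Agent.H712.NI
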