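import Pool.Agent.H712.NI.ParityBound
import Pool.Agent.H712.NI.Select

/-! Codes with many biased checks of small weight. -/

open Finset

namespace Pool.Agent.H712.NI

/-- the character of `y` -/
def dsg {n : ℕ} (y x : Fin n → ZMod 2) : ℝ := if ∑ i, y i * x i = 0 then 1 else -1

lemma dsg_eq {n : ℕ} (y x : Fin n → ZMod 2) : dsg y x = ∏ i, sz (y i * x i) := by
  rw [← sz_sum]; rfl

lemma abs_dsg {n : ℕ} (y x : Fin n → ZMod 2) : |dsg y x| ≤ 1 := by
  unfold dsg; split_ifs <;> simp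

/-- coordinates outside `J` -/
abbrev Out {n : ℕ} (J : Finset (Fin n)) : Type := {i : Fin n // i ∉ J}

/-- support outside `J` -/
def osup {n : ℕ} (J : Finset (Fin n)) (y : Fin n → ZMod 2) : Finset (Out J) :=
  univ.filter fun i => y i.1 ≠ 0

/-- restriction -/
def res {n : ℕ} (J : Finset (Fin n)) (x : Fin n → ZMod 2) : Out J → ZMod 2 := fun i => x i.1

lemma sz_mul_cases (a b : ZMod 2) : sz (a * b) = if a ≠ 0 then sz b else 1 := by
  rcases zmod2_cases a with rfl | rfl <;> simp [sz_zero]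

lemma dsg_split {n : ℕ} (J : Finset (Fin n)) (y x : Fin n → ZMod 2) :
    dsg y x = (∏ i ∈ J, sz (y i * x i)) * ∏ i ∈ osup J y, sz (res J x i) := by
  classical
  rw [dsg_eq, ← Finset.prod_mul_prod_compl J]
  congr 1
  rw [Finset.prod_subtype (Jᶜ) (p := fun i => i ∉ J) (fun i => by simp)]
  unfold osup res
  rw [Finset.prod_filter]
  refine Finset.prod_congr rfl fun i _ => ?_
  rw [sz_mul_cases]

lemma abs_prod_sz {n : ℕ} (J : Finset (Fin n)) (f : Fin n → ZMod 2) :
    |∏ i ∈ J, sz (f i)| = 1 := by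
  rw [Finset.abs_prod]
  refine Finset.prod_eq_one fun i _ => ?_
  have := sz_sq (f i)
  rcases zmod2_cases (f i) with h | h <;> rw [h] <;> simp [sz]

/-- on a fiber the bias is that of the restricted parity -/
lemma fiber_bias {n : ℕ} (J : Finset (Fin n)) (C : Finset (Fin n → ZMod 2))
    (hC : ∀ x ∈ C, ∀ x' ∈ C, ∀ i ∈ J, x i = x' i) (y : Fin n → ZMod 2) :
    |∑ x ∈ C, dsg y x| = |∑ x ∈ C, ∏ i ∈ osup J y, sz (res J x i)| := by
  classical
  rcases C.eq_empty_or_nonempty with he | ⟨x0, hx0⟩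
  · rw [he]; simp
  · have h1 : ∑ x ∈ C, dsg y x = (∏ i ∈ J, sz (y i * x0 i)) *
        ∑ x ∈ C, ∏ i ∈ osup J y, sz (res J x i) := by
      rw [Finset.mul_sum]
      refine Finset.sum_congr rfl fun x hx => ?_
      rw [dsg_split J]
      congr 1
      refine Finset.prod_congr rfl fun i hi => ?_
      rw [hC x hx x0 hx0 i hi]
    rw [h1, abs_mul, abs_prod_sz J (fun i => y i * x0 i), one_mul]

lemma res_dist {n : ℕ} (J : Finset (Fin n)) (x x' : Fin n → ZMod 2) (h : ∀ i ∈ J, x i = x' i) :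
    hammingDist (res J x) (res J x') = hammingDist x x' := by
  classical
  unfold hammingDist
  refine Finset.card_bij (fun i _ => i.1) ?_ ?_ ?_
  · intro i hi
    simp only [Finset.mem_filter, Finset.mem_univ, true_and] at hi ⊢
    exact hi
  · intro i _ i' _ hii
    exact Subtype.ext hii
  · intro i hi
    simp only [Finset.mem_filter, Finset.mem_univ, true_and] at hi
    have hiJ : i ∉ J := fun hi' => hi (h i hi')
    exact ⟨⟨i, hiJ⟩, by simp only [Finset.mem_filter, Finset.mem_univ, true_and]; exact hi, rfl⟩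

lemma osup_card {n : ℕ} (J : Finset (Fin n)) (y : Fin n → ZMod 2) :
    (osup J y).card ≤ hammingNorm y := by
  classical
  unfold osup hammingNorm
  refine Finset.card_le_card_of_injOn (fun i => i.1) ?_ ?_
  · intro i hi
    simp only [Finset.coe_filter, Finset.mem_univ, true_and, Set.mem_setOf_eq] at hi ⊢
    exact hi
  · intro i _ i' _ h
    exact Subtype.ext h

/-- the arithmetic of the exponents -/
lemma exponent_arith {L Lz jr m D Mr Ms tg n θ ε β g w A κ c1 lb P ρ : ℝ}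
    (F1 : L ≤ Lz + jr + lb) (F2 : Lz ≤ (θ + ε) * (n - jr) - g * Ms)
    (F3 : β / 4 * m - jr ≤ tg) (F4 : tg ≤ w * D * Mr) (F5 : Mr ≤ w * Ms)
    (F6 : D * jr ≤ κ * m) (F7 : κ ≤ β / 8) (F7' : κ * (16 * w ^ 2 * A) ≤ g * β)
    (hA : A = 2 + |θ|) (F8 : ρ * n ≤ m) (F9 : D ≤ P) (hD : 1 ≤ D)
    (hε1 : ε ≤ 1) (hε0 : 0 ≤ ε) (hεc : ε ≤ c1 / 4) (hw : 1 ≤ w) (hg : 0 ≤ g) (hβ : 0 ≤ β)
    (hm : 0 ≤ m) (hjr : 0 ≤ jr) (hn : 0 ≤ n) (hρ : 0 ≤ ρ)
    (hc1 : c1 * (16 * w ^ 2 * P) = g * β * ρ) (hlb : lb ≤ c1 / 4 * n) :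
    L ≤ (θ - c1 / 2) * n := by
  have hD0 : 0 < D := by linarith
  have hP0 : 0 < P := by linarith
  have hw0 : 0 < w := by linarith
  -- jr ≤ κ m
  have h1 : jr ≤ D * jr := le_mul_of_one_le_left hjr hD
  have h2 : β / 8 * m ≤ tg := by
    have h3 : κ * m ≤ β / 8 * m := mul_le_mul_of_nonneg_right F7 hm
    linarith
  have h4 : tg ≤ w * D * (w * Ms) := F4.trans (mul_le_mul_of_nonneg_left F5 (by positivity))
  have h5 : β / 8 * m ≤ w ^ 2 * D * Ms := by
    refine (h2.trans h4).trans (le_of_eq (by ring))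
  -- multiply everything by 16 w² D
  have h6 : g * (β * m) * 2 ≤ 16 * w ^ 2 * D * (g * Ms) := by
    have := mul_le_mul_of_nonneg_left h5 (show (0 : ℝ) ≤ 16 * g by positivity)
    nlinarith
  have hA0 : 0 ≤ A := by rw [hA]; positivity
  have h7 : 16 * w ^ 2 * D * (A * jr) ≤ g * (β * m) := by
    have e1 : 16 * w ^ 2 * A * (D * jr) ≤ 16 * w ^ 2 * A * (κ * m) :=
      mul_le_mul_of_nonneg_left F6 (by positivity)
    have e2 : κ * (16 * w ^ 2 * A) * m ≤ g * β * m := mul_le_mul_of_nonneg_right F7' hm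
    linarith
  have h8 : 16 * w ^ 2 * D * (c1 * n) ≤ g * (β * m) := by
    have e0 : 0 ≤ c1 := by
      have h : 0 ≤ c1 * (16 * w ^ 2 * P) := by rw [hc1]; positivity
      exact nonneg_of_mul_nonneg_left h (by positivity)
    have e1 : 16 * w ^ 2 * D * (c1 * n) ≤ 16 * w ^ 2 * P * (c1 * n) := by
      refine mul_le_mul_of_nonneg_right ?_ (mul_nonneg e0 hn)
      exact mul_le_mul_of_nonneg_left F9 (by positivity)
    have e2 : 16 * w ^ 2 * P * (c1 * n) = g * β * (ρ * n) := by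
      linear_combination n * hc1
    have e3 : g * β * (ρ * n) ≤ g * β * m := mul_le_mul_of_nonneg_left F8 (by positivity)
    linarith
  -- combine
  have h9 : 16 * w ^ 2 * D * (c1 * n + A * jr) ≤ 16 * w ^ 2 * D * (g * Ms) := by
    rw [mul_add]
    linarith
  have h10 : c1 * n + A * jr ≤ g * Ms := le_of_mul_le_mul_left h9 (by positivity)
  have h11 : -(θ + ε) * jr ≤ (|θ| + 1) * jr := by
    refine mul_le_mul_of_nonneg_right ?_ hjr
    have := neg_abs_le θ
    linarith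
  have h12 : ε * n ≤ c1 / 4 * n := mul_le_mul_of_nonneg_right hεc hn
  rw [hA] at h10
  nlinarith

end Pool.Agent.H712.NI
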