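import Mathlib

/-! Compositions of words, and coverings of composition classes by permuted copies of a set. -/

open Finset

namespace Pool.Agent.H712.NI

section perm
variable {J A : Type} [Fintype J] [DecidableEq J] [DecidableEq A]

/-- functions with equal fibre sizes differ by a permutation -/
lemma exists_perm {Q : Type} [Fintype Q] [DecidableEq Q] (f : J → A) (g : Q → A)
    (h : ∀ a, (univ.filter fun j => f j = a).card = (univ.filter fun j => g j = a).card) :
    ∃ σ : Q ≃ J, ∀ j, f (σ j) = g j := by
  have h1 : ∀ a, Nonempty ({j // g j = a} ≃ {j // f j = a}) := by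
    intro a
    refine ⟨Fintype.equivOfCardEq ?_⟩
    rw [Fintype.card_subtype, Fintype.card_subtype, h]
  exact ⟨Equiv.ofFiberEquiv (fun a => (h1 a).some),
    fun j => Equiv.ofFiberEquiv_map (fun a => (h1 a).some) j⟩

end perm

variable {J Cl X : Type} [Fintype J] [DecidableEq J] [DecidableEq Cl] [DecidableEq X]

/-- composition of a word relative to a classification of the positions -/
def cmp (c : J → Cl) (x : J → X) (p : Cl × X) : ℕ := (univ.filter fun j => (c j, x j) = p).card

/-- permutations of the positions preserving the classes -/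
abbrev Gp (c : J → Cl) := {σ : Equiv.Perm J // ∀ j, c (σ j) = c j}

noncomputable instance (c : J → Cl) : Fintype (Gp c) := by
  classical exact Subtype.fintype _

lemma cmp_comp (c : J → Cl) (x : J → X) (g : Gp c) : cmp c (fun j => x (g.1 j)) = cmp c x := by
  funext p
  unfold cmp
  refine Finset.card_bij (fun j _ => g.1 j) ?_ ?_ ?_
  · intro j hj
    rw [Finset.mem_filter] at hj ⊢
    refine ⟨Finset.mem_univ _, ?_⟩
    rw [g.2]
    exact hj.2
  · intro j _ j' _ h
    exact g.1.injective h
  · intro j hj
    refine ⟨g.1.symm j, ?_, by simp⟩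
    rw [Finset.mem_filter] at hj ⊢
    refine ⟨Finset.mem_univ _, ?_⟩
    have := g.2 (g.1.symm j)
    rw [Equiv.apply_symm_apply] at this
    simp only [Equiv.apply_symm_apply]
    rw [← this, hj.2]

lemma cmp_trans (c : J → Cl) (x y : J → X) (h : cmp c x = cmp c y) :
    ∃ g : Gp c, (fun j => x (g.1 j)) = y := by
  obtain ⟨σ, hσ⟩ := exists_perm (fun j => (c j, x j)) (fun j => (c j, y j)) (fun a => congrFun h a)
  refine ⟨⟨σ, fun j => (Prod.mk.inj (hσ j)).1⟩, ?_⟩
  funext j
  exact (Prod.mk.inj (hσ j)).2

/-- multiplication in the group -/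
def Gp.mul {c : J → Cl} (g h : Gp c) : Gp c :=
  ⟨h.1.trans g.1, fun j => by
    rw [Equiv.trans_apply, g.2, h.2]⟩

def Gp.inv {c : J → Cl} (g : Gp c) : Gp c :=
  ⟨g.1.symm, fun j => by
    have := g.2 (g.1.symm j)
    rw [Equiv.apply_symm_apply] at this
    exact this.symm⟩

/-- right translation -/
def Gp.right {c : J → Cl} (h : Gp c) : Gp c ≃ Gp c where
  toFun g := Gp.mul g h
  invFun g := Gp.mul g (Gp.inv h)
  left_inv g := by
    apply Subtype.ext
    ext j
    simp [Gp.mul, Gp.inv]
  right_inv g := by
    apply Subtype.ext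
    ext j
    simp [Gp.mul, Gp.inv]

/-- image of a set of words under a permutation -/
def mv {c : J → Cl} (V : Finset (J → X)) (g : Gp c) : Finset (J → X) :=
  V.image fun v => fun j => v (g.1 j)

lemma mv_inj {c : J → Cl} (g : Gp c) :
    Function.Injective (fun v : J → X => fun j => v (g.1 j)) := by
  intro v v' h
  funext j
  have := congrFun h (g.1.symm j)
  simpa using this

lemma mem_mv_mul {c : J → Cl} (V : Finset (J → X)) (g h : Gp c) (y : J → X) :
    (fun j => y (h.1 j)) ∈ mv V (Gp.mul g h) ↔ y ∈ mv V g := by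
  unfold mv
  simp only [Finset.mem_image]
  constructor
  · rintro ⟨v, hv, hvy⟩
    refine ⟨v, hv, ?_⟩
    apply mv_inj h
    funext j
    have := congrFun hvy j
    simpa [Gp.mul] using this
  · rintro ⟨v, hv, hvy⟩
    refine ⟨v, hv, ?_⟩
    funext j
    rw [← hvy]
    simp [Gp.mul]

/-- **Covering of a composition class.** -/
theorem cover [Fintype X] [Fintype Cl] (c : J → Cl) (b : Cl × X → ℕ) (V : Finset (J → X))
    (hV : ∀ v ∈ V, cmp c v = b) (y : J → X) (hy : cmp c y = b) :
    (univ.filter fun g : Gp c => y ∈ mv V g).card *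
      (univ.filter fun y : J → X => cmp c y = b).card = Fintype.card (Gp c) * V.card := by
  classical
  set N : (J → X) → ℕ := fun y => (univ.filter fun g : Gp c => y ∈ mv V g).card with hN
  have h1 : ∀ (y : J → X) (h : Gp c), N (fun j => y (h.1 j)) = N y := by
    intro y h
    simp only [hN]
    symm
    refine Finset.card_bij (fun g _ => Gp.mul g h) ?_ ?_ ?_
    · intro g hg
      rw [Finset.mem_filter] at hg ⊢
      exact ⟨Finset.mem_univ _, (mem_mv_mul V g h y).mpr hg.2⟩
    · intro g _ g' _ hgg
      exact (Gp.right h).injective hgg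
    · intro g hg
      refine ⟨(Gp.right h).symm g, ?_, (Gp.right h).apply_symm_apply g⟩
      rw [Finset.mem_filter] at hg ⊢
      refine ⟨Finset.mem_univ _, ?_⟩
      rw [← mem_mv_mul V _ h y]
      have : Gp.mul ((Gp.right h).symm g) h = g := (Gp.right h).apply_symm_apply g
      rw [this]
      exact hg.2
  have h2 : ∀ y' ∈ (univ.filter fun y : J → X => cmp c y = b), N y' = N y := by
    intro y' hy'
    rw [Finset.mem_filter] at hy'
    obtain ⟨g, hg⟩ := cmp_trans c y y' (hy.trans hy'.2.symm)
    rw [← hg]
    exact h1 y g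
  have h3 : ∑ y' ∈ (univ.filter fun y : J → X => cmp c y = b), N y' =
      Fintype.card (Gp c) * V.card := by
    simp only [hN, Finset.card_filter]
    rw [Finset.sum_comm]
    have h4 : ∀ g : Gp c, ∑ y' ∈ (univ.filter fun y : J → X => cmp c y = b),
        (if y' ∈ mv V g then 1 else 0) = V.card := by
      intro g
      rw [← Finset.card_filter]
      have h5 : (univ.filter fun y : J → X => cmp c y = b).filter (fun y' => y' ∈ mv V g) =
          mv V g := by
        ext y'
        simp only [Finset.mem_filter, Finset.mem_univ, true_and]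
        constructor
        · exact fun h => h.2
        · intro h
          refine ⟨?_, h⟩
          unfold mv at h
          rw [Finset.mem_image] at h
          obtain ⟨v, hv, rfl⟩ := h
          rw [cmp_comp, hV v hv]
      rw [h5]
      exact Finset.card_image_of_injective _ (mv_inj g)
    simp only [h4]
    rw [Finset.sum_const, Finset.card_univ, smul_eq_mul]
  rw [← h3, Finset.sum_congr rfl h2, Finset.sum_const, smul_eq_mul, mul_comm]

/-- class sizes from compositions -/
lemma cmp_class [Fintype X] (c : J → Cl) (x : J → X) (κ : Cl) :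
    ∑ z, cmp c x (κ, z) = (univ.filter fun j => c j = κ).card := by
  classical
  unfold cmp
  rw [Finset.card_eq_sum_card_fiberwise (f := x) (t := univ) (fun _ _ => Finset.mem_univ _)]
  refine Finset.sum_congr rfl fun z _ => ?_
  congr 1
  ext j
  simp [Prod.ext_iff]

/-- composition of a word on a disjoint union -/
lemma cmp_sum {Q : Type} [Fintype Q] [DecidableEq Q] (c : J → Cl) (d : Q → Cl) (x : J → X)
    (y : Q → X) (p : Cl × X) :
    cmp (Sum.elim c d) (Sum.elim x y) p = cmp c x p + cmp d y p := by
  classical
  unfold cmp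
  rw [Finset.card_filter, Finset.card_filter, Finset.card_filter, Fintype.sum_sum_type]
  rfl

/-- the padding positions -/
abbrev Pad (m : Cl × X → ℕ) := Σ p : Cl × X, Fin (m p)

/-- existence of a padding word of given composition -/
lemma exists_pad [Fintype X] [Fintype Cl] (m0 m : Cl × X → ℕ)
    (h : ∀ κ, ∑ z, m (κ, z) = ∑ z, m0 (κ, z)) :
    ∃ y : Pad m0 → X, cmp (fun q : Pad m0 => q.1.1) y = m := by
  classical
  have hcard : ∀ (m : Cl × X → ℕ) (κ : Cl), (univ.filter fun q : Pad m => q.1.1 = κ).card =
      ∑ z, m (κ, z) := by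
    intro m κ
    rw [Finset.card_eq_sum_card_fiberwise (f := fun q : Pad m => q.1.2) (t := univ)
      (fun _ _ => Finset.mem_univ _)]
    refine Finset.sum_congr rfl fun z _ => ?_
    have : ((univ.filter fun q : Pad m => q.1.1 = κ).filter fun q => q.1.2 = z) =
        (univ : Finset (Fin (m (κ, z)))).map ⟨fun i => (⟨(κ, z), i⟩ : Pad m), fun i j hij => by
          simpa using hij⟩ := by
      ext ⟨⟨κ', z'⟩, i⟩
      simp only [Finset.mem_filter, Finset.mem_univ, true_and, Finset.mem_map,
        Function.Embedding.coeFn_mk]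
      constructor
      · rintro ⟨h1, h2⟩
        subst h1; subst h2
        exact ⟨i, rfl⟩
      · rintro ⟨i', hi'⟩
        rw [Sigma.mk.injEq] at hi'
        obtain ⟨h1, h2⟩ := hi'
        rw [Prod.mk.injEq] at h1
        exact ⟨h1.1.symm, h1.2.symm⟩
    rw [this, Finset.card_map, Finset.card_univ, Fintype.card_fin]
  obtain ⟨e, he⟩ := exists_perm (fun q : Pad m => q.1.1) (fun q : Pad m0 => q.1.1)
    (fun κ => by rw [hcard, hcard, h])
  refine ⟨fun q => (e q).1.2, ?_⟩
  funext p
  unfold cmp
  have h1 : (univ.filter fun q : Pad m0 => (q.1.1, (e q).1.2) = p) =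
      (univ.filter fun q : Pad m => q.1 = p).map e.symm.toEmbedding := by
    ext q
    simp only [Finset.mem_filter, Finset.mem_univ, true_and, Finset.mem_map,
      Equiv.coe_toEmbedding]
    constructor
    · intro hq
      refine ⟨e q, ?_, by simp⟩
      rw [← hq, ← he q]
    · rintro ⟨q', hq', rfl⟩
      rw [← he, Equiv.apply_symm_apply, ← hq']
  rw [h1, Finset.card_map]
  have h2 : (univ.filter fun q : Pad m => q.1 = p) =
      (univ : Finset (Fin (m p))).map ⟨fun i => (⟨p, i⟩ : Pad m), fun i j hij => by
          simpa using hij⟩ := by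
    ext ⟨p', i⟩
    simp only [Finset.mem_filter, Finset.mem_univ, true_and, Finset.mem_map,
      Function.Embedding.coeFn_mk]
    constructor
    · intro h1
      subst h1
      exact ⟨i, rfl⟩
    · rintro ⟨i', hi'⟩
      rw [Sigma.mk.injEq] at hi'
      exact hi'.1.symm
  rw [h2, Finset.card_map, Finset.card_univ, Fintype.card_fin]

end Pool.Agent.H712.NI
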