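import Pool.Agent.H712.NI.TypeBound

/-! From sets of one composition to arbitrary sets of words. -/

open Finset Filter

namespace Pool.Agent.H712.NI

open Pool.Agent.H390R2.LP

lemma ent_le_log {T : Type} (s : Finset T) (q : T → ℝ) (h0 : ∀ t ∈ s, 0 < q t)
    (h1 : ∑ t ∈ s, q t = 1) : ∑ t ∈ s, Real.negMulLog (q t) ≤ Real.log s.card := by
  classical
  have hne : s.Nonempty := by
    by_contra h
    rw [Finset.not_nonempty_iff_eq_empty] at h
    rw [h] at h1
    simp at h1
  have hc : (0 : ℝ) < s.card := by exact_mod_cast Finset.card_pos.mpr hne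
  -- `-log q ≤ log N + (1 / (N q) - 1)`
  have h2 : ∀ t ∈ s, Real.negMulLog (q t) ≤ q t * Real.log s.card + (1 / s.card - q t) := by
    intro t ht
    have hq := h0 t ht
    have h3 : Real.log (1 / (s.card * q t)) ≤ 1 / (s.card * q t) - 1 :=
      Real.log_le_sub_one_of_pos (by positivity)
    have h4 : Real.log (1 / (s.card * q t)) = -Real.log s.card - Real.log (q t) := by
      rw [one_div, Real.log_inv, Real.log_mul hc.ne' hq.ne']; ring
    rw [h4] at h3
    have h5 := mul_le_mul_of_nonneg_left h3 hq.le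
    have h6 : q t * (1 / (s.card * q t) - 1) = 1 / s.card - q t := by field_simp
    rw [h6] at h5
    unfold Real.negMulLog
    linarith
  calc ∑ t ∈ s, Real.negMulLog (q t) ≤ ∑ t ∈ s, (q t * Real.log s.card + (1 / s.card - q t)) :=
        Finset.sum_le_sum h2
    _ = Real.log s.card := by
        rw [Finset.sum_add_distrib, ← Finset.sum_mul, h1, Finset.sum_sub_distrib, h1,
          Finset.sum_const, nsmul_eq_mul]
        field_simp
        ring

variable {Ω X I Cl : Type} [Fintype Ω] [DecidableEq Ω] [Fintype X] [DecidableEq X]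
    [Fintype I] [Fintype Cl] [DecidableEq Cl]

/-- bound with a fixed classification of the positions -/
theorem class_bound (f : I → X → ℝ) (Em : ℝ) (hEm : 0 ≤ Em) (F : (X → ℝ) → ℝ)
    (hFc : Continuous F) (hF : ∀ (t : ℝ) (m : X → ℝ), 0 ≤ t → F (fun x => t * m x) = t * F m)
    (hlaw : ∀ P : X → ℝ, (∀ x, 0 ≤ P x) → ∑ x, P x = 1 → ∃ s : Site Ω X, (∀ x, s.P x = P x) ∧
      s.E f ≤ Em ∧ ∑ x, Real.negMulLog (P x) - (s.h - s.S) ≤ F P)
    (hconc : ∀ M : ℝ, ConcaveOn ℝ {m : X → ℝ | (∀ z, 0 ≤ m z) ∧ ∑ z, m z = M} F)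
    (ε : ℝ) (hε : 0 < ε) : ∃ n0 : ℕ, ∀ n, n0 ≤ n → ∀ (c : Fin n → Cl)
    (S : Finset (Fin n → X)), S.Nonempty → ∀ d : ℝ, n * (Em + ε) ≤ d →
    (∀ x ∈ S, ∀ y ∈ S, x ≠ y → d ≤ ∑ k, ∑ i, (f i (x k) - f i (y k)) ^ 2) →
    Real.log S.card ≤ ∑ κ, F (fun z => (∑ x ∈ S, (cmp c x (κ, z) : ℝ)) / S.card) + n * ε := by
  classical
  obtain ⟨n1, hn1⟩ := type_bound (Cl := Cl) f Em hEm F hFc hF hlaw (ε / 2) (by positivity)
  obtain ⟨n2, hn2⟩ := eventually_atTop.mp
    (eventually_log_le 1 1 (Fintype.card (Cl × X)) (ε / 2) (by norm_num) (by positivity))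
  refine ⟨max n1 n2, fun n hn c S hS d hd hdist => ?_⟩
  have hk := hn1 n (le_trans (le_max_left _ _) hn)
  have hl := hn2 n (le_trans (le_max_right _ _) hn)
  rw [one_mul] at hl
  have hSR : (0 : ℝ) < S.card := by exact_mod_cast Finset.card_pos.mpr hS
  have hnR : (0 : ℝ) ≤ n := Nat.cast_nonneg n
  set T : Finset (Cl × X → ℕ) := S.image (fun x => cmp c x) with hT
  set Sa : (Cl × X → ℕ) → Finset (Fin n → X) := fun a => S.filter fun x => cmp c x = a with hSa
  have hSane : ∀ a ∈ T, (Sa a).Nonempty := by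
    intro a ha
    rw [hT, Finset.mem_image] at ha
    obtain ⟨x, hx, he⟩ := ha
    exact ⟨x, Finset.mem_filter.mpr ⟨hx, he⟩⟩
  have hSaR : ∀ a ∈ T, (0 : ℝ) < (Sa a).card := fun a ha => by
    exact_mod_cast Finset.card_pos.mpr (hSane a ha)
  set q : (Cl × X → ℕ) → ℝ := fun a => ((Sa a).card : ℝ) / S.card with hq
  have hq0 : ∀ a ∈ T, 0 < q a := fun a ha => div_pos (hSaR a ha) hSR
  have hcardS : ∑ a ∈ T, ((Sa a).card : ℝ) = S.card := by
    have := Finset.card_eq_sum_card_image (fun x => cmp c x) S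
    exact_mod_cast this.symm
  have hq1 : ∑ a ∈ T, q a = 1 := by
    simp only [hq]
    rw [← Finset.sum_div, hcardS, div_self hSR.ne']
  have hbound : ∀ a ∈ T, Real.log (Sa a).card ≤
      ∑ κ, F (fun z => (a (κ, z) : ℝ)) + n * (ε / 2) := by
    intro a ha
    refine hk c (Sa a) a (hSane a ha) (fun x hx => (Finset.mem_filter.mp hx).2) d ?_ ?_
    · refine le_trans (mul_le_mul_of_nonneg_left (by linarith) hnR) hd
    · intro x hx y hy
      exact hdist x (Finset.mem_filter.mp hx).1 y (Finset.mem_filter.mp hy).1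
  have hsplit : Real.log S.card = ∑ a ∈ T, q a * Real.log (Sa a).card +
      ∑ a ∈ T, Real.negMulLog (q a) := by
    rw [← Finset.sum_add_distrib]
    have : ∀ a ∈ T, q a * Real.log (Sa a).card + Real.negMulLog (q a) =
        q a * Real.log S.card := by
      intro a ha
      unfold Real.negMulLog
      have h1 : Real.log (q a) = Real.log (Sa a).card - Real.log S.card :=
        Real.log_div (hSaR a ha).ne' hSR.ne'
      rw [h1]; ring
    rw [Finset.sum_congr rfl this, ← Finset.sum_mul, hq1, one_mul]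
  have hent : ∑ a ∈ T, Real.negMulLog (q a) ≤ n * (ε / 2) := by
    refine (ent_le_log T q hq0 hq1).trans ?_
    have hTc : (T.card : ℝ) ≤ ((n : ℝ) + 1) ^ (Fintype.card (Cl × X)) := by
      have h1 : T ⊆ Fintype.piFinset (fun _ : Cl × X => Finset.range (n + 1)) := by
        intro b hb
        rw [Fintype.mem_piFinset]
        intro p
        rw [hT, Finset.mem_image] at hb
        obtain ⟨y, hy, rfl⟩ := hb
        rw [Finset.mem_range]
        have := cmp_le c y p
        rw [Fintype.card_fin] at this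
        omega
      have h2 := Finset.card_le_card h1
      rw [Fintype.card_piFinset] at h2
      simp only [Finset.card_range, Finset.prod_const, Finset.card_univ] at h2
      exact_mod_cast h2
    have hTpos : (0 : ℝ) < T.card := by
      exact_mod_cast Finset.card_pos.mpr (hS.image _)
    have h3 := Real.log_le_log hTpos hTc
    rw [Real.log_pow] at h3
    linarith
  -- Jensen
  have hJ : ∀ κ, ∑ a ∈ T, q a * F (fun z => (a (κ, z) : ℝ)) ≤
      F (fun z => (∑ x ∈ S, (cmp c x (κ, z) : ℝ)) / S.card) := by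
    intro κ
    have h1 := (hconc (((univ.filter fun j => c j = κ).card : ℕ) : ℝ)).le_map_sum (t := T)
      (w := q) (p := fun a => fun z => (a (κ, z) : ℝ)) (fun a ha => (hq0 a ha).le) hq1 (by
        intro a ha
        rw [hT, Finset.mem_image] at ha
        obtain ⟨x, hx, rfl⟩ := ha
        refine ⟨fun z => Nat.cast_nonneg _, ?_⟩
        rw [← cmp_class c x κ]
        push_cast
        rfl)
    simp only [smul_eq_mul] at h1
    refine h1.trans (le_of_eq ?_)
    congr 1
    funext z
    rw [Finset.sum_apply]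
    simp only [Pi.smul_apply, smul_eq_mul]
    rw [← Finset.sum_fiberwise_of_maps_to (s := S) (t := T) (g := fun x => cmp c x)
      (fun x hx => Finset.mem_image_of_mem _ hx) (fun x => (cmp c x (κ, z) : ℝ)),
      Finset.sum_div]
    refine Finset.sum_congr rfl fun a _ => ?_
    have h2 : ∑ x ∈ S.filter (fun x => cmp c x = a), (cmp c x (κ, z) : ℝ) =
        (Sa a).card * (a (κ, z) : ℝ) := by
      have h3 : ∑ x ∈ S.filter (fun x => cmp c x = a), (cmp c x (κ, z) : ℝ) =
          ∑ _x ∈ S.filter (fun x => cmp c x = a), (a (κ, z) : ℝ) :=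
        Finset.sum_congr rfl fun x hx => by rw [(Finset.mem_filter.mp hx).2]
      rw [h3, Finset.sum_const, nsmul_eq_mul]
    rw [h2]
    simp only [hq]
    ring
  have hmain : ∑ a ∈ T, q a * Real.log (Sa a).card ≤
      ∑ κ, F (fun z => (∑ x ∈ S, (cmp c x (κ, z) : ℝ)) / S.card) + n * (ε / 2) := by
    calc ∑ a ∈ T, q a * Real.log (Sa a).card
        ≤ ∑ a ∈ T, q a * (∑ κ, F (fun z => (a (κ, z) : ℝ)) + n * (ε / 2)) :=
          Finset.sum_le_sum fun a ha => mul_le_mul_of_nonneg_left (hbound a ha) (hq0 a ha).le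
      _ = ∑ κ, ∑ a ∈ T, q a * F (fun z => (a (κ, z) : ℝ)) + n * (ε / 2) := by
          simp only [mul_add]
          rw [Finset.sum_add_distrib, ← Finset.sum_mul, hq1, one_mul, Finset.sum_comm]
          congr 1
          refine Finset.sum_congr rfl fun a _ => ?_
          rw [Finset.mul_sum]
      _ ≤ _ := by
          have := Finset.sum_le_sum fun κ (_ : κ ∈ (univ : Finset Cl)) => hJ κ
          linarith
  rw [hsplit]
  linarith

/-- the law of the letter at position `j` of a random word of `S` -/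
noncomputable def plaw {n : ℕ} (S : Finset (Fin n → X)) (j : Fin n) (z : X) : ℝ :=
  ((S.filter fun x => x j = z).card : ℝ) / S.card

lemma plaw_nonneg {n : ℕ} (S : Finset (Fin n → X)) (j : Fin n) (z : X) : 0 ≤ plaw S j z :=
  div_nonneg (Nat.cast_nonneg _) (Nat.cast_nonneg _)

lemma plaw_le_one {n : ℕ} (S : Finset (Fin n → X)) (j : Fin n) (z : X) : plaw S j z ≤ 1 := by
  unfold plaw
  refine div_le_one_of_le₀ ?_ (Nat.cast_nonneg _)
  exact_mod_cast Finset.card_filter_le _ _

lemma avg_cmp {n : ℕ} (c : Fin n → Cl) (S : Finset (Fin n → X)) (κ : Cl) (z : X) :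
    (∑ x ∈ S, (cmp c x (κ, z) : ℝ)) / S.card =
      ∑ j ∈ univ.filter (fun j => c j = κ), plaw S j z := by
  unfold plaw
  rw [← Finset.sum_div]
  congr 1
  have h1 : ∀ x : Fin n → X, (cmp c x (κ, z) : ℝ) =
      ∑ j ∈ univ.filter (fun j => c j = κ), if x j = z then (1 : ℝ) else 0 := by
    intro x
    unfold cmp
    rw [Finset.card_filter, Finset.sum_filter]
    push_cast
    refine Finset.sum_congr rfl fun j _ => ?_
    by_cases h : c j = κ
    · by_cases h' : x j = z
      · rw [if_pos (by rw [h, h']), if_pos h, if_pos h']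
      · rw [if_neg (fun e => h' (Prod.mk.inj e).2), if_pos h, if_neg h']
    · rw [if_neg (fun e => h (Prod.mk.inj e).1), if_neg h]
  simp only [h1]
  rw [Finset.sum_comm]
  refine Finset.sum_congr rfl fun j _ => ?_
  rw [Finset.card_filter]
  push_cast
  rfl

/-- **Bound by the laws of the letters.** -/
theorem word_bound (f : I → X → ℝ) (Em : ℝ) (hEm : 0 ≤ Em) (F : (X → ℝ) → ℝ)
    (hFc : Continuous F) (hF : ∀ (t : ℝ) (m : X → ℝ), 0 ≤ t → F (fun x => t * m x) = t * F m)
    (hlaw : ∀ P : X → ℝ, (∀ x, 0 ≤ P x) → ∑ x, P x = 1 → ∃ s : Site Ω X, (∀ x, s.P x = P x) ∧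
      s.E f ≤ Em ∧ ∑ x, Real.negMulLog (P x) - (s.h - s.S) ≤ F P)
    (hconc : ∀ M : ℝ, ConcaveOn ℝ {m : X → ℝ | (∀ z, 0 ≤ m z) ∧ ∑ z, m z = M} F)
    (ε : ℝ) (hε : 0 < ε) : ∃ n0 : ℕ, ∀ n, n0 ≤ n →
    ∀ (S : Finset (Fin n → X)), S.Nonempty → ∀ d : ℝ, n * (Em + ε) ≤ d →
    (∀ x ∈ S, ∀ y ∈ S, x ≠ y → d ≤ ∑ k, ∑ i, (f i (x k) - f i (y k)) ^ 2) →
    Real.log S.card ≤ ∑ j, F (plaw S j) + n * ε := by
  classical
  -- uniform continuity
  have hcomp : IsCompact (Set.pi Set.univ (fun _ : X => Set.Icc (0 : ℝ) 1)) :=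
    isCompact_univ_pi fun _ => isCompact_Icc
  obtain ⟨δF, hδF, hunif⟩ := Metric.uniformContinuousOn_iff.mp
    (hcomp.uniformContinuousOn_of_continuous hFc.continuousOn) (ε / 2) (by positivity)
  obtain ⟨K1, hK1, hK2⟩ : ∃ K1 : ℕ, 0 < K1 ∧ 1 / (K1 : ℝ) < δF := by
    obtain ⟨K, hK⟩ := exists_nat_gt (1 / δF)
    have hK0 : (0 : ℝ) < K := lt_trans (by positivity) hK
    refine ⟨K, by exact_mod_cast hK0, ?_⟩
    rw [div_lt_iff₀ hδF] at hK
    rw [div_lt_iff₀ hK0]
    linarith
  have hK1R : (0 : ℝ) < K1 := by exact_mod_cast hK1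
  obtain ⟨n0, hn0⟩ := class_bound (Cl := X → Fin (K1 + 1)) f Em hEm F hFc hF hlaw hconc
    (ε / 2) (by positivity)
  refine ⟨n0, fun n hn S hS d hd hdist => ?_⟩
  have hnR : (0 : ℝ) ≤ n := Nat.cast_nonneg n
  set c : Fin n → (X → Fin (K1 + 1)) := fun j z => ⟨⌊K1 * plaw S j z⌋₊, by
    have h1 : ⌊K1 * plaw S j z⌋₊ ≤ K1 := by
      refine Nat.floor_le_of_le ?_
      have := mul_le_mul_of_nonneg_left (plaw_le_one S j z) hK1R.le
      linarith
    omega⟩ with hc
  have h1 := hn0 n hn c S hS d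
    (le_trans (mul_le_mul_of_nonneg_left (by linarith) hnR) hd) hdist
  refine h1.trans ?_
  have h2 : ∀ κ, F (fun z => (∑ x ∈ S, (cmp c x (κ, z) : ℝ)) / S.card) ≤
      ∑ j ∈ univ.filter (fun j => c j = κ), (F (plaw S j) + ε / 2) := by
    intro κ
    simp only [avg_cmp]
    set J := univ.filter (fun j => c j = κ) with hJ
    rcases J.eq_empty_or_nonempty with he | hne
    · rw [he]
      simp only [Finset.sum_empty]
      have := hF 0 (fun _ => 0) le_rfl
      simp only [mul_zero, zero_mul] at this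
      rw [this]
    · have hN : (0 : ℝ) < J.card := by exact_mod_cast Finset.card_pos.mpr hne
      have h3 : F (fun z => ∑ j ∈ J, plaw S j z) =
          J.card * F (fun z => (∑ j ∈ J, plaw S j z) / J.card) := by
        rw [← hF _ _ hN.le]
        congr 1
        funext z
        field_simp
      rw [h3, ← nsmul_eq_mul, ← Finset.sum_const]
      refine Finset.sum_le_sum fun j hj => ?_
      have hjj : ∀ i ∈ J, ∀ z, |plaw S i z - plaw S j z| ≤ 1 / K1 := by
        intro i hi z
        have e1 : c i z = c j z := by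
          rw [(Finset.mem_filter.mp hi).2, (Finset.mem_filter.mp hj).2]
        have e2 : ⌊K1 * plaw S i z⌋₊ = ⌊K1 * plaw S j z⌋₊ := by
          have := congrArg Fin.val e1
          simpa only [hc] using this
        have a1 := Nat.floor_le (mul_nonneg hK1R.le (plaw_nonneg S i z))
        have a2 := Nat.lt_floor_add_one (K1 * plaw S i z)
        have a3 := Nat.floor_le (mul_nonneg hK1R.le (plaw_nonneg S j z))
        have a4 := Nat.lt_floor_add_one (K1 * plaw S j z)
        rw [e2] at a1 a2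
        rw [abs_le]
        constructor
        · rw [neg_le_sub_iff_le_add, ← mul_le_mul_iff_right₀ hK1R]
          rw [mul_add, mul_one_div_cancel hK1R.ne']
          linarith
        · rw [sub_le_iff_le_add, ← mul_le_mul_iff_right₀ hK1R]
          rw [mul_add, mul_one_div_cancel hK1R.ne']
          linarith
      have m1 : plaw S j ∈ Set.pi Set.univ (fun _ : X => Set.Icc (0 : ℝ) 1) := by
        rw [Set.mem_univ_pi]
        exact fun z => ⟨plaw_nonneg S j z, plaw_le_one S j z⟩
      have m2 : (fun z => (∑ i ∈ J, plaw S i z) / J.card) ∈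
          Set.pi Set.univ (fun _ : X => Set.Icc (0 : ℝ) 1) := by
        rw [Set.mem_univ_pi]
        intro z
        constructor
        · exact div_nonneg (Finset.sum_nonneg fun i _ => plaw_nonneg S i z) hN.le
        · rw [div_le_one hN]
          calc ∑ i ∈ J, plaw S i z ≤ ∑ _i ∈ J, (1 : ℝ) :=
                Finset.sum_le_sum fun i _ => plaw_le_one S i z
            _ = J.card := by simp
      have hdd : dist (fun z => (∑ i ∈ J, plaw S i z) / J.card) (plaw S j) < δF := by
        rw [dist_pi_lt_iff hδF]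
        intro z
        rw [Real.dist_eq]
        have e3 : (∑ i ∈ J, plaw S i z) / J.card - plaw S j z =
            (∑ i ∈ J, (plaw S i z - plaw S j z)) / J.card := by
          rw [Finset.sum_sub_distrib, Finset.sum_const, nsmul_eq_mul]
          field_simp
        rw [e3, abs_div, abs_of_pos hN, div_lt_iff₀ hN]
        calc |∑ i ∈ J, (plaw S i z - plaw S j z)| ≤ ∑ i ∈ J, |plaw S i z - plaw S j z| :=
              Finset.abs_sum_le_sum_abs _ _
          _ ≤ ∑ _i ∈ J, (1 / K1 : ℝ) := Finset.sum_le_sum fun i hi => hjj i hi z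
          _ = J.card * (1 / K1) := by rw [Finset.sum_const, nsmul_eq_mul]
          _ < δF * J.card := by nlinarith
      have h6 := hunif _ m2 _ m1 hdd
      rw [Real.dist_eq] at h6
      have h7 := (abs_lt.mp h6).2
      linarith
  calc ∑ κ, F (fun z => (∑ x ∈ S, (cmp c x (κ, z) : ℝ)) / S.card) + n * (ε / 2)
      ≤ ∑ κ, ∑ j ∈ univ.filter (fun j => c j = κ), (F (plaw S j) + ε / 2) + n * (ε / 2) := by
        have := Finset.sum_le_sum fun κ (_ : κ ∈ (univ : Finset (X → Fin (K1 + 1)))) => h2 κ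
        linarith
    _ = ∑ j, (F (plaw S j) + ε / 2) + n * (ε / 2) := by
        rw [Finset.sum_fiberwise]
    _ = ∑ j, F (plaw S j) + n * ε := by
        rw [Finset.sum_add_distrib, Finset.sum_const, Finset.card_univ, Fintype.card_fin,
          nsmul_eq_mul]
        ring

end Pool.Agent.H712.NI
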