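import Pool.Agent.H712.NI.Noise
import Pool.Agent.H712.NI.WordBound
import Pool.Graph.R_seed8.TH753.FF4

/-! Binary codes as words over blocks. -/

open Finset

namespace Pool.Agent.H712.NI

open Pool.Agent.H390R2.LP Pool.Agent.H235R2.QLP Pool.Agent.TH753.MB Pool.Agent.TH753.FF

/-- disjoint blocks extend to a partition into blocks -/
lemma exists_partition {n w m : ℕ} (b : Fin m → Fin w → Fin n)
    (hb : Function.Injective (fun p : Fin m × Fin w => b p.1 p.2)) (N : ℕ) (hN : n ≤ N * w)
    (hm : m ≤ N) : ∃ G : Fin N × Fin w ≃ Fin (N * w),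
      ∀ (j : Fin m) (i : Fin w), G (Fin.castLE hm j, i) = Fin.castLE hN (b j i) := by
  classical
  set s : Finset (Fin N × Fin w) := univ.image fun p : Fin m × Fin w => (Fin.castLE hm p.1, p.2)
    with hs
  by_cases hne : Nonempty (Fin N × Fin w)
  swap
  · have hcard : Fintype.card (Fin N × Fin w) = Fintype.card (Fin (N * w)) := by simp
    refine ⟨Fintype.equivOfCardEq hcard, fun j i => ?_⟩
    exact absurd ⟨(Fin.castLE hm j, i)⟩ hne
  set f : Fin N × Fin w → Fin (N * w) := fun p =>
    if h : (p.1 : ℕ) < m then Fin.castLE hN (b ⟨p.1, h⟩ p.2) else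
      (finProdFinEquiv p) with hf
  have hf1 : ∀ (j : Fin m) (i : Fin w), f (Fin.castLE hm j, i) = Fin.castLE hN (b j i) := by
    intro j i
    simp only [hf]
    rw [dif_pos (by simp)]
    rfl
  obtain ⟨g, hg⟩ := Finset.exists_equiv_extend_of_card_eq (t := (univ : Finset (Fin (N * w))))
    (s := s) (f := f) (by simp) (Finset.subset_univ _) (by
      intro p hp q hq hpq
      simp only [hs, Finset.coe_image, Finset.coe_univ, Set.image_univ, Set.mem_range] at hp hq
      obtain ⟨p', rfl⟩ := hp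
      obtain ⟨q', rfl⟩ := hq
      rw [hf1, hf1] at hpq
      have h1 : b p'.1 p'.2 = b q'.1 q'.2 := Fin.castLE_injective hN hpq
      rw [hb h1])
  refine ⟨g.trans (Equiv.subtypeUnivEquiv fun x => Finset.mem_univ x), fun j i => ?_⟩
  rw [← hf1]
  exact hg _ (by rw [hs]; exact Finset.mem_image_of_mem _ (Finset.mem_univ (j, i)))

/-- the word of blocks of a word of bits -/
def wd {n N w : ℕ} (G : Fin N × Fin w ≃ Fin (N * w)) (x : Fin n → Bool) (k : Fin N) (i : Fin w) :
    Fin 2 := rb x (G (k, i))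

lemma sg_dist (a b : Fin 2) : (Pool.Agent.TH753.MB.sg a / 2 - Pool.Agent.TH753.MB.sg b / 2) ^ 2 =
    if a ≠ b then 1 else 0 := by
  rcases fin2_cases a with rfl | rfl <;> rcases fin2_cases b with rfl | rfl <;>
    simp [Pool.Agent.TH753.MB.sg] <;> norm_num

lemma wd_dist {n N w : ℕ} (G : Fin N × Fin w ≃ Fin (N * w)) (hN : n ≤ N * w)
    (x y : Fin n → Bool) : ∑ k, ∑ i, (Pool.Agent.TH753.MB.sg (wd G x k i) / 2 -
      Pool.Agent.TH753.MB.sg (wd G y k i) / 2) ^ 2 = (hammingDist x y : ℝ) := by
  simp only [sg_dist]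
  rw [← Fintype.sum_prod_type' (f := fun k i => if wd G x k i ≠ wd G y k i then (1 : ℝ) else 0)]
  have h1 : ∑ p : Fin N × Fin w, (if wd G x p.1 p.2 ≠ wd G y p.1 p.2 then (1 : ℝ) else 0) =
      ∑ j ∈ range (N * w), if rb x j ≠ rb y j then (1 : ℝ) else 0 := by
    rw [Finset.sum_range, ← Equiv.sum_comp G]
    rfl
  rw [h1, hammingDist, Finset.card_filter]
  push_cast
  have h2 : ∑ j ∈ range (N * w), (if rb x j ≠ rb y j then (1 : ℝ) else 0)
      = ∑ j ∈ range n, if rb x j ≠ rb y j then (1 : ℝ) else 0 := by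
    refine (Finset.sum_subset (Finset.range_mono hN) fun j _ hj => ?_).symm
    rw [Finset.mem_range, not_lt] at hj
    have hx : rb x j = 0 := by unfold rb; rw [dif_neg (by omega)]
    have hy : rb y j = 0 := by unfold rb; rw [dif_neg (by omega)]
    simp [hx, hy]
  rw [h2, Finset.sum_range]
  refine Finset.sum_congr rfl fun j _ => ?_
  have hx : rb x j = if x j then 1 else 0 := by unfold rb; rw [dif_pos j.2]
  have hy : rb y j = if y j then 1 else 0 := by unfold rb; rw [dif_pos j.2]
  rw [hx, hy]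
  cases x j <;> cases y j <;> simp

lemma wd_inj {n N w : ℕ} (G : Fin N × Fin w ≃ Fin (N * w)) (hN : n ≤ N * w) :
    Function.Injective (wd (n := n) G) := by
  intro x y h
  have h1 := wd_dist G hN x y
  rw [h] at h1
  simp only [sub_self, ne_eq, OfNat.ofNat_ne_zero, not_false_eq_true, zero_pow,
    Finset.sum_const_zero] at h1
  exact hammingDist_eq_zero.mp (by exact_mod_cast h1.symm)

/-- the probability that a random word of `C` reads `y` on the positions `b 0, …, b (w - 1)` -/
noncomputable def blaw {n w : ℕ} (C : Finset (Fin n → Bool)) (b : Fin w → Fin n)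
    (y : Fin w → Bool) : ℝ :=
  ((C.filter fun x => ∀ i, x (b i) = y i).card : ℝ) / C.card

/-- the law after each bit has been flipped independently with probability `δ` -/
noncomputable def noisy {w : ℕ} (δ : ℝ) (P : (Fin w → Bool) → ℝ) (z : Fin w → Bool) : ℝ :=
  ∑ y, P y * ∏ i, if z i = y i then 1 - δ else δ

/-- bits -/
def bt : Bool ≃ Fin 2 := finTwoEquiv.symm

lemma bt_eq (a : Bool) : bt a = if a then 1 else 0 := by cases a <;> rfl

/-- words of bits -/
def bts (w : ℕ) : (Fin w → Bool) ≃ (Fin w → Fin 2) := Equiv.arrowCongr (Equiv.refl _) bt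

lemma bts_apply {w : ℕ} (y : Fin w → Bool) (i : Fin w) : bts w y i = bt (y i) := rfl

lemma plaw_law {n N w m : ℕ} (C : Finset (Fin n → Bool)) (b : Fin m → Fin w → Fin n)
    (G : Fin N × Fin w ≃ Fin (N * w)) (hN : n ≤ N * w) (hm : m ≤ N)
    (hG : ∀ (j : Fin m) (i : Fin w), G (Fin.castLE hm j, i) = Fin.castLE hN (b j i))
    (j : Fin m) (y : Fin w → Bool) :
    plaw (C.image (wd G)) (Fin.castLE hm j) (bts w y) = blaw C (b j) y := by
  classical
  unfold plaw blaw
  rw [Finset.card_image_of_injective _ (wd_inj G hN), Finset.filter_image,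
    Finset.card_image_of_injective _ (wd_inj G hN)]
  congr 3
  ext x
  simp only [Finset.mem_filter]
  refine and_congr_right fun _ => ?_
  have h1 : ∀ i, wd G x (Fin.castLE hm j) i = bt (x (b j i)) := by
    intro i
    unfold wd
    rw [hG, bt_eq]
    unfold rb
    rw [dif_pos (by simp)]
    rfl
  constructor
  · intro h i
    have h2 := congrFun h i
    rw [h1, bts_apply] at h2
    exact bt.injective h2
  · intro h
    funext i
    rw [h1, bts_apply, h i]

lemma noisy_eq {w : ℕ} (δ : ℝ) (P : (Fin w → Fin 2) → ℝ) (z : Fin w → Bool) :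
    noisy δ (fun y => P (bts w y)) z = Nz δ P (bts w z) := by
  unfold noisy Nz
  rw [← Equiv.sum_comp (bts w)]
  refine Finset.sum_congr rfl fun y _ => ?_
  congr 1
  refine Finset.prod_congr rfl fun i _ => ?_
  rw [bts_apply, bts_apply]
  by_cases h : z i = y i
  · rw [if_pos h, if_pos (by rw [h])]
  · rw [if_neg h, if_neg (fun h' => h (bt.injective h'))]

end Pool.Agent.H712.NI
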