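import Pool.Agent.H712.NI.GFour

/-! Applications: predictable coordinates, syndromes, low-density parity-check codes. -/

open Finset Filter

namespace Pool.Agent.H712.NI.GT

open Pool.Agent.H712.NI
open Pool.Agent.H712.NI.Th (η H Curve η_eq curve_pair)

lemma bias_le_one {n : ℕ} (C : Finset (Fin n → ZMod 2)) (hC : C.Nonempty) (y : Fin n → ZMod 2) :
    bias C y ≤ 1 := by
  have hCc : (0 : ℝ) < C.card := by exact_mod_cast Finset.card_pos.mpr hC
  unfold bias
  rw [div_le_one hCc]
  refine (Finset.abs_sum_le_sum_abs _ _).trans ?_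
  calc ∑ x ∈ C, |if ∑ i, y i * x i = 0 then (1 : ℝ) else -1| = ∑ x ∈ C, (1 : ℝ) := by
        refine Finset.sum_congr rfl fun x _ => ?_
        split_ifs <;> simp
    _ = C.card := by rw [Finset.sum_const, nsmul_eq_mul, mul_one]
    _ ≤ _ := le_rfl

/-- words of bounded weight with a large coefficient -/
theorem span_explicit {δ θ : ℝ} (h0 : 0 < δ) (h1 : δ < 1 / 2) (hθ : (δ, θ) ∈ Curve) {ε : ℝ}
    (hε : 0 < ε) : ∃ n0 : ℕ, ∀ n ≥ n0, ∀ C : Finset (Fin n → ZMod 2), C.Nonempty →
      (∀ x ∈ C, ∀ y ∈ C, x ≠ y → δ * n ≤ hammingDist x y) →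
      ∀ (w : ℕ) (β : ℝ), 0 ≤ β →
      Real.logb 2 C.card ≤ (θ + ε) * n - Module.finrank (ZMod 2) (Submodule.span (ZMod 2)
        {y : Fin n → ZMod 2 | hammingNorm y ≤ w ∧ β ≤ bias C y}) * gain ((1 - 2 * δ) ^ w * β) := by
  classical
  obtain ⟨n0, hn0⟩ := fourier h0 h1 hθ hε
  refine ⟨n0, fun n hn C hC hdist w β hβ => ?_⟩
  set S : Set (Fin n → ZMod 2) := {y | hammingNorm y ≤ w ∧ β ≤ bias C y} with hS
  obtain ⟨b, hbS, hbspan, hbli⟩ := exists_linearIndependent (ZMod 2) S
  have hcard : Module.finrank (ZMod 2) (Submodule.span (ZMod 2) S) = b.toFinset.card := by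
    rw [← hbspan]
    exact finrank_span_set_eq_card hbli
  set r := b.toFinset.card with hr
  have ec : Fintype.card b = r := by rw [hr, Set.toFinset_card]
  set eq : Fin r ≃ b := (Fintype.equivFinOfCardEq ec).symm with heq
  have key := hn0 n hn C hC hdist r (fun j => (eq j : Fin n → ZMod 2)) (hbli.comp eq eq.injective)
  refine key.trans ?_
  rw [hcard]
  have h2 : (r : ℝ) * gain ((1 - 2 * δ) ^ w * β) ≤
      ∑ j, gain ((1 - 2 * δ) ^ hammingNorm (eq j : Fin n → ZMod 2) * bias C (eq j)) := by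
    calc (r : ℝ) * gain ((1 - 2 * δ) ^ w * β) = ∑ _j : Fin r, gain ((1 - 2 * δ) ^ w * β) := by
          rw [Finset.sum_const, Finset.card_univ, Fintype.card_fin, nsmul_eq_mul]
      _ ≤ _ := by
          refine Finset.sum_le_sum fun j _ => ?_
          obtain ⟨a1, a2⟩ : hammingNorm (eq j : Fin n → ZMod 2) ≤ w ∧ β ≤ bias C (eq j) :=
            hbS (eq j).2
          have hd0 : 0 ≤ 1 - 2 * δ := by linarith
          have hd1 : 1 - 2 * δ ≤ 1 := by linarith
          have a3 : (1 - 2 * δ) ^ w ≤ (1 - 2 * δ) ^ hammingNorm (eq j : Fin n → ZMod 2) :=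
            pow_le_pow_of_le_one hd0 hd1 a1
          have a4 := bias_le_one C hC (eq j)
          have a5 : (1 - 2 * δ) ^ hammingNorm (eq j : Fin n → ZMod 2) ≤ 1 := pow_le_one₀ hd0 hd1
          refine gain_mono (mul_nonneg (pow_nonneg hd0 _) hβ)
            (mul_le_mul a3 a2 hβ (pow_nonneg hd0 _)) ?_
          exact mul_le_one₀ a5 (hβ.trans a2) a4
  linarith

/-- **Codes with predictable coordinates, explicitly.** -/
theorem predict_explicit {δ θ : ℝ} (h0 : 0 < δ) (h1 : δ < 1 / 2) (hθ : (δ, θ) ∈ Curve) {ε : ℝ}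
    (hε : 0 < ε) : ∃ n0 : ℕ, ∀ n ≥ n0, ∀ C : Finset (Fin n → Bool), C.Nonempty →
      (∀ x ∈ C, ∀ y ∈ C, x ≠ y → δ * n ≤ hammingDist x y) →
      ∀ (r : ℕ) (γ : ℝ), 0 < γ → ∀ I : Finset (Fin n),
      (∀ i ∈ I, ∃ R : Finset (Fin n), i ∉ R ∧ R.card ≤ r ∧ ∃ f : (R → Bool) → Bool,
        (1 / 2 + γ) * C.card ≤ (C.filter fun x => f (fun k => x k) = x i).card) →
      Real.logb 2 C.card ≤ (θ + ε) * n -
        I.card / (r + 1) * gain ((1 - 2 * δ) ^ (r + 1) * (2 * γ / 2 ^ r)) := by
  classical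
  obtain ⟨n0, hn0⟩ := span_explicit h0 h1 hθ hε
  refine ⟨n0, fun n hn C hne hdist r γ hγ I hpred => ?_⟩
  have hr1 : (0 : ℝ) < (r : ℝ) + 1 := by positivity
  have hCc : (0 : ℝ) < C.card := by exact_mod_cast Finset.card_pos.mpr hne
  set C2 : Finset (Fin n → ZMod 2) := C.map z2.toEmbedding with hC2
  have hcard : C2.card = C.card := Finset.card_map _
  have hC2ne : C2.Nonempty := by rw [← Finset.card_pos, hcard]; exact Finset.card_pos.mpr hne
  have h2 := hn0 n hn C2 hC2ne (by
    intro x hx y hy hxy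
    rw [hC2, Finset.mem_map] at hx hy
    obtain ⟨x', hx', rfl⟩ := hx
    obtain ⟨y', hy', rfl⟩ := hy
    have h3 : hammingDist (z2.toEmbedding x') (z2.toEmbedding y') = hammingDist x' y' :=
      hammingDist_comp (fun _ => zb.symm) (fun _ => zb.symm.injective)
    rw [h3]
    exact hdist x' hx' y' hy' (fun h => hxy (by rw [h]))) (r + 1) (2 * γ / 2 ^ r) (by positivity)
  set Y : Set (Fin n → ZMod 2) := {y | hammingNorm y ≤ r + 1 ∧ 2 * γ / 2 ^ r ≤ bias C2 y}
    with hY
  have hcov : ∀ i ∈ I, ∃ y ∈ Y, y i ≠ 0 := by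
    intro i hi
    obtain ⟨R, hiR, hRr, f, hf⟩ := hpred i hi
    obtain ⟨S, hSR, hS⟩ := exists_biased_parity C hne i R f hγ hf
    have hiS : i ∉ S := fun h => hiR (hSR h)
    set y : Fin n → ZMod 2 := fun k => if k ∈ insert i S then 1 else 0 with hy
    have hysup : (univ.filter fun k => y k ≠ 0) = insert i S := by
      ext k
      simp only [hy, Finset.mem_filter, Finset.mem_univ, true_and]
      split_ifs with h <;> simp [h]
    refine ⟨y, ⟨?_, ?_⟩, ?_⟩
    · unfold hammingNorm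
      rw [hysup, Finset.card_insert_of_notMem hiS]
      have := Finset.card_le_card hSR
      omega
    · unfold bias
      rw [hcard, le_div_iff₀ hCc]
      have h4 : ∀ x : Fin n → Bool, (if ∑ k, y k * z2 x k = 0 then (1 : ℝ) else -1) =
          sgb (x i) * ∏ k ∈ S, sgb (x k) := by
        intro x
        have h5 : (if ∑ k, y k * z2 x k = 0 then (1 : ℝ) else -1) = sz (∑ k, y k * z2 x k) := rfl
        rw [h5, sz_sum]
        have h6 : ∀ k, sz (y k * z2 x k) = if k ∈ insert i S then sgb (x k) else 1 := by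
          intro k
          rw [sz_mul_cases, sz_z2]
          simp only [hy]
          split_ifs <;> simp_all
        simp only [h6]
        rw [← Finset.prod_filter, Finset.filter_mem_eq_inter, Finset.univ_inter,
          Finset.prod_insert hiS]
      have h5 : ∑ x ∈ C2, (if ∑ k, y k * x k = 0 then (1 : ℝ) else -1) =
          ∑ x ∈ C, sgb (x i) * ∏ k ∈ S, sgb (x k) := by
        rw [hC2, Finset.sum_map]
        exact Finset.sum_congr rfl fun x _ => h4 x
      rw [h5]
      refine le_trans ?_ hS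
      refine mul_le_mul_of_nonneg_right ?_ hCc.le
      refine div_le_div_of_nonneg_left (by positivity) (by positivity) ?_
      exact pow_le_pow_right₀ (by norm_num) hRr
    · simp [hy]
  have h3 : I.card ≤ (r + 1) * Module.finrank (ZMod 2) (Submodule.span (ZMod 2) Y) :=
    card_cover Y (fun y hy => hy.1) I hcov
  have h4 : (I.card : ℝ) / (r + 1) ≤ Module.finrank (ZMod 2) (Submodule.span (ZMod 2) Y) := by
    rw [div_le_iff₀ hr1]
    have : (I.card : ℝ) ≤ (r + 1) * Module.finrank (ZMod 2) (Submodule.span (ZMod 2) Y) := by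
      exact_mod_cast h3
    linarith
  rw [hcard] at h2
  refine h2.trans ?_
  rcases I.eq_empty_or_nonempty with he | ⟨i, hi⟩
  · -- nothing to predict
    have hg : 0 ≤ Module.finrank (ZMod 2) (Submodule.span (ZMod 2) Y) *
        gain ((1 - 2 * δ) ^ (r + 1) * (2 * γ / 2 ^ r)) := by
      by_cases hYe : Y = ∅
      · rw [hYe, Submodule.span_empty, finrank_bot]; simp
      · obtain ⟨y, hy⟩ := Set.nonempty_iff_ne_empty.mpr hYe
        refine mul_nonneg (Nat.cast_nonneg _) ?_
        refine (gain_pos ?_).le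
        have : 0 < 1 - 2 * δ := by linarith
        positivity
    rw [he, Finset.card_empty, Nat.cast_zero, zero_div, zero_mul, sub_zero]
    linarith
  · have hg : 0 ≤ gain ((1 - 2 * δ) ^ (r + 1) * (2 * γ / 2 ^ r)) := by
      refine (gain_pos ?_).le
      have : 0 < 1 - 2 * δ := by linarith
      positivity
    have := mul_le_mul_of_nonneg_right h4 hg
    linarith

/-- the law of the syndrome of the noise -/
noncomputable def synd {n r : ℕ} (δ : ℝ) (A : Fin r → Fin n → ZMod 2) (s : Fin r → ZMod 2) : ℝ :=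
  ∑ z ∈ univ.filter (fun z => sp A z = s), W δ 0 z

/-- **Syndromes.** -/
theorem syndrome {δ θ : ℝ} (h0 : 0 < δ) (h1 : δ < 1 / 2) (hθ : (δ, θ) ∈ Curve) {ε : ℝ}
    (hε : 0 < ε) : ∃ n0 : ℕ, ∀ n ≥ n0, ∀ (r : ℕ) (A : Fin r → Fin n → ZMod 2),
      (∀ x : Fin n → ZMod 2, x ≠ 0 → sp A x = 0 → δ * n ≤ hammingNorm x) →
      (1 - θ - ε) * n ≤ Ent (synd δ A) := by
  obtain ⟨n0, hn0⟩ := entropy h0 h1 hθ hε
  refine ⟨n0, fun n hn r A hA => ?_⟩
  have hlog : 0 < Real.log 2 := Real.log_pos (by norm_num)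
  set C : Finset (Fin n → ZMod 2) := univ.filter (fun x => sp A x = 0) with hCdef
  have hsp0 : sp A 0 = 0 := by funext j; simp [sp]
  have hspadd : ∀ x y, sp A (x + y) = sp A x + sp A y := by
    intro x y; funext j; simp [sp, mul_add, Finset.sum_add_distrib]
  have hspsub : ∀ x y, sp A (x - y) = sp A x - sp A y := by
    intro x y; funext j; simp [sp, mul_sub, Finset.sum_sub_distrib]
  have hC : C.Nonempty := ⟨0, by rw [hCdef, Finset.mem_filter]; exact ⟨Finset.mem_univ _, hsp0⟩⟩
  have hCc : (0 : ℝ) < C.card := by exact_mod_cast Finset.card_pos.mpr hC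
  have hdist : ∀ x ∈ C, ∀ y ∈ C, x ≠ y → δ * n ≤ hammingDist x y := by
    intro x hx y hy hxy
    rw [hCdef, Finset.mem_filter] at hx hy
    have e1 : hammingDist x y = hammingNorm (x - y) := by
      unfold hammingDist hammingNorm
      congr 1
      ext i
      simp only [Finset.mem_filter, Finset.mem_univ, true_and, Pi.sub_apply, ne_eq, sub_eq_zero]
    rw [e1]
    refine hA _ (sub_ne_zero.mpr hxy) ?_
    rw [hspsub, hx.2, hy.2, sub_zero]
  have key := hn0 n hn C hdist (ul C) (ul_nonneg C) (ul_sum C hC) (fun x hx => by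
    unfold ul; rw [if_neg hx])
  rw [ent_ul C hC] at key
  have hQ : ∀ z, 0 ≤ noisy δ (ul C) z := fun z =>
    (Nz_pos (n := n) h0 (by linarith) (ul_nonneg C) (ul_sum C hC) z).le
  have hQ1 : ∑ z, noisy δ (ul C) z = 1 := by
    have := Nz_sum (w := n) δ (ul C)
    rw [← ul_sum C hC]
    exact this
  have h2 := ent_le_image (sp A) (noisy δ (ul C)) hQ hQ1 hCc (fun s => by
    exact_mod_cast sp_fiber A s)
  have h3 : ∀ s, ∑ z ∈ univ.filter (fun z => sp A z = s), noisy δ (ul C) z = synd δ A s := by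
    intro s
    unfold noisy synd
    rw [Finset.sum_comm]
    have h4 : ∀ x, ∑ z ∈ univ.filter (fun z => sp A z = s), ul C x * W δ x z =
        ul C x * ∑ z ∈ univ.filter (fun z => sp A z = s), W δ 0 z := by
      intro x
      rw [← Finset.mul_sum]
      by_cases hx : x ∈ C
      · congr 1
        have hx' : sp A x = 0 := (Finset.mem_filter.mp hx).2
        rw [Finset.sum_filter, Finset.sum_filter, ← Equiv.sum_comp (Equiv.addRight x)
          (fun z => if sp A z = s then W δ x z else 0)]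
        refine Finset.sum_congr rfl fun z _ => ?_
        simp only [Equiv.coe_addRight]
        rw [hspadd, hx', add_zero]
        by_cases hz : sp A z = s
        · rw [if_pos hz, if_pos hz]
          unfold W
          refine Finset.prod_congr rfl fun i _ => ?_
          have : (z + x) i = x i ↔ z i = (0 : Fin n → ZMod 2) i := by
            simp
          simp only [this]
        · rw [if_neg hz, if_neg hz]
      · unfold ul; rw [if_neg hx]; simp
    simp only [h4]
    rw [← Finset.sum_mul, ul_sum C hC, one_mul]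
  simp only [h3] at h2
  have h5 : Ent (noisy δ (ul C)) ≤ Ent (synd δ A) + Real.logb 2 C.card := by
    rw [Ent_eq, Ent_eq]
    unfold Real.logb
    rw [← add_div]
    exact div_le_div_of_nonneg_right h2 hlog.le
  linarith

lemma gain_H (c : ℝ) : gain c = 1 - H ((1 - c) / 2) := by
  unfold gain H
  rw [η_eq, η_eq, ← add_div, Real.binEntropy_eq_negMulLog_add_negMulLog_one_sub]
  have e1 : 1 - (1 + c) / 2 = (1 - c) / 2 := by ring
  have e2 : 1 - (1 - c) / 2 = (1 + c) / 2 := by ring
  rw [e1, e2, add_comm]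

lemma W_zero_sum {n : ℕ} (δ : ℝ) : ∑ z : Fin n → ZMod 2, W δ 0 z = 1 := Wc_sum (w := n) δ 0

/-- **Parity checks and their weights.** -/
theorem checks {δ θ : ℝ} (h0 : 0 < δ) (h1 : δ < 1 / 2) (hθ : (δ, θ) ∈ Curve) {ε : ℝ}
    (hε : 0 < ε) : ∃ n0 : ℕ, ∀ n ≥ n0, ∀ (r : ℕ) (A : Fin r → Fin n → ZMod 2),
      (∀ x : Fin n → ZMod 2, x ≠ 0 → sp A x = 0 → δ * n ≤ hammingNorm x) →
      (1 - θ - ε) * n ≤ ∑ j, H ((1 - (1 - 2 * δ) ^ hammingNorm (A j)) / 2) := by
  obtain ⟨n0, hn0⟩ := syndrome h0 h1 hθ hε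
  refine ⟨n0, fun n hn r A hA => (hn0 n hn r A hA).trans ?_⟩
  have hlog : 0 < Real.log 2 := Real.log_pos (by norm_num)
  have h2 := sp_ent A (W δ 0) (fun z => (Wc_pos (n := n) h0 (by linarith) z 0).le) (W_zero_sum δ)
  rw [Ent_eq, div_le_iff₀ hlog]
  refine h2.trans (le_of_eq ?_)
  rw [Finset.sum_mul]
  refine Finset.sum_congr rfl fun j _ => ?_
  have h3 : dsg (A j) 0 = 1 := by unfold dsg; simp
  rw [noise_dsg, h3, mul_one, gain_H]
  ring

lemma H_mono {a b : ℝ} (h0 : 0 ≤ a) (h : a ≤ b) (h1 : b ≤ 1 / 2) : H a ≤ H b := by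
  have e1 := gain_H (1 - 2 * a)
  have e2 := gain_H (1 - 2 * b)
  have e3 : (1 - (1 - 2 * a)) / 2 = a := by ring
  have e4 : (1 - (1 - 2 * b)) / 2 = b := by ring
  rw [e3] at e1
  rw [e4] at e2
  have := gain_mono (b := 1 - 2 * b) (b' := 1 - 2 * a) (by linarith) (by linarith) (by linarith)
  linarith

/-- **Low-density parity-check codes.** -/
theorem ldpc_explicit {δ θ : ℝ} (h0 : 0 < δ) (h1 : δ < 1 / 2) (hθ : (δ, θ) ∈ Curve) {ε : ℝ}
    (hε : 0 < ε) : ∃ n0 : ℕ, ∀ n ≥ n0, ∀ (w : ℕ) (Y : Set (Fin n → ZMod 2)),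
      (∀ y ∈ Y, hammingNorm y ≤ w) → ∀ C : Submodule (ZMod 2) (Fin n → ZMod 2),
      (∀ x, x ∈ C ↔ ∀ y ∈ Y, ∑ i, y i * x i = 0) → (∀ x ∈ C, x ≠ 0 → δ * n ≤ hammingNorm x) →
      (1 - θ - ε) * n ≤
        (n - Module.finrank (ZMod 2) C) * H ((1 - (1 - 2 * δ) ^ w) / 2) := by
  classical
  obtain ⟨n0, hn0⟩ := checks h0 h1 hθ hε
  refine ⟨n0, fun n hn w Y hY C hCY hdist => ?_⟩
  obtain ⟨b, hbS, hbspan, hbli⟩ := exists_linearIndependent (ZMod 2) Y
  set r := b.toFinset.card with hr
  have ec : Fintype.card b = r := by rw [hr, Set.toFinset_card]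
  set eq : Fin r ≃ b := (Fintype.equivFinOfCardEq ec).symm with heq
  set A : Fin r → Fin n → ZMod 2 := fun j => (eq j : Fin n → ZMod 2) with hA
  have hAli : LinearIndependent (ZMod 2) A := hbli.comp eq eq.injective
  have hker : ∀ x, sp A x = 0 ↔ x ∈ C := by
    intro x
    rw [hCY]
    constructor
    · intro h y hy
      have hy' : y ∈ Submodule.span (ZMod 2) b := by
        rw [hbspan]
        exact Submodule.subset_span hy
      refine Submodule.span_induction (p := fun y _ => ∑ i, y i * x i = 0) ?_ ?_ ?_ ?_ hy'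
      · intro u hu
        have h2 := congrFun h (eq.symm ⟨u, hu⟩)
        simp only [sp, hA, Equiv.apply_symm_apply] at h2
        exact h2
      · simp
      · intro u v _ _ h2 h3
        simp only [Pi.add_apply, add_mul, Finset.sum_add_distrib, h2, h3, add_zero]
      · intro c u _ h2
        simp only [Pi.smul_apply, smul_eq_mul, mul_assoc, ← Finset.mul_sum, h2, mul_zero]
    · intro h
      funext j
      exact h _ (hbS (eq j).2)
  have key := hn0 n hn r A (fun x hx h2 => hdist x ((hker x).mp h2) hx)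
  -- the dimension
  have hdim : (Module.finrank (ZMod 2) C : ℝ) = n - r := by
    have e1 := ker_card A hAli
    have e2 : Nat.card C = 2 ^ Module.finrank (ZMod 2) C := by
      have := Module.natCard_eq_pow_finrank (K := ZMod 2) (V := C)
      simpa using this
    have e3 : (univ.filter fun z => sp A z = 0).card = Nat.card C := by
      have e0 : (univ.filter fun z => sp A z = 0).card = Nat.card {z // sp A z = 0} := by
        rw [Nat.card_eq_fintype_card, Fintype.card_subtype]
      rw [e0]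
      exact Nat.card_congr (Equiv.subtypeEquivRight fun z => hker z)
    rw [e3, e2] at e1
    push_cast at e1
    rw [← Real.rpow_natCast] at e1
    have := Real.logb_rpow (b := 2) (x := (Module.finrank (ZMod 2) C : ℝ)) (by norm_num)
      (by norm_num)
    rw [e1, Real.logb_rpow (by norm_num) (by norm_num)] at this
    exact this.symm
  refine key.trans ?_
  have hrr : (n : ℝ) - Module.finrank (ZMod 2) C = r := by rw [hdim]; ring
  rw [hrr]
  calc ∑ j, H ((1 - (1 - 2 * δ) ^ hammingNorm (A j)) / 2)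
      ≤ ∑ _j : Fin r, H ((1 - (1 - 2 * δ) ^ w) / 2) := by
        refine Finset.sum_le_sum fun j _ => ?_
        have hd0 : 0 ≤ 1 - 2 * δ := by linarith
        have hd1 : 1 - 2 * δ ≤ 1 := by linarith
        have a1 : hammingNorm (A j) ≤ w := hY _ (hbS (eq j).2)
        have a3 : (1 - 2 * δ) ^ w ≤ (1 - 2 * δ) ^ hammingNorm (A j) :=
          pow_le_pow_of_le_one hd0 hd1 a1
        have a5 : (1 - 2 * δ) ^ hammingNorm (A j) ≤ 1 := pow_le_one₀ hd0 hd1
        have a6 : 0 ≤ (1 - 2 * δ) ^ w := pow_nonneg hd0 _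
        exact H_mono (by linarith) (by linarith) (by linarith)
    _ = _ := by rw [Finset.sum_const, Finset.card_univ, Fintype.card_fin, nsmul_eq_mul]

end Pool.Agent.H712.NI.GT
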