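import Pool.Agent.H712.NI.GFun

/-! Entropy of noisy words of a code, and codes whose noisy words are in a set. -/

open Finset Filter

namespace Pool.Agent.H712.NI

open Pool.Agent.H390R2.LP Pool.Agent.H235R2.QLP Pool.Agent.TH753.MB

lemma Wc_pos {n : ℕ} {e : ℝ} (h0 : 0 < e) (h1 : e < 1) (z y : Fin n → Fin 2) :
    0 < Wc e z y := by
  unfold Wc
  refine Finset.prod_pos fun k _ => ?_
  split_ifs <;> linarith

lemma Wc_update {n : ℕ} {e : ℝ} (h0 : 0 < e) (h1 : e < 1 / 2) (z y : Fin n → Fin 2) (k : Fin n)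
    (b : Fin 2) : Wc e (Function.update z k b) y ≤ (1 - e) / e * Wc e z y := by
  unfold Wc
  rw [← Finset.mul_prod_erase univ _ (Finset.mem_univ k),
    ← Finset.mul_prod_erase univ (fun k => if z k = y k then 1 - e else e) (Finset.mem_univ k)]
  have h2 : ∏ l ∈ univ.erase k, (if Function.update z k b l = y l then 1 - e else e) =
      ∏ l ∈ univ.erase k, (if z l = y l then 1 - e else e) := by
    refine Finset.prod_congr rfl fun l hl => ?_
    rw [Function.update_of_ne (Finset.ne_of_mem_erase hl)]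
  rw [h2, ← mul_assoc]
  refine mul_le_mul_of_nonneg_right ?_ (Finset.prod_nonneg fun l _ => by split_ifs <;> linarith)
  have h3 : (if Function.update z k b k = y k then 1 - e else e) ≤ 1 - e := by
    split_ifs <;> linarith
  have h4 : e ≤ (if z k = y k then 1 - e else e) := by split_ifs <;> linarith
  refine h3.trans ?_
  rw [div_mul_eq_mul_div, le_div_iff₀ h0]
  exact mul_le_mul_of_nonneg_left h4 (by linarith)

lemma Nz_pos {n : ℕ} {e : ℝ} (h0 : 0 < e) (h1 : e < 1) {P : (Fin n → Fin 2) → ℝ}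
    (hP : ∀ x, 0 ≤ P x) (hP1 : ∑ x, P x = 1) (z : Fin n → Fin 2) : 0 < Nz e P z := by
  rw [Nz_eq]
  obtain ⟨x, hx⟩ : ∃ x, 0 < P x := by
    by_contra h
    push Not at h
    have : ∑ x, P x ≤ 0 := Finset.sum_nonpos fun x _ => h x
    linarith
  exact Finset.sum_pos' (fun y _ => mul_nonneg (hP y) (Wc_pos h0 h1 z y).le)
    ⟨x, Finset.mem_univ x, mul_pos hx (Wc_pos h0 h1 z x)⟩

lemma lip_log {n : ℕ} {e : ℝ} (h0 : 0 < e) (h1 : e < 1 / 2) {P : (Fin n → Fin 2) → ℝ}
    (hP : ∀ x, 0 ≤ P x) (hP1 : ∑ x, P x = 1) :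
    Lip (Real.log ((1 - e) / e)) (fun z => -Real.log (Nz e P z)) := by
  intro z k b
  have hK : 0 < (1 - e) / e := div_pos (by linarith) h0
  have h2 : ∀ (z : Fin n → Fin 2) (b : Fin 2),
      Nz e P (Function.update z k b) ≤ (1 - e) / e * Nz e P z := by
    intro z b
    rw [Nz_eq, Nz_eq, Finset.mul_sum]
    refine Finset.sum_le_sum fun y _ => ?_
    have := mul_le_mul_of_nonneg_left (Wc_update h0 h1 z y k b) (hP y)
    linarith
  have h3 := fun z => Nz_pos h0 (by linarith : e < 1) hP hP1 z
  have h4 : Nz e P z ≤ (1 - e) / e * Nz e P (Function.update z k b) := by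
    have := h2 (Function.update z k b) (z k)
    rwa [Function.update_idem, Function.update_eq_self] at this
  have h5 := Real.log_le_log (h3 _) (h2 z b)
  have h6 := Real.log_le_log (h3 _) h4
  rw [Real.log_mul hK.ne' (h3 _).ne'] at h5 h6
  rw [abs_le]
  constructor <;> linarith

/-- Gibbs' inequality -/
lemma gibbs {X : Type} [Fintype X] [DecidableEq X] (C : Finset X) (P : X → ℝ) (hP : ∀ x, 0 ≤ P x)
    (hP1 : ∑ x, P x = 1) (hC : ∀ x, x ∉ C → P x = 0) (ℓ : X → ℝ) {Z : ℝ} (hZ : 0 < Z)
    (h : ∑ x ∈ C, Real.exp (-ℓ x) ≤ Z) :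
    ∑ x, Real.negMulLog (P x) - ∑ x, P x * ℓ x ≤ Real.log Z := by
  have h1 : ∀ x, Real.negMulLog (P x) - P x * ℓ x - P x * Real.log Z ≤
      (if x ∈ C then Real.exp (-ℓ x) / Z else 0) - P x := by
    intro x
    by_cases hx : x ∈ C
    · rw [if_pos hx]
      rcases (hP x).eq_or_lt with h0 | h0
      · rw [← h0]
        simp only [Real.negMulLog_zero, zero_mul, sub_zero]
        positivity
      · have h2 := Real.log_le_sub_one_of_pos (show 0 < Real.exp (-ℓ x) / Z / P x by positivity)
        rw [Real.log_div (by positivity) h0.ne', Real.log_div (Real.exp_pos _).ne' hZ.ne',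
          Real.log_exp] at h2
        have h3 := mul_le_mul_of_nonneg_left h2 h0.le
        have h4 : P x * (Real.exp (-ℓ x) / Z / P x - 1) = Real.exp (-ℓ x) / Z - P x := by
          field_simp
        rw [h4] at h3
        unfold Real.negMulLog
        linarith
    · rw [if_neg hx, hC x hx]
      simp
  have h2 := Finset.sum_le_sum fun x (_ : x ∈ (univ : Finset X)) => h1 x
  simp only [Finset.sum_sub_distrib] at h2
  rw [← Finset.sum_mul, hP1, one_mul] at h2
  have h3 : ∑ x, (if x ∈ C then Real.exp (-ℓ x) / Z else 0) ≤ 1 := by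
    rw [← Finset.sum_filter]
    have : univ.filter (fun x => x ∈ C) = C := by ext; simp
    rw [this, ← Finset.sum_div, div_le_one hZ]
    exact h
  linarith

variable {ι : Type} [Fintype ι] [DecidableEq ι]

/-- **Entropy of the noisy words of a code.** -/
theorem ent_bound (d : Pair ι) {δ : ℝ} (hδ0 : 0 < δ) (he : EH d.site < δ)
    (hδ : δ < 1 / 2) {ε : ℝ} (hε : 0 < ε) : ∃ n0 : ℕ, ∀ n ≥ n0,
      ∀ C : Finset (Fin n → Fin 2),
      (∀ x ∈ C, ∀ y ∈ C, x ≠ y → δ * n ≤ ∑ k, (sg (x k) / 2 - sg (y k) / 2) ^ 2) →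
      ∀ P : (Fin n → Fin 2) → ℝ, (∀ x, 0 ≤ P x) → ∑ x, P x = 1 → (∀ x, x ∉ C → P x = 0) →
      ∑ x, Real.negMulLog (P x) + n * (cc d.site - ε) ≤
        ∑ z, Real.negMulLog (Nz δ P z) := by
  have hL : 0 ≤ Real.log ((1 - δ) / δ) := by
    refine Real.log_nonneg ?_
    rw [le_div_iff₀ hδ0]; linarith
  have he0 : 0 ≤ EH d.site := by
    have h := pair_m1 d 0 1
    rw [if_neg (by norm_num)] at h
    rw [← h]
    unfold m1
    refine mul_nonneg (by norm_num) (Finset.sum_nonneg fun o _ => Finset.sum_nonneg fun o' _ => ?_)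
    split_ifs
    · exact sq_nonneg _
    · exact le_rfl
  obtain ⟨n0, hn0⟩ := functional d he0 he hδ hL hε
  refine ⟨n0, fun n hn C hdist P hP hP1 hC => ?_⟩
  set F : (Fin n → Fin 2) → ℝ := fun z => -Real.log (Nz δ P z) with hF
  have key := hn0 n hn F (lip_log hδ0 hδ hP hP1) C hdist
  have hpos := fun z => Nz_pos hδ0 (by linarith : δ < 1) hP hP1 z
  have h1 : ∑ z, Real.exp (-F z) = 1 := by
    have : ∀ z, Real.exp (-F z) = Nz δ P z := fun z => by
      rw [hF]
      simp only [neg_neg]
      exact Real.exp_log (hpos z)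
    simp only [this]
    rw [Nz_sum, hP1]
  rw [h1, mul_one] at key
  have h2 := gibbs C P hP hP1 hC (nf δ F) (Real.exp_pos _) key
  rw [Real.log_exp] at h2
  have h3 : ∑ x, P x * nf δ F x = ∑ z, Real.negMulLog (Nz δ P z) := by
    unfold nf
    simp only [Finset.mul_sum]
    rw [Finset.sum_comm]
    refine Finset.sum_congr rfl fun z _ => ?_
    have : ∀ x, P x * (Wc δ z x * F z) = (P x * Wc δ z x) * F z := fun x => by ring
    simp only [this]
    rw [← Finset.sum_mul, ← Nz_eq, hF]
    unfold Real.negMulLog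
    ring
  linarith

/-- Hamming distance of a word to a set -/
noncomputable def ds {n : ℕ} (T : Finset (Fin n → Fin 2)) (hT : T.Nonempty)
    (z : Fin n → Fin 2) : ℕ := T.inf' hT fun t => hammingDist z t

lemma ds_update {n : ℕ} (T : Finset (Fin n → Fin 2)) (hT : T.Nonempty) (z : Fin n → Fin 2)
    (k : Fin n) (b : Fin 2) : ds T hT (Function.update z k b) ≤ ds T hT z + 1 := by
  obtain ⟨t, ht, h1⟩ := Finset.exists_mem_eq_inf' hT fun t => hammingDist z t
  unfold ds
  rw [h1]
  refine (Finset.inf'_le _ ht).trans ?_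
  have h2 : hammingDist (Function.update z k b) z ≤ 1 := by
    unfold hammingDist
    calc _ ≤ ({k} : Finset (Fin n)).card := by
          refine Finset.card_le_card fun i hi => ?_
          rw [Finset.mem_filter] at hi
          rw [Finset.mem_singleton]
          by_contra h
          exact hi.2 (Function.update_of_ne h _ _)
      _ = 1 := Finset.card_singleton k
  have := hammingDist_triangle (Function.update z k b) z t
  omega

lemma ds_lip {n : ℕ} (T : Finset (Fin n → Fin 2)) (hT : T.Nonempty) {lam : ℝ} (hl : 0 ≤ lam) :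
    Lip lam (fun z => lam * ds T hT z) := by
  intro z k b
  have h1 := ds_update T hT z k b
  have h2 := ds_update T hT (Function.update z k b) k (z k)
  rw [Function.update_idem, Function.update_eq_self] at h2
  rw [← mul_sub, abs_mul, abs_of_nonneg hl]
  have h3 : |(ds T hT (Function.update z k b) : ℝ) - ds T hT z| ≤ 1 := by
    rw [abs_le]
    have h1' : (ds T hT (Function.update z k b) : ℝ) ≤ ds T hT z + 1 := by exact_mod_cast h1
    have h2' : (ds T hT z : ℝ) ≤ ds T hT (Function.update z k b) + 1 := by exact_mod_cast h2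
    constructor <;> linarith
  calc lam * |(ds T hT (Function.update z k b) : ℝ) - ds T hT z| ≤ lam * 1 :=
        mul_le_mul_of_nonneg_left h3 hl
    _ = lam := mul_one _

/-- sum of the exponentials of the distances to one word -/
lemma sum_exp_dist {n : ℕ} (lam : ℝ) (t : Fin n → Fin 2) :
    ∑ z, Real.exp (-(lam * hammingDist z t)) = (1 + Real.exp (-lam)) ^ n := by
  have h1 : ∀ z : Fin n → Fin 2, Real.exp (-(lam * hammingDist z t)) =
      ∏ k, (if z k = t k then 1 else Real.exp (-lam)) := by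
    intro z
    rw [Finset.prod_ite, Finset.prod_const_one, one_mul, Finset.prod_const, ← Real.exp_nat_mul]
    congr 1
    unfold hammingDist
    ring
  simp only [h1]
  have h2 := Fintype.prod_sum (fun (k : Fin n) (c : Fin 2) =>
    if c = t k then (1 : ℝ) else Real.exp (-lam))
  rw [← h2]
  have h3 : ∀ k, ∑ c : Fin 2, (if c = t k then (1 : ℝ) else Real.exp (-lam)) =
      1 + Real.exp (-lam) := by
    intro k
    rw [Fin.sum_univ_two]
    rcases fin2_cases (t k) with h | h <;> simp [h]
    ring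
  simp only [h3, Finset.prod_const, Finset.card_univ, Fintype.card_fin]

lemma sum_exp_ds {n : ℕ} (T : Finset (Fin n → Fin 2)) (hT : T.Nonempty) (lam : ℝ) :
    ∑ z, Real.exp (-(lam * ds T hT z)) ≤ T.card * (1 + Real.exp (-lam)) ^ n := by
  calc ∑ z, Real.exp (-(lam * ds T hT z)) ≤ ∑ z, ∑ t ∈ T, Real.exp (-(lam * hammingDist z t)) := by
        refine Finset.sum_le_sum fun z _ => ?_
        obtain ⟨t, ht, h1⟩ := Finset.exists_mem_eq_inf' hT fun t => hammingDist z t
        unfold ds
        rw [h1]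
        exact Finset.single_le_sum (f := fun t => Real.exp (-(lam * hammingDist z t)))
          (fun t _ => (Real.exp_pos _).le) ht
    _ = ∑ t ∈ T, (1 + Real.exp (-lam)) ^ n := by
        rw [Finset.sum_comm]
        exact Finset.sum_congr rfl fun t _ => sum_exp_dist lam t
    _ = _ := by rw [Finset.sum_const, nsmul_eq_mul]

/-- mean distance to a set which is hit with positive probability -/
lemma mean_ds {n : ℕ} (T : Finset (Fin n → Fin 2)) (hT : T.Nonempty) {e p : ℝ} (h0 : 0 ≤ e)
    (h1 : e ≤ 1) (hp : 0 < p) (x : Fin n → Fin 2) (hx : p ≤ ∑ z ∈ T, Wc e z x) :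
    nf e (fun z => (ds T hT z : ℝ)) x ≤ √(n / p) := by
  set F : (Fin n → Fin 2) → ℝ := fun z => (ds T hT z : ℝ) with hF
  set m := nf e F x with hm
  have hlip : ∀ z k b, |F (Function.update z k b) - F z| ≤ 1 := by
    have := ds_lip T hT (lam := 1) (by norm_num)
    intro z k b
    have h2 := this z k b
    simpa [hF] using h2
  have hvar := var_le (fun k b => if b = x k then 1 - e else e)
    (fun k b => by split_ifs <;> linarith) (fun k => flip_sum e (x k)) F 1 hlip
  have hm' : ex (fun k b => if b = x k then 1 - e else e) F = m := rfl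
  rw [hm'] at hvar
  have h2 : p * m ^ 2 ≤ ex (fun k b => if b = x k then 1 - e else e) (fun z => (F z - m) ^ 2) := by
    calc p * m ^ 2 ≤ (∑ z ∈ T, Wc e z x) * m ^ 2 :=
          mul_le_mul_of_nonneg_right hx (sq_nonneg m)
      _ = ∑ z ∈ T, Wc e z x * (F z - m) ^ 2 := by
          rw [Finset.sum_mul]
          refine Finset.sum_congr rfl fun z hz => ?_
          have : F z = 0 := by
            simp only [hF]
            have h3 : ds T hT z ≤ 0 := by
              unfold ds
              have := Finset.inf'_le (f := fun t => hammingDist z t) hz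
              simpa using this
            exact_mod_cast Nat.le_zero.mp h3
          rw [this]; ring
      _ ≤ ∑ z, Wc e z x * (F z - m) ^ 2 :=
          Finset.sum_le_sum_of_subset_of_nonneg (Finset.subset_univ _)
            fun z _ _ => mul_nonneg (Wc_nonneg h0 h1 z x) (sq_nonneg _)
      _ = _ := rfl
  have h3 : m ^ 2 ≤ n / p := by
    rw [le_div_iff₀ hp]
    have : (n : ℝ) * 1 ^ 2 = n := by ring
    linarith
  exact Real.le_sqrt_of_sq_le h3

/-- **Words of a code whose noisy version falls into a set.** -/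
theorem hit_bound (d : Pair ι) {δ : ℝ} (hδ0 : 0 < δ) (he : EH d.site < δ)
    (hδ : δ < 1 / 2) {p ε : ℝ} (hp : 0 < p) (hε : 0 < ε) : ∃ n0 : ℕ, ∀ n ≥ n0,
      ∀ C : Finset (Fin n → Fin 2),
      (∀ x ∈ C, ∀ y ∈ C, x ≠ y → δ * n ≤ ∑ k, (sg (x k) / 2 - sg (y k) / 2) ^ 2) →
      ∀ T : Finset (Fin n → Fin 2), (∀ x ∈ C, p ≤ ∑ z ∈ T, Wc δ z x) →
      (C.card : ℝ) ≤ T.card * Real.exp (n * (ε - cc d.site)) := by
  have he0 : 0 ≤ EH d.site := by
    have h := pair_m1 d 0 1
    rw [if_neg (by norm_num)] at h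
    rw [← h]
    unfold m1
    refine mul_nonneg (by norm_num) (Finset.sum_nonneg fun o _ => Finset.sum_nonneg fun o' _ => ?_)
    split_ifs
    · exact sq_nonneg _
    · exact le_rfl
  -- choice of `lam`
  obtain ⟨lam, hl0, hl⟩ : ∃ lam : ℝ, 0 < lam ∧ Real.exp (-lam) ≤ ε / 3 := by
    refine ⟨max 1 (-Real.log (ε / 3)), lt_of_lt_of_le one_pos (le_max_left _ _), ?_⟩
    rw [← Real.exp_log (show 0 < ε / 3 by positivity)]
    refine Real.exp_le_exp.mpr ?_
    have := le_max_right 1 (-Real.log (ε / 3))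
    rw [Real.exp_log (show 0 < ε / 3 by positivity)]
    linarith
  obtain ⟨n1, hn1p, hn1⟩ := level_bound d he0 he hδ (L := lam) (ε := ε / 3) (by positivity)
  obtain ⟨n2, hn2⟩ := exists_nat_gt ((lam / (ε / 3)) ^ 2 / p)
  refine ⟨max n1 n2, fun n hn C hdist T hT => ?_⟩
  have hnn1 : n1 ≤ n := (le_max_left _ _).trans hn
  have hnn2 : n2 ≤ n := (le_max_right _ _).trans hn
  have hn0 : 0 < n := lt_of_lt_of_le hn1p hnn1
  have hnR : (0 : ℝ) < n := by exact_mod_cast hn0
  rcases C.eq_empty_or_nonempty with rfl | hC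
  · simp only [Finset.card_empty, Nat.cast_zero]; positivity
  have hTne : T.Nonempty := by
    obtain ⟨x, hx⟩ := hC
    rw [Finset.nonempty_iff_ne_empty]
    intro h
    have := hT x hx
    rw [h, Finset.sum_empty] at this
    linarith
  have hsq : lam * √(n / p) ≤ n * (ε / 3) := by
    have h1 : (lam / (ε / 3)) ^ 2 / p < n := lt_of_lt_of_le hn2 (by exact_mod_cast hnn2)
    have h2 : √(n / p) ≤ n * (ε / 3) / lam := by
      rw [Real.sqrt_le_left (by positivity)]
      rw [div_lt_iff₀ hp, div_pow, div_lt_iff₀ (by positivity)] at h1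
      rw [div_pow, div_le_div_iff₀ hp (by positivity)]
      have := mul_le_mul_of_nonneg_left h1.le hnR.le
      nlinarith
    have := mul_le_mul_of_nonneg_left h2 hl0.le
    rwa [mul_div_cancel₀ _ hl0.ne'] at this
  have h1 := hn1 n hnn1 (fun z => lam * ds T hTne z) (ds_lip T hTne hl0.le) C hdist
    (n * (ε / 3)) (by
      intro x hx
      have h2 := mean_ds T hTne hδ0.le (by linarith) hp x (hT x hx)
      have h3 : nf δ (fun z => lam * (ds T hTne z : ℝ)) x =
          lam * nf δ (fun z => (ds T hTne z : ℝ)) x := by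
        unfold nf
        rw [Finset.mul_sum]
        exact Finset.sum_congr rfl fun _ _ => by ring
      rw [h3]
      exact (mul_le_mul_of_nonneg_left h2 hl0.le).trans hsq)
  refine h1.trans ?_
  have h2 := sum_exp_ds T hTne lam
  have h3 : (1 + Real.exp (-lam)) ^ n ≤ Real.exp (n * (ε / 3)) := by
    rw [Real.exp_nat_mul]
    refine pow_le_pow_left₀ (by positivity) ?_ n
    have := Real.add_one_le_exp (ε / 3)
    linarith
  calc Real.exp (n * (ε / 3) + n * (ε / 3 - cc d.site)) * ∑ z, Real.exp (-(lam * ds T hTne z))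
      ≤ Real.exp (n * (ε / 3) + n * (ε / 3 - cc d.site)) *
        (T.card * Real.exp (n * (ε / 3))) := by
        refine mul_le_mul_of_nonneg_left (h2.trans ?_) (Real.exp_pos _).le
        exact mul_le_mul_of_nonneg_left h3 (Nat.cast_nonneg _)
    _ = T.card * (Real.exp (n * (ε / 3) + n * (ε / 3 - cc d.site)) * Real.exp (n * (ε / 3))) := by
        ring
    _ = _ := by
        rw [← Real.exp_add]
        congr 2
        ring

end Pool.Agent.H712.NI
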