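import Pool.Agent.H712.NI.Linear

/-! Codes with locally predictable coordinates. -/

open Finset

namespace Pool.Agent.H712.NI

lemma sgb_mul_eq (a b : Bool) : 1 + sgb a * sgb b = if a = b then 2 else 0 := by
  cases a <;> cases b <;> norm_num [sgb]

/-- a locally predictable coordinate lies in a biased parity of small weight -/
lemma exists_biased_parity {n : ℕ} (C : Finset (Fin n → Bool)) (hC : C.Nonempty) (i : Fin n)
    (R : Finset (Fin n)) (f : (R → Bool) → Bool) {γ : ℝ} (hγ : 0 < γ)
    (hf : (1 / 2 + γ) * C.card ≤ (C.filter fun x => f (fun k => x k) = x i).card) :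
    ∃ S ⊆ R, 2 * γ / 2 ^ R.card * C.card ≤ |∑ x ∈ C, sgb (x i) * ∏ k ∈ S, sgb (x k)| := by
  classical
  have hCc : (0 : ℝ) < C.card := by exact_mod_cast Finset.card_pos.mpr hC
  by_contra hcon
  push Not at hcon
  set F : (R → Bool) → ℝ := fun v => sgb (f v) with hF
  -- expansion
  have hexp : ∀ x : Fin n → Bool, F (fun k => x k) =
      (2 ^ R.card)⁻¹ * ∑ v : R → Bool, ∑ S ∈ (univ : Finset R).powerset,
        F v * (∏ k ∈ S, sgb (v k)) * ∏ k ∈ S, sgb (x k) := by
    intro x
    have h1 : ∀ v : R → Bool, ∑ S ∈ (univ : Finset R).powerset,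
        F v * (∏ k ∈ S, sgb (v k)) * ∏ k ∈ S, sgb (x k) =
        if v = (fun k : R => x k) then F v * 2 ^ R.card else 0 := by
      intro v
      have h2 : ∀ S ∈ (univ : Finset R).powerset, F v * (∏ k ∈ S, sgb (v k)) *
          ∏ k ∈ S, sgb (x k) = F v * ∏ k ∈ S, (sgb (v k) * sgb (x k)) := by
        intro S _
        rw [Finset.prod_mul_distrib, mul_assoc]
      rw [Finset.sum_congr rfl h2, ← Finset.mul_sum, ← Finset.prod_one_add]
      simp only [sgb_mul_eq]
      by_cases h : v = (fun k : R => x k)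
      · rw [if_pos h]
        congr 1
        rw [Finset.prod_congr rfl (g := fun _ => (2 : ℝ)) fun k _ => by rw [h, if_pos rfl]]
        rw [Finset.prod_const, Finset.card_univ, Fintype.card_coe]
      · rw [if_neg h]
        obtain ⟨k, hk⟩ := Function.ne_iff.mp h
        rw [Finset.prod_eq_zero (Finset.mem_univ k) (if_neg hk), mul_zero]
    simp only [h1]
    rw [Finset.sum_ite_eq' univ (fun k : R => x k) (fun v => F v * 2 ^ R.card),
      if_pos (Finset.mem_univ _)]
    field_simp
  -- the correlation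
  have hcorr : 2 * γ * C.card ≤ ∑ x ∈ C, sgb (x i) * F (fun k => x k) := by
    have h1 : ∀ x : Fin n → Bool, sgb (x i) * F (fun k => x k) =
        2 * (if f (fun k => x k) = x i then (1 : ℝ) else 0) - 1 := by
      intro x
      simp only [hF]
      by_cases h : f (fun k => x k) = x i
      · rw [if_pos h, h, ← sq, sgb_sq]; norm_num
      · rw [if_neg h]
        have h2 : f (fun k => x k) = !(x i) := by
          cases hx : x i <;> cases hf' : f (fun k => x k) <;> simp_all
        rw [h2]
        cases x i <;> norm_num [sgb]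
    simp only [h1]
    rw [Finset.sum_sub_distrib, ← Finset.mul_sum, Finset.sum_boole, Finset.sum_const,
      nsmul_eq_mul, mul_one]
    linarith
  have hbound : ∑ x ∈ C, sgb (x i) * F (fun k => x k) < 2 * γ * C.card := by
    have h1 : ∑ x ∈ C, sgb (x i) * F (fun k => x k) =
        (2 ^ R.card)⁻¹ * ∑ v : R → Bool, ∑ S ∈ (univ : Finset R).powerset,
          F v * (∏ k ∈ S, sgb (v k)) * ∑ x ∈ C, sgb (x i) * ∏ k ∈ S, sgb (x k) := by
      simp only [hexp, Finset.mul_sum]
      rw [Finset.sum_comm]
      refine Finset.sum_congr rfl fun v _ => ?_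
      rw [Finset.sum_comm]
      refine Finset.sum_congr rfl fun S _ => ?_
      exact Finset.sum_congr rfl fun x _ => by ring
    rw [h1]
    have h2 : ∀ v : R → Bool, ∀ S ∈ (univ : Finset R).powerset,
        F v * (∏ k ∈ S, sgb (v k)) * ∑ x ∈ C, sgb (x i) * ∏ k ∈ S, sgb (x k) <
          2 * γ / 2 ^ R.card * C.card := by
      intro v S _
      have h3 := hcon (S.map (Function.Embedding.subtype _)) (by
        intro k hk
        rw [Finset.mem_map] at hk
        obtain ⟨k', _, rfl⟩ := hk
        exact k'.2)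
      simp only [Finset.prod_map, Function.Embedding.subtype_apply] at h3
      have h4 : |F v * ∏ k ∈ S, sgb (v k)| = 1 := by
        have h5 : (F v * ∏ k ∈ S, sgb (v k)) ^ 2 = 1 := by
          rw [mul_pow, ← Finset.prod_pow]
          simp only [hF, sgb_sq, Finset.prod_const_one, mul_one]
        have h6 := sq_abs (F v * ∏ k ∈ S, sgb (v k))
        rw [h5] at h6
        have h7 := abs_nonneg (F v * ∏ k ∈ S, sgb (v k))
        nlinarith
      calc F v * (∏ k ∈ S, sgb (v k)) * ∑ x ∈ C, sgb (x i) * ∏ k ∈ S, sgb (x k)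
          ≤ |F v * (∏ k ∈ S, sgb (v k)) * ∑ x ∈ C, sgb (x i) * ∏ k ∈ S, sgb (x k)| :=
            le_abs_self _
        _ = |∑ x ∈ C, sgb (x i) * ∏ k ∈ S, sgb (x k)| := by rw [abs_mul, h4, one_mul]
        _ < _ := h3
    have h3 : ∑ v : R → Bool, ∑ S ∈ (univ : Finset R).powerset,
          F v * (∏ k ∈ S, sgb (v k)) * ∑ x ∈ C, sgb (x i) * ∏ k ∈ S, sgb (x k) <
        ∑ _v : R → Bool, ∑ _S ∈ (univ : Finset R).powerset, 2 * γ / 2 ^ R.card * C.card := by
      refine Finset.sum_lt_sum_of_nonempty Finset.univ_nonempty fun v _ => ?_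
      exact Finset.sum_lt_sum_of_nonempty ⟨∅, Finset.empty_mem_powerset _⟩ fun S hS => h2 v S hS
    have h4 : ∑ _v : R → Bool, ∑ _S ∈ (univ : Finset R).powerset, 2 * γ / 2 ^ R.card * C.card =
        2 ^ R.card * (2 * γ * C.card) := by
      rw [Finset.sum_const, Finset.sum_const, Finset.card_powerset, Finset.card_univ,
        Finset.card_univ, Fintype.card_fun, Fintype.card_bool, Fintype.card_coe]
      rw [nsmul_eq_mul, nsmul_eq_mul]
      push_cast
      field_simp
    rw [h4] at h3
    have hp : (0 : ℝ) < 2 ^ R.card := by positivity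
    calc (2 ^ R.card : ℝ)⁻¹ * ∑ v : R → Bool, ∑ S ∈ (univ : Finset R).powerset,
          F v * (∏ k ∈ S, sgb (v k)) * ∑ x ∈ C, sgb (x i) * ∏ k ∈ S, sgb (x k)
        < (2 ^ R.card : ℝ)⁻¹ * (2 ^ R.card * (2 * γ * C.card)) :=
          mul_lt_mul_of_pos_left h3 (by positivity)
      _ = 2 * γ * C.card := by
          rw [← mul_assoc, inv_mul_cancel₀ hp.ne', one_mul]
  linarith

/-- words of bits over `ZMod 2` -/
def z2 {n : ℕ} : (Fin n → Bool) ≃ (Fin n → ZMod 2) := Equiv.arrowCongr (Equiv.refl _) zb.symm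

lemma z2_apply {n : ℕ} (x : Fin n → Bool) (k : Fin n) : z2 x k = zb.symm (x k) := rfl

lemma sz_z2 {n : ℕ} (x : Fin n → Bool) (k : Fin n) : sz (z2 x k) = sgb (x k) := by
  rw [z2_apply, ← sgb_zb, Equiv.apply_symm_apply]

/-- the union of the supports of a basis -/
lemma card_cover {n r : ℕ} (Y : Set (Fin n → ZMod 2)) (hY : ∀ y ∈ Y, hammingNorm y ≤ r)
    (I : Finset (Fin n)) (hI : ∀ i ∈ I, ∃ y ∈ Y, y i ≠ 0) :
    I.card ≤ r * Module.finrank (ZMod 2) (Submodule.span (ZMod 2) Y) := by
  classical
  obtain ⟨b, hbS, hbspan, hbli⟩ := exists_linearIndependent (ZMod 2) Y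
  have hcard : Module.finrank (ZMod 2) (Submodule.span (ZMod 2) Y) = b.toFinset.card := by
    rw [← hbspan]
    exact finrank_span_set_eq_card hbli
  rw [hcard]
  calc I.card ≤ (b.toFinset.biUnion fun y => univ.filter fun i => y i ≠ 0).card := by
        refine Finset.card_le_card fun i hi => ?_
        rw [Finset.mem_biUnion]
        by_contra hcon
        push Not at hcon
        obtain ⟨y, hy, hyi⟩ := hI i hi
        apply hyi
        have hy' : y ∈ Submodule.span (ZMod 2) b := by
          rw [hbspan]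
          exact Submodule.subset_span hy
        refine Submodule.span_induction (p := fun y _ => y i = 0) ?_ ?_ ?_ ?_ hy'
        · intro u hu
          have := hcon u (Set.mem_toFinset.mpr hu)
          simpa using this
        · rfl
        · intro u v _ _ h h'
          rw [Pi.add_apply, h, h', add_zero]
        · intro c u _ h
          rw [Pi.smul_apply, h, smul_zero]
    _ ≤ ∑ y ∈ b.toFinset, (univ.filter fun i => y i ≠ 0).card := Finset.card_biUnion_le
    _ ≤ ∑ _y ∈ b.toFinset, r := Finset.sum_le_sum fun y hy =>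
        hY y (hbS (Set.mem_toFinset.mp hy))
    _ = r * b.toFinset.card := by rw [Finset.sum_const, smul_eq_mul, mul_comm]

/-- **Codes with locally predictable coordinates.** -/
theorem predictable {δ θ : ℝ} (h0 : 0 < δ) (h1 : δ < 1 / 2) (hθ : (δ, θ) ∈ Th.Curve) (r : ℕ)
    {γ ρ : ℝ} (hγ : 0 < γ) (hρ : 0 < ρ) :
    ∃ c : ℝ, 0 < c ∧ ∃ n0 : ℕ, ∀ n ≥ n0, ∀ C : Finset (Fin n → Bool),
      (∀ x ∈ C, ∀ y ∈ C, x ≠ y → δ * n ≤ hammingDist x y) →
      ∀ I : Finset (Fin n), ρ * n ≤ I.card →
      (∀ i ∈ I, ∃ R : Finset (Fin n), i ∉ R ∧ R.card ≤ r ∧ ∃ f : (R → Bool) → Bool,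
        (1 / 2 + γ) * C.card ≤ (C.filter fun x => f (fun k => x k) = x i).card) →
      (C.card : ℝ) ≤ (2 : ℝ) ^ ((θ - c) * n) := by
  classical
  have hr1 : (0 : ℝ) < (r : ℝ) + 1 := by positivity
  obtain ⟨c, hc, n0, hn0⟩ := biased_span h0 h1 hθ (r + 1) (β := 2 * γ / 2 ^ r)
    (ρ := ρ / (r + 1)) (by positivity) (by positivity)
  refine ⟨c, hc, n0, fun n hn C hdist I hI hpred => ?_⟩
  rcases C.eq_empty_or_nonempty with he | hne
  · rw [he]
    simp only [Finset.card_empty, Nat.cast_zero]
    positivity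
  have hCc : (0 : ℝ) < C.card := by exact_mod_cast Finset.card_pos.mpr hne
  set C2 : Finset (Fin n → ZMod 2) := C.map z2.toEmbedding with hC2
  have hcard : C2.card = C.card := Finset.card_map _
  have h2 := hn0 n hn C2 (by
    intro x hx y hy hxy
    rw [hC2, Finset.mem_map] at hx hy
    obtain ⟨x', hx', rfl⟩ := hx
    obtain ⟨y', hy', rfl⟩ := hy
    have h3 : hammingDist (z2.toEmbedding x') (z2.toEmbedding y') = hammingDist x' y' :=
      hammingDist_comp (fun _ => zb.symm) (fun _ => zb.symm.injective)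
    rw [h3]
    exact hdist x' hx' y' hy' (fun h => hxy (by rw [h]))) (by
    set Y : Set (Fin n → ZMod 2) := {y | hammingNorm y ≤ r + 1 ∧ 2 * γ / 2 ^ r ≤ bias C2 y}
      with hY
    have h3 : I.card ≤ (r + 1) * Module.finrank (ZMod 2) (Submodule.span (ZMod 2) Y) := by
      refine card_cover Y (fun y hy => hy.1) I fun i hi => ?_
      obtain ⟨R, hiR, hRr, f, hf⟩ := hpred i hi
      obtain ⟨S, hSR, hS⟩ := exists_biased_parity C hne i R f hγ hf
      have hiS : i ∉ S := fun h => hiR (hSR h)
      set y : Fin n → ZMod 2 := fun k => if k ∈ insert i S then 1 else 0 with hy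
      have hysup : (univ.filter fun k => y k ≠ 0) = insert i S := by
        ext k
        simp only [hy, Finset.mem_filter, Finset.mem_univ, true_and]
        split_ifs with h <;> simp [h]
      refine ⟨y, ⟨?_, ?_⟩, ?_⟩
      · unfold hammingNorm
        rw [hysup, Finset.card_insert_of_notMem hiS]
        have := Finset.card_le_card hSR
        omega
      · unfold bias
        rw [hcard, le_div_iff₀ hCc]
        have h4 : ∀ x : Fin n → Bool, (if ∑ k, y k * z2 x k = 0 then (1 : ℝ) else -1) =
            sgb (x i) * ∏ k ∈ S, sgb (x k) := by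
          intro x
          have h5 : (if ∑ k, y k * z2 x k = 0 then (1 : ℝ) else -1) = sz (∑ k, y k * z2 x k) := rfl
          rw [h5, sz_sum]
          have h6 : ∀ k, sz (y k * z2 x k) = if k ∈ insert i S then sgb (x k) else 1 := by
            intro k
            rw [sz_mul_cases, sz_z2]
            simp only [hy]
            split_ifs <;> simp_all
          simp only [h6]
          rw [← Finset.prod_filter, Finset.filter_mem_eq_inter, Finset.univ_inter,
            Finset.prod_insert hiS]
        have h5 : ∑ x ∈ C2, (if ∑ k, y k * x k = 0 then (1 : ℝ) else -1) =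
            ∑ x ∈ C, sgb (x i) * ∏ k ∈ S, sgb (x k) := by
          rw [hC2, Finset.sum_map]
          exact Finset.sum_congr rfl fun x _ => h4 x
        rw [h5]
        refine le_trans ?_ hS
        refine mul_le_mul_of_nonneg_right ?_ hCc.le
        refine div_le_div_of_nonneg_left (by positivity) (by positivity) ?_
        exact pow_le_pow_right₀ (by norm_num) hRr
      · simp [hy]
    have h4 : (I.card : ℝ) ≤ (r + 1) * Module.finrank (ZMod 2) (Submodule.span (ZMod 2) Y) := by
      exact_mod_cast h3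
    rw [div_mul_eq_mul_div, div_le_iff₀ hr1]
    linarith)
  rw [hcard] at h2
  exact h2

end Pool.Agent.H712.NI
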