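import Pool.Agent.H712.NI.GTheta
import Pool.Agent.H712.NI.Predict

/-! Codes by the Fourier coefficients at linearly independent words. -/

open Finset Filter

namespace Pool.Agent.H712.NI.GT

open Pool.Agent.H712.NI
open Pool.Agent.H712.NI.Th (η H Curve η_eq curve_pair)

/-- entropy is at most cross entropy -/
lemma ent_le_cross {A : Type} [Fintype A] (Q R : A → ℝ) (hQ : ∀ a, 0 ≤ Q a) (hQ1 : ∑ a, Q a = 1)
    (hR : ∀ a, 0 ≤ R a) (hR1 : ∑ a, R a ≤ 1) (h : ∀ a, R a = 0 → Q a = 0) :
    ∑ a, Real.negMulLog (Q a) ≤ ∑ a, -(Q a * Real.log (R a)) := by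
  have h1 : ∀ a, Real.negMulLog (Q a) + Q a * Real.log (R a) ≤ R a - Q a := by
    intro a
    rcases (hQ a).eq_or_lt with h0 | h0
    · rw [← h0]; simp [hR a]
    · have hR0 : 0 < R a := lt_of_le_of_ne (hR a) fun h' => h0.ne' (h a h'.symm)
      have h2 := Real.log_le_sub_one_of_pos (div_pos hR0 h0)
      rw [Real.log_div hR0.ne' h0.ne'] at h2
      have h3 := mul_le_mul_of_nonneg_left h2 h0.le
      have h4 : Q a * (R a / Q a - 1) = R a - Q a := by field_simp
      rw [h4] at h3
      unfold Real.negMulLog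
      linarith
  have h2 := Finset.sum_le_sum fun a (_ : a ∈ (univ : Finset A)) => h1 a
  rw [Finset.sum_add_distrib, Finset.sum_sub_distrib, hQ1] at h2
  rw [Finset.sum_neg_distrib]
  linarith

/-- entropy of a law and of its image -/
lemma ent_le_image {A S : Type} [Fintype A] [Fintype S] [DecidableEq S] (φ : A → S) (Q : A → ℝ)
    (hQ : ∀ a, 0 ≤ Q a) (hQ1 : ∑ a, Q a = 1) {N : ℝ} (hN : 0 < N)
    (hfib : ∀ s, ((univ.filter fun a => φ a = s).card : ℝ) ≤ N) :
    ∑ a, Real.negMulLog (Q a) ≤
      ∑ s, Real.negMulLog (∑ a ∈ univ.filter (fun a => φ a = s), Q a) + Real.log N := by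
  set q : S → ℝ := fun s => ∑ a ∈ univ.filter (fun a => φ a = s), Q a with hq
  have hq0 : ∀ s, 0 ≤ q s := fun s => Finset.sum_nonneg fun a _ => hQ a
  have hq1 : ∑ s, q s = 1 := by
    rw [← hQ1]; exact Finset.sum_fiberwise _ _ _
  have hle : ∀ a, Q a ≤ q (φ a) := fun a =>
    Finset.single_le_sum (f := Q) (fun a _ => hQ a) (by simp)
  have key := ent_le_cross Q (fun a => q (φ a) / N) hQ hQ1
    (fun a => div_nonneg (hq0 _) hN.le) (by
      rw [← Finset.sum_fiberwise univ φ]
      calc ∑ s, ∑ a ∈ univ.filter (fun a => φ a = s), q (φ a) / N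
          = ∑ s, ((univ.filter fun a => φ a = s).card : ℝ) * (q s / N) := by
            refine Finset.sum_congr rfl fun s _ => ?_
            rw [Finset.sum_congr rfl (g := fun _ => q s / N) fun a ha => by
              rw [(Finset.mem_filter.mp ha).2], Finset.sum_const, nsmul_eq_mul]
        _ ≤ ∑ s, N * (q s / N) := Finset.sum_le_sum fun s _ =>
            mul_le_mul_of_nonneg_right (hfib s) (div_nonneg (hq0 s) hN.le)
        _ = 1 := by
            rw [← hq1]
            exact Finset.sum_congr rfl fun s _ => by field_simp) (by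
      intro a ha
      have h1 : q (φ a) = 0 := by
        rcases div_eq_zero_iff.mp ha with h | h
        · exact h
        · exact absurd h hN.ne'
      exact le_antisymm (by rw [← h1]; exact hle a) (hQ a))
  refine key.trans (le_of_eq ?_)
  have h2 : ∀ a, -(Q a * Real.log (q (φ a) / N)) =
      -(Q a * Real.log (q (φ a))) + Q a * Real.log N := by
    intro a
    rcases (hQ a).eq_or_lt with h0 | h0
    · rw [← h0]; simp
    · have : q (φ a) ≠ 0 := (lt_of_lt_of_le h0 (hle a)).ne'
      rw [Real.log_div this hN.ne']; ring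
  simp only [h2]
  rw [Finset.sum_add_distrib, ← Finset.sum_mul, hQ1, one_mul]
  congr 1
  rw [← Finset.sum_fiberwise univ φ]
  refine Finset.sum_congr rfl fun s _ => ?_
  rw [Finset.sum_congr rfl (g := fun a => -(Q a * Real.log (q s))) fun a ha => by
    rw [(Finset.mem_filter.mp ha).2], Finset.sum_neg_distrib, ← Finset.sum_mul]
  unfold Real.negMulLog
  ring

/-- subadditivity of entropy -/
lemma ent_subadd {K B : Type} [Fintype K] [DecidableEq K] [Fintype B] [DecidableEq B]
    (q : (K → B) → ℝ) (hq : ∀ s, 0 ≤ q s) (hq1 : ∑ s, q s = 1) :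
    ∑ s, Real.negMulLog (q s) ≤
      ∑ k, ∑ b, Real.negMulLog (∑ s ∈ univ.filter (fun s : K → B => s k = b), q s) := by
  set m : K → B → ℝ := fun k b => ∑ s ∈ univ.filter (fun s : K → B => s k = b), q s with hm
  have hm0 : ∀ k b, 0 ≤ m k b := fun k b => Finset.sum_nonneg fun s _ => hq s
  have hm1 : ∀ k, ∑ b, m k b = 1 := fun k => by
    rw [← hq1]; exact Finset.sum_fiberwise _ _ _
  have hle : ∀ s k, q s ≤ m k (s k) := fun s k =>
    Finset.single_le_sum (f := q) (fun a _ => hq a) (by simp)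
  have key := ent_le_cross q (fun s => ∏ k, m k (s k)) hq hq1
    (fun s => Finset.prod_nonneg fun k _ => hm0 _ _) (by
      rw [← Fintype.prod_sum]
      simp [hm1]) (by
      intro s hs
      obtain ⟨k, _, hk⟩ := Finset.prod_eq_zero_iff.mp hs
      exact le_antisymm (by rw [← hk]; exact hle s k) (hq s))
  refine key.trans (le_of_eq ?_)
  have h1 : ∀ s, -(q s * Real.log (∏ k, m k (s k))) = ∑ k, -(q s * Real.log (m k (s k))) := by
    intro s
    rcases (hq s).eq_or_lt with h0 | h0
    · rw [← h0]; simp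
    · rw [Real.log_prod fun k _ => (lt_of_lt_of_le h0 (hle s k)).ne', Finset.mul_sum,
        Finset.sum_neg_distrib]
  simp only [h1]
  rw [Finset.sum_comm]
  refine Finset.sum_congr rfl fun k _ => ?_
  rw [← Finset.sum_fiberwise univ (fun s : K → B => s k)]
  refine Finset.sum_congr rfl fun b _ => ?_
  rw [Finset.sum_congr rfl (g := fun s => -(q s * Real.log (m k b))) fun s hs => by
    rw [(Finset.mem_filter.mp hs).2], Finset.sum_neg_distrib, ← Finset.sum_mul]
  unfold Real.negMulLog
  simp only [hm]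
  ring

/-- noise multiplies a character by a constant -/
lemma noise_dsg {n : ℕ} (δ : ℝ) (y x : Fin n → ZMod 2) :
    ∑ z, W δ x z * dsg y z = (1 - 2 * δ) ^ hammingNorm y * dsg y x := by
  have h1 : ∀ z : Fin n → ZMod 2, W δ x z * dsg y z =
      ∏ i, ((if z i = x i then 1 - δ else δ) * sz (y i * z i)) := by
    intro z
    rw [dsg_eq]
    unfold W
    rw [← Finset.prod_mul_distrib]
  simp only [h1]
  rw [← Fintype.prod_sum (fun (i : Fin n) (b : ZMod 2) =>
    (if b = x i then 1 - δ else δ) * sz (y i * b)), dsg_eq]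
  have h2 : ∀ i, ∑ b : ZMod 2, (if b = x i then 1 - δ else δ) * sz (y i * b) =
      (if y i ≠ 0 then 1 - 2 * δ else 1) * sz (y i * x i) := by
    intro i
    have h3 : ∀ f : ZMod 2 → ℝ, ∑ b, f b = f 0 + f 1 := fun f => Fin.sum_univ_two f
    rw [h3]
    have hne : ¬ (1 : ZMod 2) = 0 := by decide
    have hne' : ¬ (0 : ZMod 2) = 1 := by decide
    rcases zmod2_cases (y i) with hy | hy <;> rcases zmod2_cases (x i) with hx | hx <;>
      rw [hy, hx] <;> simp [sz, hne, hne'] <;> ring
  simp only [h2]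
  rw [Finset.prod_mul_distrib]
  congr 1
  unfold hammingNorm
  rw [Finset.prod_ite, Finset.prod_const, Finset.prod_const_one, mul_one]

/-- entropy of one parity -/
lemma parity_ent {n : ℕ} (Q : (Fin n → ZMod 2) → ℝ) (hQ1 : ∑ z, Q z = 1)
    (y : Fin n → ZMod 2) :
    ∑ b : ZMod 2, Real.negMulLog (∑ z ∈ univ.filter (fun z : Fin n → ZMod 2 =>
      ∑ i, y i * z i = b), Q z) = Real.log 2 * (1 - gain (∑ z, Q z * dsg y z)) := by
  have hlog : Real.log 2 ≠ 0 := (Real.log_pos (by norm_num)).ne'
  set c := ∑ z, Q z * dsg y z with hc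
  have h3 : ∀ f : ZMod 2 → ℝ, ∑ b, f b = f 0 + f 1 := fun f => Fin.sum_univ_two f
  set q0 := ∑ z ∈ univ.filter (fun z : Fin n → ZMod 2 => ∑ i, y i * z i = 0), Q z with hq0
  set q1 := ∑ z ∈ univ.filter (fun z : Fin n → ZMod 2 => ∑ i, y i * z i = 1), Q z with hq1
  have e1 : q0 + q1 = 1 := by
    rw [← hQ1, ← Finset.sum_fiberwise univ (fun z : Fin n → ZMod 2 => ∑ i, y i * z i) Q, h3]
  have e2 : c = q0 - q1 := by
    rw [hc, ← Finset.sum_fiberwise univ (fun z : Fin n → ZMod 2 => ∑ i, y i * z i)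
      (fun z => Q z * dsg y z), h3, sub_eq_add_neg]
    congr 1
    · refine Finset.sum_congr rfl fun z hz => ?_
      unfold dsg
      rw [if_pos (Finset.mem_filter.mp hz).2, mul_one]
    · rw [hq1, ← Finset.sum_neg_distrib]
      refine Finset.sum_congr rfl fun z hz => ?_
      unfold dsg
      rw [if_neg (by rw [(Finset.mem_filter.mp hz).2]; decide)]
      ring
  have e3 : q0 = (1 + c) / 2 := by linarith
  have e4 : q1 = 1 - (1 + c) / 2 := by linarith
  rw [h3]
  show Real.negMulLog q0 + Real.negMulLog q1 = _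
  unfold gain
  rw [Real.binEntropy_eq_negMulLog_add_negMulLog_one_sub, ← e4, ← e3]
  field_simp
  ring

/-- the map of scalar products -/
def sp {n r : ℕ} (h : Fin r → Fin n → ZMod 2) (z : Fin n → ZMod 2) : Fin r → ZMod 2 :=
  fun j => ∑ i, h j i * z i

/-- entropy of the scalar products -/
lemma sp_ent {n r : ℕ} (h : Fin r → Fin n → ZMod 2) (Q : (Fin n → ZMod 2) → ℝ)
    (hQ : ∀ z, 0 ≤ Q z) (hQ1 : ∑ z, Q z = 1) :
    ∑ s : Fin r → ZMod 2, Real.negMulLog (∑ z ∈ univ.filter (fun z => sp h z = s), Q z) ≤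
      ∑ j, Real.log 2 * (1 - gain (∑ z, Q z * dsg (h j) z)) := by
  set q : (Fin r → ZMod 2) → ℝ := fun s => ∑ z ∈ univ.filter (fun z => sp h z = s), Q z with hq
  have hq0 : ∀ s, 0 ≤ q s := fun s => Finset.sum_nonneg fun a _ => hQ a
  have hq1 : ∑ s, q s = 1 := by
    rw [← hQ1]; exact Finset.sum_fiberwise _ _ _
  refine (ent_subadd q hq0 hq1).trans (le_of_eq ?_)
  refine Finset.sum_congr rfl fun j _ => ?_
  rw [← parity_ent Q hQ1 (h j)]
  refine Finset.sum_congr rfl fun b _ => ?_
  congr 1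
  rw [← Finset.sum_fiberwise (univ.filter fun z : Fin n → ZMod 2 => ∑ i, h j i * z i = b)
    (sp h) Q, Finset.sum_filter]
  refine Finset.sum_congr rfl fun s _ => ?_
  by_cases hs : s j = b
  · rw [if_pos hs]
    refine Finset.sum_congr ?_ fun _ _ => rfl
    ext z
    simp only [Finset.mem_filter, Finset.mem_univ, true_and]
    constructor
    · intro h2
      refine ⟨?_, h2⟩
      rw [← hs, ← h2]; rfl
    · exact fun h2 => h2.2
  · rw [if_neg hs]
    symm
    refine Finset.sum_eq_zero fun z hz => ?_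
    simp only [Finset.mem_filter, Finset.mem_univ, true_and] at hz
    exact absurd (by rw [← hz.2]; exact hz.1) hs

/-- size of the fibres of the scalar products -/
lemma sp_fiber {n r : ℕ} (h : Fin r → Fin n → ZMod 2) (s : Fin r → ZMod 2) :
    (univ.filter fun z => sp h z = s).card ≤ (univ.filter fun z => sp h z = 0).card := by
  rcases (univ.filter fun z => sp h z = s).eq_empty_or_nonempty with he | ⟨z0, hz0⟩
  · rw [he]; simp
  · refine Finset.card_le_card_of_injOn (fun z => z - z0) ?_ ?_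
    · intro z hz
      simp only [Finset.coe_filter, Finset.mem_univ, true_and, Set.mem_setOf_eq,
        Finset.mem_filter] at hz hz0 ⊢
      funext j
      have h1 := congrFun hz j
      have h2 := congrFun hz0 j
      simp only [sp] at h1 h2 ⊢
      simp only [Pi.sub_apply, mul_sub, Finset.sum_sub_distrib, h1, h2, sub_self, Pi.zero_apply]
    · intro z _ z' _ hzz
      exact sub_left_injective hzz

lemma ker_card {n r : ℕ} (h : Fin r → Fin n → ZMod 2) (hli : LinearIndependent (ZMod 2) h) :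
    ((univ.filter fun z => sp h z = 0).card : ℝ) = 2 ^ ((n : ℝ) - r) := by
  set A : Matrix (Fin r) (Fin n) (ZMod 2) := Matrix.of h with hA
  have hrank : A.rank = r := by
    have := LinearIndependent.rank_matrix (M := A) hli
    simpa using this
  have hker := LinearMap.finrank_range_add_finrank_ker A.mulVecLin
  rw [← Matrix.rank, hrank, Module.finrank_fin_fun] at hker
  have hc : Nat.card (LinearMap.ker A.mulVecLin) = 2 ^ Module.finrank (ZMod 2)
      (LinearMap.ker A.mulVecLin) := by
    have := Module.natCard_eq_pow_finrank (K := ZMod 2) (V := LinearMap.ker A.mulVecLin)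
    simpa using this
  have hcard : (univ.filter fun z => sp h z = 0).card = Nat.card (LinearMap.ker A.mulVecLin) := by
    have e0 : (univ.filter fun z => sp h z = 0).card = Nat.card {z // sp h z = 0} := by
      rw [Nat.card_eq_fintype_card, Fintype.card_subtype]
    rw [e0]
    refine Nat.card_congr (Equiv.subtypeEquivRight fun z => ?_)
    rw [LinearMap.mem_ker, Matrix.mulVecLin_apply]
    exact Iff.rfl
  rw [hcard, hc]
  have h3 : Module.finrank (ZMod 2) (LinearMap.ker A.mulVecLin) = n - r := by omega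
  have hrn : r ≤ n := by omega
  rw [h3]
  push_cast
  rw [← Real.rpow_natCast, Nat.cast_sub hrn]

/-- entropy of a law in terms of its coefficients at independent words -/
lemma four_ent {n r : ℕ} (h : Fin r → Fin n → ZMod 2) (hli : LinearIndependent (ZMod 2) h)
    (Q : (Fin n → ZMod 2) → ℝ) (hQ : ∀ z, 0 ≤ Q z) (hQ1 : ∑ z, Q z = 1) :
    Ent Q ≤ n - ∑ j, gain (∑ z, Q z * dsg (h j) z) := by
  have hlog : 0 < Real.log 2 := Real.log_pos (by norm_num)
  have hN : (0 : ℝ) < 2 ^ ((n : ℝ) - r) := by positivity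
  have h1 := ent_le_image (sp h) Q hQ hQ1 hN (fun s => by
    rw [← ker_card h hli]
    exact_mod_cast sp_fiber h s)
  have h2 := sp_ent h Q hQ hQ1
  rw [Real.log_rpow (by norm_num)] at h1
  rw [Ent_eq, div_le_iff₀ hlog]
  refine h1.trans ?_
  rw [← Finset.mul_sum, Finset.sum_sub_distrib, Finset.sum_const, Finset.card_univ,
    Fintype.card_fin, nsmul_eq_mul, mul_one] at h2
  linarith

lemma ent_ul {n : ℕ} (C : Finset (Fin n → ZMod 2)) (hC : C.Nonempty) :
    Ent (ul C) = Real.logb 2 C.card := by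
  have hCc : (0 : ℝ) < C.card := by exact_mod_cast Finset.card_pos.mpr hC
  rw [Ent_eq]
  unfold Real.logb
  congr 1
  have h1 : ∀ x, Real.negMulLog (ul C x) =
      if x ∈ C then (C.card : ℝ)⁻¹ * Real.log C.card else 0 := by
    intro x
    unfold ul
    split_ifs
    · unfold Real.negMulLog
      rw [Real.log_inv]; ring
    · simp
  simp only [h1]
  rw [← Finset.sum_filter]
  have : univ.filter (fun x => x ∈ C) = C := by ext; simp
  rw [this, Finset.sum_const, nsmul_eq_mul, ← mul_assoc, mul_inv_cancel₀ hCc.ne', one_mul]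

/-- **Codes by their Fourier coefficients at linearly independent words.** -/
theorem fourier {δ θ : ℝ} (h0 : 0 < δ) (h1 : δ < 1 / 2) (hθ : (δ, θ) ∈ Curve) {ε : ℝ}
    (hε : 0 < ε) : ∃ n0 : ℕ, ∀ n ≥ n0, ∀ C : Finset (Fin n → ZMod 2), C.Nonempty →
      (∀ x ∈ C, ∀ y ∈ C, x ≠ y → δ * n ≤ hammingDist x y) →
      ∀ (r : ℕ) (h : Fin r → Fin n → ZMod 2), LinearIndependent (ZMod 2) h →
      Real.logb 2 C.card ≤ (θ + ε) * n -
        ∑ j, gain ((1 - 2 * δ) ^ hammingNorm (h j) * bias C (h j)) := by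
  obtain ⟨n0, hn0⟩ := entropy h0 h1 hθ hε
  refine ⟨n0, fun n hn C hC hdist r h hli => ?_⟩
  have hCc : (0 : ℝ) < C.card := by exact_mod_cast Finset.card_pos.mpr hC
  have key := hn0 n hn C hdist (ul C) (ul_nonneg C) (ul_sum C hC) (fun x hx => by
    unfold ul; rw [if_neg hx])
  have hQ : ∀ z, 0 ≤ noisy δ (ul C) z := fun z =>
    (Nz_pos (n := n) h0 (by linarith) (ul_nonneg C) (ul_sum C hC) z).le
  have hQ1 : ∑ z, noisy δ (ul C) z = 1 := by
    have := Nz_sum (w := n) δ (ul C)
    rw [← ul_sum C hC]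
    exact this
  have h2 := four_ent h hli (noisy δ (ul C)) hQ hQ1
  rw [ent_ul C hC] at key
  have h3 : ∀ j, gain (∑ z, noisy δ (ul C) z * dsg (h j) z) =
      gain ((1 - 2 * δ) ^ hammingNorm (h j) * bias C (h j)) := by
    intro j
    have e1 : ∑ z, noisy δ (ul C) z * dsg (h j) z =
        (1 - 2 * δ) ^ hammingNorm (h j) * ((∑ x ∈ C, dsg (h j) x) / C.card) := by
      unfold noisy
      simp only [Finset.sum_mul]
      rw [Finset.sum_comm]
      have e2 : ∀ x, ∑ z, ul C x * W δ x z * dsg (h j) z =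
          ul C x * ((1 - 2 * δ) ^ hammingNorm (h j) * dsg (h j) x) := by
        intro x
        rw [← noise_dsg, Finset.mul_sum]
        exact Finset.sum_congr rfl fun _ _ => by ring
      simp only [e2]
      have e3 : ∀ x, ul C x * ((1 - 2 * δ) ^ hammingNorm (h j) * dsg (h j) x) =
          if x ∈ C then (C.card : ℝ)⁻¹ * ((1 - 2 * δ) ^ hammingNorm (h j) * dsg (h j) x) else 0 := by
        intro x
        unfold ul
        split_ifs <;> simp
      simp only [e3]
      rw [← Finset.sum_filter]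
      have : univ.filter (fun x => x ∈ C) = C := by ext; simp
      rw [this, Finset.sum_div, Finset.mul_sum]
      refine Finset.sum_congr rfl fun x _ => ?_
      ring
    rw [e1, ← gain_abs, abs_mul, abs_div, abs_of_pos hCc,
      abs_of_nonneg (pow_nonneg (by linarith : 0 ≤ 1 - 2 * δ) _)]
    rfl
  simp only [h3] at h2
  linarith

end Pool.Agent.H712.NI.GT
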