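import Pool.Agent.H712.NI.TiltEnt2

/-! The mass of the small eigenvalues of a tilted state, by a test of small trace. -/

open Finset

namespace Pool.Agent.H712.NI

open Pool.Agent.H390R2.LP Pool.Agent.H235R2.QLP

variable {Ω X : Type} [Fintype Ω] [DecidableEq Ω] [Fintype X] [DecidableEq X]

/-- part of an eigenvector of the conjugate state in the span of `u j`, `j ∈ J` -/
noncomputable def FJ (s : Site Ω X) (a : X → ℝ) (J : Finset Ω) (m ω : Ω) : ℝ :=
  ∑ j ∈ J, kk s a m j * s.u j ω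

lemma Fv_split (s : Site Ω X) (a : X → ℝ) (J : Finset Ω) (m ω : Ω) :
    Fv s a m ω = FJ s a J m ω + FJ s a Jᶜ m ω := by
  unfold Fv FJ
  exact (Finset.sum_add_sum_compl J _).symm

/-- the norm of a part -/
lemma FJ_norm (s : Site Ω X) (a : X → ℝ) (J : Finset Ω) (m : Ω) :
    ∑ ω, FJ s a J m ω ^ 2 = ∑ j ∈ J, kk s a m j ^ 2 := by
  have h1 : ∀ ω, FJ s a J m ω ^ 2 =
      ∑ j ∈ J, ∑ l ∈ J, kk s a m j * kk s a m l * (s.u j ω * s.u l ω) := by
    intro ω
    unfold FJ
    rw [sq, Finset.sum_mul_sum]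
    exact Finset.sum_congr rfl fun j _ => Finset.sum_congr rfl fun l _ => by ring
  simp only [h1]
  rw [Finset.sum_comm]
  refine Finset.sum_congr rfl fun j hj => ?_
  rw [Finset.sum_comm]
  simp only [← Finset.mul_sum, s.u_orth]
  simp only [mul_ite, mul_one, mul_zero, Finset.sum_ite_eq, if_pos hj]
  ring

lemma FJ_zero (s : Site Ω X) (a : X → ℝ) (J : Finset Ω) (m ω : Ω) (h : tb s a m = 0) :
    FJ s a J m ω = 0 := by
  unfold FJ
  exact Finset.sum_eq_zero fun j _ => by rw [kk_zero s a m j h, zero_mul]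

/-- weight of the conjugate state on one eigenvector of the state -/
lemma kk_weight (s : Site Ω X) (a : X → ℝ) (U : ℝ)
    (hunif : ∀ j x, ∑ ω, (if s.pos ω = x then s.u j ω ^ 2 else 0) = U)
    (ha2 : ∑ x, a x ^ 2 * U = 1) (j : Ω) :
    ∑ m, tb s a m ^ 2 * kk s a m j ^ 2 = s.lam j := by
  have h2 := kk_form s a j j
  have h3 : ∑ m, tb s a m ^ 2 * kk s a m j ^ 2 = sg2 s a j j := by
    rw [← h2]; exact Finset.sum_congr rfl fun m _ => by ring
  rw [h3]
  unfold sg2
  rw [Real.mul_self_sqrt (s.lam_nonneg j)]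
  have h4 : ∑ ω, a (s.pos ω) ^ 2 * (s.u j ω * s.u j ω) = 1 := by
    rw [← ha2]
    have h5 : ∀ x, a x ^ 2 * U =
        ∑ ω, (if s.pos ω = x then a x ^ 2 * s.u j ω ^ 2 else 0) := by
      intro x
      rw [← hunif j x, Finset.mul_sum]
      exact Finset.sum_congr rfl fun ω _ => by split_ifs <;> simp
    simp only [h5]
    rw [Finset.sum_comm]
    refine Finset.sum_congr rfl fun ω _ => ?_
    simp only [Finset.sum_ite_eq, Finset.mem_univ, if_true]
    ring
  rw [h4, mul_one]

/-- the trace of the test -/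
lemma test_trace (s : Site Ω X) (a : X → ℝ) (U : ℝ)
    (hunif : ∀ j x, ∑ ω, (if s.pos ω = x then s.u j ω ^ 2 else 0) = U)
    (J : Finset Ω) (T : Finset X) :
    ∑ m, ∑ ω, (if s.pos ω ∈ T then FJ s a J m ω ^ 2 else 0) ≤ J.card * (T.card * U) := by
  have hb : ∀ ω, ∑ m, FJ s a J m ω ^ 2 ≤ ∑ j ∈ J, s.u j ω ^ 2 := by
    intro ω
    have horth : ∀ m m' : {m : Ω // tb s a m ≠ 0},
        ∑ j, kk s a m j * kk s a m' j = if m = m' then 1 else 0 := by
      intro m m'
      rw [kk_orth s a m m' m.2 m'.2]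
      by_cases h : m = m'
      · rw [if_pos h, if_pos (by rw [h])]
      · rw [if_neg h, if_neg (fun h' => h (Subtype.ext h'))]
    have h1 := bessel (fun m : {m : Ω // tb s a m ≠ 0} => kk s a m) horth
      (fun j => if j ∈ J then s.u j ω else 0)
    have h2 : ∑ m, FJ s a J m ω ^ 2 = ∑ m : {m : Ω // tb s a m ≠ 0},
        (∑ j, (if j ∈ J then s.u j ω else 0) * kk s a m j) ^ 2 := by
      have h3 : ∀ m, FJ s a J m ω = ∑ j, (if j ∈ J then s.u j ω else 0) * kk s a m j := by
        intro m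
        unfold FJ
        rw [← Finset.sum_filter_add_sum_filter_not univ (fun j => j ∈ J)
          (fun j => (if j ∈ J then s.u j ω else 0) * kk s a m j)]
        have e1 : ∑ j ∈ univ.filter (fun j => ¬ j ∈ J),
            (if j ∈ J then s.u j ω else 0) * kk s a m j = 0 := by
          refine Finset.sum_eq_zero fun j hj => ?_
          rw [if_neg (Finset.mem_filter.mp hj).2, zero_mul]
        rw [e1, add_zero]
        have e2 : univ.filter (fun j => j ∈ J) = J := by ext j; simp
        rw [e2]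
        refine Finset.sum_congr rfl fun j hj => ?_
        rw [if_pos hj]; ring
      rw [← Finset.sum_subtype (univ.filter (fun m => tb s a m ≠ 0)) (fun x => by simp)
        (fun m => (∑ j, (if j ∈ J then s.u j ω else 0) * kk s a m j) ^ 2), Finset.sum_filter]
      refine Finset.sum_congr rfl fun m _ => ?_
      by_cases h : tb s a m = 0
      · rw [FJ_zero s a J m ω h, if_neg (fun h' => h' h)]; ring
      · rw [if_pos h, h3]
    rw [h2]
    refine h1.trans (le_of_eq ?_)
    have e3 : ∀ j, (if j ∈ J then s.u j ω else 0) ^ 2 = if j ∈ J then s.u j ω ^ 2 else 0 := by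
      intro j; split_ifs <;> ring
    simp only [e3]
    rw [← Finset.sum_filter]
    have e2 : univ.filter (fun j => j ∈ J) = J := by ext j; simp
    rw [e2]
  rw [Finset.sum_comm]
  calc ∑ ω, ∑ m, (if s.pos ω ∈ T then FJ s a J m ω ^ 2 else 0)
      ≤ ∑ ω, (if s.pos ω ∈ T then ∑ j ∈ J, s.u j ω ^ 2 else 0) := by
        refine Finset.sum_le_sum fun ω _ => ?_
        by_cases h : s.pos ω ∈ T
        · simp only [if_pos h]; exact hb ω
        · simp only [if_neg h, Finset.sum_const_zero]; exact le_rfl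
    _ = ∑ j ∈ J, ∑ x ∈ T, ∑ ω, (if s.pos ω = x then s.u j ω ^ 2 else 0) := by
        have e4 : ∀ ω, (if s.pos ω ∈ T then ∑ j ∈ J, s.u j ω ^ 2 else 0) =
            ∑ j ∈ J, ∑ x ∈ T, (if s.pos ω = x then s.u j ω ^ 2 else 0) := by
          intro ω
          by_cases h : s.pos ω ∈ T
          · rw [if_pos h]
            refine Finset.sum_congr rfl fun j _ => ?_
            rw [Finset.sum_ite_eq, if_pos h]
          · rw [if_neg h]
            symm
            refine Finset.sum_eq_zero fun j _ => ?_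
            rw [Finset.sum_ite_eq, if_neg h]
        simp only [e4]
        rw [Finset.sum_comm]
        refine Finset.sum_congr rfl fun j _ => ?_
        rw [Finset.sum_comm]
    _ = J.card * (T.card * U) := by
        simp only [hunif, Finset.sum_const, nsmul_eq_mul]

/-- **Mass of the small eigenvalues of the tilted state.** -/
theorem tilt_light (s : Site Ω X) (a : X → ℝ) (U : ℝ) (hU : 0 ≤ U)
    (hunif : ∀ j x, ∑ ω, (if s.pos ω = x then s.u j ω ^ 2 else 0) = U)
    (ha2 : ∑ x, a x ^ 2 * U = 1) (J : Finset Ω) (T : Finset X) {μ : ℝ} (hμ : 0 ≤ μ) :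
    ∑ m ∈ univ.filter (fun m => tb s a m ^ 2 < μ), tb s a m ^ 2 ≤
      μ * (J.card * (T.card * U)) + 3 * ∑ j ∈ Jᶜ, s.lam j + 2 * ∑ x ∈ Tᶜ, Pp s a x := by
  -- masses of the pieces
  set p1 : Ω → ℝ := fun m => ∑ ω, (if s.pos ω ∈ T then FJ s a J m ω ^ 2 else 0) with hp1
  set p2 : Ω → ℝ := fun m => ∑ ω, (if s.pos ω ∈ T then 0 else Fv s a m ω ^ 2) with hp2
  set p3 : Ω → ℝ := fun m => ∑ ω, FJ s a Jᶜ m ω ^ 2 with hp3
  have q1 : ∀ m, 0 ≤ p1 m := fun m => Finset.sum_nonneg fun ω _ => by split_ifs <;> positivity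
  have q2 : ∀ m, 0 ≤ p2 m := fun m => Finset.sum_nonneg fun ω _ => by split_ifs <;> positivity
  have q3 : ∀ m, 0 ≤ p3 m := fun m => Finset.sum_nonneg fun ω _ => sq_nonneg _
  have hsplit : ∀ m, tb s a m ^ 2 ≤ tb s a m ^ 2 * (p1 m + 2 * p2 m + 3 * p3 m) := by
    intro m
    by_cases h : tb s a m = 0
    · rw [h]; simp
    · have h1 : (1 : ℝ) = ∑ ω, FJ s a J m ω ^ 2 + p3 m := by
        have e1 := FJ_norm s a J m
        have e2 := FJ_norm s a Jᶜ m
        have e3 := kk_sq s a m
        rw [if_neg h, ← Finset.sum_add_sum_compl J] at e3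
        rw [hp3]
        simp only
        rw [e1, e2, e3]
      have h2 : ∑ ω, FJ s a J m ω ^ 2 ≤ p1 m + 2 * p2 m + 2 * p3 m := by
        rw [hp1, hp2, hp3]
        simp only [Finset.mul_sum]
        rw [← Finset.sum_add_distrib, ← Finset.sum_add_distrib]
        refine Finset.sum_le_sum fun ω _ => ?_
        have hs := Fv_split s a J m ω
        by_cases hT : s.pos ω ∈ T
        · simp only [if_pos hT]
          nlinarith [sq_nonneg (FJ s a Jᶜ m ω)]
        · simp only [if_neg hT]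
          rw [hs]
          nlinarith [sq_nonneg (FJ s a J m ω + 2 * FJ s a Jᶜ m ω)]
      have h3 : 1 ≤ p1 m + 2 * p2 m + 3 * p3 m := by linarith
      have := mul_le_mul_of_nonneg_left h3 (sq_nonneg (tb s a m))
      linarith
  have h4 : ∑ m, tb s a m ^ 2 * p3 m = ∑ j ∈ Jᶜ, s.lam j := by
    have e1 : ∀ m, tb s a m ^ 2 * p3 m = ∑ j ∈ Jᶜ, tb s a m ^ 2 * kk s a m j ^ 2 := by
      intro m
      rw [hp3]
      simp only
      rw [FJ_norm, Finset.mul_sum]
    simp only [e1]
    rw [Finset.sum_comm]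
    exact Finset.sum_congr rfl fun j _ => kk_weight s a U hunif ha2 j
  have h5 : ∑ m, tb s a m ^ 2 * p2 m = ∑ x ∈ Tᶜ, Pp s a x := by
    unfold Pp
    rw [Finset.sum_comm]
    refine Finset.sum_congr rfl fun m _ => ?_
    rw [← Finset.mul_sum]
    congr 1
    rw [Finset.sum_comm]
    refine Finset.sum_congr rfl fun ω _ => ?_
    rw [Finset.sum_ite_eq]
    by_cases h : s.pos ω ∈ T
    · rw [if_pos h, if_neg (by simpa using h)]
    · rw [if_neg h, if_pos (by simpa using h)]
  calc ∑ m ∈ univ.filter (fun m => tb s a m ^ 2 < μ), tb s a m ^ 2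
      ≤ ∑ m ∈ univ.filter (fun m => tb s a m ^ 2 < μ),
        (μ * p1 m + (2 * (tb s a m ^ 2 * p2 m) + 3 * (tb s a m ^ 2 * p3 m))) := by
        refine Finset.sum_le_sum fun m hm => (hsplit m).trans ?_
        have h6 : tb s a m ^ 2 ≤ μ := (Finset.mem_filter.mp hm).2.le
        have h7 := mul_le_mul_of_nonneg_right h6 (q1 m)
        nlinarith
    _ ≤ ∑ m, (μ * p1 m + (2 * (tb s a m ^ 2 * p2 m) + 3 * (tb s a m ^ 2 * p3 m))) := by
        refine Finset.sum_le_sum_of_subset_of_nonneg (Finset.filter_subset _ _) fun m _ _ => ?_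
        have := mul_nonneg hμ (q1 m)
        have := mul_nonneg (sq_nonneg (tb s a m)) (q2 m)
        have := mul_nonneg (sq_nonneg (tb s a m)) (q3 m)
        linarith
    _ = μ * ∑ m, p1 m + (2 * ∑ m, tb s a m ^ 2 * p2 m + 3 * ∑ m, tb s a m ^ 2 * p3 m) := by
        rw [Finset.sum_add_distrib, Finset.sum_add_distrib, Finset.mul_sum, Finset.mul_sum,
          Finset.mul_sum]
    _ ≤ _ := by
        rw [h4, h5]
        have h8 := mul_le_mul_of_nonneg_left (test_trace s a U hunif J T) hμ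
        linarith

end Pool.Agent.H712.NI
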