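import Pool.Agent.H712.NI.PairSite

/-! Entropies of noisy laws. -/

open Finset

namespace Pool.Agent.H712.NI

/-- the channel of independent bit flips -/
noncomputable def Wc {w : ℕ} (e : ℝ) (z y : Fin w → Fin 2) : ℝ :=
  ∏ k, (if z k = y k then 1 - e else e)

lemma Nz_eq {w : ℕ} (e : ℝ) (P : (Fin w → Fin 2) → ℝ) (z : Fin w → Fin 2) :
    Nz e P z = ∑ y, P y * Wc e z y := rfl

lemma Wc_nonneg {w : ℕ} {e : ℝ} (h0 : 0 ≤ e) (h1 : e ≤ 1) (z y : Fin w → Fin 2) :
    0 ≤ Wc e z y := by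
  unfold Wc
  refine Finset.prod_nonneg fun k _ => ?_
  split_ifs <;> linarith

lemma Wc_comm {w : ℕ} (e : ℝ) (z y : Fin w → Fin 2) : Wc e z y = Wc e y z := by
  unfold Wc
  refine Finset.prod_congr rfl fun k _ => ?_
  by_cases h : z k = y k
  · rw [if_pos h, if_pos h.symm]
  · rw [if_neg h, if_neg (Ne.symm h)]

lemma Wc_sum {w : ℕ} (e : ℝ) (y : Fin w → Fin 2) : ∑ z, Wc e z y = 1 := by
  unfold Wc
  have h := Fintype.prod_sum (fun (k : Fin w) (c : Fin 2) => if c = y k then 1 - e else e)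
  rw [← h]
  refine Finset.prod_eq_one fun k _ => ?_
  rw [Fin.sum_univ_two]
  rcases Pool.Agent.TH753.MB.fin2_cases (y k) with h | h <;> simp [h]

lemma Wc_sum' {w : ℕ} (e : ℝ) (z : Fin w → Fin 2) : ∑ y, Wc e z y = 1 := by
  simp only [Wc_comm e z]
  exact Wc_sum e z

/-- composition of two channels -/
lemma Wc_comp {w : ℕ} (e e' : ℝ) (z y : Fin w → Fin 2) :
    ∑ u, Wc e u y * Wc e' z u = Wc (e * (1 - e') + (1 - e) * e') z y := by
  unfold Wc
  simp only [← Finset.prod_mul_distrib]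
  have h := Fintype.prod_sum (fun (k : Fin w) (c : Fin 2) =>
    (if c = y k then 1 - e else e) * (if z k = c then 1 - e' else e'))
  rw [← h]
  refine Finset.prod_congr rfl fun k _ => ?_
  rw [Fin.sum_univ_two]
  rcases Pool.Agent.TH753.MB.fin2_cases (y k) with h | h <;>
    rcases Pool.Agent.TH753.MB.fin2_cases (z k) with h' | h' <;> simp [h, h'] <;> ring

lemma Nz_comp {w : ℕ} (e e' : ℝ) (P : (Fin w → Fin 2) → ℝ) (z : Fin w → Fin 2) :
    Nz e' (Nz e P) z = Nz (e * (1 - e') + (1 - e) * e') P z := by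
  simp only [Nz_eq, Finset.sum_mul]
  rw [Finset.sum_comm]
  refine Finset.sum_congr rfl fun y _ => ?_
  rw [← Wc_comp, Finset.mul_sum]
  exact Finset.sum_congr rfl fun u _ => by ring

lemma Nz_nonneg {w : ℕ} {e : ℝ} (h0 : 0 ≤ e) (h1 : e ≤ 1) {P : (Fin w → Fin 2) → ℝ}
    (hP : ∀ x, 0 ≤ P x) (z : Fin w → Fin 2) : 0 ≤ Nz e P z :=
  Finset.sum_nonneg fun y _ => mul_nonneg (hP y) (Wc_nonneg h0 h1 z y)

lemma Nz_sum {w : ℕ} (e : ℝ) (P : (Fin w → Fin 2) → ℝ) : ∑ z, Nz e P z = ∑ x, P x := by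
  simp only [Nz_eq]
  rw [Finset.sum_comm]
  refine Finset.sum_congr rfl fun y _ => ?_
  rw [← Finset.mul_sum, Wc_sum, mul_one]

/-- noise increases the entropy -/
lemma ent_Nz_ge {w : ℕ} {e : ℝ} (h0 : 0 ≤ e) (h1 : e ≤ 1) {P : (Fin w → Fin 2) → ℝ}
    (hP : ∀ x, 0 ≤ P x) : ∑ z, Real.negMulLog (P z) ≤ ∑ z, Real.negMulLog (Nz e P z) := by
  have h2 : ∀ z, ∑ y, Wc e z y * Real.negMulLog (P y) ≤ Real.negMulLog (Nz e P z) := by
    intro z
    have h3 := Real.concaveOn_negMulLog.le_map_sum (t := univ) (w := fun y => Wc e z y)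
      (p := P) (fun y _ => Wc_nonneg h0 h1 z y) (Wc_sum' e z) (fun y _ => hP y)
    simp only [smul_eq_mul] at h3
    refine h3.trans (le_of_eq ?_)
    congr 1
    exact Finset.sum_congr rfl fun y _ => mul_comm _ _
  calc ∑ z, Real.negMulLog (P z) = ∑ y, ∑ z, Wc e z y * Real.negMulLog (P y) := by
        refine Finset.sum_congr rfl fun y _ => ?_
        rw [← Finset.sum_mul, Wc_sum, one_mul]
    _ = ∑ z, ∑ y, Wc e z y * Real.negMulLog (P y) := Finset.sum_comm
    _ ≤ _ := Finset.sum_le_sum fun z _ => h2 z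

/-- more noise, more entropy -/
lemma ent_Nz_mono {w : ℕ} {e δ : ℝ} (h0 : 0 ≤ e) (h1 : e ≤ δ) (h2 : δ < 1 / 2)
    {P : (Fin w → Fin 2) → ℝ} (hP : ∀ x, 0 ≤ P x) :
    ∑ z, Real.negMulLog (Nz e P z) ≤ ∑ z, Real.negMulLog (Nz δ P z) := by
  have hd : 0 < 1 - 2 * e := by linarith
  set e' : ℝ := (δ - e) / (1 - 2 * e) with he'
  have h3 : 0 ≤ e' := div_nonneg (by linarith) hd.le
  have h4 : e' ≤ 1 := by
    rw [he', div_le_one hd]
    linarith
  have h5 : e * (1 - e') + (1 - e) * e' = δ := by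
    have h8 : e' * (1 - 2 * e) = δ - e := div_mul_cancel₀ _ hd.ne'
    linarith
  have h6 := ent_Nz_ge h3 h4 (Nz_nonneg h0 (by linarith) hP)
  have h7 : ∀ z, Nz e' (Nz e P) z = Nz δ P z := by
    intro z
    rw [Nz_comp, h5]
  simp only [h7] at h6
  exact h6

/-- the value functional -/
noncomputable def Vf {w : ℕ} (e c : ℝ) (m : (Fin w → Fin 2) → ℝ) : ℝ :=
  ∑ z, Real.negMulLog (Nz e m z) - Real.negMulLog (∑ x, m x) - w * c * ∑ x, m x

lemma Vf_continuous {w : ℕ} (e c : ℝ) : Continuous (Vf (w := w) e c) := by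
  unfold Vf
  simp only [Nz_eq]
  have h1 : ∀ z : Fin w → Fin 2, Continuous fun m : (Fin w → Fin 2) → ℝ =>
      Real.negMulLog (∑ y, m y * Wc e z y) := fun z =>
    Real.continuous_negMulLog.comp (continuous_finset_sum _ fun y _ =>
      (continuous_apply y).mul continuous_const)
  have h2 : Continuous fun m : (Fin w → Fin 2) → ℝ => ∑ x, m x :=
    continuous_finset_sum _ fun x _ => continuous_apply x
  exact ((continuous_finset_sum _ fun z _ => h1 z).sub
    (Real.continuous_negMulLog.comp h2)).sub (continuous_const.mul h2)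

lemma Vf_homog {w : ℕ} (e c : ℝ) (t : ℝ) (m : (Fin w → Fin 2) → ℝ) :
    Vf e c (fun x => t * m x) = t * Vf e c m := by
  have h1 : ∀ z, Nz e (fun x => t * m x) z = t * Nz e m z := by
    intro z
    simp only [Nz_eq, Finset.mul_sum]
    exact Finset.sum_congr rfl fun y _ => by ring
  unfold Vf
  simp only [h1, ← Finset.mul_sum, Real.negMulLog_mul, Finset.sum_add_distrib]
  rw [← Finset.sum_mul, Nz_sum]
  ring

lemma Vf_concave {w : ℕ} {e : ℝ} (h0 : 0 ≤ e) (h1 : e ≤ 1) (c : ℝ) (M : ℝ) :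
    ConcaveOn ℝ {m : (Fin w → Fin 2) → ℝ | (∀ z, 0 ≤ m z) ∧ ∑ z, m z = M} (Vf e c) := by
  refine ⟨?_, ?_⟩
  · rintro x ⟨hx1, hx2⟩ y ⟨hy1, hy2⟩ a b ha hb hab
    refine ⟨fun z => ?_, ?_⟩
    · simp only [Pi.add_apply, Pi.smul_apply, smul_eq_mul]
      have := mul_nonneg ha (hx1 z)
      have := mul_nonneg hb (hy1 z)
      linarith
    · simp only [Pi.add_apply, Pi.smul_apply, smul_eq_mul]
      rw [Finset.sum_add_distrib, ← Finset.mul_sum, ← Finset.mul_sum, hx2, hy2, ← add_mul, hab,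
        one_mul]
  · rintro x ⟨hx1, hx2⟩ y ⟨hy1, hy2⟩ a b ha hb hab
    have hs : ∑ z, (a • x + b • y) z = M := by
      simp only [Pi.add_apply, Pi.smul_apply, smul_eq_mul]
      rw [Finset.sum_add_distrib, ← Finset.mul_sum, ← Finset.mul_sum, hx2, hy2, ← add_mul, hab,
        one_mul]
    have hN : ∀ z, Nz e (a • x + b • y) z = a * Nz e x z + b * Nz e y z := by
      intro z
      simp only [Nz_eq, Pi.add_apply, Pi.smul_apply, smul_eq_mul, Finset.mul_sum]
      rw [← Finset.sum_add_distrib]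
      exact Finset.sum_congr rfl fun u _ => by ring
    unfold Vf
    rw [hs, hx2, hy2]
    simp only [hN, smul_eq_mul]
    have h3 : ∀ z, a * Real.negMulLog (Nz e x z) + b * Real.negMulLog (Nz e y z) ≤
        Real.negMulLog (a * Nz e x z + b * Nz e y z) := by
      intro z
      have := Real.concaveOn_negMulLog.2 (x := Nz e x z) (y := Nz e y z)
        (Nz_nonneg h0 h1 hx1 z) (Nz_nonneg h0 h1 hy1 z) ha hb hab
      simpa using this
    have h4 := Finset.sum_le_sum fun z (_ : z ∈ (univ : Finset (Fin w → Fin 2))) => h3 z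
    rw [Finset.sum_add_distrib, ← Finset.mul_sum, ← Finset.mul_sum] at h4
    have hb' : b = 1 - a := by linarith
    subst hb'
    linarith

end Pool.Agent.H712.NI
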