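import Pool.Agent.H712.NI.GOne
import Pool.Agent.H712.NI.GLight
import Pool.Agent.H712.NI.Noise

/-! Codes all of whose noisy words lie in a given set. -/

open Finset Filter

namespace Pool.Agent.H712.NI

open Pool.Agent.H390R2.LP Pool.Agent.H235R2.QLP Pool.Agent.TH753.MB

/-- the uniform law on a finite set -/
noncomputable def ul {X : Type} [DecidableEq X] (C : Finset X) (x : X) : ℝ :=
  if x ∈ C then (C.card : ℝ)⁻¹ else 0

lemma ul_nonneg {X : Type} [DecidableEq X] (C : Finset X) (x : X) : 0 ≤ ul C x := by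
  unfold ul
  split_ifs
  · positivity
  · exact le_rfl

lemma ul_sum {X : Type} [DecidableEq X] [Fintype X] (C : Finset X) (hC : C.Nonempty) :
    ∑ x, ul C x = 1 := by
  unfold ul
  rw [← Finset.sum_filter]
  have : univ.filter (fun x => x ∈ C) = C := by ext; simp
  rw [this, Finset.sum_const, nsmul_eq_mul, mul_inv_cancel₀]
  exact_mod_cast (Finset.card_pos.mpr hC).ne'

/-- mass of the heavy labels of a tilted invariant site -/
lemma tilt_heavy {Ω X : Type} [Fintype Ω] [DecidableEq Ω] [Fintype X] [DecidableEq X]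
    [AddCommGroup X] {s : Site Ω X} {τ : X → Equiv.Perm Ω} (hs : Inv s τ) (C : Finset X)
    (hC : C.Nonempty) {γ0 : ℝ} (hγ0 : 0 ≤ γ0) :
    ∑ c ∈ univ.filter (fun c => ¬ (hs.tl (ul C) (ul_nonneg C) (ul_sum C hC)).g c ≤
      (Fintype.card X : ℝ) / C.card * γ0), (hs.tl (ul C) (ul_nonneg C) (ul_sum C hC)).g c ≤
      ∑ c ∈ univ.filter (fun c => ¬ s.g c ≤ γ0), s.g c := by
  have hN := cardX_pos (X := X)
  have hCR : (0 : ℝ) < C.card := by exact_mod_cast Finset.card_pos.mpr hC
  have hg : ∀ c, (hs.tl (ul C) (ul_nonneg C) (ul_sum C hC)).g c =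
      (Fintype.card X : ℝ) * ul C (s.lab c) * s.g c := by
    intro c
    show av (ul C) (s.lab c) ^ 2 * s.g c = _
    rw [av_sq _ (ul_nonneg C)]
  set φ : ℝ → ℝ := fun y => if y ≤ γ0 then 0 else y with hφ
  have h1 : ∀ c, (if ¬ (hs.tl (ul C) (ul_nonneg C) (ul_sum C hC)).g c ≤
      (Fintype.card X : ℝ) / C.card * γ0 then
      (hs.tl (ul C) (ul_nonneg C) (ul_sum C hC)).g c else 0) =
      (Fintype.card X : ℝ) * ul C (s.lab c) * φ (s.g c) := by
    intro c
    rw [hg]
    by_cases hc : s.lab c ∈ C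
    · have e1 : ul C (s.lab c) = (C.card : ℝ)⁻¹ := by unfold ul; rw [if_pos hc]
      rw [e1]
      have e2 : (Fintype.card X : ℝ) * (C.card : ℝ)⁻¹ * s.g c ≤
          (Fintype.card X : ℝ) / C.card * γ0 ↔ s.g c ≤ γ0 := by
        rw [← div_eq_mul_inv]
        exact mul_le_mul_iff_right₀ (by positivity)
      by_cases h : s.g c ≤ γ0
      · rw [if_neg (not_not.mpr (e2.mpr h)), hφ]
        simp only [if_pos h, mul_zero]
      · rw [if_pos (fun h' => h (e2.mp h')), hφ]
        simp only [if_neg h]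
    · have e1 : ul C (s.lab c) = 0 := by unfold ul; rw [if_neg hc]
      rw [e1]
      simp
  rw [Finset.sum_filter, Finset.sum_congr rfl fun c _ => h1 c]
  have h2 : ∑ c, (Fintype.card X : ℝ) * ul C (s.lab c) * φ (s.g c) =
      ∑ x, (Fintype.card X : ℝ) * ul C x * ∑ c ∈ univ.filter (fun c => s.lab c = x), φ (s.g c) := by
    rw [← Finset.sum_fiberwise univ s.lab]
    refine Finset.sum_congr rfl fun x _ => ?_
    rw [Finset.mul_sum]
    refine Finset.sum_congr rfl fun c hc => ?_
    rw [(Finset.mem_filter.mp hc).2]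
  rw [h2]
  simp only [hs.fiber φ]
  rw [← Finset.sum_mul, ← Finset.mul_sum, ul_sum C hC, mul_one, ← mul_assoc,
    mul_inv_cancel₀ hN.ne', one_mul, Finset.sum_filter]
  refine le_of_eq (Finset.sum_congr rfl fun c _ => ?_)
  simp only [hφ]
  by_cases h : s.g c ≤ γ0
  · simp [h]
  · simp [h]

/-- number of heavy atoms -/
lemma card_heavy {Ω : Type} [Fintype Ω] (p : Ω → ℝ) (hp : ∀ o, 0 ≤ p o) (h1 : ∑ o, p o ≤ 1)
    {t : ℝ} (ht : 0 < t) (J : Finset Ω) (hJ : ∀ o ∈ J, t ≤ p o) : (J.card : ℝ) ≤ t⁻¹ := by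
  have h2 : (J.card : ℝ) * t ≤ 1 := by
    calc (J.card : ℝ) * t = ∑ o ∈ J, t := by rw [Finset.sum_const, nsmul_eq_mul]
      _ ≤ ∑ o ∈ J, p o := Finset.sum_le_sum hJ
      _ ≤ ∑ o, p o := Finset.sum_le_sum_of_subset_of_nonneg (Finset.subset_univ _)
          fun o _ _ => hp o
      _ ≤ 1 := h1
  rw [← one_div, le_div_iff₀ ht]
  exact h2

variable {ι : Type} [Fintype ι] [DecidableEq ι]

/-- **Codes and noise: one shot.** If the noisy words of a code of large distance mostly lie in
a set, then the code is exponentially smaller than the set. -/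
theorem set_bound (d : Pair ι) {δ : ℝ} (he0 : 0 ≤ EH d.site) (he : EH d.site < δ) {ε : ℝ}
    (hε : 0 < ε) : ∃ η : ℝ, 0 < η ∧ ∃ n0 : ℕ, ∀ n ≥ n0, ∀ C T : Finset (Fin n → Fin 2),
      C.Nonempty → (∀ x ∈ C, ∀ y ∈ C, x ≠ y → δ * n ≤ ∑ k, (sg (x k) / 2 - sg (y k) / 2) ^ 2) →
      ∑ z ∈ Tᶜ, Nz (EH d.site) (ul C) z ≤ η →
      (C.card : ℝ) ≤ T.card * Real.exp (n * (ε - cc d.site)) := by
  set e := EH d.site with hedef
  set cst := cc d.site with hcdef
  set S1 := d.site.S with hS1
  set h1 := d.site.h with hh1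
  have hcc : cst = h1 - S1 := rfl
  have hδ : 0 < δ := by linarith
  set c0 : ℝ := 1 - e / δ with hc0
  have hc0pos : 0 < c0 := by
    rw [hc0, sub_pos, div_lt_one hδ]; exact he
  have hc01 : c0 ≤ 1 := by
    have : 0 ≤ e / δ := div_nonneg he0 hδ.le
    rw [hc0]; linarith
  set r : ℝ := c0 / 16 with hr
  have hr0 : 0 < r := by positivity
  have hr1 : r ≤ 1 := by linarith
  set ε' : ℝ := ε / 3 with hε'
  have hε'0 : 0 < ε' := by positivity
  set V1 : ℝ := ∑ o, d.site.lam o * (-Real.log (d.site.lam o) -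
        ∑ o', Real.negMulLog (d.site.lam o')) ^ 2 with hV1
  set V2 : ℝ := ∑ o, d.site.g o * (-Real.log (d.site.g o) -
        ∑ o', Real.negMulLog (d.site.g o')) ^ 2 with hV2
  -- small terms
  have e1 : ∀ᶠ n : ℕ in atTop, V1 / (n * ε' ^ 2) < c0 / 32 := by
    have : Tendsto (fun n : ℕ => V1 / (n * ε' ^ 2)) atTop (nhds 0) := by
      refine Tendsto.const_div_atTop ?_ V1
      exact tendsto_natCast_atTop_atTop.atTop_mul_const (by positivity)
    exact this.eventually_lt_const (by positivity)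
  have e2 : ∀ᶠ n : ℕ in atTop, V2 / (n * ε' ^ 2) < c0 / 16 := by
    have : Tendsto (fun n : ℕ => V2 / (n * ε' ^ 2)) atTop (nhds 0) := by
      refine Tendsto.const_div_atTop ?_ V2
      exact tendsto_natCast_atTop_atTop.atTop_mul_const (by positivity)
    exact this.eventually_lt_const (by positivity)
  have e3 : ∀ᶠ n : ℕ in atTop, Real.exp (-(n * (ε' / 2))) / (r * √r) < c0 / 16 := by
    have h : Tendsto (fun n : ℕ => Real.exp (-(n * (ε' / 2))) / (r * √r)) atTop
        (nhds (0 / (r * √r))) := by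
      refine Tendsto.div_const ?_ _
      refine Real.tendsto_exp_neg_atTop_nhds_zero.comp ?_
      exact tendsto_natCast_atTop_atTop.atTop_mul_const (by positivity)
    rw [zero_div] at h
    exact h.eventually_lt_const (by positivity)
  obtain ⟨n0, hn0⟩ := eventually_atTop.mp ((e1.and (e2.and e3)).and (eventually_ge_atTop 1))
  refine ⟨c0 / 16, by positivity, n0, fun n hn C T hC hdist hT => ?_⟩
  obtain ⟨⟨a1, a2, a3⟩, hn1⟩ := hn0 n hn
  have hnR : (0 : ℝ) < n := by exact_mod_cast hn1
  by_contra hcon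
  push Not at hcon
  have hCR : (0 : ℝ) < C.card := by exact_mod_cast Finset.card_pos.mpr hC
  set P := ul C with hPdef
  have hP := ul_nonneg C
  have hP1 := ul_sum C hC
  -- `T` is not empty
  have hTne : T.Nonempty := by
    rw [Finset.nonempty_iff_ne_empty]
    intro h
    rw [h, Finset.compl_empty, Nz_sum, hP1] at hT
    linarith
  have hTR : (0 : ℝ) < T.card := by exact_mod_cast Finset.card_pos.mpr hTne
  set N : ℝ := (Fintype.card (Fin n → Fin 2) : ℝ) with hN
  have hN0 : 0 < N := cardX_pos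
  set s := psite d.site n with hsdef
  have hs : Inv s (ptau tau1) := psite_inv (w := n) (pair_inv d)
  set s' := hs.tl P hP hP1 with hs'
  set a := av P with ha
  -- typical eigenvalues of the product state
  set J : Finset (Fin n → Fin 2 × ι) := univ.filter (fun j =>
    ¬ ∏ k, d.site.lam (j k) < Real.exp (-(∑ _k : Fin n, ∑ o, Real.negMulLog (d.site.lam o) +
      n * ε'))) with hJ
  have hlamsum : ∑ j, s.lam j = 1 := s.lam_sum
  have hSe : ∑ _k : Fin n, ∑ o, Real.negMulLog (d.site.lam o) = n * S1 := by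
    rw [Finset.sum_const, Finset.card_univ, Fintype.card_fin, nsmul_eq_mul]; rfl
  have hhe : ∑ _k : Fin n, ∑ o, Real.negMulLog (d.site.g o) = n * h1 := by
    rw [Finset.sum_const, Finset.card_univ, Fintype.card_fin, nsmul_eq_mul]; rfl
  have hJcard : (J.card : ℝ) ≤ Real.exp (n * S1 + n * ε') := by
    have := card_heavy s.lam s.lam_nonneg hlamsum.le
      (Real.exp_pos (-(n * S1 + n * ε'))) J (by
        intro j hj
        rw [hJ, Finset.mem_filter, hSe] at hj
        exact not_lt.mp hj.2)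
    rwa [← Real.exp_neg, neg_neg] at this
  have hJc : ∑ j ∈ Jᶜ, s.lam j ≤ c0 / 32 := by
    have h2 := aep_light (K := Fin n) (fun _ => d.site.lam) (fun _ => d.site.lam_nonneg)
      (fun _ => d.site.lam_sum) (δ := n * ε') (V := n * V1) (by positivity) (by
        rw [Finset.sum_const, Finset.card_univ, Fintype.card_fin, nsmul_eq_mul])
    have h3 : Jᶜ = univ.filter (fun j : Fin n → Fin 2 × ι => ∏ k, d.site.lam (j k) <
        Real.exp (-(∑ _k : Fin n, ∑ o, Real.negMulLog (d.site.lam o) + n * ε'))) := by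
      ext j; simp [hJ]
    rw [h3]
    refine h2.trans ?_
    have : (n : ℝ) * V1 / (n * ε') ^ 2 = V1 / (n * ε' ^ 2) := by field_simp
    rw [this]
    exact a1.le
  -- heavy labels
  set γ0 : ℝ := Real.exp (-(n * h1 - n * ε')) with hγ0
  have hGh : ∑ c ∈ univ.filter (fun c => ¬ s.g c ≤ γ0), s.g c ≤ c0 / 16 := by
    have h2 := aep_heavy (K := Fin n) (fun _ => d.site.g)
      (fun _ => Pool.Agent.H703R2.LP.site_g_nonneg d.site)
      (fun _ => Pool.Agent.H703R2.LP.site_g_sum d.site) (δ := n * ε') (V := n * V2)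
      (by positivity) (by
        rw [Finset.sum_const, Finset.card_univ, Fintype.card_fin, nsmul_eq_mul])
    rw [hhe] at h2
    refine le_trans h2 ?_
    have : (n : ℝ) * V2 / (n * ε') ^ 2 = V2 / (n * ε' ^ 2) := by field_simp
    rw [this]
    exact a2.le
  -- the threshold
  set μ : ℝ := r * N * Real.exp (-(n * S1 + n * ε')) / T.card with hμ
  have hμ0 : 0 < μ := by positivity
  set τ : ℝ := r * √μ with hτ
  have hτ0 : 0 < τ := by positivity
  have hτr : (τ / r) ^ 2 = μ := by
    rw [hτ, mul_div_cancel_left₀ _ hr0.ne', Real.sq_sqrt hμ0.le]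
  set γ : ℝ := N / C.card * γ0 with hγ
  have hγpos : 0 < γ := by positivity
  have haU : ∑ x, a x ^ 2 * N⁻¹ = 1 := by
    have : ∀ x, a x ^ 2 * N⁻¹ = P x := fun x => by
      rw [ha, av_sq P hP, ← hN, mul_comm N, mul_assoc, mul_inv_cancel₀ hN0.ne', mul_one]
    simp only [this]
    exact hP1
  have hA : ∑ m ∈ univ.filter (fun m => s'.lam m < (τ / r) ^ 2), s'.lam m ≤
      r + 3 * (c0 / 32) + 2 * (c0 / 16) := by
    rw [hτr]
    have h2 := tilt_light s a N⁻¹ (by positivity) hs.unif haU J T hμ0.le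
    refine le_trans h2 ?_
    have h3 : μ * (J.card * (T.card * N⁻¹)) ≤ r := by
      have h4 : (J.card : ℝ) * (T.card * N⁻¹) ≤
          Real.exp (n * S1 + n * ε') * (T.card * N⁻¹) :=
        mul_le_mul_of_nonneg_right hJcard (by positivity)
      refine (mul_le_mul_of_nonneg_left h4 hμ0.le).trans (le_of_eq ?_)
      rw [hμ, Real.exp_neg]
      have := (Real.exp_pos (n * S1 + n * ε')).ne'
      field_simp
    have h5 : ∑ x ∈ Tᶜ, Pp s a x ≤ c0 / 16 := by
      refine le_trans (le_of_eq ?_) hT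
      refine Finset.sum_congr rfl fun z _ => ?_
      rw [hsdef, psite_Pp]
      unfold Nz
      refine Finset.sum_congr rfl fun y _ => ?_
      rw [ha, av_sq P hP]
      have h6 : ∀ k, (if z k = y k then 1 - e else e) =
          2 * m1 d.site (z k) (y k) := fun k => (pair_m1 d (z k) (y k)).symm
      simp only [h6]
      rw [Finset.prod_mul_distrib, Finset.prod_const, Finset.card_univ, Fintype.card_fin,
        Fintype.card_fun, Fintype.card_fin, Fintype.card_fin]
      push_cast
      ring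
    linarith
  have hG : ∑ c ∈ univ.filter (fun c => ¬ s'.g c ≤ γ), s'.g c ≤ c0 / 16 :=
    (tilt_heavy hs C hC (Real.exp_pos _).le).trans hGh
  have key := one_site s' (fun (i : Fin n) (x : Fin n → Fin 2) => sg (x i) / 2) hτ0 hγpos.le
    hr0 hr1 C (d := δ * n) (by positivity) hdist (by
      intro x hx
      rw [hs', hs.tl_P]
      rw [hPdef]
      unfold ul
      rw [if_neg hx]) hA hG
  have hE : s'.E (fun (i : Fin n) (x : Fin n → Fin 2) => sg (x i) / 2) ≤ n * e := by
    have g1 := hs.tl_E P hP hP1 (fun (i : Fin n) (x : Fin n → Fin 2) => sg (x i) / 2)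
      (fun i t => sg (t i)) (fun i t => by
        have := sg_mul_self (t i)
        rw [sq]; exact this)
      (fun i x t => by
        show sg (x i + t i) / 2 = _
        rw [sg_add]; ring) (1 / 4) (fun i x => by
        have := sg_mul_self (x i)
        linear_combination this / 4)
    have g2 := psite_E (w := n) d.site (fun x => sg x / 2)
    rw [site_E_sg] at g2
    exact g1.trans g2.le
  -- the diagonal term
  have hdiag : √γ / τ ≤ Real.exp (-(n * (ε' / 2))) / (r * √r) := by
    have h2 : γ ≤ Real.exp (-(n * ε')) * (μ / r) := by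
      have h3 : γ = N * γ0 / C.card := by rw [hγ]; ring
      rw [h3, div_le_iff₀ hCR]
      have h4 : Real.exp (-(n * ε')) * (μ / r) = N * (Real.exp (-(n * S1 + 2 * (n * ε'))) /
          T.card) := by
        rw [hμ]
        have : Real.exp (-(n * S1 + 2 * (n * ε'))) = Real.exp (-(n * ε')) *
          Real.exp (-(n * S1 + n * ε')) := by rw [← Real.exp_add]; congr 1; ring
        rw [this]
        field_simp
      rw [h4]
      have h5 : γ0 ≤ Real.exp (-(n * S1 + 2 * (n * ε'))) / T.card * C.card := by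
        have h6 : γ0 = Real.exp (-(n * S1 + 2 * (n * ε'))) * Real.exp (n * (ε - cst)) := by
          rw [hγ0, ← Real.exp_add]
          congr 1
          rw [hcc, hε']
          ring
        rw [h6, div_mul_eq_mul_div, mul_div_assoc]
        refine mul_le_mul_of_nonneg_left ?_ (Real.exp_pos _).le
        rw [le_div_iff₀ hTR]
        linarith
      calc N * γ0 ≤ N * (Real.exp (-(n * S1 + 2 * (n * ε'))) / T.card * C.card) :=
            mul_le_mul_of_nonneg_left h5 hN0.le
        _ = _ := by ring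
    rw [div_le_div_iff₀ hτ0 (by positivity)]
    have h7 : √γ ≤ Real.exp (-(n * (ε' / 2))) * (√μ / √r) := by
      calc √γ ≤ √(Real.exp (-(n * ε')) * (μ / r)) := Real.sqrt_le_sqrt h2
        _ = Real.exp (-(n * (ε' / 2))) * (√μ / √r) := by
          rw [Real.sqrt_mul (Real.exp_pos _).le, Real.sqrt_div' _ hr0.le]
          congr 1
          rw [← Real.exp_half]
          congr 1
          ring
    calc √γ * (r * √r) ≤ Real.exp (-(n * (ε' / 2))) * (√μ / √r) * (r * √r) :=
          mul_le_mul_of_nonneg_right h7 (by positivity)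
      _ = Real.exp (-(n * (ε' / 2))) * τ := by
          rw [hτ]
          have : √r ≠ 0 := (Real.sqrt_pos.mpr hr0).ne'
          field_simp
  -- contradiction
  have h8 : 1 - c0 / 2 - c0 / 16 ≤ 1 - (r + 3 * (c0 / 32) + 2 * (c0 / 16)) - 2 * r -
      √γ / τ - c0 / 16 := by
    rw [hr] at *
    linarith
  have h9 : δ * n * (1 - c0 / 2 - c0 / 16) ≤ n * e :=
    (mul_le_mul_of_nonneg_left h8 (by positivity)).trans (key.trans hE)
  have h10 : δ * (1 - c0 / 2 - c0 / 16) ≤ e := by
    have : n * (δ * (1 - c0 / 2 - c0 / 16)) ≤ n * e := by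
      calc _ = δ * n * (1 - c0 / 2 - c0 / 16) := by ring
        _ ≤ _ := h9
    exact le_of_mul_le_mul_left this hnR
  have h11 : δ * (1 - c0) = e := by
    rw [hc0]; field_simp; ring
  have h12 : 0 < δ * c0 := by positivity
  linarith

end Pool.Agent.H712.NI
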