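import Pool.Agent.H712.NI.GVar
import Pool.Agent.H712.NI.GSet

/-! The functional form of the bound: codes and Lipschitz functions. -/

open Finset Filter

namespace Pool.Agent.H712.NI

open Pool.Agent.H390R2.LP Pool.Agent.H235R2.QLP Pool.Agent.TH753.MB

/-- changes of single letters change `F` by at most `L` -/
def Lip {n : ℕ} (L : ℝ) (F : (Fin n → Fin 2) → ℝ) : Prop :=
  ∀ z k b, |F (Function.update z k b) - F z| ≤ L

/-- expectation of `F` at the word obtained from `x` by independent flips -/
noncomputable def nf {n : ℕ} (e : ℝ) (F : (Fin n → Fin 2) → ℝ) (x : Fin n → Fin 2) : ℝ :=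
  ∑ z, Wc e z x * F z

lemma nf_eq_ex {n : ℕ} (e : ℝ) (F : (Fin n → Fin 2) → ℝ) (x : Fin n → Fin 2) :
    nf e F x = ex (fun k b => if b = x k then 1 - e else e) F := rfl

lemma flip_sum (e : ℝ) (x : Fin 2) : (if (0 : Fin 2) = x then 1 - e else e) +
    (if (1 : Fin 2) = x then 1 - e else e) = 1 := by
  rcases fin2_cases x with rfl | rfl <;> norm_num

lemma nf_comp {n : ℕ} (e e' : ℝ) (F : (Fin n → Fin 2) → ℝ) (x : Fin n → Fin 2) :
    nf e (nf e' F) x = nf (e * (1 - e') + (1 - e) * e') F x := by
  unfold nf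
  simp only [Finset.mul_sum]
  rw [Finset.sum_comm]
  refine Finset.sum_congr rfl fun z _ => ?_
  rw [← Wc_comp, Finset.sum_mul]
  exact Finset.sum_congr rfl fun u _ => by ring

/-- noise as the addition of an independent word -/
lemma nf_shift {n : ℕ} (e : ℝ) (F : (Fin n → Fin 2) → ℝ) (x : Fin n → Fin 2) :
    nf e F x = ∑ v, Wc e v 0 * F (x + v) := by
  unfold nf
  rw [← Equiv.sum_comp (Equiv.addLeft x)]
  refine Finset.sum_congr rfl fun v _ => ?_
  congr 1
  unfold Wc
  refine Finset.prod_congr rfl fun k _ => ?_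
  have : (Equiv.addLeft x v) k = x k ↔ v k = (0 : Fin n → Fin 2) k := by
    show x k + v k = x k ↔ v k = 0
    constructor
    · intro h; exact add_left_cancel (h.trans (add_zero _).symm)
    · intro h; rw [h, add_zero]
  simp only [this]

lemma nf_lip {n : ℕ} {e L : ℝ} (h0 : 0 ≤ e) (h1 : e ≤ 1) {F : (Fin n → Fin 2) → ℝ}
    (hF : Lip L F) : Lip L (nf e F) := by
  intro z k b
  rw [nf_shift, nf_shift, ← Finset.sum_sub_distrib]
  refine (Finset.abs_sum_le_sum_abs _ _).trans ?_
  have h2 : ∀ v : Fin n → Fin 2, |Wc e v 0 * F (Function.update z k b + v) -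
      Wc e v 0 * F (z + v)| ≤ Wc e v 0 * L := by
    intro v
    rw [← mul_sub, abs_mul, abs_of_nonneg (Wc_nonneg h0 h1 v 0)]
    refine mul_le_mul_of_nonneg_left ?_ (Wc_nonneg h0 h1 v 0)
    have : Function.update z k b + v = Function.update (z + v) k (b + v k) := by
      funext i
      by_cases h : i = k
      · subst h; simp
      · simp [h]
    rw [this]
    exact hF _ _ _
  refine (Finset.sum_le_sum fun v _ => h2 v).trans (le_of_eq ?_)
  rw [← Finset.sum_mul, Wc_sum, one_mul]

lemma nf_exp {n : ℕ} {e : ℝ} (h0 : 0 ≤ e) (h1 : e ≤ 1) (F : (Fin n → Fin 2) → ℝ) :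
    ∑ z, Real.exp (-nf e F z) ≤ ∑ z, Real.exp (-F z) := by
  calc ∑ z, Real.exp (-nf e F z) ≤ ∑ z, ∑ u, Wc e u z * Real.exp (-F u) := by
        refine Finset.sum_le_sum fun z _ => ?_
        have h2 := convexOn_exp.map_sum_le (t := univ) (w := fun u => Wc e u z)
          (p := fun u => -F u) (fun u _ => Wc_nonneg h0 h1 u z) (Wc_sum e z)
          (fun u _ => Set.mem_univ _)
        simp only [smul_eq_mul] at h2
        refine le_trans (le_of_eq ?_) h2
        congr 1
        unfold nf
        rw [← Finset.sum_neg_distrib]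
        exact Finset.sum_congr rfl fun _ _ => by ring
    _ = ∑ z, Real.exp (-F z) := by
        rw [Finset.sum_comm]
        refine Finset.sum_congr rfl fun u _ => ?_
        rw [← Finset.sum_mul, Wc_sum', one_mul]

lemma nf_dist {n : ℕ} {e L : ℝ} (h0 : 0 ≤ e) (h1 : e ≤ 1) {F : (Fin n → Fin 2) → ℝ}
    (hF : Lip L F) (x : Fin n → Fin 2) : |nf e F x - F x| ≤ n * L := by
  have hL : ∀ (S : Finset (Fin n)) (z : Fin n → Fin 2),
      |F (fun k => if k ∈ S then z k else x k) - F x| ≤ S.card * L := by
    intro S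
    induction S using Finset.induction_on with
    | empty => intro z; simp
    | insert a S ha ih =>
      intro z
      have h2 : (fun k => if k ∈ insert a S then z k else x k) =
          Function.update (fun k => if k ∈ S then z k else x k) a (z a) := by
        funext k
        by_cases hk : k = a
        · subst hk; simp
        · simp [hk]
      rw [h2, Finset.card_insert_of_notMem ha]
      have h3 := hF (fun k => if k ∈ S then z k else x k) a (z a)
      have h4 := ih z
      calc _ ≤ |F (Function.update (fun k => if k ∈ S then z k else x k) a (z a)) -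
            F (fun k => if k ∈ S then z k else x k)| +
            |F (fun k => if k ∈ S then z k else x k) - F x| := abs_sub_le _ _ _
        _ ≤ L + S.card * L := add_le_add h3 h4
        _ = _ := by push_cast; ring
  have h5 : nf e F x - F x = ∑ z, Wc e z x * (F z - F x) := by
    unfold nf
    simp only [mul_sub, Finset.sum_sub_distrib, ← Finset.sum_mul]
    rw [Wc_sum, one_mul]
  rw [h5]
  refine (Finset.abs_sum_le_sum_abs _ _).trans ?_
  calc ∑ z, |Wc e z x * (F z - F x)| ≤ ∑ z, Wc e z x * (n * L) := by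
        refine Finset.sum_le_sum fun z _ => ?_
        rw [abs_mul, abs_of_nonneg (Wc_nonneg h0 h1 z x)]
        refine mul_le_mul_of_nonneg_left ?_ (Wc_nonneg h0 h1 z x)
        have := hL univ z
        simpa using this
    _ = n * L := by rw [← Finset.sum_mul, Wc_sum, one_mul]

variable {ι : Type} [Fintype ι] [DecidableEq ι]

/-- The bound for the words at which the mean of `F` is small. -/
theorem level_bound (d : Pair ι) {δ : ℝ} (he0 : 0 ≤ EH d.site) (he : EH d.site < δ)
    (hδ : δ < 1 / 2) {L : ℝ} {ε : ℝ} (hε : 0 < ε) : ∃ n0 : ℕ, 0 < n0 ∧ ∀ n ≥ n0,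
      ∀ F : (Fin n → Fin 2) → ℝ, Lip L F → ∀ C : Finset (Fin n → Fin 2),
      (∀ x ∈ C, ∀ y ∈ C, x ≠ y → δ * n ≤ ∑ k, (sg (x k) / 2 - sg (y k) / 2) ^ 2) →
      ∀ B : ℝ, (∀ x ∈ C, nf δ F x ≤ B) →
      (C.card : ℝ) ≤ Real.exp (B + n * (ε - cc d.site)) * ∑ z, Real.exp (-F z) := by
  obtain ⟨η, hη, n1, hn1⟩ := set_bound d he0 he (ε := ε / 2) (by positivity)
  set e := EH d.site with hedef
  set e' : ℝ := (δ - e) / (1 - 2 * e) with he'
  have hd : 0 < 1 - 2 * e := by linarith
  have h3 : 0 ≤ e' := div_nonneg (by linarith) hd.le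
  have h4 : e' ≤ 1 := by
    rw [he', div_le_one hd]
    linarith
  have h5 : e * (1 - e') + (1 - e) * e' = δ := by
    have h8 : e' * (1 - 2 * e) = δ - e := div_mul_cancel₀ _ hd.ne'
    linarith
  have e1 : ∀ᶠ n : ℕ in atTop, L ^ 2 / (n * (ε / 2) ^ 2) < η := by
    have : Tendsto (fun n : ℕ => L ^ 2 / (n * (ε / 2) ^ 2)) atTop (nhds 0) := by
      refine Tendsto.const_div_atTop ?_ _
      exact tendsto_natCast_atTop_atTop.atTop_mul_const (by positivity)
    exact this.eventually_lt_const hη
  obtain ⟨n2, hn2⟩ := eventually_atTop.mp e1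
  refine ⟨max 1 (max n1 n2), lt_of_lt_of_le one_pos (le_max_left _ _),
    fun n hn F hF C hdist B hB => ?_⟩
  have hnp : 0 < n := lt_of_lt_of_le one_pos ((le_max_left _ _).trans hn)
  have hnn1 : n1 ≤ n := ((le_max_left _ _).trans (le_max_right _ _)).trans hn
  have hnn2 : n2 ≤ n := ((le_max_right _ _).trans (le_max_right _ _)).trans hn
  rcases C.eq_empty_or_nonempty with rfl | hC
  · simp only [Finset.card_empty, Nat.cast_zero]
    exact mul_nonneg (Real.exp_pos _).le (Finset.sum_nonneg fun z _ => (Real.exp_pos _).le)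
  set Ft := nf e' F with hFt
  have hFtL : Lip L Ft := nf_lip h3 h4 hF
  set T : Finset (Fin n → Fin 2) := univ.filter fun z => Ft z ≤ B + n * (ε / 2) with hT
  have key := hn1 n hnn1 C T hC hdist (by
    have h6 : Tᶜ = univ.filter fun z => ¬ Ft z ≤ B + n * (ε / 2) := by ext z; simp [hT]
    rw [h6]
    unfold Nz
    rw [Finset.sum_comm]
    calc ∑ y, ∑ z ∈ univ.filter (fun z => ¬ Ft z ≤ B + n * (ε / 2)),
          ul C y * ∏ k, (if z k = y k then 1 - e else e)
        ≤ ∑ y, ul C y * η := by
          refine Finset.sum_le_sum fun y _ => ?_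
          rw [← Finset.mul_sum]
          by_cases hy : y ∈ C
          · refine mul_le_mul_of_nonneg_left ?_ (ul_nonneg C y)
            have h7 := cheb_lip hnp (fun k b => if b = y k then 1 - e else e)
              (fun k b => by split_ifs <;> linarith) (fun k => flip_sum e (y k)) Ft L hFtL
              (B := B) (t := ε / 2) (by positivity) (by
                rw [← nf_eq_ex, hFt, nf_comp, h5]
                exact hB y hy)
            exact h7.trans (hn2 n hnn2).le
          · unfold ul
            rw [if_neg hy]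
            simp
      _ = η := by rw [← Finset.sum_mul, ul_sum C hC, one_mul])
  refine key.trans ?_
  have h8 : (T.card : ℝ) ≤ Real.exp (B + n * (ε / 2)) * ∑ z, Real.exp (-F z) := by
    calc (T.card : ℝ) = ∑ z ∈ T, (1 : ℝ) := by rw [Finset.sum_const, nsmul_eq_mul, mul_one]
      _ ≤ ∑ z ∈ T, Real.exp (B + n * (ε / 2)) * Real.exp (-Ft z) := by
          refine Finset.sum_le_sum fun z hz => ?_
          rw [← Real.exp_add]
          have := (Finset.mem_filter.mp hz).2
          exact Real.one_le_exp (by linarith)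
      _ ≤ ∑ z, Real.exp (B + n * (ε / 2)) * Real.exp (-Ft z) :=
          Finset.sum_le_sum_of_subset_of_nonneg (Finset.filter_subset _ _)
            fun z _ _ => by positivity
      _ = Real.exp (B + n * (ε / 2)) * ∑ z, Real.exp (-Ft z) := by rw [Finset.mul_sum]
      _ ≤ _ := mul_le_mul_of_nonneg_left (nf_exp h3 h4 F) (Real.exp_pos _).le
  calc (T.card : ℝ) * Real.exp (n * (ε / 2 - cc d.site))
      ≤ (Real.exp (B + n * (ε / 2)) * ∑ z, Real.exp (-F z)) *
        Real.exp (n * (ε / 2 - cc d.site)) :=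
        mul_le_mul_of_nonneg_right h8 (Real.exp_pos _).le
    _ = _ := by
        rw [mul_right_comm, ← Real.exp_add]
        congr 2
        ring

/-- **The functional form.** -/
theorem functional (d : Pair ι) {δ : ℝ} (he0 : 0 ≤ EH d.site) (he : EH d.site < δ)
    (hδ : δ < 1 / 2) {L : ℝ} (hL : 0 ≤ L) {ε : ℝ} (hε : 0 < ε) : ∃ n0 : ℕ, ∀ n ≥ n0,
      ∀ F : (Fin n → Fin 2) → ℝ, Lip L F → ∀ C : Finset (Fin n → Fin 2),
      (∀ x ∈ C, ∀ y ∈ C, x ≠ y → δ * n ≤ ∑ k, (sg (x k) / 2 - sg (y k) / 2) ^ 2) →
      ∑ x ∈ C, Real.exp (-nf δ F x) ≤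
        Real.exp (n * (ε - cc d.site)) * ∑ z, Real.exp (-F z) := by
  obtain ⟨n1, hn1p, hn1⟩ := level_bound d he0 he hδ (L := L) (ε := ε / 4) (by positivity)
  have hδ0 : 0 ≤ δ := by linarith
  set M : ℕ := ⌊8 * L / (ε / 4)⌋₊ + 1 with hM
  have hMR : (0 : ℝ) < M := by exact_mod_cast Nat.succ_pos _
  obtain ⟨n2, hn2⟩ := exists_nat_gt (Real.log M / (ε / 2))
  refine ⟨max n1 n2, fun n hn F hF C hdist => ?_⟩
  have hnn1 : n1 ≤ n := (le_max_left _ _).trans hn
  have hnn2 : n2 ≤ n := (le_max_right _ _).trans hn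
  have hn0 : 0 < n := lt_of_lt_of_le hn1p hnn1
  have hnR : (0 : ℝ) < n := by exact_mod_cast hn0
  have hlogM : Real.log M ≤ n * (ε / 2) := by
    have h1 : Real.log M / (ε / 2) < n := lt_of_lt_of_le hn2 (by exact_mod_cast hnn2)
    rw [div_lt_iff₀ (by positivity)] at h1
    exact h1.le
  rcases C.eq_empty_or_nonempty with rfl | hC
  · simp only [Finset.sum_empty]
    exact mul_nonneg (Real.exp_pos _).le (Finset.sum_nonneg fun z _ => (Real.exp_pos _).le)
  obtain ⟨x0, hx0, hmin⟩ := Finset.exists_min_image C (nf δ F) hC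
  set m := nf δ F x0 with hm
  set w : ℝ := n * (ε / 4) with hw
  have hw0 : 0 < w := by positivity
  set j : (Fin n → Fin 2) → ℕ := fun x => ⌊(nf δ F x - m) / w⌋₊ with hj
  -- range of the levels
  have hrange : ∀ x ∈ C, j x ∈ Finset.range M := by
    intro x hx
    rw [Finset.mem_range, hM, Nat.lt_succ_iff]
    refine Nat.floor_le_floor ?_
    have h1 := nf_dist hδ0 (by linarith) hF x
    have h2 := nf_dist hδ0 (by linarith) hF x0
    have h3 : F x - F x0 ≤ n * L := by
      have hstep : ∀ (S : Finset (Fin n)),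
          F (fun k => if k ∈ S then x k else x0 k) - F x0 ≤ S.card * L := by
        intro S
        induction S using Finset.induction_on with
        | empty => simp
        | insert a S ha ih =>
          have h2 : (fun k => if k ∈ insert a S then x k else x0 k) =
              Function.update (fun k => if k ∈ S then x k else x0 k) a (x a) := by
            funext k
            by_cases hk : k = a
            · subst hk; simp
            · simp [hk]
          rw [h2, Finset.card_insert_of_notMem ha]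
          have h3 := (abs_le.mp (hF (fun k => if k ∈ S then x k else x0 k) a (x a))).2
          push_cast
          linarith
      have := hstep univ
      simpa using this
    have h4 : nf δ F x - m ≤ 3 * (n * L) := by
      have a1 := (abs_le.mp h1).2
      have a2 := (abs_le.mp h2).1
      linarith
    have h5 : 0 ≤ (n : ℝ) * L := by positivity
    rw [div_le_iff₀ hw0]
    have h6 : 8 * L / (ε / 4) * w = 8 * (n * L) := by
      rw [hw]; field_simp
    rw [h6]
    linarith
  rw [← Finset.sum_fiberwise_of_maps_to hrange]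
  have hfib : ∀ i ∈ Finset.range M, ∑ x ∈ C.filter (fun x => j x = i), Real.exp (-nf δ F x) ≤
      Real.exp (n * (ε / 2 - cc d.site)) * ∑ z, Real.exp (-F z) := by
    intro i _
    have hlow : ∀ x ∈ C.filter (fun x => j x = i), m + i * w ≤ nf δ F x := by
      intro x hx
      rw [Finset.mem_filter] at hx
      have h1 : 0 ≤ (nf δ F x - m) / w := div_nonneg (by have := hmin x hx.1; linarith) hw0.le
      have h2 := Nat.floor_le h1
      have h3 : ((i : ℕ) : ℝ) = (⌊(nf δ F x - m) / w⌋₊ : ℝ) := by
        rw [← hx.2]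
      rw [← h3, le_div_iff₀ hw0] at h2
      linarith
    have hup : ∀ x ∈ C.filter (fun x => j x = i), nf δ F x ≤ m + (i + 1) * w := by
      intro x hx
      rw [Finset.mem_filter] at hx
      have h2 := Nat.lt_floor_add_one ((nf δ F x - m) / w)
      have h3 : ((i : ℕ) : ℝ) = (⌊(nf δ F x - m) / w⌋₊ : ℝ) := by
        rw [← hx.2]
      rw [← h3, div_lt_iff₀ hw0] at h2
      linarith
    have h1 := hn1 n hnn1 F hF (C.filter fun x => j x = i) (fun x hx y hy hxy =>
      hdist x (Finset.mem_of_mem_filter x hx) y (Finset.mem_of_mem_filter y hy) hxy)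
      (m + (i + 1) * w) hup
    calc ∑ x ∈ C.filter (fun x => j x = i), Real.exp (-nf δ F x)
        ≤ ∑ x ∈ C.filter (fun x => j x = i), Real.exp (-(m + i * w)) :=
          Finset.sum_le_sum fun x hx => Real.exp_le_exp.mpr (by have := hlow x hx; linarith)
      _ = ((C.filter fun x => j x = i).card : ℝ) * Real.exp (-(m + i * w)) := by
          rw [Finset.sum_const, nsmul_eq_mul]
      _ ≤ (Real.exp (m + (i + 1) * w + n * (ε / 4 - cc d.site)) * ∑ z, Real.exp (-F z)) *
          Real.exp (-(m + i * w)) := mul_le_mul_of_nonneg_right h1 (Real.exp_pos _).le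
      _ = _ := by
          rw [mul_right_comm, ← Real.exp_add]
          congr 2
          rw [hw]
          ring
  calc ∑ i ∈ Finset.range M, ∑ x ∈ C.filter (fun x => j x = i), Real.exp (-nf δ F x)
      ≤ ∑ i ∈ Finset.range M, Real.exp (n * (ε / 2 - cc d.site)) * ∑ z, Real.exp (-F z) :=
        Finset.sum_le_sum hfib
    _ = M * (Real.exp (n * (ε / 2 - cc d.site)) * ∑ z, Real.exp (-F z)) := by
        rw [Finset.sum_const, Finset.card_range, nsmul_eq_mul]
    _ ≤ Real.exp (n * (ε / 2)) * (Real.exp (n * (ε / 2 - cc d.site)) *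
        ∑ z, Real.exp (-F z)) := by
        refine mul_le_mul_of_nonneg_right ?_ (mul_nonneg (Real.exp_pos _).le
          (Finset.sum_nonneg fun z _ => (Real.exp_pos _).le))
        rw [← Real.exp_log hMR]
        exact Real.exp_le_exp.mpr hlogM
    _ = _ := by
        rw [← mul_assoc, ← Real.exp_add]
        congr 2
        ring

end Pool.Agent.H712.NI
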