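import Pool.Agent.H712.NI.ProdC

/-! The product theorem for one site and one code. -/

open Finset

namespace Pool.Agent.H712.NI

open Pool.Agent.H390R2.LP

variable {Ω X I : Type} [Fintype Ω] [DecidableEq Ω] [Fintype X] [DecidableEq X] [Fintype I]

lemma sum_unit (F : (Unit → Ω) → ℝ) : ∑ a : Unit → Ω, F a = ∑ o : Ω, F (fun _ => o) :=
  (Equiv.sum_comp (Equiv.funUnique Unit Ω).symm F).symm

/-- A code of large distance and a site whose position is in the code. -/
theorem one_site (s : Site Ω X) (f : I → X → ℝ) {τ γ r A G : ℝ} (hτ : 0 < τ) (hγ : 0 ≤ γ)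
    (hr0 : 0 < r) (hr1 : r ≤ 1) (C : Finset X) {d : ℝ} (hd : 0 ≤ d)
    (hdist : ∀ x ∈ C, ∀ y ∈ C, x ≠ y → d ≤ ∑ i, (f i x - f i y) ^ 2)
    (hsupp : ∀ x, x ∉ C → s.P x = 0)
    (hA : ∑ m ∈ univ.filter (fun m => s.lam m < (τ / r) ^ 2), s.lam m ≤ A)
    (hG : ∑ c ∈ univ.filter (fun c => ¬ s.g c ≤ γ), s.g c ≤ G) :
    d * (1 - A - 2 * r - √γ / τ - G) ≤ s.E f := by
  classical
  set C' : Finset (Unit → X) := C.image (fun x _ => x) with hC'
  have hmem : ∀ x : Unit → X, x ∈ C' ↔ x () ∈ C := by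
    intro x
    rw [hC', Finset.mem_image]
    constructor
    · rintro ⟨y, hy, rfl⟩; exact hy
    · intro h; exact ⟨x (), h, rfl⟩
  have key := prod_ineq (K := Unit) (fun _ => s) f hτ hγ (fun S => if S = C' then 1 else 0) d hd
    (fun S => by split_ifs <;> norm_num) (fun x => by
      rw [Finset.sum_ite_eq']
      split_ifs <;> norm_num) (fun S hS x hx y hy hxy => by
      have hSC : S = C' := by by_contra h; simp [h] at hS
      subst hSC
      have h1 := hdist (x ()) ((hmem x).mp hx) (y ()) ((hmem y).mp hy) (fun h => hxy (by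
        funext u; exact h))
      simpa using h1)
  have h1 : ∑ S : Finset (Unit → X), (if S = C' then (1 : ℝ) else 0) = 1 := by simp
  have h2 : 1 - A - 2 * r ≤ ∑ a : Unit → Ω, tt (fun _ : Unit => s) τ a ^ 2 := by
    refine tt_sq_sum_ge (fun _ : Unit => s) hτ hr0 hr1 ?_
    refine le_trans (le_of_eq ?_) hA
    rw [Finset.sum_filter, Finset.sum_filter, sum_unit]
    exact Finset.sum_congr rfl fun o _ => by simp [Lam]
  have h3 : ∑ c ∈ univ.filter (fun c : Unit → Ω => ¬ Gg (fun _ => s) c ≤ γ),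
      Gg (fun _ : Unit => s) c ≤ G := by
    refine le_trans (le_of_eq ?_) hG
    rw [Finset.sum_filter, Finset.sum_filter, sum_unit]
    exact Finset.sum_congr rfl fun o _ => by simp [Gg]
  have h4 : ∑ x : Unit → X, (∏ k, ((fun _ : Unit => s) k).P (x k)) *
      (1 - ∑ S ∈ univ.filter (fun S : Finset (Unit → X) => x ∈ S),
        (if S = C' then (1 : ℝ) else 0)) = 0 := by
    refine Finset.sum_eq_zero fun x _ => ?_
    by_cases h : x () ∈ C
    · have : ∑ S ∈ univ.filter (fun S : Finset (Unit → X) => x ∈ S),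
          (if S = C' then (1 : ℝ) else 0) = 1 := by
        rw [Finset.sum_ite_eq', if_pos]
        simp only [Finset.mem_filter, Finset.mem_univ, true_and]
        exact (hmem x).mpr h
      rw [this, sub_self, mul_zero]
    · have : ∏ k, ((fun _ : Unit => s) k).P (x k) = 0 := by simp [hsupp _ h]
      rw [this, zero_mul]
  have h5 : ∑ k : Unit, ((fun _ : Unit => s) k).E f = s.E f := by simp
  rw [h1, h4, h5, mul_one, sub_zero] at key
  refine le_trans (mul_le_mul_of_nonneg_left ?_ hd) key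
  linarith

end Pool.Agent.H712.NI
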