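import Pool.Agent.H712.NI.Embed

/-! The bound on a code by its noisy local laws. -/

open Finset

namespace Pool.Agent.H712.NI

open Pool.Agent.H390R2.LP Pool.Agent.H235R2.QLP Pool.Agent.TH753.MB Pool.Agent.TH753.FF

lemma EH_pair_nonneg {ι : Type} [Fintype ι] [DecidableEq ι] (d : Pair ι) : 0 ≤ EH d.site := by
  have h := pair_m1 d 0 1
  rw [if_neg (by norm_num)] at h
  rw [← h]
  unfold m1
  refine mul_nonneg (by norm_num) (Finset.sum_nonneg fun o _ => Finset.sum_nonneg fun o' _ => ?_)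
  split_ifs
  · exact sq_nonneg _
  · exact le_rfl

/-- entropy is at most the logarithm of the size -/
lemma ent_le_wlog {w : ℕ} (Q : (Fin w → Fin 2) → ℝ) (hQ : ∀ z, 0 ≤ Q z) (h1 : ∑ z, Q z = 1) :
    ∑ z, Real.negMulLog (Q z) ≤ w * Real.log 2 := by
  set K : ℝ := (Fintype.card (Fin w → Fin 2) : ℝ) with hK
  have hK0 : 0 < K := by
    rw [hK]
    exact_mod_cast Fintype.card_pos
  have hKe : Real.log K = w * Real.log 2 := by
    rw [hK, Fintype.card_fun, Fintype.card_fin, Fintype.card_fin]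
    push_cast
    rw [Real.log_pow]
  have h2 := Real.concaveOn_negMulLog.le_map_sum (t := univ) (w := fun _ : Fin w → Fin 2 => K⁻¹)
    (p := Q) (fun _ _ => by positivity) (by
      rw [Finset.sum_const, nsmul_eq_mul, Finset.card_univ, ← hK, mul_inv_cancel₀ hK0.ne'])
    (fun z _ => hQ z)
  simp only [smul_eq_mul, ← Finset.mul_sum, h1, mul_one] at h2
  have h3 : Real.negMulLog K⁻¹ = K⁻¹ * Real.log K := by
    unfold Real.negMulLog
    rw [Real.log_inv]; ring
  rw [h3, hKe] at h2
  exact le_of_mul_le_mul_left h2 (by positivity)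

lemma blaw_nonneg {n w : ℕ} (C : Finset (Fin n → Bool)) (b : Fin w → Fin n) (y : Fin w → Bool) :
    0 ≤ blaw C b y := div_nonneg (Nat.cast_nonneg _) (Nat.cast_nonneg _)

lemma plaw_sum {X : Type} [Fintype X] [DecidableEq X] {n : ℕ} (S : Finset (Fin n → X))
    (hS : S.Nonempty) (j : Fin n) : ∑ z, plaw S j z = 1 := by
  unfold plaw
  rw [← Finset.sum_div]
  have h : (0 : ℝ) < S.card := by exact_mod_cast Finset.card_pos.mpr hS
  rw [div_eq_one_iff_eq h.ne']
  have := Finset.card_eq_sum_card_fiberwise (f := fun x : Fin n → X => x j) (s := S) (t := univ)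
    (fun _ _ => Finset.mem_univ _)
  exact_mod_cast this.symm

/-- **The bound by noisy local laws, from a pair.** -/
theorem local_core {ι : Type} [Fintype ι] [DecidableEq ι] (d : Pair ι) {w : ℕ} (hw : 0 < w)
    {δ : ℝ} (he : EH d.site < δ) (hδ : δ < 1 / 2) {ε : ℝ} (hε : 0 < ε) : ∃ n0 : ℕ, ∀ n ≥ n0,
    ∀ C : Finset (Fin n → Bool), C.Nonempty →
      (∀ x ∈ C, ∀ y ∈ C, x ≠ y → δ * n ≤ hammingDist x y) →
      ∀ (m : ℕ) (b : Fin m → Fin w → Fin n),
        Function.Injective (fun p : Fin m × Fin w => b p.1 p.2) →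
        Real.log C.card ≤ (Real.log 2 - cc d.site + ε) * n -
          ∑ j, (w * Real.log 2 - ∑ z, Real.negMulLog (noisy δ (blaw C (b j)) z)) := by
  classical
  set e := EH d.site with hedef
  have he0 : 0 ≤ e := EH_pair_nonneg d
  have he1 : e ≤ 1 := by linarith
  have hwR : (1 : ℝ) ≤ w := by exact_mod_cast hw
  set c := cc d.site with hc
  set ε' : ℝ := min (ε / 2) ((δ - e) / 2) with hε'
  have hε'0 : 0 < ε' := lt_min (by linarith) (by linarith)
  have hε'1 : ε' ≤ ε / 2 := min_le_left _ _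
  have hε'2 : ε' ≤ (δ - e) / 2 := min_le_right _ _
  obtain ⟨N0, hN0⟩ := word_bound (Ω := Fin w → Fin 2 × ι) (X := Fin w → Fin 2) (I := Fin w)
    (fun (i : Fin w) (x : Fin w → Fin 2) => Pool.Agent.TH753.MB.sg (x i) / 2) (w * e)
    (by positivity) (Vf e c) (Vf_continuous e c) (fun t m _ => Vf_homog e c t m)
    (fun P hP hP1 => by
      obtain ⟨s, h1, h2, h3⟩ := exists_law_site d w P hP hP1
      refine ⟨s, h1, h2, h3.trans (le_of_eq ?_)⟩
      unfold Vf
      rw [hP1, Real.negMulLog_one, ← hedef, ← hc]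
      ring)
    (fun M => Vf_concave he0 he1 c M) ε' hε'0
  obtain ⟨n1, hn1⟩ := exists_nat_gt ((w : ℝ) * (δ + δ) / ((δ - e) / 2))
  obtain ⟨n2, hn2⟩ := exists_nat_gt ((w * |Real.log 2 - c| + w * ε') / (ε / 2))
  refine ⟨max (w * N0) (max n1 n2), fun n hn C hC hdist m b hb => ?_⟩
  have hnN0 : w * N0 ≤ n := le_trans (le_max_left _ _) hn
  have hnn1 : n1 ≤ n := le_trans (le_trans (le_max_left _ _) (le_max_right _ _)) hn
  have hnn2 : n2 ≤ n := le_trans (le_trans (le_max_right _ _) (le_max_right _ _)) hn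
  have hn1R : (w : ℝ) * (δ + δ) / ((δ - e) / 2) < n := lt_of_lt_of_le hn1 (by exact_mod_cast hnn1)
  have hn2R : (w * |Real.log 2 - c| + w * ε') / (ε / 2) < n :=
    lt_of_lt_of_le hn2 (by exact_mod_cast hnn2)
  rw [div_lt_iff₀ (by linarith)] at hn1R
  rw [div_lt_iff₀ (by linarith)] at hn2R
  have hnR : (0 : ℝ) ≤ n := Nat.cast_nonneg n
  -- number of blocks
  set N : ℕ := (n + w - 1) / w with hNdef
  have hNw : n ≤ N * w := by
    have h1 := Nat.div_add_mod (n + w - 1) w
    have h2 := Nat.mod_lt (n + w - 1) hw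
    rw [← hNdef, mul_comm] at h1
    omega
  have hNw2 : N * w ≤ n + w := by
    have h1 := Nat.div_mul_le_self (n + w - 1) w
    rw [← hNdef] at h1
    omega
  have hNN0 : N0 ≤ N := by
    rw [hNdef, Nat.le_div_iff_mul_le hw]
    rw [mul_comm] at hnN0
    omega
  have hmN : m ≤ N := by
    have h1 := Fintype.card_le_of_injective _ hb
    rw [Fintype.card_prod, Fintype.card_fin, Fintype.card_fin, Fintype.card_fin] at h1
    exact Nat.le_of_mul_le_mul_right (h1.trans hNw) hw
  have hNwR : (n : ℝ) ≤ N * w := by exact_mod_cast hNw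
  have hNw2R : (N : ℝ) * w ≤ n + w := by exact_mod_cast hNw2
  have hNR : (0 : ℝ) ≤ N := Nat.cast_nonneg N
  obtain ⟨G, hG⟩ := exists_partition b hb N hNw hmN
  set S : Finset (Fin N → Fin w → Fin 2) := C.image (wd G) with hS
  have hScard : S.card = C.card := Finset.card_image_of_injective _ (wd_inj G hNw)
  have hSne : S.Nonempty := hC.image _
  have hNn : (N : ℝ) * ε' ≤ n * ε' + w * ε' := by
    have h1 : (N : ℝ) ≤ N * w := le_mul_of_one_le_right hNR hwR
    have h2 : (N : ℝ) ≤ n + w := h1.trans hNw2R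
    have h3 := mul_le_mul_of_nonneg_right h2 hε'0.le
    linarith
  have key := hN0 N hNN0 S hSne (δ * n) (by
      -- N (w e + ε') ≤ δ n
      have h1 : (N : ℝ) * (w * e + ε') = N * w * e + N * ε' := by ring
      have h2 : (N : ℝ) * w * e ≤ (n + w) * e := mul_le_mul_of_nonneg_right hNw2R he0
      have h3 : n * ε' ≤ n * ((δ - e) / 2) := mul_le_mul_of_nonneg_left hε'2 hnR
      have h4 : w * e ≤ w * δ := mul_le_mul_of_nonneg_left he.le (by linarith)
      have h5 : w * ε' ≤ w * δ := mul_le_mul_of_nonneg_left (by linarith) (by linarith)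
      rw [h1]
      nlinarith) (by
      intro x hx y hy hxy
      simp only [hS, Finset.mem_image] at hx hy
      obtain ⟨x', hx', rfl⟩ := hx
      obtain ⟨y', hy', rfl⟩ := hy
      rw [wd_dist G hNw]
      exact hdist x' hx' y' hy' (fun h => hxy (by rw [h])))
  rw [hScard] at key
  refine key.trans ?_
  -- values
  have hval : ∀ k, Vf e c (plaw S k) ≤
      ∑ z, Real.negMulLog (Nz δ (plaw S k) z) - w * c := by
    intro k
    unfold Vf
    rw [plaw_sum S hSne k, Real.negMulLog_one]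
    have := ent_Nz_mono he0 he.le hδ (plaw_nonneg S k)
    linarith
  have hval2 : ∀ k, ∑ z, Real.negMulLog (Nz δ (plaw S k) z) ≤ w * Real.log 2 := by
    intro k
    have g0 : 0 ≤ δ := by linarith
    have g1 : δ ≤ 1 := by linarith
    refine ent_le_wlog _ (Nz_nonneg g0 g1 (plaw_nonneg S k)) ?_
    rw [Nz_sum, plaw_sum S hSne k]
  have hval3 : ∀ j : Fin m, ∑ z, Real.negMulLog (Nz δ (plaw S (Fin.castLE hmN j)) z) =
      ∑ z, Real.negMulLog (noisy δ (blaw C (b j)) z) := by
    intro j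
    rw [← Equiv.sum_comp (bts w)]
    refine Finset.sum_congr rfl fun z _ => ?_
    rw [← noisy_eq]
    congr 2
    funext y
    exact plaw_law C b G hNw hmN hG j y
  set D : Fin N → ℝ := fun k => w * Real.log 2 - ∑ z, Real.negMulLog (Nz δ (plaw S k) z) with hD
  have hD0 : ∀ k, 0 ≤ D k := fun k => by
    have := hval2 k
    simp only [hD]
    linarith
  have hsum1 : ∑ k, Vf e c (plaw S k) ≤ N * w * (Real.log 2 - c) - ∑ k, D k := by
    calc ∑ k, Vf e c (plaw S k) ≤ ∑ k, (w * (Real.log 2 - c) - D k) := by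
          refine Finset.sum_le_sum fun k _ => (hval k).trans (le_of_eq ?_)
          simp only [hD]
          ring
      _ = _ := by
          rw [Finset.sum_sub_distrib, Finset.sum_const, Finset.card_univ, Fintype.card_fin,
            nsmul_eq_mul]
          ring
  have hsum2 : ∑ j : Fin m, (w * Real.log 2 -
      ∑ z, Real.negMulLog (noisy δ (blaw C (b j)) z)) ≤ ∑ k, D k := by
    have h1 : ∑ j : Fin m, (w * Real.log 2 -
        ∑ z, Real.negMulLog (noisy δ (blaw C (b j)) z)) =
        ∑ k ∈ univ.map (Fin.castLEEmb hmN), D k := by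
      rw [Finset.sum_map]
      refine Finset.sum_congr rfl fun j _ => ?_
      simp only [hD, Fin.castLEEmb_apply]
      rw [hval3]
    rw [h1]
    exact Finset.sum_le_sum_of_subset_of_nonneg (Finset.subset_univ _) fun k _ _ => hD0 k
  have hNc : (N : ℝ) * w * (Real.log 2 - c) ≤ n * (Real.log 2 - c) + w * |Real.log 2 - c| := by
    have h1 : ((N : ℝ) * w - n) * (Real.log 2 - c) ≤ ((N : ℝ) * w - n) * |Real.log 2 - c| :=
      mul_le_mul_of_nonneg_left (le_abs_self _) (by linarith)
    have h2 : ((N : ℝ) * w - n) * |Real.log 2 - c| ≤ w * |Real.log 2 - c| :=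
      mul_le_mul_of_nonneg_right (by linarith) (abs_nonneg _)
    linarith
  have h6 : n * ε' ≤ n * (ε / 2) := mul_le_mul_of_nonneg_left hε'1 hnR
  linarith

end Pool.Agent.H712.NI
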