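import Pool.Agent.H712.NI.ThetaPair
import Pool.Agent.H712.NI.LocalCore

/-! The curve `θ` and codes below it by their noisy local laws. -/

open Filter

namespace Pool.Agent.H712.NI.Th

/-- `η(x) = -x log₂ x`, with `η(0) = 0`. -/
noncomputable def η (x : ℝ) : ℝ := -x * Real.logb 2 x

/-- The binary entropy function. -/
noncomputable def H (x : ℝ) : ℝ := η x + η (1 - x)

/-- `h(x) = H(1/2 - 1/2 √(1 - x))`. -/
noncomputable def h (x : ℝ) : ℝ := H (1 / 2 - 1 / 2 * √(1 - x))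

/-- `α_k(e) = ∑_j sech²((2 j + k) e) / ∑_j sech((2 j + k) e)`, sums over all integers `j`. -/
noncomputable def α (k : ℤ) (e : ℝ) : ℝ :=
  (∑' j : ℤ, 1 / Real.cosh ((2 * j + k) * e) ^ 2) / ∑' j : ℤ, 1 / Real.cosh ((2 * j + k) * e)

/-- `S(e) = h(sech² e) - h(sech² 2e) + h(sech² 3e) - …`. -/
noncomputable def S (e : ℝ) : ℝ := ∑' n : ℕ, (-1) ^ n * h (1 / Real.cosh ((n + 1) * e) ^ 2)

/-- The curve. -/
def Curve : Set (ℝ × ℝ) :=
  {p | (∃ e : ℝ, 0 < e ∧ p = ((1 - α 1 e) / 2, S e)) ∨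
    (∃ e : ℝ, 0 < e ∧ p = ((1 - α 0 e) / 2, 1 - S e)) ∨ p = (1 / 2 - 1 / Real.pi, 1 / 2)}

open Pool.Agent.H235R2.QLP Pool.Agent.TH753.FF Pool.Agent.TH753.MB Pool.Agent.H712.NI

lemma η_eq (x : ℝ) : η x = Real.negMulLog x / Real.log 2 := by
  unfold η Real.logb Real.negMulLog
  ring

/-- the entropy of a rapidity in terms of `h` -/
lemma h_cosh (x : ℝ) : h (1 / Real.cosh x ^ 2) = se x := by
  have key : ∀ y : ℝ, 0 ≤ y → h (1 / Real.cosh y ^ 2) = se (-y) := by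
    intro y hy
    unfold h H se
    have h1 : √(1 - 1 / Real.cosh y ^ 2) = Real.tanh y := by
      have h2 : 1 - 1 / Real.cosh y ^ 2 = Real.tanh y ^ 2 := by
        rw [Real.tanh_eq_sinh_div_cosh]
        have h3 := (Real.cosh_pos y).ne'
        have h4 := Real.cosh_sq y
        field_simp
        linarith
      rw [h2, Real.sqrt_sq]
      rw [Real.tanh_eq_sinh_div_cosh]
      exact div_nonneg (Real.sinh_nonneg_iff.mpr hy) (Real.cosh_pos y).le
    have h5 : (1 / 2 - 1 / 2 * Real.tanh y : ℝ) = Pool.Agent.TH753.FF.sg (-y) := by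
      unfold Pool.Agent.TH753.FF.sg
      rw [Real.tanh_neg]; ring
    rw [h1, h5, η_eq, η_eq, add_div]
  rcases le_total 0 x with h0 | h0
  · rw [key x h0, se_neg]
  · have := key (-x) (by linarith)
    rw [Real.cosh_neg, neg_neg] at this
    exact this

lemma h_hh (x : ℝ) : h x = hh x := by
  unfold h H hh
  rw [η_eq, η_eq, add_div]

lemma α_al (k : ℤ) (e : ℝ) : α k e = al k e := by
  unfold α al Wl Zl xl
  have h1 : ∀ j : ℤ, (2 * (j : ℝ) + k) * e = k * e + 2 * (j : ℝ) * e := fun j => by ring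
  simp_rw [h1]

lemma se_zero : se 0 = 1 := by
  unfold se Pool.Agent.TH753.FF.sg
  rw [Real.tanh_zero]
  have h1 : Real.negMulLog ((1 + 0) / 2) = Real.log 2 / 2 := by
    unfold Real.negMulLog
    rw [show ((1 + 0) / 2 : ℝ) = 2⁻¹ by norm_num, Real.log_inv]
    ring
  rw [show (1 : ℝ) - (1 + 0) / 2 = (1 + 0) / 2 by norm_num, h1]
  have : Real.log 2 ≠ 0 := (Real.log_pos (by norm_num)).ne'
  field_simp
  norm_num

lemma summable_nat {e : ℝ} (he : 0 < e) (b : ℝ) : Summable fun n : ℕ => se (b + 2 * (n : ℝ) * e) :=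
  ((summable_se b he).comp_injective (i := fun n : ℕ => (n : ℤ)) Nat.cast_injective).congr
    fun n => by simp

/-- the odd terms -/
noncomputable def So (e : ℝ) : ℝ := ∑' n : ℕ, se (e + 2 * (n : ℝ) * e)
/-- the even terms -/
noncomputable def Se (e : ℝ) : ℝ := ∑' n : ℕ, se (2 * e + 2 * (n : ℝ) * e)

lemma sum_even {e : ℝ} (he : 0 < e) : ∑' j : ℤ, se (2 * (j : ℝ) * e) = 1 + 2 * Se e := by
  have h1 := tsum_of_add_one_of_neg_add_one (f := fun j : ℤ => se (2 * (j : ℝ) * e))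
    ((summable_nat he (2 * e)).congr fun n => by push_cast; congr 1; ring)
    ((summable_nat he (2 * e)).congr fun n => by
      push_cast
      rw [← se_neg]
      congr 1
      ring)
  rw [h1]
  have e1 : ∑' n : ℕ, se (2 * (((n : ℤ) + 1 : ℤ) : ℝ) * e) = Se e := by
    refine tsum_congr fun n => ?_
    push_cast
    congr 1
    ring
  have e2 : ∑' n : ℕ, se (2 * ((-((n : ℤ) + 1) : ℤ) : ℝ) * e) = Se e := by
    refine tsum_congr fun n => ?_
    push_cast
    rw [← se_neg]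
    congr 1
    ring
  rw [e1, e2]
  simp only [Int.cast_zero, mul_zero, zero_mul, se_zero]
  ring

lemma sum_odd {e : ℝ} (he : 0 < e) : ∑' j : ℤ, se ((2 * (j : ℝ) + 1) * e) = 2 * So e := by
  have h1 := tsum_of_nat_of_neg_add_one (f := fun j : ℤ => se ((2 * (j : ℝ) + 1) * e))
    ((summable_nat he e).congr fun n => by push_cast; congr 1; ring)
    ((summable_nat he e).congr fun n => by
      push_cast
      rw [← se_neg]
      congr 1
      ring)
  rw [h1]
  have e1 : ∑' n : ℕ, se ((2 * (((n : ℤ)) : ℝ) + 1) * e) = So e := by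
    refine tsum_congr fun n => ?_
    push_cast
    congr 1
    ring
  have e2 : ∑' n : ℕ, se ((2 * ((-((n : ℤ) + 1) : ℤ) : ℝ) + 1) * e) = So e := by
    refine tsum_congr fun n => ?_
    push_cast
    rw [← se_neg]
    congr 1
    ring
  rw [e1, e2]
  ring

lemma S_eq {e : ℝ} (he : 0 < e) : S e = So e - Se e := by
  unfold S
  simp_rw [h_hh, hh_cosh]
  have h1 : ∀ k : ℕ, (-1 : ℝ) ^ (2 * k) * se ((((2 * k : ℕ) : ℝ) + 1) * e)
      = se (e + 2 * (k : ℝ) * e) := by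
    intro k
    rw [pow_mul]
    push_cast
    norm_num
    congr 1
    ring
  have h2 : ∀ k : ℕ, (-1 : ℝ) ^ (2 * k + 1) * se ((((2 * k + 1 : ℕ) : ℝ) + 1) * e)
      = -se (2 * e + 2 * (k : ℝ) * e) := by
    intro k
    rw [pow_succ, pow_mul]
    push_cast
    norm_num
    congr 1
    ring
  have h3 := tsum_even_add_odd (f := fun n : ℕ => (-1 : ℝ) ^ n * se (((n : ℝ) + 1) * e))
    ((summable_nat he e).congr fun k => (h1 k).symm)
    ((summable_nat he (2 * e)).neg.congr fun k => (h2 k).symm)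
  rw [← h3]
  simp_rw [h1, h2]
  rw [tsum_neg]
  unfold So Se
  ring

lemma val_one {e : ℝ} (he : 0 < e) : 1 / 2 + 1 / 2 * (∑' j : ℤ, (se (((1 : ℤ) : ℝ) * e
    + 2 * (j : ℝ) * e) - se (((1 : ℤ) : ℝ) * e + (2 * (j : ℝ) + 1) * e))) = S e := by
  rw [(summable_se _ he).tsum_sub (summable_se' _ he), S_eq he]
  have e1 : ∑' j : ℤ, se (((1 : ℤ) : ℝ) * e + 2 * (j : ℝ) * e) = 2 * So e := by
    rw [← sum_odd he]
    refine tsum_congr fun j => ?_
    push_cast
    congr 1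
    ring
  have e2 : ∑' j : ℤ, se (((1 : ℤ) : ℝ) * e + (2 * (j : ℝ) + 1) * e) = 1 + 2 * Se e := by
    rw [← sum_even he, ← (Equiv.addRight (1 : ℤ)).tsum_eq (fun j : ℤ => se (2 * (j : ℝ) * e))]
    refine tsum_congr fun j => ?_
    simp only [Equiv.coe_addRight]
    push_cast
    congr 1
    ring
  rw [e1, e2]
  ring

lemma val_zero {e : ℝ} (he : 0 < e) : 1 / 2 + 1 / 2 * (∑' j : ℤ, (se (((0 : ℤ) : ℝ) * e
    + 2 * (j : ℝ) * e) - se (((0 : ℤ) : ℝ) * e + (2 * (j : ℝ) + 1) * e))) = 1 - S e := by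
  rw [(summable_se _ he).tsum_sub (summable_se' _ he), S_eq he]
  have e1 : ∑' j : ℤ, se (((0 : ℤ) : ℝ) * e + 2 * (j : ℝ) * e) = 1 + 2 * Se e := by
    rw [← sum_even he]
    refine tsum_congr fun j => ?_
    push_cast
    congr 1
    ring
  have e2 : ∑' j : ℤ, se (((0 : ℤ) : ℝ) * e + (2 * (j : ℝ) + 1) * e) = 2 * So e := by
    rw [← sum_odd he]
    refine tsum_congr fun j => ?_
    push_cast
    congr 1
    ring
  rw [e1, e2]
  ring


/-- pairs of matrices at the points of the curve -/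
theorem curve_pair {δ θ : ℝ} (h0 : 0 < δ) (hθ : (δ, θ) ∈ Curve) {ν : ℝ} (hν : 0 < ν) :
    ∃ (ι : Type) (_ : Fintype ι) (_ : DecidableEq ι) (d : Pair ι),
      EH d.site < δ ∧ (1 - θ) * Real.log 2 - ν ≤ cc d.site := by
  have lat : ∀ (k : ℤ) (e : ℝ), 0 < e → δ = (1 - α k e) / 2 →
      ∃ (ι : Type) (_ : Fintype ι) (_ : DecidableEq ι) (d : Pair ι), EH d.site < δ ∧
      (1 - (1 / 2 + 1 / 2 * (∑' j : ℤ, (se ((k : ℝ) * e + 2 * (j : ℝ) * e)
        - se ((k : ℝ) * e + (2 * (j : ℝ) + 1) * e))))) * Real.log 2 - ν ≤ cc d.site := by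
    intro k e he h2
    refine exists_pair_lattice ((k : ℝ) * e) he h0 ?_ hν
    have h3 : 1 - 2 * δ = al k e := by rw [← α_al]; linarith
    rw [h3]
    rfl
  rcases hθ with ⟨e, he, hp⟩ | ⟨e, he, hp⟩ | hp
  · obtain ⟨h2, h3⟩ := Prod.mk.inj hp
    have := lat 1 e he h2
    rw [val_one he, ← h3] at this
    exact this
  · obtain ⟨h2, h3⟩ := Prod.mk.inj hp
    have := lat 0 e he h2
    rw [val_zero he, ← h3] at this
    exact this
  · obtain ⟨h2, h3⟩ := Prod.mk.inj hp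
    rw [h3]
    exact exists_pair_arcsine h0 (by rw [h2]; ring) hν

/-- entropy in bits -/
noncomputable def Ent {w : ℕ} (P : (Fin w → Bool) → ℝ) : ℝ := ∑ y, η (P y)

lemma Ent_eq {w : ℕ} (P : (Fin w → Bool) → ℝ) :
    Ent P = (∑ y, Real.negMulLog (P y)) / Real.log 2 := by
  unfold Ent
  simp only [η_eq]
  rw [Finset.sum_div]

/-- **Codes by their noisy local laws.** -/
theorem local_laws {δ θ : ℝ} (h0 : 0 < δ) (h1 : δ < 1 / 2) (hθ : (δ, θ) ∈ Curve) {w : ℕ}
    (hw : 0 < w) {ε : ℝ} (hε : 0 < ε) : ∃ n0 : ℕ, ∀ n ≥ n0,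
    ∀ C : Finset (Fin n → Bool), C.Nonempty →
      (∀ x ∈ C, ∀ y ∈ C, x ≠ y → δ * n ≤ hammingDist x y) →
      ∀ (m : ℕ) (b : Fin m → Fin w → Fin n),
        Function.Injective (fun p : Fin m × Fin w => b p.1 p.2) →
        Real.logb 2 C.card ≤ (θ + ε) * n - ∑ j, (w - Ent (noisy δ (blaw C (b j)))) := by
  have hlog : 0 < Real.log 2 := Real.log_pos (by norm_num)
  obtain ⟨ι, i1, i2, d, hE, hc⟩ := curve_pair h0 hθ
    (ν := ε * Real.log 2 / 2) (by positivity)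
  obtain ⟨n0, hn0⟩ := local_core d hw hE h1 (ε := ε * Real.log 2 / 2) (by positivity)
  refine ⟨n0, fun n hn C hC hdist m b hb => ?_⟩
  have key := hn0 n hn C hC hdist m b hb
  have hnR : (0 : ℝ) ≤ n := Nat.cast_nonneg n
  have h2 : (Real.log 2 - cc d.site + ε * Real.log 2 / 2) * n ≤ (θ + ε) * Real.log 2 * n :=
    mul_le_mul_of_nonneg_right (by linarith) hnR
  have h3 : ∑ j, ((w : ℝ) * Real.log 2 -
      ∑ z, Real.negMulLog (noisy δ (blaw C (b j)) z)) =
      (∑ j, ((w : ℝ) - Ent (noisy δ (blaw C (b j))))) * Real.log 2 := by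
    rw [Finset.sum_mul]
    refine Finset.sum_congr rfl fun j _ => ?_
    rw [Ent_eq, sub_mul, div_mul_cancel₀ _ hlog.ne']
  rw [h3] at key
  unfold Real.logb
  rw [div_le_iff₀ hlog]
  linarith

end Pool.Agent.H712.NI.Th
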