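import Pool.Agent.H712.NI.GEnt
import Pool.Agent.H712.NI.Theta

/-! The bounds with the exponent `θ(δ)`, in base two. -/

open Finset Filter

namespace Pool.Agent.H712.NI.GT

open Pool.Agent.H390R2.LP Pool.Agent.H235R2.QLP Pool.Agent.TH753.MB Pool.Agent.H712.NI
open Pool.Agent.H712.NI.Th (η H Curve η_eq curve_pair)

/-- The probability that `x` becomes `z` when the letters of `x` are flipped independently with
probability `δ`. -/
noncomputable def W {n : ℕ} (δ : ℝ) (x z : Fin n → ZMod 2) : ℝ :=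
  ∏ i, if z i = x i then 1 - δ else δ

/-- The mean of `F` at the noisy version of `x`. -/
noncomputable def E {n : ℕ} (δ : ℝ) (F : (Fin n → ZMod 2) → ℝ) (x : Fin n → ZMod 2) : ℝ :=
  ∑ z, W δ x z * F z

/-- The law of the noisy version of a random word of law `P`. -/
noncomputable def noisy {n : ℕ} (δ : ℝ) (P : (Fin n → ZMod 2) → ℝ) (z : Fin n → ZMod 2) : ℝ :=
  ∑ x, P x * W δ x z

/-- Shannon entropy in bits. -/
noncomputable def Ent {A : Type} [Fintype A] (P : A → ℝ) : ℝ := ∑ a, η (P a)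

/-- The conditional entropy, in bits, of a random word of law `P` given its noisy version. -/
noncomputable def equiv {n : ℕ} (δ : ℝ) (P : (Fin n → ZMod 2) → ℝ) : ℝ :=
  ∑ x, ∑ z, P x * W δ x z * Real.logb 2 (noisy δ P z / (P x * W δ x z))

lemma W_eq {n : ℕ} (δ : ℝ) (x z : Fin n → ZMod 2) : W δ x z = Wc (w := n) δ z x := rfl
lemma E_eq {n : ℕ} (δ : ℝ) (F : (Fin n → ZMod 2) → ℝ) (x : Fin n → ZMod 2) :
    E δ F x = nf (n := n) δ F x := rfl
lemma noisy_eq' {n : ℕ} (δ : ℝ) (P : (Fin n → ZMod 2) → ℝ) (z : Fin n → ZMod 2) :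
    noisy δ P z = Nz (w := n) δ P z := rfl

lemma Ent_eq {A : Type} [Fintype A] (P : A → ℝ) :
    Ent P = (∑ a, Real.negMulLog (P a)) / Real.log 2 := by
  unfold Ent
  simp only [η_eq]
  rw [Finset.sum_div]

lemma dist_eq {n : ℕ} (x y : Fin n → ZMod 2) :
    ∑ k, (sg (x k) / 2 - sg (y k) / 2) ^ 2 = (hammingDist x y : ℝ) := by
  have h : ∀ k, (sg (x k) / 2 - sg (y k) / 2) ^ 2 = if x k ≠ y k then (1 : ℝ) else 0 := fun k =>
    sg_dist (x k) (y k)
  simp only [h]
  unfold hammingDist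
  rw [Finset.sum_ite, Finset.sum_const_zero, add_zero, Finset.sum_const, nsmul_eq_mul, mul_one]

lemma lip_of {n : ℕ} {L : ℝ} {F : (Fin n → ZMod 2) → ℝ}
    (hF : ∀ y z, |F y - F z| ≤ L * hammingDist y z) (hL : 0 ≤ L) : Lip (n := n) L F := by
  intro z k b
  refine (hF _ _).trans ?_
  have h2 : hammingDist (Function.update z k b) z ≤ 1 := by
    unfold hammingDist
    calc _ ≤ ({k} : Finset (Fin n)).card := by
          refine Finset.card_le_card fun i hi => ?_
          rw [Finset.mem_filter] at hi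
          rw [Finset.mem_singleton]
          by_contra h
          exact hi.2 (Function.update_of_ne h _ _)
      _ = 1 := Finset.card_singleton k
  have h3 : (hammingDist (Function.update z k b) z : ℝ) ≤ 1 := by exact_mod_cast h2
  calc L * (hammingDist (Function.update z k b) z : ℝ) ≤ L * 1 :=
        mul_le_mul_of_nonneg_left h3 hL
    _ = L := mul_one _

lemma two_rpow (x : ℝ) : (2 : ℝ) ^ x = Real.exp (Real.log 2 * x) :=
  Real.rpow_def_of_pos (by norm_num) x

/-- **Functional form.** -/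
theorem functional {δ θ : ℝ} (h0 : 0 < δ) (h1 : δ < 1 / 2) (hθ : (δ, θ) ∈ Curve) (L : ℝ) {ε : ℝ}
    (hε : 0 < ε) : ∃ n0 : ℕ, ∀ n ≥ n0, ∀ C : Finset (Fin n → ZMod 2),
      (∀ x ∈ C, ∀ y ∈ C, x ≠ y → δ * n ≤ hammingDist x y) →
      ∀ F : (Fin n → ZMod 2) → ℝ, (∀ y z, |F y - F z| ≤ L * hammingDist y z) →
      ∑ x ∈ C, (2 : ℝ) ^ (-E δ F x) ≤ (2 : ℝ) ^ ((θ - 1 + ε) * n) * ∑ z, (2 : ℝ) ^ (-F z) := by
  have hlog : 0 < Real.log 2 := Real.log_pos (by norm_num)
  obtain ⟨ι, i1, i2, d, hE, hc⟩ := curve_pair h0 hθ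
    (ν := ε * Real.log 2 / 2) (by positivity)
  have he0 : 0 ≤ EH d.site := EH_pair_nonneg d
  set L' : ℝ := Real.log 2 * max L 0 with hL'
  have hL'0 : 0 ≤ L' := mul_nonneg hlog.le (le_max_right _ _)
  obtain ⟨n0, hn0⟩ := NI.functional d he0 hE h1 hL'0 (ε := ε * Real.log 2 / 2) (by positivity)
  refine ⟨n0, fun n hn C hdist F hF => ?_⟩
  set G : (Fin n → ZMod 2) → ℝ := fun z => Real.log 2 * F z with hG
  have hGL : Lip (n := n) L' G := by
    refine lip_of ?_ hL'0
    intro y z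
    simp only [hG]
    rw [← mul_sub, abs_mul, abs_of_pos hlog, hL', mul_assoc]
    refine mul_le_mul_of_nonneg_left ((hF y z).trans ?_) hlog.le
    exact mul_le_mul_of_nonneg_right (le_max_left _ _) (Nat.cast_nonneg _)
  have key := hn0 n hn G hGL C (fun x hx y hy hxy => by
    rw [dist_eq]; exact hdist x hx y hy hxy)
  have e1 : ∀ x, Real.exp (-nf (n := n) δ G x) = (2 : ℝ) ^ (-E δ F x) := by
    intro x
    rw [two_rpow, E_eq]
    congr 1
    unfold nf
    rw [mul_neg, Finset.mul_sum]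
    congr 1
    refine Finset.sum_congr rfl fun z _ => ?_
    simp only [hG]
    ring
  have e2 : ∀ z, Real.exp (-G z) = (2 : ℝ) ^ (-F z) := by
    intro z
    rw [two_rpow]
    congr 1
    simp only [hG]
    ring
  simp only [e1, e2] at key
  refine key.trans ?_
  refine mul_le_mul_of_nonneg_right ?_ (Finset.sum_nonneg fun z _ => by positivity)
  rw [two_rpow]
  refine Real.exp_le_exp.mpr ?_
  have hnR : (0 : ℝ) ≤ n := Nat.cast_nonneg n
  have : n * (ε * Real.log 2 / 2 - cc d.site) ≤ n * (Real.log 2 * (θ - 1 + ε)) :=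
    mul_le_mul_of_nonneg_left (by linarith) hnR
  linarith

/-- the conditional entropy in terms of entropies -/
theorem equiv_eq {n : ℕ} {δ : ℝ} (h0 : 0 < δ) (h1 : δ < 1) (P : (Fin n → ZMod 2) → ℝ)
    (hP : ∀ x, 0 ≤ P x) (hP1 : ∑ x, P x = 1) :
    equiv δ P = Ent P + n * H δ - Ent (noisy δ P) := by
  have hW : ∀ x z : Fin n → ZMod 2, 0 < W δ x z := fun x z => Wc_pos (n := n) h0 h1 z x
  have hQ : ∀ z, 0 < noisy δ P z := fun z => Nz_pos (n := n) h0 h1 hP hP1 z
  have hWs : ∀ x : Fin n → ZMod 2, ∑ z, W δ x z = 1 := fun x => Wc_sum (w := n) δ x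
  -- entropy of the noise
  have hN : ∀ x : Fin n → ZMod 2, ∑ z, η (W δ x z) = n * H δ := by
    intro x
    have h2 := ent_prod (K := Fin n) (A := Fin 2) (fun k b => if b = x k then 1 - δ else δ)
      (fun k => by rw [Fin.sum_univ_two]; exact flip_sum δ (x k))
    have h3 : ∀ k, ∑ b : Fin 2, Real.negMulLog (if b = x k then 1 - δ else δ) =
        Real.negMulLog δ + Real.negMulLog (1 - δ) := by
      intro k
      rw [Fin.sum_univ_two]
      rcases fin2_cases (x k) with h | h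
      · have a1 : (0 : Fin 2) = x k := h.symm
        have a2 : ¬ (1 : Fin 2) = x k := by rw [h]; decide
        rw [if_pos a1, if_neg a2]; ring
      · have a1 : (1 : Fin 2) = x k := h.symm
        have a2 : ¬ (0 : Fin 2) = x k := by rw [h]; decide
        rw [if_neg a2, if_pos a1]
    simp only [h3] at h2
    rw [Finset.sum_const, Finset.card_univ, Fintype.card_fin, nsmul_eq_mul] at h2
    unfold H
    simp only [η_eq]
    rw [← Finset.sum_div, ← add_div, ← mul_div_assoc, ← h2]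
    rfl
  have hterm : ∀ x z, P x * W δ x z * Real.logb 2 (noisy δ P z / (P x * W δ x z)) =
      P x * W δ x z * Real.logb 2 (noisy δ P z) + (W δ x z * η (P x) + P x * η (W δ x z)) := by
    intro x z
    rcases (hP x).eq_or_lt with h | h
    · rw [← h]; simp [η]
    · rw [Real.logb_div (hQ z).ne' (mul_pos h (hW x z)).ne',
        Real.logb_mul h.ne' (hW x z).ne']
      unfold η
      ring
  unfold equiv
  simp only [hterm, Finset.sum_add_distrib]
  have s1 : ∑ x, ∑ z, P x * W δ x z * Real.logb 2 (noisy δ P z) = -Ent (noisy δ P) := by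
    rw [Finset.sum_comm]
    unfold Ent
    rw [← Finset.sum_neg_distrib]
    refine Finset.sum_congr rfl fun z _ => ?_
    rw [← Finset.sum_mul]
    have : ∑ x, P x * W δ x z = noisy δ P z := rfl
    rw [this]
    unfold η
    ring
  have s2 : ∑ x, ∑ z, W δ x z * η (P x) = Ent P := by
    unfold Ent
    refine Finset.sum_congr rfl fun x _ => ?_
    rw [← Finset.sum_mul, hWs, one_mul]
  have s3 : ∑ x, ∑ z, P x * η (W δ x z) = n * H δ := by
    have : ∀ x, ∑ z, P x * η (W δ x z) = P x * (n * H δ) := fun x => by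
      rw [← Finset.mul_sum, hN]
    simp only [this]
    rw [← Finset.sum_mul, hP1, one_mul]
  rw [s1, s2, s3]
  ring

/-- **Entropy form.** -/
theorem entropy {δ θ : ℝ} (h0 : 0 < δ) (h1 : δ < 1 / 2) (hθ : (δ, θ) ∈ Curve) {ε : ℝ}
    (hε : 0 < ε) : ∃ n0 : ℕ, ∀ n ≥ n0, ∀ C : Finset (Fin n → ZMod 2),
      (∀ x ∈ C, ∀ y ∈ C, x ≠ y → δ * n ≤ hammingDist x y) →
      ∀ P : (Fin n → ZMod 2) → ℝ, (∀ x, 0 ≤ P x) → ∑ x, P x = 1 → (∀ x, x ∉ C → P x = 0) →
      Ent P + (n - Ent (noisy δ P)) ≤ (θ + ε) * n := by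
  have hlog : 0 < Real.log 2 := Real.log_pos (by norm_num)
  obtain ⟨ι, i1, i2, d, hE, hc⟩ := curve_pair h0 hθ
    (ν := ε * Real.log 2 / 2) (by positivity)
  obtain ⟨n0, hn0⟩ := ent_bound d h0 hE h1 (ε := ε * Real.log 2 / 2) (by positivity)
  refine ⟨n0, fun n hn C hdist P hP hP1 hC => ?_⟩
  have key := hn0 n hn C (fun x hx y hy hxy => by
    rw [dist_eq]; exact hdist x hx y hy hxy) P hP hP1 hC
  have hnR : (0 : ℝ) ≤ n := Nat.cast_nonneg n
  have h2 : n * ((1 - θ - ε) * Real.log 2) ≤ n * (cc d.site - ε * Real.log 2 / 2) :=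
    mul_le_mul_of_nonneg_left (by linarith) hnR
  have h3 : ∑ z, Real.negMulLog (Nz (w := n) δ P z) = Ent (noisy δ P) * Real.log 2 := by
    rw [Ent_eq, div_mul_cancel₀ _ hlog.ne']
    rfl
  have h4 : ∑ x, Real.negMulLog (P x) = Ent P * Real.log 2 := by
    rw [Ent_eq, div_mul_cancel₀ _ hlog.ne']
  have h5 : Ent P * Real.log 2 + n * ((1 - θ - ε) * Real.log 2) ≤
      Ent (noisy δ P) * Real.log 2 := by
    rw [← h3, ← h4]
    have key' : (∑ x : Fin n → ZMod 2, Real.negMulLog (P x)) +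
        n * (cc d.site - ε * Real.log 2 / 2) ≤ ∑ z, Real.negMulLog (Nz (w := n) δ P z) := key
    linarith
  have h6 : (Ent P + n * (1 - θ - ε)) * Real.log 2 ≤ Ent (noisy δ P) * Real.log 2 := by
    linarith
  have h7 := le_of_mul_le_mul_right h6 hlog
  linarith

/-- **Hitting form.** -/
theorem hitting {δ θ : ℝ} (h0 : 0 < δ) (h1 : δ < 1 / 2) (hθ : (δ, θ) ∈ Curve) {p ε : ℝ}
    (hp : 0 < p) (hε : 0 < ε) : ∃ n0 : ℕ, ∀ n ≥ n0, ∀ C : Finset (Fin n → ZMod 2),
      (∀ x ∈ C, ∀ y ∈ C, x ≠ y → δ * n ≤ hammingDist x y) →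
      ∀ T : Finset (Fin n → ZMod 2), (∀ x ∈ C, p ≤ ∑ z ∈ T, W δ x z) →
      (C.card : ℝ) ≤ (2 : ℝ) ^ ((θ - 1 + ε) * n) * T.card := by
  have hlog : 0 < Real.log 2 := Real.log_pos (by norm_num)
  obtain ⟨ι, i1, i2, d, hE, hc⟩ := curve_pair h0 hθ
    (ν := ε * Real.log 2 / 2) (by positivity)
  obtain ⟨n0, hn0⟩ := hit_bound d h0 hE h1 hp (ε := ε * Real.log 2 / 2) (by positivity)
  refine ⟨n0, fun n hn C hdist T hT => ?_⟩
  have key := hn0 n hn C (fun x hx y hy hxy => by
    rw [dist_eq]; exact hdist x hx y hy hxy) T hT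
  refine key.trans ?_
  rw [mul_comm]
  refine mul_le_mul_of_nonneg_right ?_ (Nat.cast_nonneg _)
  rw [two_rpow]
  refine Real.exp_le_exp.mpr ?_
  have hnR : (0 : ℝ) ≤ n := Nat.cast_nonneg n
  have : n * (ε * Real.log 2 / 2 - cc d.site) ≤ n * (Real.log 2 * (θ - 1 + ε)) :=
    mul_le_mul_of_nonneg_left (by linarith) hnR
  linarith

/-- volume of a ball -/
lemma ball_le {n : ℕ} {δ : ℝ} (h0 : 0 < δ) (h1 : δ < 1 / 2) (y : Fin n → ZMod 2) :
    ((univ.filter fun z : Fin n → ZMod 2 => (hammingDist y z : ℝ) ≤ δ * n).card : ℝ) ≤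
      (2 : ℝ) ^ (H δ * n) := by
  have hW : ∀ z : Fin n → ZMod 2, W δ y z = δ ^ hammingDist y z * (1 - δ) ^ (n - hammingDist y z) := by
    intro z
    unfold W
    rw [Finset.prod_ite, Finset.prod_const, Finset.prod_const, mul_comm]
    have e1 : (univ.filter fun i => ¬ z i = y i).card = hammingDist y z := by
      unfold hammingDist
      congr 1
      ext i
      simp only [Finset.mem_filter, Finset.mem_univ, true_and]
      exact ⟨fun h h' => h h'.symm, fun h h' => h h'.symm⟩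
    have e2 : (univ.filter fun i => z i = y i).card = n - hammingDist y z := by
      have := Finset.card_filter_add_card_filter_not (s := (univ : Finset (Fin n)))
        (fun i => z i = y i)
      rw [e1, Finset.card_univ, Fintype.card_fin] at this
      omega
    rw [e1, e2]
  have hpos : (0 : ℝ) < (2 : ℝ) ^ (-(H δ * n)) := by positivity
  have hlow : ∀ z ∈ univ.filter (fun z : Fin n → ZMod 2 => (hammingDist y z : ℝ) ≤ δ * n),
      (2 : ℝ) ^ (-(H δ * n)) ≤ W δ y z := by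
    intro z hz
    have hz' : (hammingDist y z : ℝ) ≤ δ * n := (Finset.mem_filter.mp hz).2
    have hdn : hammingDist y z ≤ n := by
      have := hammingDist_le_card_fintype (x := y) (y := z)
      simpa using this
    have hl2 : 0 < Real.log 2 := Real.log_pos (by norm_num)
    rw [hW, two_rpow, ← Real.rpow_natCast, ← Real.rpow_natCast, Real.rpow_def_of_pos h0,
      Real.rpow_def_of_pos (by linarith : 0 < 1 - δ), ← Real.exp_add]
    refine Real.exp_le_exp.mpr ?_
    have e3 : Real.log 2 * -(H δ * n) = Real.log δ * (δ * n) + Real.log (1 - δ) * ((1 - δ) * n) := by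
      unfold H η Real.logb
      field_simp
      ring
    rw [e3, Nat.cast_sub hdn]
    have h3 : Real.log δ ≤ Real.log (1 - δ) := Real.log_le_log h0 (by linarith)
    have h4 : 0 ≤ (Real.log (1 - δ) - Real.log δ) * (δ * n - hammingDist y z) :=
      mul_nonneg (by linarith) (by linarith)
    nlinarith
  have h2 : ((univ.filter fun z : Fin n → ZMod 2 => (hammingDist y z : ℝ) ≤ δ * n).card : ℝ) *
      (2 : ℝ) ^ (-(H δ * n)) ≤ 1 := by
    calc _ = ∑ z ∈ univ.filter (fun z : Fin n → ZMod 2 => (hammingDist y z : ℝ) ≤ δ * n),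
          (2 : ℝ) ^ (-(H δ * n)) := by rw [Finset.sum_const, nsmul_eq_mul]
      _ ≤ ∑ z ∈ univ.filter (fun z : Fin n → ZMod 2 => (hammingDist y z : ℝ) ≤ δ * n), W δ y z :=
          Finset.sum_le_sum hlow
      _ ≤ ∑ z, W δ y z := Finset.sum_le_sum_of_subset_of_nonneg (Finset.filter_subset _ _)
          fun z _ _ => (Wc_pos (n := n) h0 (by linarith) z y).le
      _ = 1 := Wc_sum (w := n) δ y
  rw [Real.rpow_neg (by norm_num), ← div_eq_mul_inv, div_le_one (by positivity)] at h2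
  exact h2

/-- **Typical lists.** -/
theorem lists {δ θ : ℝ} (h0 : 0 < δ) (h1 : δ < 1 / 2) (hθ : (δ, θ) ∈ Curve) {p ε : ℝ}
    (hp : 0 < p) (hε : 0 < ε) : ∃ n0 : ℕ, ∀ n ≥ n0, ∀ C : Finset (Fin n → ZMod 2),
      (∀ x ∈ C, ∀ y ∈ C, x ≠ y → δ * n ≤ hammingDist x y) →
      ((C.filter fun x => p ≤ ∑ z ∈ univ.filter (fun z : Fin n → ZMod 2 =>
        (2 : ℝ) ^ ((θ - (1 - H δ) + ε) * n) ≤
          ((C.filter fun y => (hammingDist y z : ℝ) ≤ δ * n).card : ℝ)), W δ x z).card : ℝ) ≤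
        (2 : ℝ) ^ (-(ε / 2) * n) * C.card := by
  obtain ⟨n0, hn0⟩ := hitting h0 h1 hθ hp (ε := ε / 2) (by positivity)
  refine ⟨n0, fun n hn C hdist => ?_⟩
  set T : Finset (Fin n → ZMod 2) := univ.filter (fun z : Fin n → ZMod 2 =>
        (2 : ℝ) ^ ((θ - (1 - H δ) + ε) * n) ≤
          ((C.filter fun y => (hammingDist y z : ℝ) ≤ δ * n).card : ℝ)) with hT
  have key := hn0 n hn (C.filter fun x => p ≤ ∑ z ∈ T, W δ x z)
    (fun x hx y hy hxy => hdist x (Finset.mem_of_mem_filter x hx) y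
      (Finset.mem_of_mem_filter y hy) hxy) T (fun x hx => (Finset.mem_filter.mp hx).2)
  refine key.trans ?_
  have h2 : (T.card : ℝ) * (2 : ℝ) ^ ((θ - (1 - H δ) + ε) * n) ≤
      C.card * (2 : ℝ) ^ (H δ * n) := by
    calc _ = ∑ z ∈ T, (2 : ℝ) ^ ((θ - (1 - H δ) + ε) * n) := by
          rw [Finset.sum_const, nsmul_eq_mul]
      _ ≤ ∑ z ∈ T, ((C.filter fun y => (hammingDist y z : ℝ) ≤ δ * n).card : ℝ) :=
          Finset.sum_le_sum fun z hz => (Finset.mem_filter.mp hz).2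
      _ ≤ ∑ z, ((C.filter fun y => (hammingDist y z : ℝ) ≤ δ * n).card : ℝ) :=
          Finset.sum_le_sum_of_subset_of_nonneg (Finset.filter_subset _ _)
            fun z _ _ => Nat.cast_nonneg _
      _ = ∑ y ∈ C, ((univ.filter fun z : Fin n → ZMod 2 =>
            (hammingDist y z : ℝ) ≤ δ * n).card : ℝ) := by
          have e1 : ∀ z : Fin n → ZMod 2,
              ((C.filter fun y => (hammingDist y z : ℝ) ≤ δ * n).card : ℝ) =
              ∑ y ∈ C, if (hammingDist y z : ℝ) ≤ δ * n then (1 : ℝ) else 0 := by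
            intro z
            rw [Finset.card_filter]; push_cast; rfl
          have e2 : ∀ y : Fin n → ZMod 2, ((univ.filter fun z : Fin n → ZMod 2 =>
              (hammingDist y z : ℝ) ≤ δ * n).card : ℝ) =
              ∑ z : Fin n → ZMod 2, if (hammingDist y z : ℝ) ≤ δ * n then (1 : ℝ) else 0 := by
            intro y
            rw [Finset.card_filter]; push_cast; rfl
          simp only [e1, e2]
          exact Finset.sum_comm
      _ ≤ ∑ y ∈ C, (2 : ℝ) ^ (H δ * n) := Finset.sum_le_sum fun y _ => ball_le h0 h1 y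
      _ = _ := by rw [Finset.sum_const, nsmul_eq_mul]
  have h3 : (T.card : ℝ) ≤ C.card * (2 : ℝ) ^ ((1 - θ - ε) * n) := by
    have h4 : (0 : ℝ) < (2 : ℝ) ^ ((θ - (1 - H δ) + ε) * n) := by positivity
    rw [← mul_le_mul_iff_left₀ h4, mul_assoc, ← Real.rpow_add (by norm_num)]
    refine h2.trans (le_of_eq ?_)
    congr 2
    ring
  calc (2 : ℝ) ^ ((θ - 1 + ε / 2) * n) * T.card
      ≤ (2 : ℝ) ^ ((θ - 1 + ε / 2) * n) * (C.card * (2 : ℝ) ^ ((1 - θ - ε) * n)) :=
        mul_le_mul_of_nonneg_left h3 (by positivity)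
    _ = ((2 : ℝ) ^ ((θ - 1 + ε / 2) * n) * (2 : ℝ) ^ ((1 - θ - ε) * n)) * C.card := by ring
    _ = _ := by
        rw [← Real.rpow_add (by norm_num)]
        congr 2
        ring

end Pool.Agent.H712.NI.GT
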