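import Pool.Agent.H712.NI.Noise

/-! Variance of Lipschitz functions under product laws of bits. -/

open Finset

namespace Pool.Agent.H712.NI

/-- expectation under a product law -/
noncomputable def ex {n : ℕ} (p : Fin n → Fin 2 → ℝ) (F : (Fin n → Fin 2) → ℝ) : ℝ :=
  ∑ z, (∏ k, p k (z k)) * F z

lemma sum_cons {n : ℕ} (G : (Fin (n + 1) → Fin 2) → ℝ) :
    ∑ z, G z = ∑ b : Fin 2, ∑ z : Fin n → Fin 2, G (Fin.cons b z) := by
  rw [← Fintype.sum_prod_type' (f := fun (b : Fin 2) (z : Fin n → Fin 2) =>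
    G (Fin.cons b z : Fin (n + 1) → Fin 2))]
  exact (Equiv.sum_comp (Fin.consEquiv (fun _ : Fin (n + 1) => Fin 2)) G).symm

lemma ex_cons {n : ℕ} (p : Fin (n + 1) → Fin 2 → ℝ) (F : (Fin (n + 1) → Fin 2) → ℝ) :
    ex p F = ∑ b : Fin 2, p 0 b * ex (fun k => p k.succ) (fun z => F (Fin.cons b z)) := by
  unfold ex
  rw [sum_cons]
  refine Finset.sum_congr rfl fun b _ => ?_
  rw [Finset.mul_sum]
  refine Finset.sum_congr rfl fun z _ => ?_
  rw [Fin.prod_univ_succ, Fin.cons_zero]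
  simp only [Fin.cons_succ]
  ring

lemma ex_one {n : ℕ} (p : Fin n → Fin 2 → ℝ) (hp1 : ∀ k, p k 0 + p k 1 = 1) (c : ℝ) :
    ex p (fun _ => c) = c := by
  unfold ex
  rw [← Finset.sum_mul, ← Fintype.prod_sum]
  simp [Fin.sum_univ_two, hp1]

lemma ex_add {n : ℕ} (p : Fin n → Fin 2 → ℝ) (F G : (Fin n → Fin 2) → ℝ) :
    ex p (fun z => F z + G z) = ex p F + ex p G := by
  unfold ex
  rw [← Finset.sum_add_distrib]
  exact Finset.sum_congr rfl fun _ _ => by ring

lemma ex_smul {n : ℕ} (p : Fin n → Fin 2 → ℝ) (c : ℝ) (F : (Fin n → Fin 2) → ℝ) :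
    ex p (fun z => c * F z) = c * ex p F := by
  unfold ex
  rw [Finset.mul_sum]
  exact Finset.sum_congr rfl fun _ _ => by ring

lemma ex_mono {n : ℕ} (p : Fin n → Fin 2 → ℝ) (hp : ∀ k b, 0 ≤ p k b)
    {F G : (Fin n → Fin 2) → ℝ} (h : ∀ z, F z ≤ G z) : ex p F ≤ ex p G :=
  Finset.sum_le_sum fun z _ => mul_le_mul_of_nonneg_left (h z)
    (Finset.prod_nonneg fun k _ => hp k _)

/-- variance in terms of the second moment about another point -/
lemma ex_sq_shift {n : ℕ} (p : Fin n → Fin 2 → ℝ) (hp1 : ∀ k, p k 0 + p k 1 = 1)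
    (F : (Fin n → Fin 2) → ℝ) (c : ℝ) :
    ex p (fun z => (F z - c) ^ 2) = ex p (fun z => (F z - ex p F) ^ 2) + (ex p F - c) ^ 2 := by
  set m := ex p F with hm
  have h1 : (fun z => (F z - c) ^ 2) = fun z => (F z - m) ^ 2 + (2 * (m - c) * F z +
      (c ^ 2 - m ^ 2)) := by
    funext z; ring
  rw [h1, ex_add, ex_add, ex_smul, ex_one p hp1, ← hm]
  ring

/-- **Variance of a Lipschitz function.** -/
theorem var_le {n : ℕ} (p : Fin n → Fin 2 → ℝ) (hp : ∀ k b, 0 ≤ p k b)
    (hp1 : ∀ k, p k 0 + p k 1 = 1) (F : (Fin n → Fin 2) → ℝ) (L : ℝ)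
    (hF : ∀ z k b, |F (Function.update z k b) - F z| ≤ L) :
    ex p (fun z => (F z - ex p F) ^ 2) ≤ n * L ^ 2 := by
  induction n with
  | zero =>
    have h : ∀ z : Fin 0 → Fin 2, F z = ex p F := by
      intro z
      unfold ex
      rw [Subsingleton.elim z default]
      simp
      exact congrArg F (Subsingleton.elim _ _)
    have h2 : (fun z => (F z - ex p F) ^ 2) = fun _ => (0 : ℝ) := by
      funext z
      rw [← h z]; ring
    rw [h2, ex_one p hp1]; simp
  | succ n ih =>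
    set G : Fin 2 → ℝ := fun b => ex (fun k => p k.succ) (fun z => F (Fin.cons b z)) with hG
    set m := ex p F with hm
    have hm' : m = p 0 0 * G 0 + p 0 1 * G 1 := by
      rw [hm, ex_cons, Fin.sum_univ_two]
    have hL : 0 ≤ L := (abs_nonneg _).trans (hF (fun _ => 0) 0 0)
    have h1 : ∀ b, ex (fun k => p k.succ) (fun z => (F (Fin.cons b z) - m) ^ 2) ≤
        n * L ^ 2 + (G b - m) ^ 2 := by
      intro b
      rw [ex_sq_shift (fun k => p k.succ) (fun k => hp1 _) (fun z => F (Fin.cons b z)) m]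
      have := ih (fun k => p k.succ) (fun k b => hp _ b) (fun k => hp1 _)
        (fun z => F (Fin.cons b z)) (fun z k c => by
          rw [Fin.cons_update]; exact hF _ _ _)
      simp only [hG]
      linarith
    have hd : |G 1 - G 0| ≤ L := by
      have e1 : ex (fun k => p k.succ) (fun z => F (Fin.cons 1 z)) ≤
          ex (fun k => p k.succ) (fun z => F (Fin.cons 0 z) + L) := by
        refine ex_mono _ (fun k b => hp _ b) fun z => ?_
        have h2 := hF (Fin.cons 0 z) 0 1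
        rw [Fin.update_cons_zero] at h2
        have := (abs_le.mp h2).2
        linarith
      have e2 : ex (fun k => p k.succ) (fun z => F (Fin.cons 0 z)) ≤
          ex (fun k => p k.succ) (fun z => F (Fin.cons 1 z) + L) := by
        refine ex_mono _ (fun k b => hp _ b) fun z => ?_
        have h2 := hF (Fin.cons 0 z) 0 1
        rw [Fin.update_cons_zero] at h2
        have := (abs_le.mp h2).1
        linarith
      rw [ex_add, ex_one _ (fun k => hp1 _)] at e1 e2
      simp only [hG]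
      rw [abs_le]
      constructor <;> linarith
    have hp0 := hp 0 0
    have hp01 := hp 0 1
    have hpp := hp1 0
    rw [ex_cons, Fin.sum_univ_two]
    have h3 := mul_le_mul_of_nonneg_left (h1 0) hp0
    have h4 := mul_le_mul_of_nonneg_left (h1 1) hp01
    have h5 : p 0 0 * (G 0 - m) ^ 2 + p 0 1 * (G 1 - m) ^ 2 ≤ L ^ 2 := by
      have e1 : p 0 1 = 1 - p 0 0 := by linarith
      have e2 : p 0 0 * (G 0 - m) ^ 2 + p 0 1 * (G 1 - m) ^ 2 =
          p 0 0 * (1 - p 0 0) * (G 1 - G 0) ^ 2 := by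
        rw [hm', e1]; ring
      rw [e2]
      have e3 : (G 1 - G 0) ^ 2 ≤ L ^ 2 := by
        rw [← sq_abs]
        exact pow_le_pow_left₀ (abs_nonneg _) hd 2
      have e4 : p 0 0 * (1 - p 0 0) ≤ 1 := by nlinarith
      have e5 : 0 ≤ p 0 0 * (1 - p 0 0) := mul_nonneg hp0 (by linarith)
      calc _ ≤ 1 * L ^ 2 := mul_le_mul e4 e3 (sq_nonneg _) (by norm_num)
        _ = L ^ 2 := one_mul _
    push_cast
    have h6 : (p 0 0 + p 0 1) * (n * L ^ 2) = n * L ^ 2 := by rw [hpp, one_mul]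
    linarith

/-- Chebyshev's inequality for Lipschitz functions -/
theorem cheb_lip {n : ℕ} (hn : 0 < n) (p : Fin n → Fin 2 → ℝ) (hp : ∀ k b, 0 ≤ p k b)
    (hp1 : ∀ k, p k 0 + p k 1 = 1) (F : (Fin n → Fin 2) → ℝ) (L : ℝ)
    (hF : ∀ z k b, |F (Function.update z k b) - F z| ≤ L) {B t : ℝ} (ht : 0 < t)
    (hB : ex p F ≤ B) :
    ∑ z ∈ univ.filter (fun z => ¬ F z ≤ B + n * t), ∏ k, p k (z k) ≤ L ^ 2 / (n * t ^ 2) := by
  have hnR : (0 : ℝ) < n := by exact_mod_cast hn
  have h1 := var_le p hp hp1 F L hF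
  have h2 : (n * t) ^ 2 * ∑ z ∈ univ.filter (fun z => ¬ F z ≤ B + n * t), ∏ k, p k (z k) ≤
      ex p (fun z => (F z - ex p F) ^ 2) := by
    unfold ex
    rw [Finset.mul_sum]
    calc ∑ z ∈ univ.filter (fun z => ¬ F z ≤ B + n * t), (n * t) ^ 2 * ∏ k, p k (z k)
        ≤ ∑ z ∈ univ.filter (fun z => ¬ F z ≤ B + n * t), (∏ k, p k (z k)) *
          (F z - ex p F) ^ 2 := by
          refine Finset.sum_le_sum fun z hz => ?_
          rw [mul_comm]
          refine mul_le_mul_of_nonneg_left ?_ (Finset.prod_nonneg fun k _ => hp k _)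
          have := not_le.mp (Finset.mem_filter.mp hz).2
          refine pow_le_pow_left₀ (by positivity) ?_ 2
          linarith
      _ ≤ _ := Finset.sum_le_sum_of_subset_of_nonneg (Finset.filter_subset _ _)
          fun z _ _ => mul_nonneg (Finset.prod_nonneg fun k _ => hp k _) (sq_nonneg _)
  have h3 : (n * t) ^ 2 * ∑ z ∈ univ.filter (fun z => ¬ F z ≤ B + n * t), ∏ k, p k (z k) ≤
      n * L ^ 2 := h2.trans h1
  rw [le_div_iff₀ (by positivity)]
  have h4 : n * ((∑ z ∈ univ.filter (fun z => ¬ F z ≤ B + n * t), ∏ k, p k (z k)) *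
      (n * t ^ 2)) ≤ n * L ^ 2 := by
    refine le_trans (le_of_eq ?_) h3
    ring
  exact le_of_mul_le_mul_left h4 hnR

end Pool.Agent.H712.NI
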