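import Pool.Agent.H712.NI.Tilt

/-! The energy of a tilted state. -/

open Finset

namespace Pool.Agent.H712.NI

open Pool.Agent.H390R2.LP Pool.Agent.H235R2.QLP

variable {Ω X : Type} [Fintype Ω] [DecidableEq Ω]

lemma rho_form (s : Site Ω X) (φ φ' : Ω → ℝ) :
    ∑ j, s.lam j * ((∑ ω, φ ω * s.u j ω) * (∑ ω, φ' ω * s.u j ω)) =
      ∑ ω, ∑ ω', φ ω * φ' ω' * rho s ω ω' := by
  unfold rho
  have h1 : ∀ j, s.lam j * ((∑ ω, φ ω * s.u j ω) * (∑ ω, φ' ω * s.u j ω)) =
      ∑ ω, ∑ ω', φ ω * φ' ω' * (s.lam j * s.u j ω * s.u j ω') := by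
    intro j
    rw [Finset.sum_mul_sum, Finset.mul_sum]
    refine Finset.sum_congr rfl fun ω _ => ?_
    rw [Finset.mul_sum]
    exact Finset.sum_congr rfl fun ω' _ => by ring
  simp only [h1]
  rw [Finset.sum_comm]
  refine Finset.sum_congr rfl fun ω _ => ?_
  rw [Finset.sum_comm]
  refine Finset.sum_congr rfl fun ω' _ => ?_
  rw [Finset.mul_sum]

variable [Fintype X] [DecidableEq X] [AddCommGroup X]

/-- Wigner–Yanase comparison of the tilted state with the invariant state. -/
theorem tilt_wy (s : Site Ω X) (a : X → ℝ) (τ : X → Equiv.Perm Ω)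
    (hpos : ∀ t ω, s.pos (τ t ω) = s.pos ω + t)
    (hrho : ∀ t ω ω', rho s (τ t ω) (τ t ω') = rho s ω ω')
    (ha : ∑ x, a x ^ 2 = (Fintype.card X : ℝ))
    (f : X → ℝ) (σ : X → ℝ) (hσ : ∀ t, σ t ^ 2 = 1) (hf : ∀ x t, f (x + t) = σ t * f x) :
    ∑ j, ∑ l, √(s.lam j) * √(s.lam l) * (∑ ω, s.u j ω * f (s.pos ω) * s.u l ω) ^ 2 ≤
      ∑ m, ∑ m', tb s a m * tb s a m' *
        (∑ ω, te s a m ω * f (s.pos ω) * te s a m' ω) ^ 2 := by
  set N : ℝ := (Fintype.card X : ℝ) with hN
  have hN0 : 0 < N := by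
    rw [hN]
    exact_mod_cast Fintype.card_pos_iff.mpr ⟨0⟩
  set c0 : ℝ := (√N)⁻¹ with hc0
  have hc02 : c0 ^ 2 = 1 / N := by rw [hc0, inv_pow, Real.sq_sqrt hN0.le, one_div]
  have hc0p : 0 ≤ c0 := by positivity
  -- shifted eigenvectors
  set E : X → Ω → Ω → ℝ := fun t m ω => te s a m (τ t ω) with hE
  have hEo : ∀ t m m', ∑ ω, E t m ω * E t m' ω = if m = m' then 1 else 0 := by
    intro t m m'
    rw [← te_orth s a m m']
    exact Equiv.sum_comp (τ t) (fun ω => te s a m ω * te s a m' ω)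
  set c : Ω → Ω × X → ℝ := fun j k => c0 * ∑ ω, a (s.pos ω + k.2) * s.u j ω * E k.2 k.1 ω
    with hc
  have hshift : ∀ t j m, ∑ ω, a (s.pos ω + t) * s.u j ω * E t m ω =
      ∑ ω, (a (s.pos ω) * te s a m ω) * s.u j ((τ t).symm ω) := by
    intro t j m
    rw [← Equiv.sum_comp (τ t) (fun ω => (a (s.pos ω) * te s a m ω) * s.u j ((τ t).symm ω))]
    refine Finset.sum_congr rfl fun ω _ => ?_
    rw [hpos, Equiv.symm_apply_apply]
    simp only [hE]
    ring
  have hrho' : ∀ t ω ω', rho s ((τ t).symm ω) ((τ t).symm ω') = rho s ω ω' := by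
    intro t ω ω'
    have := hrho t ((τ t).symm ω) ((τ t).symm ω')
    rw [Equiv.apply_symm_apply, Equiv.apply_symm_apply] at this
    exact this.symm
  have key := wy (B := X) c ?_ (fun j => √(s.lam j)) (fun j => Real.sqrt_nonneg _)
    (fun k : Ω × X => c0 * tb s a k.1) (fun k => mul_nonneg hc0p (tb_nonneg s a k.1))
    (fun k => k.2) ?_
    (fun k k' => if k.2 = k'.2 then ∑ ω, E k.2 k.1 ω * f (s.pos ω) * E k.2 k'.1 ω else 0) ?_
  · -- conclusion
    have hl : ∀ j l, ∑ k : Ω × X, ∑ k' : Ω × X, c j k * (if k.2 = k'.2 then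
        ∑ ω, E k.2 k.1 ω * f (s.pos ω) * E k.2 k'.1 ω else 0) * c l k' =
        ∑ ω, s.u j ω * f (s.pos ω) * s.u l ω := by
      intro j l
      have e1 : ∀ k : Ω × X, ∑ k' : Ω × X, c j k * (if k.2 = k'.2 then
          ∑ ω, E k.2 k.1 ω * f (s.pos ω) * E k.2 k'.1 ω else 0) * c l k' =
          c j k * ∑ m', (∑ ω, E k.2 k.1 ω * f (s.pos ω) * E k.2 m' ω) * c l (m', k.2) := by
        intro k
        rw [Fintype.sum_prod_type_right, Finset.sum_eq_single k.2]
        · rw [Finset.mul_sum]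
          refine Finset.sum_congr rfl fun m' _ => ?_
          rw [if_pos rfl]; ring
        · intro t _ ht
          refine Finset.sum_eq_zero fun m' _ => ?_
          rw [if_neg (Ne.symm ht)]; ring
        · intro h; exact absurd (Finset.mem_univ _) h
      simp only [e1]
      rw [Fintype.sum_prod_type_right]
      have e2 : ∀ (t : X) (m : Ω), ∑ m', (∑ ω, E t m ω * f (s.pos ω) * E t m' ω) * c l (m', t) =
          c0 * ∑ ω, (E t m ω * f (s.pos ω)) * (a (s.pos ω + t) * s.u l ω) := by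
        intro t m
        rw [← Pool.Agent.H390R2.LP.parseval (E t) (hEo t) (fun ω => E t m ω * f (s.pos ω))
          (fun ω => a (s.pos ω + t) * s.u l ω), Finset.mul_sum]
        refine Finset.sum_congr rfl fun m' _ => ?_
        simp only [hc]
        ring
      have e3 : ∀ t : X, ∑ m, c j (m, t) *
          ∑ m', (∑ ω, E t m ω * f (s.pos ω) * E t m' ω) * c l (m', t) =
          c0 ^ 2 * ∑ ω, a (s.pos ω + t) ^ 2 * (s.u j ω * f (s.pos ω) * s.u l ω) := by
        intro t
        have e4 : ∀ m, c j (m, t) *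
            ∑ m', (∑ ω, E t m ω * f (s.pos ω) * E t m' ω) * c l (m', t) =
            c0 ^ 2 * ((∑ ω, (a (s.pos ω + t) * s.u j ω) * E t m ω) *
              (∑ ω, (f (s.pos ω) * (a (s.pos ω + t) * s.u l ω)) * E t m ω)) := by
          intro m
          rw [e2]
          have e5 : ∑ ω, (E t m ω * f (s.pos ω)) * (a (s.pos ω + t) * s.u l ω) =
              ∑ ω, (f (s.pos ω) * (a (s.pos ω + t) * s.u l ω)) * E t m ω :=
            Finset.sum_congr rfl fun _ _ => by ring
          rw [e5]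
          simp only [hc]
          ring
        simp only [e4]
        rw [← Finset.mul_sum, Pool.Agent.H390R2.LP.parseval (E t) (hEo t)]
        congr 1
        exact Finset.sum_congr rfl fun ω _ => by ring
      simp only [e3]
      rw [← Finset.mul_sum, Finset.sum_comm]
      have e6 : ∀ ω, ∑ t, a (s.pos ω + t) ^ 2 * (s.u j ω * f (s.pos ω) * s.u l ω) =
          N * (s.u j ω * f (s.pos ω) * s.u l ω) := by
        intro ω
        rw [← Finset.sum_mul]
        congr 1
        rw [← ha]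
        exact Equiv.sum_comp (Equiv.addLeft (s.pos ω)) (fun t => a t ^ 2)
      simp only [e6]
      rw [← Finset.mul_sum, hc02, ← mul_assoc, one_div, inv_mul_cancel₀ hN0.ne', one_mul]
    have hr : ∑ k : Ω × X, ∑ k' : Ω × X, c0 * tb s a k.1 * (c0 * tb s a k'.1) *
        (if k.2 = k'.2 then ∑ ω, E k.2 k.1 ω * f (s.pos ω) * E k.2 k'.1 ω else 0) ^ 2 =
        ∑ m, ∑ m', tb s a m * tb s a m' *
        (∑ ω, te s a m ω * f (s.pos ω) * te s a m' ω) ^ 2 := by
      have e1 : ∀ k : Ω × X, ∑ k' : Ω × X, c0 * tb s a k.1 * (c0 * tb s a k'.1) *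
          (if k.2 = k'.2 then ∑ ω, E k.2 k.1 ω * f (s.pos ω) * E k.2 k'.1 ω else 0) ^ 2 =
          ∑ m', c0 ^ 2 * (tb s a k.1 * tb s a m' *
            (∑ ω, te s a k.1 ω * f (s.pos ω) * te s a m' ω) ^ 2) := by
        intro k
        rw [Fintype.sum_prod_type_right, Finset.sum_eq_single k.2]
        · refine Finset.sum_congr rfl fun m' _ => ?_
          rw [if_pos rfl]
          have e2 : ∑ ω, E k.2 k.1 ω * f (s.pos ω) * E k.2 m' ω =
              σ (-k.2) * ∑ ω, te s a k.1 ω * f (s.pos ω) * te s a m' ω := by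
            rw [← Equiv.sum_comp (τ k.2) (fun ω => te s a k.1 ω * f (s.pos ω) * te s a m' ω),
              Finset.mul_sum]
            refine Finset.sum_congr rfl fun ω _ => ?_
            have e3 : f (s.pos ω) = σ (-k.2) * f (s.pos ω + k.2) := by
              rw [← hf]; congr 1; abel
            rw [hpos]
            simp only [hE]
            linear_combination (te s a k.1 (τ k.2 ω) * te s a m' (τ k.2 ω)) * e3
          rw [e2, mul_pow, hσ]
          ring
        · intro t _ ht
          refine Finset.sum_eq_zero fun m' _ => ?_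
          rw [if_neg (Ne.symm ht)]; ring
        · intro h; exact absurd (Finset.mem_univ _) h
      simp only [e1]
      rw [Fintype.sum_prod_type]
      have e4 : ∀ m : Ω, ∑ _t : X, ∑ m', c0 ^ 2 * (tb s a m * tb s a m' *
            (∑ ω, te s a m ω * f (s.pos ω) * te s a m' ω) ^ 2) =
          ∑ m', tb s a m * tb s a m' *
            (∑ ω, te s a m ω * f (s.pos ω) * te s a m' ω) ^ 2 := by
        intro m
        rw [Finset.sum_const, Finset.card_univ, nsmul_eq_mul, ← Finset.mul_sum, hc02, ← hN,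
          ← mul_assoc, one_div, mul_inv_cancel₀ hN0.ne', one_mul]
      exact Finset.sum_congr rfl fun m _ => e4 m
    simp only [hl] at key
    rw [hr] at key
    exact key
  · -- orthonormality
    intro j l
    rw [Fintype.sum_prod_type_right]
    have e1 : ∀ t : X, ∑ m, c j (m, t) * c l (m, t) =
        c0 ^ 2 * ∑ ω, a (s.pos ω + t) ^ 2 * (s.u j ω * s.u l ω) := by
      intro t
      have e2 : ∀ m, c j (m, t) * c l (m, t) =
          c0 ^ 2 * ((∑ ω, (a (s.pos ω + t) * s.u j ω) * E t m ω) *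
            (∑ ω, (a (s.pos ω + t) * s.u l ω) * E t m ω)) := by
        intro m
        simp only [hc]
        ring
      simp only [e2]
      rw [← Finset.mul_sum, Pool.Agent.H390R2.LP.parseval (E t) (hEo t)]
      congr 1
      exact Finset.sum_congr rfl fun ω _ => by ring
    simp only [e1]
    rw [← Finset.mul_sum, Finset.sum_comm]
    have e6 : ∀ ω, ∑ t, a (s.pos ω + t) ^ 2 * (s.u j ω * s.u l ω) =
        N * (s.u j ω * s.u l ω) := by
      intro ω
      rw [← Finset.sum_mul]
      congr 1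
      rw [← ha]
      exact Equiv.sum_comp (Equiv.addLeft (s.pos ω)) (fun t => a t ^ 2)
    simp only [e6]
    rw [← Finset.mul_sum, hc02, ← mul_assoc, one_div, inv_mul_cancel₀ hN0.ne', one_mul]
    exact s.u_orth j l
  · -- diagonality
    rintro ⟨m, t⟩ ⟨m', t'⟩ ht
    simp only at ht
    subst ht
    have e1 : ∀ j, √(s.lam j) ^ 2 * (c j (m, t) * c j (m', t)) =
        c0 ^ 2 * (s.lam j * ((∑ ω, (a (s.pos ω) * te s a m ω) * s.u j ((τ t).symm ω)) *
          (∑ ω, (a (s.pos ω) * te s a m' ω) * s.u j ((τ t).symm ω)))) := by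
      intro j
      simp only [hc]
      rw [hshift, hshift, Real.sq_sqrt (s.lam_nonneg j)]
      ring
    simp only [e1]
    rw [← Finset.mul_sum]
    have e2 : ∑ j, s.lam j * ((∑ ω, (a (s.pos ω) * te s a m ω) * s.u j ((τ t).symm ω)) *
          (∑ ω, (a (s.pos ω) * te s a m' ω) * s.u j ((τ t).symm ω))) =
        ∑ j, s.lam j * ((∑ ω, (a (s.pos ω) * te s a m ω) * s.u j ω) *
          (∑ ω, (a (s.pos ω) * te s a m' ω) * s.u j ω)) := by
      rw [rho_form s (fun ω => a (s.pos ω) * te s a m ω) (fun ω => a (s.pos ω) * te s a m' ω)]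
      have e3 : ∀ (j : Ω) (g : Ω → ℝ), ∑ ω, g ω * s.u j ((τ t).symm ω) =
          ∑ ω, g (τ t ω) * s.u j ω := by
        intro j g
        rw [← Equiv.sum_comp (τ t) (fun ω => g ω * s.u j ((τ t).symm ω))]
        exact Finset.sum_congr rfl fun ω _ => by rw [Equiv.symm_apply_apply]
      simp only [fun j => e3 j (fun ω => a (s.pos ω) * te s a m ω),
        fun j => e3 j (fun ω => a (s.pos ω) * te s a m' ω)]
      rw [rho_form s (fun ω => a (s.pos (τ t ω)) * te s a m (τ t ω))
        (fun ω => a (s.pos (τ t ω)) * te s a m' (τ t ω))]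
      rw [← Equiv.sum_comp (τ t) (fun ω => ∑ ω', (a (s.pos ω) * te s a m ω) *
        (a (s.pos ω') * te s a m' ω') * rho s ω ω')]
      refine Finset.sum_congr rfl fun ω _ => ?_
      rw [← Equiv.sum_comp (τ t) (fun ω' => (a (s.pos (τ t ω)) * te s a m (τ t ω)) *
        (a (s.pos ω') * te s a m' ω') * rho s (τ t ω) ω')]
      refine Finset.sum_congr rfl fun ω' _ => ?_
      rw [hrho]
    rw [e2]
    have e4 := te_diag s a m m'
    have e5 : ∑ j, s.lam j * ((∑ ω, (a (s.pos ω) * te s a m ω) * s.u j ω) *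
          (∑ ω, (a (s.pos ω) * te s a m' ω) * s.u j ω)) = if m = m' then tb s a m ^ 2 else 0 := by
      rw [← e4]
      refine Finset.sum_congr rfl fun j _ => ?_
      rw [Real.sq_sqrt (s.lam_nonneg j)]
      have e6 : ∀ m : Ω, ∑ ω, (a (s.pos ω) * te s a m ω) * s.u j ω =
          ∑ ω, a (s.pos ω) * s.u j ω * te s a m ω := fun m =>
        Finset.sum_congr rfl fun _ _ => by ring
      rw [e6, e6]
    rw [e5]
    by_cases h : m = m'
    · subst h
      rw [if_pos rfl, if_pos rfl, mul_pow]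
    · rw [if_neg h, if_neg (fun h' => h (Prod.mk.inj h').1), mul_zero]
  · intro k k' h
    simp only [if_neg h]

end Pool.Agent.H712.NI
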