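import Pool.Agent.H712.NI.TiltEnt2
import Pool.Agent.H712.NI.TiltEnergy

/-! Sites invariant under translations of the position, and their tilts. -/

open Finset

namespace Pool.Agent.H712.NI

open Pool.Agent.H390R2.LP Pool.Agent.H235R2.QLP

variable {Ω X : Type} [Fintype Ω] [DecidableEq Ω] [Fintype X] [DecidableEq X] [AddCommGroup X]

/-- invariance of a site under translations of the position -/
structure Inv (s : Site Ω X) (τ : X → Equiv.Perm Ω) : Prop where
  pos_shift : ∀ t ω, s.pos (τ t ω) = s.pos ω + t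
  rho_shift : ∀ t ω ω', rho s (τ t ω) (τ t ω') = rho s ω ω'
  lab_shift : ∀ t c, s.lab (τ t c) = s.lab c + t
  g_shift : ∀ t c, s.g (τ t c) = s.g c
  unif : ∀ j x, ∑ ω, (if s.pos ω = x then s.u j ω ^ 2 else 0) = (Fintype.card X : ℝ)⁻¹

lemma cardX_pos : (0 : ℝ) < Fintype.card X := by
  exact_mod_cast Fintype.card_pos_iff.mpr ⟨(0 : X)⟩

/-- a function of the label summed over the labels at one position does not depend on it -/
lemma Inv.fiber {s : Site Ω X} {τ : X → Equiv.Perm Ω} (hs : Inv s τ) (φ : ℝ → ℝ) (x : X) :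
    ∑ c ∈ univ.filter (fun c => s.lab c = x), φ (s.g c) =
      (Fintype.card X : ℝ)⁻¹ * ∑ c, φ (s.g c) := by
  have h1 : ∀ x y : X, ∑ c ∈ univ.filter (fun c => s.lab c = x), φ (s.g c) =
      ∑ c ∈ univ.filter (fun c => s.lab c = y), φ (s.g c) := by
    intro x y
    rw [Finset.sum_filter, Finset.sum_filter, ← Equiv.sum_comp (τ (y - x))
      (fun c => if s.lab c = y then φ (s.g c) else 0)]
    refine Finset.sum_congr rfl fun c _ => ?_
    rw [hs.lab_shift, hs.g_shift]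
    by_cases h : s.lab c = x
    · rw [if_pos h, if_pos (by rw [h]; abel)]
    · rw [if_neg h, if_neg]
      intro h'
      apply h
      have : s.lab c = y - (y - x) := eq_sub_of_add_eq h'
      rw [this, sub_sub_cancel]
  have h2 : ∑ c, φ (s.g c) = ∑ y : X, ∑ c ∈ univ.filter (fun c => s.lab c = y), φ (s.g c) :=
    (Finset.sum_fiberwise _ _ _).symm
  have h3 : ∑ y : X, ∑ c ∈ univ.filter (fun c => s.lab c = y), φ (s.g c) =
      (Fintype.card X : ℝ) * ∑ c ∈ univ.filter (fun c => s.lab c = x), φ (s.g c) := by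
    rw [Finset.sum_congr rfl fun y _ => h1 y x, Finset.sum_const, Finset.card_univ, nsmul_eq_mul]
  rw [h2, h3, ← mul_assoc, inv_mul_cancel₀ (cardX_pos (X := X)).ne', one_mul]

lemma Inv.P_eq {s : Site Ω X} {τ : X → Equiv.Perm Ω} (hs : Inv s τ) (x : X) :
    s.P x = (Fintype.card X : ℝ)⁻¹ := by
  have := hs.fiber (fun y => y) x
  unfold Site.P
  rw [this, Pool.Agent.H703R2.LP.site_g_sum, mul_one]

/-- the tilting function of a law -/
noncomputable def av (P : X → ℝ) (x : X) : ℝ := √((Fintype.card X : ℝ) * P x)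

lemma av_sq (P : X → ℝ) (hP : ∀ x, 0 ≤ P x) (x : X) :
    av P x ^ 2 = (Fintype.card X : ℝ) * P x := by
  unfold av
  exact Real.sq_sqrt (mul_nonneg (cardX_pos (X := X)).le (hP x))

lemma Inv.av_sum {s : Site Ω X} {τ : X → Equiv.Perm Ω} (hs : Inv s τ) (P : X → ℝ)
    (hP : ∀ x, 0 ≤ P x) (hP1 : ∑ x, P x = 1) : ∑ c, av P (s.lab c) ^ 2 * s.g c = 1 := by
  have h1 : ∑ c, av P (s.lab c) ^ 2 * s.g c =
      ∑ x, ∑ c ∈ univ.filter (fun c => s.lab c = x), av P (s.lab c) ^ 2 * s.g c :=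
    (Finset.sum_fiberwise _ _ _).symm
  rw [h1]
  have h2 : ∀ x, ∑ c ∈ univ.filter (fun c => s.lab c = x), av P (s.lab c) ^ 2 * s.g c =
      P x := by
    intro x
    have h3 : ∑ c ∈ univ.filter (fun c => s.lab c = x), av P (s.lab c) ^ 2 * s.g c =
        av P x ^ 2 * s.P x := by
      unfold Site.P
      rw [Finset.mul_sum]
      refine Finset.sum_congr rfl fun c hc => ?_
      rw [(Finset.mem_filter.mp hc).2]
    rw [h3, hs.P_eq, av_sq P hP]
    have := (cardX_pos (X := X)).ne'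
    field_simp
  simp only [h2, hP1]

/-- the site of law `P` -/
noncomputable def Inv.tl {s : Site Ω X} {τ : X → Equiv.Perm Ω} (hs : Inv s τ) (P : X → ℝ)
    (hP : ∀ x, 0 ≤ P x) (hP1 : ∑ x, P x = 1) : Site Ω X := tilt s (av P) (hs.av_sum P hP hP1)

lemma Inv.tl_P {s : Site Ω X} {τ : X → Equiv.Perm Ω} (hs : Inv s τ) (P : X → ℝ)
    (hP : ∀ x, 0 ≤ P x) (hP1 : ∑ x, P x = 1) (x : X) : (hs.tl P hP hP1).P x = P x := by
  unfold Inv.tl
  rw [tilt_P, hs.P_eq, av_sq P hP]
  have := (cardX_pos (X := X)).ne'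
  field_simp

lemma Inv.tl_h {s : Site Ω X} {τ : X → Equiv.Perm Ω} (hs : Inv s τ) (P : X → ℝ)
    (hP : ∀ x, 0 ≤ P x) (hP1 : ∑ x, P x = 1) :
    (hs.tl P hP hP1).h = s.h + ∑ x, Real.negMulLog (P x) - Real.log (Fintype.card X) := by
  have hN := cardX_pos (X := X)
  have h1 : (hs.tl P hP hP1).h = ∑ x, ∑ c ∈ univ.filter (fun c => s.lab c = x),
      Real.negMulLog (av P (s.lab c) ^ 2 * s.g c) := by
    rw [Finset.sum_fiberwise]
    rfl
  have h2 : ∀ x, ∑ c ∈ univ.filter (fun c => s.lab c = x),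
      Real.negMulLog (av P (s.lab c) ^ 2 * s.g c) =
      (Fintype.card X : ℝ)⁻¹ * Real.negMulLog ((Fintype.card X : ℝ) * P x) + P x * s.h := by
    intro x
    have h3 : ∑ c ∈ univ.filter (fun c => s.lab c = x),
        Real.negMulLog (av P (s.lab c) ^ 2 * s.g c) =
        ∑ c ∈ univ.filter (fun c => s.lab c = x),
          (s.g c * Real.negMulLog ((Fintype.card X : ℝ) * P x) +
            ((Fintype.card X : ℝ) * P x) * Real.negMulLog (s.g c)) := by
      refine Finset.sum_congr rfl fun c hc => ?_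
      rw [(Finset.mem_filter.mp hc).2, av_sq P hP, Real.negMulLog_mul]
    rw [h3, Finset.sum_add_distrib, ← Finset.sum_mul, ← Finset.mul_sum,
      hs.fiber Real.negMulLog x, hs.fiber (fun y => y) x,
      Pool.Agent.H703R2.LP.site_g_sum, mul_one]
    unfold Site.h
    field_simp
  rw [h1, Finset.sum_congr rfl fun x _ => h2 x, Finset.sum_add_distrib, ← Finset.sum_mul, hP1,
    one_mul]
  have h4 : ∀ x, (Fintype.card X : ℝ)⁻¹ * Real.negMulLog ((Fintype.card X : ℝ) * P x) =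
      Real.negMulLog (P x) - P x * Real.log (Fintype.card X) := by
    intro x
    rw [Real.negMulLog_mul]
    have : Real.negMulLog (Fintype.card X : ℝ) =
        -((Fintype.card X : ℝ) * Real.log (Fintype.card X)) := by
      unfold Real.negMulLog; ring
    rw [this]
    field_simp
    ring
  rw [Finset.sum_congr rfl fun x _ => h4 x, Finset.sum_sub_distrib, ← Finset.sum_mul, hP1]
  ring

lemma Inv.tl_S {s : Site Ω X} {τ : X → Equiv.Perm Ω} (hs : Inv s τ) (P : X → ℝ)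
    (hP : ∀ x, 0 ≤ P x) (hP1 : ∑ x, P x = 1) :
    (hs.tl P hP hP1).S ≤ s.S - Real.log (Fintype.card X) +
      ∑ x, Real.negMulLog (Pp s (av P) x) := by
  have hN := cardX_pos (X := X)
  have := tilt_S_le s (av P) (Fintype.card X : ℝ)⁻¹ (by positivity) hs.unif (by
    have : ∀ x, av P x ^ 2 * (Fintype.card X : ℝ)⁻¹ = P x := fun x => by
      rw [av_sq P hP]; field_simp
    simp only [this, hP1]) (hs.av_sum P hP hP1)
  rw [Real.log_inv] at this
  exact this

/-- the value of the site of law `P` -/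
theorem Inv.tl_value {s : Site Ω X} {τ : X → Equiv.Perm Ω} (hs : Inv s τ) (P : X → ℝ)
    (hP : ∀ x, 0 ≤ P x) (hP1 : ∑ x, P x = 1) :
    ∑ x, Real.negMulLog (P x) - ((hs.tl P hP hP1).h - (hs.tl P hP hP1).S) ≤
      ∑ x, Real.negMulLog (Pp s (av P) x) - (s.h - s.S) := by
  have h1 := hs.tl_h P hP hP1
  have h2 := hs.tl_S P hP hP1
  linarith

/-- the energy of the site of law `P` -/
theorem Inv.tl_E {s : Site Ω X} {τ : X → Equiv.Perm Ω} (hs : Inv s τ) (P : X → ℝ)
    (hP : ∀ x, 0 ≤ P x) (hP1 : ∑ x, P x = 1) {I : Type} [Fintype I] (f : I → X → ℝ)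
    (σ : I → X → ℝ) (hσ : ∀ i t, σ i t ^ 2 = 1) (hf : ∀ i x t, f i (x + t) = σ i t * f i x)
    (v : ℝ) (hv : ∀ i x, f i x ^ 2 = v) : (hs.tl P hP hP1).E f ≤ s.E f := by
  have hN := cardX_pos (X := X)
  have ha : ∑ x, av P x ^ 2 = (Fintype.card X : ℝ) := by
    simp only [av_sq P hP]
    rw [← Finset.mul_sum, hP1, mul_one]
  have hone : ∀ (t : Site Ω X) (i : I), ∑ a, t.lam a * ∑ ω, t.u a ω ^ 2 * f i (t.pos ω) ^ 2 = v := by
    intro t i
    have : ∀ a, t.lam a * ∑ ω, t.u a ω ^ 2 * f i (t.pos ω) ^ 2 = t.lam a * v := by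
      intro a
      have h1 : ∑ ω, t.u a ω ^ 2 * f i (t.pos ω) ^ 2 = v := by
        have h2 := t.u_orth a a
        rw [if_pos rfl] at h2
        simp only [hv]
        rw [← Finset.sum_mul]
        have h3 : ∑ ω, t.u a ω ^ 2 = 1 := by
          rw [← h2]; exact Finset.sum_congr rfl fun _ _ => sq _
        rw [h3, one_mul]
      rw [h1]
    simp only [this]
    rw [← Finset.sum_mul, t.lam_sum, one_mul]
  unfold Site.E
  refine mul_le_mul_of_nonneg_left ?_ (by norm_num)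
  refine Finset.sum_le_sum fun i _ => ?_
  rw [hone, hone]
  have h1 := tilt_wy s (av P) τ hs.pos_shift hs.rho_shift ha (f i) (σ i) (hσ i) (hf i)
  have h2 : ∑ a, ∑ b, √((hs.tl P hP hP1).lam a * (hs.tl P hP hP1).lam b) *
      (∑ ω, (hs.tl P hP hP1).u a ω * f i ((hs.tl P hP hP1).pos ω) *
        (hs.tl P hP hP1).u b ω) ^ 2 =
      ∑ m, ∑ m', tb s (av P) m * tb s (av P) m' *
        (∑ ω, te s (av P) m ω * f i (s.pos ω) * te s (av P) m' ω) ^ 2 := by
    refine Finset.sum_congr rfl fun m _ => Finset.sum_congr rfl fun m' _ => ?_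
    have h3 : √((hs.tl P hP hP1).lam m * (hs.tl P hP hP1).lam m') =
        tb s (av P) m * tb s (av P) m' := by
      show √(tb s (av P) m ^ 2 * tb s (av P) m' ^ 2) = _
      rw [← mul_pow, Real.sqrt_sq (mul_nonneg (tb_nonneg _ _ _) (tb_nonneg _ _ _))]
    rw [h3]
    rfl
  have h4 : ∑ a, ∑ b, √(s.lam a * s.lam b) *
      (∑ ω, s.u a ω * f i (s.pos ω) * s.u b ω) ^ 2 =
      ∑ j, ∑ l, √(s.lam j) * √(s.lam l) * (∑ ω, s.u j ω * f i (s.pos ω) * s.u l ω) ^ 2 :=
    Finset.sum_congr rfl fun j _ => Finset.sum_congr rfl fun l _ => by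
      rw [Real.sqrt_mul (s.lam_nonneg j)]
  rw [h2, h4]
  linarith

end Pool.Agent.H712.NI
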