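import Pool.Agent.H712.NI.Checks

/-! Codes with linearly many independent biased checks of bounded weight are below the curve. -/

open Finset

namespace Pool.Agent.H712.NI

theorem biased_checks {δ θ : ℝ} (h0 : 0 < δ) (h1 : δ < 1 / 2) (hθ : (δ, θ) ∈ Th.Curve) {w : ℕ}
    (hw : 0 < w) {β ρ : ℝ} (hβ : 0 < β) (hβ1 : β ≤ 1) (hρ : 0 < ρ) :
    ∃ c : ℝ, 0 < c ∧ ∃ n0 : ℕ, ∀ n ≥ n0, ∀ C : Finset (Fin n → ZMod 2), C.Nonempty →
      (∀ x ∈ C, ∀ y ∈ C, x ≠ y → δ * n ≤ hammingDist x y) →
      ∀ T : Finset (Fin n → ZMod 2), LinearIndependent (ZMod 2) (fun y : T => y.1) →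
        (∀ y ∈ T, hammingNorm y ≤ w) → (∀ y ∈ T, β * C.card ≤ |∑ x ∈ C, dsg y x|) →
        ρ * n ≤ T.card → Real.logb 2 C.card ≤ (θ - c) * n := by
  classical
  have hlog : 0 < Real.log 2 := Real.log_pos (by norm_num)
  have hwR : (1 : ℝ) ≤ w := by exact_mod_cast hw
  have hd0 : 0 < 1 - 2 * δ := by linarith
  have hd1 : 1 - 2 * δ ≤ 1 := by linarith
  -- constants
  set g : ℝ := gain (β / 4 * (1 - 2 * δ) ^ w) with hg
  have hg0 : 0 < g := gain_pos (by positivity)
  have hgs : ∀ s, s ≤ w → g ≤ gain (β / 4 * (1 - 2 * δ) ^ s) := by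
    intro s hs
    refine gain_mono (by positivity) ?_ ?_
    · exact mul_le_mul_of_nonneg_left (pow_le_pow_of_le_one hd0.le hd1 hs) (by positivity)
    · have : (1 - 2 * δ) ^ s ≤ 1 := pow_le_one₀ hd0.le hd1
      nlinarith
  set A : ℝ := 2 + |θ| with hA
  have hA0 : 0 < A := by positivity
  set κ : ℝ := min (β / 8) (g * β / (16 * w ^ 2 * A)) with hκ
  have hκ0 : 0 < κ := lt_min (by positivity) (by positivity)
  have hκ1 : κ ≤ β / 8 := min_le_left _ _
  have hκ2 : κ * (16 * w ^ 2 * A) ≤ g * β := by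
    have : κ ≤ g * β / (16 * w ^ 2 * A) := min_le_right _ _
    rwa [le_div_iff₀ (by positivity)] at this
  obtain ⟨K, hK⟩ := exists_nat_gt (2 * w / κ)
  have hK0 : 0 < K := by
    have : (0 : ℝ) < K := lt_trans (by positivity) hK
    exact_mod_cast this
  rw [div_lt_iff₀ hκ0] at hK
  set P : ℝ := 2 ^ K with hP
  have hP0 : 0 < P := by positivity
  set c1 : ℝ := g * β * ρ / (16 * w ^ 2 * P) with hc1
  have hc10 : 0 < c1 := by positivity
  set ε : ℝ := min 1 (c1 / 4) with hε
  have hε0 : 0 < ε := lt_min one_pos (by positivity)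
  -- thresholds
  have hpb : ∀ s : ℕ, ∃ n0 : ℕ, 0 < s → ∀ (ι : Type) [Fintype ι] [DecidableEq ι],
    n0 ≤ Fintype.card ι → ∀ C : Finset (ι → ZMod 2), C.Nonempty →
      (∀ x ∈ C, ∀ y ∈ C, x ≠ y → δ * Fintype.card ι ≤ hammingDist x y) →
      ∀ (A : Type) (M : Finset A) (B : A → Finset ι), (∀ a ∈ M, (B a).card = s) →
        (∀ a ∈ M, ∀ a' ∈ M, a ≠ a' → Disjoint (B a) (B a')) →
        (∀ a ∈ M, β / 4 * C.card ≤ |∑ x ∈ C, ∏ i ∈ B a, sz (x i)|) →
        Real.logb 2 C.card ≤ (θ + ε) * Fintype.card ι -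
          gain (β / 4 * (1 - 2 * δ) ^ s) * M.card := by
    intro s
    by_cases hs : 0 < s
    · obtain ⟨n0, hn0⟩ := parity_bound h0 h1 hθ hs (β0 := β / 4) (by positivity) hε0
      exact ⟨n0, fun _ => hn0⟩
    · exact ⟨0, fun h => absurd h hs⟩
  choose nf hnf using hpb
  set lb : ℝ := Real.logb 2 (4 / β) with hlb
  obtain ⟨n1, hn1⟩ := exists_nat_gt (lb / (c1 / 4))
  set N0 : ℕ := (range (w + 1)).sup nf with hN0
  refine ⟨c1 / 2, by positivity, max (2 * N0) (max n1 1), fun n hn C hC hdist T hT hTw hTb hTc => ?_⟩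
  have hnN0 : 2 * N0 ≤ n := le_trans (le_max_left _ _) hn
  have hnn1 : n1 ≤ n := le_trans (le_trans (le_max_left _ _) (le_max_right _ _)) hn
  have hn1' : 1 ≤ n := le_trans (le_trans (le_max_right _ _) (le_max_right _ _)) hn
  have hnR : (1 : ℝ) ≤ n := by exact_mod_cast hn1'
  have hlbn : lb ≤ c1 / 4 * n := by
    have : lb / (c1 / 4) < n := lt_of_lt_of_le hn1 (by exact_mod_cast hnn1)
    rw [div_lt_iff₀ (by positivity)] at this
    linarith
  have hTpos : (0 : ℝ) < T.card := by
    refine lt_of_lt_of_le ?_ hTc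
    positivity
  have hTne : T.Nonempty := Finset.card_pos.mp (by exact_mod_cast hTpos)
  have hTn : T.card ≤ n := by
    have := hT.fintype_card_le_finrank
    rw [Module.finrank_fintype_fun_eq_card] at this
    simpa using this
  have hTnR : (T.card : ℝ) ≤ n := by exact_mod_cast hTn
  -- the scale
  obtain ⟨k, hk, hkc⟩ := exists_threshold (fun i : Fin n => (T.filter fun y => y i ≠ 0).card)
    (w * T.card) K hK0 (by
      calc ∑ i, (T.filter fun y => y i ≠ 0).card = ∑ y ∈ T, hammingNorm y := by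
            simp only [Finset.card_filter, hammingNorm]
            rw [Finset.sum_comm]
        _ ≤ ∑ _y ∈ T, w := Finset.sum_le_sum hTw
        _ = w * T.card := by rw [Finset.sum_const, smul_eq_mul, mul_comm])
  set J : Finset (Fin n) := univ.filter fun i => 2 ^ k ≤ (T.filter fun y => y i ≠ 0).card with hJ
  set D : ℝ := (2 : ℝ) ^ k with hD
  have hD1 : 1 ≤ D := one_le_pow₀ (by norm_num)
  have hDP : D ≤ P := pow_le_pow_right₀ (by norm_num) hk.le
  have hDJ : D * J.card ≤ κ * T.card := by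
    have h2 : (K : ℝ) * (D * J.card) ≤ 2 * (w * T.card) := by
      rw [hD]
      exact_mod_cast hkc
    have h3 : (2 : ℝ) * (w * T.card) ≤ K * (κ * T.card) := by
      have := mul_le_mul_of_nonneg_right hK.le hTpos.le
      linarith
    exact le_of_mul_le_mul_left (h2.trans h3) (by exact_mod_cast hK0)
  have hJT : (J.card : ℝ) ≤ κ * T.card :=
    le_trans (le_mul_of_one_le_left (Nat.cast_nonneg _) hD1) hDJ
  -- the fiber
  obtain ⟨z, hz1, hz2⟩ := exists_fiber C hC (fun (x : Fin n → ZMod 2) (i : J) => x i.1)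
    ((2 : ℝ) ^ J.card) (by
      have h2 : (C.image fun (x : Fin n → ZMod 2) (i : J) => x i.1).card ≤
          Fintype.card (J → ZMod 2) := Finset.card_le_univ _
      rw [Fintype.card_fun, ZMod.card, Fintype.card_coe] at h2
      exact_mod_cast h2) T hTne dsg abs_dsg β hβ hTb
  set Cz := C.filter fun x => (fun i : J => x i.1) = z with hCz
  have hCzsub : Cz ⊆ C := Finset.filter_subset _ _
  have hCzJ : ∀ x ∈ Cz, ∀ x' ∈ Cz, ∀ i ∈ J, x i = x' i := by
    intro x hx x' hx' i hi
    have e1 := congrFun (Finset.mem_filter.mp hx).2 ⟨i, hi⟩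
    have e2 := congrFun (Finset.mem_filter.mp hx').2 ⟨i, hi⟩
    exact e1.trans e2.symm
  have hCc : (0 : ℝ) < C.card := by exact_mod_cast Finset.card_pos.mpr hC
  have hCzpos : (0 : ℝ) < Cz.card := by
    have h2 : 0 < (2 : ℝ) ^ J.card * Cz.card := lt_trans (by positivity) hz1
    exact (mul_pos_iff_of_pos_left (by positivity)).mp h2
  have hCzne : Cz.Nonempty := Finset.card_pos.mp (by exact_mod_cast hCzpos)
  -- biases on the fiber
  set a : (Fin n → ZMod 2) → ℝ := fun y => |∑ x ∈ Cz, ∏ i ∈ osup J y, sz (res J x i)| with ha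
  have haeq : ∀ y, |∑ x ∈ Cz, dsg y x| = a y := fun y => fiber_bias J Cz hCzJ y
  have hale : ∀ y, a y ≤ Cz.card := by
    intro y
    rw [← haeq]
    refine (Finset.abs_sum_le_sum_abs _ _).trans ?_
    calc ∑ x ∈ Cz, |dsg y x| ≤ ∑ _x ∈ Cz, (1 : ℝ) := Finset.sum_le_sum fun x _ => abs_dsg y x
      _ = _ := by simp
  simp only [haeq] at hz2
  set Tg := T.filter fun y => ¬ (∀ i, i ∉ J → y i = 0) ∧ β / 4 * Cz.card ≤ a y with hTg
  have hTgcard : β / 4 * T.card - J.card ≤ Tg.card := by
    have h2 : ∑ y ∈ T, a y ≤ ∑ y ∈ T, (((if ∀ i, i ∉ J → y i = 0 then (1 : ℝ) else 0) +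
        (if ¬ (∀ i, i ∉ J → y i = 0) ∧ β / 4 * Cz.card ≤ a y then (1 : ℝ) else 0) + β / 4) *
          Cz.card) := by
      refine Finset.sum_le_sum fun y _ => ?_
      have hay := hale y
      by_cases c1 : ∀ i, i ∉ J → y i = 0
      · rw [if_pos c1, if_neg (fun h => h.1 c1)]
        have : 0 ≤ β / 4 * (Cz.card : ℝ) := by positivity
        linarith
      · by_cases c2 : β / 4 * Cz.card ≤ a y
        · rw [if_neg c1, if_pos ⟨c1, c2⟩]
          have : 0 ≤ β / 4 * (Cz.card : ℝ) := by positivity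
          linarith
        · rw [if_neg c1, if_neg (fun h => c2 h.2)]
          push Not at c2
          linarith
    rw [← Finset.sum_mul, Finset.sum_add_distrib, Finset.sum_add_distrib, Finset.sum_boole,
      Finset.sum_boole, ← hTg, Finset.sum_const, nsmul_eq_mul] at h2
    have h3 : ((T.filter fun y => ∀ i, i ∉ J → y i = 0).card : ℝ) ≤ J.card := by
      exact_mod_cast card_supported T hT J
    have h4 : β / 2 * T.card * Cz.card <
        ((J.card : ℝ) + Tg.card + T.card * (β / 4)) * Cz.card := by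
      refine lt_of_lt_of_le (lt_of_lt_of_le hz2 h2) ?_
      refine mul_le_mul_of_nonneg_right ?_ hCzpos.le
      linarith
    have h5 := lt_of_mul_lt_mul_right h4 hCzpos.le
    linarith
  have hTgpos : (0 : ℝ) < Tg.card := by
    have h2 : κ * T.card ≤ β / 8 * T.card := mul_le_mul_of_nonneg_right hκ1 hTpos.le
    have h3 : 0 < β / 8 * (T.card : ℝ) := by positivity
    linarith
  -- disjoint blocks
  have hTgT : Tg ⊆ T := Finset.filter_subset _ _
  obtain ⟨M, hMT, hMd, hMc⟩ := exists_disjoint (osup J) w (2 ^ k) Tg.card Tg le_rfl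
    (fun y hy => by
      have h2 := (Finset.mem_filter.mp hy).2.1
      push Not at h2
      obtain ⟨i, hi, hyi⟩ := h2
      exact ⟨⟨i, hi⟩, by
        unfold osup
        simp only [Finset.mem_filter, Finset.mem_univ, true_and]
        exact hyi⟩)
    (fun y hy => (osup_card J y).trans (hTw y (hTgT hy)))
    (fun i => by
      have h3 : (T.filter fun y => y i.1 ≠ 0).card < 2 ^ k := by
        by_contra h4
        push Not at h4
        exact i.2 (Finset.mem_filter.mpr ⟨Finset.mem_univ _, h4⟩)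
      refine le_trans (Finset.card_le_card ?_) h3.le
      intro y hy
      rw [Finset.mem_filter] at hy ⊢
      refine ⟨hTgT hy.1, ?_⟩
      have h4 := hy.2
      unfold osup at h4
      simpa using h4)
  have hMne : M.Nonempty := by
    rw [← Finset.card_pos]
    by_contra h2
    have h3 : M.card = 0 := by omega
    rw [h3, mul_zero] at hMc
    have : (Tg.card : ℝ) = 0 := by exact_mod_cast Nat.le_zero.mp hMc
    linarith
  have hMosup : ∀ y ∈ M, (osup J y).Nonempty := by
    intro y hy
    have h2 := (Finset.mem_filter.mp (hMT hy)).2.1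
    push Not at h2
    obtain ⟨i, hi, hyi⟩ := h2
    exact ⟨⟨i, hi⟩, by
      unfold osup
      simp only [Finset.mem_filter, Finset.mem_univ, true_and]
      exact hyi⟩
  obtain ⟨s, hs0, hsw, hMs⟩ := exists_size (osup J) w M hMosup
    (fun y hy => (osup_card J y).trans (hTw y (hTgT (hMT hy)))) hMne
  set Ms := M.filter fun y => (osup J y).card = s with hMsdef
  -- the shortened code
  have hresinj : Set.InjOn (res J) (Cz : Set (Fin n → ZMod 2)) := by
    intro x hx x' hx' h
    funext i
    by_cases hi : i ∈ J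
    · exact hCzJ x hx x' hx' i hi
    · exact congrFun h ⟨i, hi⟩
  set C' := Cz.image (res J) with hC'
  have hC'card : C'.card = Cz.card := Finset.card_image_of_injOn hresinj
  have hcardO : Fintype.card (Out J) + J.card = n := by
    have h2 := Fintype.card_subtype_compl (fun i : Fin n => i ∈ J)
    rw [Fintype.card_coe, Fintype.card_fin] at h2
    have h3 : J.card ≤ n := by
      have := Finset.card_le_univ J
      rwa [Fintype.card_fin] at this
    show Fintype.card {i : Fin n // ¬ i ∈ J} + J.card = n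
    rw [h2]
    omega
  have hcardOR : (Fintype.card (Out J) : ℝ) = n - J.card := by
    have : (Fintype.card (Out J) : ℝ) + J.card = n := by exact_mod_cast hcardO
    linarith
  have hNO : nf s ≤ Fintype.card (Out J) := by
    have h2 : nf s ≤ N0 := Finset.le_sup (f := nf) (Finset.mem_range.mpr (by omega))
    have h3 : 2 * N0 ≤ n := hnN0
    have h4 : (J.card : ℝ) ≤ n / 2 := by
      have h5 : κ * T.card ≤ 1 / 2 * n := by
        have h6 : κ ≤ 1 / 2 := by linarith
        exact mul_le_mul h6 hTnR hTpos.le (by norm_num)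
      linarith
    have h5 : 2 * J.card ≤ n := by
      have : 2 * (J.card : ℝ) ≤ n := by linarith
      exact_mod_cast this
    omega
  have key := hnf s hs0 (Out J) hNO C' (hCzne.image _) (by
      intro x hx y hy hxy
      rw [hC', Finset.mem_image] at hx hy
      obtain ⟨x', hx', rfl⟩ := hx
      obtain ⟨y', hy', rfl⟩ := hy
      rw [res_dist J x' y' (hCzJ x' hx' y' hy')]
      refine le_trans ?_ (hdist x' (hCzsub hx') y' (hCzsub hy') (fun h => hxy (by rw [h])))
      refine mul_le_mul_of_nonneg_left ?_ h0.le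
      rw [hcardOR]
      have : (0 : ℝ) ≤ J.card := Nat.cast_nonneg _
      linarith) (Fin n → ZMod 2) Ms (osup J)
    (fun y hy => (Finset.mem_filter.mp hy).2)
    (fun y hy y' hy' h => hMd y (Finset.mem_filter.mp hy).1 y' (Finset.mem_filter.mp hy').1 h)
    (fun y hy => by
      have h2 := (Finset.mem_filter.mp (hMT (Finset.mem_filter.mp hy).1)).2.2
      rw [hC'card, hC', Finset.sum_image hresinj]
      exact h2)
  rw [hC'card, hcardOR] at key
  have hMs0 : (0 : ℝ) ≤ Ms.card := Nat.cast_nonneg _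
  have F2 : Real.logb 2 Cz.card ≤ (θ + ε) * (n - J.card) - g * Ms.card := by
    have := mul_le_mul_of_nonneg_right (hgs s hsw) hMs0
    linarith
  have F1 : Real.logb 2 C.card ≤ Real.logb 2 Cz.card + J.card + lb := by
    have h2 : (C.card : ℝ) ≤ Cz.card * (2 : ℝ) ^ J.card * (4 / β) := by
      have h3 : (C.card : ℝ) = β / 4 * C.card * (4 / β) := by
        field_simp
      rw [h3]
      refine mul_le_mul_of_nonneg_right ?_ (by positivity)
      linarith
    have h3 := Real.logb_le_logb_of_le (b := 2) (by norm_num) hCc h2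
    rw [Real.logb_mul (by positivity) (by positivity), Real.logb_mul (by positivity)
      (by positivity), Real.logb_pow, Real.logb_self_eq_one (by norm_num), mul_one] at h3
    exact h3
  refine exponent_arith (Lz := Real.logb 2 Cz.card) (jr := J.card) (m := T.card) (D := D)
    (Mr := M.card) (Ms := Ms.card) (tg := Tg.card) (ε := ε) (β := β) (g := g) (w := w) (A := A)
    (κ := κ) (lb := lb) (P := P) (ρ := ρ) F1 F2 hTgcard ?_ ?_ hDJ hκ1 hκ2 hA hTc hDP hD1
    (min_le_left _ _) hε0.le (min_le_right _ _) hwR hg0.le hβ.le hTpos.le (Nat.cast_nonneg _)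
    (by linarith) hρ.le ?_ hlbn
  · rw [hD]
    exact_mod_cast hMc
  · exact_mod_cast hMs
  · rw [hc1]
    field_simp

end Pool.Agent.H712.NI
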