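import Pool.Agent.H712.NI.Span

/-! Linear codes with checks of bounded weight. -/

open Finset

namespace Pool.Agent.H712.NI

/-- few checks leave a short nonzero word -/
lemma exists_short {n : ℕ} (Y : Set (Fin n → ZMod 2))
    (hr : Module.finrank (ZMod 2) (Submodule.span (ZMod 2) Y) + 1 ≤ n) :
    ∃ x : Fin n → ZMod 2, x ≠ 0 ∧ (∀ y ∈ Y, ∑ i, y i * x i = 0) ∧
      hammingNorm x ≤ Module.finrank (ZMod 2) (Submodule.span (ZMod 2) Y) + 1 := by
  classical
  set r := Module.finrank (ZMod 2) (Submodule.span (ZMod 2) Y) with hrdef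
  obtain ⟨b, hbS, hbspan, hbli⟩ := exists_linearIndependent (ZMod 2) Y
  have hcard : r = b.toFinset.card := by
    rw [hrdef, ← hbspan]
    exact finrank_span_set_eq_card hbli
  let f : (Fin (r + 1) → ZMod 2) →ₗ[ZMod 2] (b.toFinset → ZMod 2) :=
    { toFun := fun v y => ∑ j, y.1 (Fin.castLE hr j) * v j
      map_add' := fun u v => by
        funext y
        simp only [Pi.add_apply, mul_add, Finset.sum_add_distrib]
      map_smul' := fun c v => by
        funext y
        simp only [Pi.smul_apply, smul_eq_mul, RingHom.id_apply, Finset.mul_sum]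
        exact Finset.sum_congr rfl fun j _ => by ring }
  have hker : LinearMap.ker f ≠ ⊥ := by
    apply LinearMap.ker_ne_bot_of_finrank_lt
    rw [Module.finrank_fintype_fun_eq_card, Module.finrank_fintype_fun_eq_card, Fintype.card_fin,
      Fintype.card_coe, ← hcard]
    exact Nat.lt_succ_self r
  obtain ⟨v, hv, hv0⟩ := Submodule.exists_mem_ne_zero_of_ne_bot hker
  set x : Fin n → ZMod 2 := fun i => if h : (i : ℕ) < r + 1 then v ⟨i, h⟩ else 0 with hx
  have hxv : ∀ j : Fin (r + 1), x (Fin.castLE hr j) = v j := by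
    intro j
    simp only [hx]
    rw [dif_pos (show ((Fin.castLE hr j : Fin n) : ℕ) < r + 1 from j.2)]
    rfl
  have hsum : ∀ y : Fin n → ZMod 2, ∑ i, y i * x i = ∑ j, y (Fin.castLE hr j) * v j := by
    intro y
    have h1 : ∑ j, y (Fin.castLE hr j) * v j =
        ∑ i ∈ (univ : Finset (Fin (r + 1))).map (Fin.castLEEmb hr), y i * x i := by
      rw [Finset.sum_map]
      refine Finset.sum_congr rfl fun j _ => ?_
      show _ = y (Fin.castLE hr j) * x (Fin.castLE hr j)
      rw [hxv]
    rw [h1]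
    symm
    refine Finset.sum_subset (Finset.subset_univ _) fun i _ hi => ?_
    have : ¬ (i : ℕ) < r + 1 := by
      intro h
      apply hi
      rw [Finset.mem_map]
      exact ⟨⟨i, h⟩, Finset.mem_univ _, rfl⟩
    simp only [hx]
    rw [dif_neg this, mul_zero]
  refine ⟨x, ?_, ?_, ?_⟩
  · intro h
    apply hv0
    funext j
    rw [← hxv, h]
    rfl
  · intro y hy
    have hy' : y ∈ Submodule.span (ZMod 2) b := by
      rw [hbspan]
      exact Submodule.subset_span hy
    refine Submodule.span_induction (p := fun y _ => ∑ i, y i * x i = 0) ?_ ?_ ?_ ?_ hy'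
    · intro y hyb
      rw [hsum]
      have := congrFun (LinearMap.mem_ker.mp hv) ⟨y, Set.mem_toFinset.mpr hyb⟩
      exact this
    · simp
    · intro y y' _ _ h h'
      simp only [Pi.add_apply, add_mul, Finset.sum_add_distrib, h, h', add_zero]
    · intro c y _ h
      simp only [Pi.smul_apply, smul_eq_mul, mul_assoc, ← Finset.mul_sum, h, mul_zero]
  · unfold hammingNorm
    calc (univ.filter fun i => x i ≠ 0).card
        ≤ ((univ : Finset (Fin (r + 1))).map (Fin.castLEEmb hr)).card := by
          refine Finset.card_le_card fun i hi => ?_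
          rw [Finset.mem_map]
          by_cases h : (i : ℕ) < r + 1
          · exact ⟨⟨i, h⟩, Finset.mem_univ _, rfl⟩
          · exfalso
            apply (Finset.mem_filter.mp hi).2
            simp only [hx]
            rw [dif_neg h]
      _ = r + 1 := by simp

/-- **Codes with checks of bounded weight.** -/
theorem low_weight_checks {δ θ : ℝ} (h0 : 0 < δ) (h1 : δ < 1 / 2) (hθ : (δ, θ) ∈ Th.Curve)
    (w : ℕ) : ∃ c : ℝ, 0 < c ∧ ∃ n0 : ℕ, ∀ n ≥ n0, ∀ Y : Set (Fin n → ZMod 2),
      (∀ y ∈ Y, hammingNorm y ≤ w) → ∀ C : Submodule (ZMod 2) (Fin n → ZMod 2),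
      (∀ x, x ∈ C ↔ ∀ y ∈ Y, ∑ i, y i * x i = 0) → (∀ x ∈ C, x ≠ 0 → δ * n ≤ hammingNorm x) →
      (Module.finrank (ZMod 2) C : ℝ) ≤ (θ - c) * n := by
  classical
  obtain ⟨c, hc, n0, hn0⟩ := biased_span h0 h1 hθ w one_pos (ρ := δ / 2) (by positivity)
  obtain ⟨n1, hn1⟩ := exists_nat_gt (2 / δ)
  refine ⟨c, hc, max n0 n1, fun n hn Y hY C hC hdist => ?_⟩
  have hnn0 : n0 ≤ n := le_trans (le_max_left _ _) hn
  have hnn1 : n1 ≤ n := le_trans (le_max_right _ _) hn
  have hnR : 2 / δ < n := lt_of_lt_of_le hn1 (by exact_mod_cast hnn1)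
  rw [div_lt_iff₀ h0] at hnR
  have hn0' : (0 : ℝ) ≤ n := Nat.cast_nonneg n
  set Cf : Finset (Fin n → ZMod 2) := (C : Set (Fin n → ZMod 2)).toFinset with hCf
  have hmem : ∀ x, x ∈ Cf ↔ x ∈ C := fun x => by
    rw [hCf, Set.mem_toFinset]; rfl
  have hCfc : (0 : ℝ) < Cf.card := by
    have : Cf.Nonempty := ⟨0, (hmem 0).mpr C.zero_mem⟩
    exact_mod_cast Finset.card_pos.mpr this
  have h2 := hn0 n hnn0 Cf (by
      intro x hx y hy hxy
      rw [hmem] at hx hy
      rw [hammingDist_eq_hammingNorm]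
      exact hdist _ (C.add_mem (C.neg_mem hx) hy) (fun h => hxy (neg_add_eq_zero.mp h))) (by
      have hsub : Y ⊆ {y : Fin n → ZMod 2 | hammingNorm y ≤ w ∧ 1 ≤ bias Cf y} := by
        intro y hy
        refine ⟨hY y hy, ?_⟩
        unfold bias
        rw [le_div_iff₀ hCfc, one_mul]
        refine le_trans (le_of_eq ?_) (le_abs_self _)
        rw [Finset.sum_congr rfl (g := fun _ => (1 : ℝ)) fun x hx => by
          rw [if_pos ((hC x).mp ((hmem x).mp hx) y hy)]]
        simp
      have h3 : Module.finrank (ZMod 2) (Submodule.span (ZMod 2) Y) ≤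
          Module.finrank (ZMod 2) (Submodule.span (ZMod 2)
            {y : Fin n → ZMod 2 | hammingNorm y ≤ w ∧ 1 ≤ bias Cf y}) :=
        Submodule.finrank_mono (Submodule.span_mono hsub)
      have h4 : δ / 2 * n ≤ Module.finrank (ZMod 2) (Submodule.span (ZMod 2) Y) := by
        by_cases hr : Module.finrank (ZMod 2) (Submodule.span (ZMod 2) Y) + 1 ≤ n
        · obtain ⟨x, hx0, hx1, hx2⟩ := exists_short Y hr
          have h5 := hdist x ((hC x).mpr hx1) hx0
          have h6 : (hammingNorm x : ℝ) ≤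
              Module.finrank (ZMod 2) (Submodule.span (ZMod 2) Y) + 1 := by exact_mod_cast hx2
          nlinarith
        · push Not at hr
          have h5 : (n : ℝ) ≤ Module.finrank (ZMod 2) (Submodule.span (ZMod 2) Y) := by
            exact_mod_cast Nat.lt_succ_iff.mp hr
          nlinarith
      refine h4.trans ?_
      exact_mod_cast h3)
  have h3 : (Cf.card : ℝ) = (2 : ℝ) ^ (Module.finrank (ZMod 2) C) := by
    have h4 : Cf.card = Fintype.card C := by
      rw [hCf, Set.toFinset_card]
      rfl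
    rw [h4, Module.card_eq_pow_finrank (K := ZMod 2) (V := C), ZMod.card]
    push_cast
    rfl
  rw [h3, ← Real.rpow_natCast, Real.rpow_le_rpow_left_iff (by norm_num)] at h2
  exact h2

end Pool.Agent.H712.NI
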