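import Pool.Agent.H712.NI.ProdC
import Pool.Agent.H712.NI.Cmp

/-! The product theorem applied to coverings of composition classes. -/

open Finset

namespace Pool.Agent.H712.NI

open Pool.Agent.H390R2.LP

lemma mv_dist {J Cl X I : Type} [Fintype J] [DecidableEq J] [DecidableEq Cl] [DecidableEq X]
    [Fintype I] (f : I → X → ℝ) (c : J → Cl) (V : Finset (J → X)) (d : ℝ)
    (h : ∀ x ∈ V, ∀ y ∈ V, x ≠ y → d ≤ ∑ k, ∑ i, (f i (x k) - f i (y k)) ^ 2) (g : Gp c) :
    ∀ x ∈ mv V g, ∀ y ∈ mv V g, x ≠ y → d ≤ ∑ k, ∑ i, (f i (x k) - f i (y k)) ^ 2 := by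
  intro x hx y hy hxy
  unfold mv at hx hy
  rw [Finset.mem_image] at hx hy
  obtain ⟨v, hv, rfl⟩ := hx
  obtain ⟨v', hv', rfl⟩ := hy
  have hne : v ≠ v' := fun e => hxy (by rw [e])
  have h1 := h v hv v' hv' hne
  refine h1.trans (le_of_eq ?_)
  exact (Equiv.sum_comp g.1 (fun k => ∑ i, (f i (v k) - f i (v' k)) ^ 2)).symm

theorem one_shot {Ω X I ι Cl : Type} [Fintype Ω] [DecidableEq Ω] [Fintype X] [DecidableEq X]
    [Fintype I] [Finite ι] [Fintype Cl] [DecidableEq Cl]
    (s : ι → Site Ω X) (f : I → X → ℝ) (ε : ℝ) (hε : 0 < ε) : ∃ n0 : ℕ,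
    ∀ (K : Type) [Fintype K] [DecidableEq K], n0 ≤ Fintype.card K → ∀ (cl : K → Cl) (τ : Cl → ι)
    (W : Finset (Cl × X → ℕ)) (V : (Cl × X → ℕ) → Finset (K → X)) (M : ℕ) (d : ℝ), 0 ≤ d →
    0 < M → (∀ b ∈ W, (V b).card = M) → (∀ b ∈ W, ∀ v ∈ V b, cmp cl v = b) →
    (∀ b ∈ W, ∀ x ∈ V b, ∀ y ∈ V b, x ≠ y → d ≤ ∑ k, ∑ i, (f i (x k) - f i (y k)) ^ 2) →
    ∑ b ∈ W, ((univ.filter fun y : K → X => cmp cl y = b).card : ℝ) / M ≤
      Real.exp (∑ k, ((s (τ (cl k))).h - (s (τ (cl k))).S) - Fintype.card K * ε) →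
    d * (1 - ε - ∑ x : K → X, (∏ k, (s (τ (cl k))).P (x k)) *
      (if cmp cl x ∈ W then 0 else 1)) ≤
      ∑ k, (s (τ (cl k))).E f + Fintype.card K * ε := by
  classical
  obtain ⟨n0, hn0⟩ := iidc s f ε hε
  refine ⟨n0, fun K _ _ hK cl τ W V M d hd hM hcard hcmp hdist htot => ?_⟩
  have hMR : (0 : ℝ) < M := by exact_mod_cast hM
  have hG : 0 < Fintype.card (Gp cl) := Fintype.card_pos_iff.mpr ⟨⟨1, fun j => rfl⟩⟩
  have hGR : (0 : ℝ) < Fintype.card (Gp cl) := by exact_mod_cast hG
  set T : (Cl × X → ℕ) → ℝ := fun b => ((univ.filter fun y : K → X => cmp cl y = b).card : ℝ)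
    with hT
  have hT0 : ∀ b, 0 ≤ T b := fun b => Nat.cast_nonneg _
  set wt : Finset (K → X) → ℝ := fun S => ∑ b ∈ W, ∑ g : Gp cl,
    if mv (V b) g = S then T b / (Fintype.card (Gp cl) * M) else 0 with hwt
  have hwt0 : ∀ S, 0 ≤ wt S := by
    intro S
    refine Finset.sum_nonneg fun b _ => Finset.sum_nonneg fun g _ => ?_
    split_ifs
    · exact div_nonneg (hT0 b) (by positivity)
    · exact le_rfl
  have hcov : ∀ x, ∑ S ∈ univ.filter (fun S : Finset (K → X) => x ∈ S), wt S =
      if cmp cl x ∈ W then 1 else 0 := by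
    intro x
    have h1 : ∑ S ∈ univ.filter (fun S : Finset (K → X) => x ∈ S), wt S =
        ∑ b ∈ W, ∑ g : Gp cl, if x ∈ mv (V b) g then T b / (Fintype.card (Gp cl) * M) else 0 := by
      simp only [hwt]
      rw [Finset.sum_comm]
      refine Finset.sum_congr rfl fun b _ => ?_
      rw [Finset.sum_comm]
      refine Finset.sum_congr rfl fun g _ => ?_
      rw [Finset.sum_ite_eq]
      simp only [Finset.mem_filter, Finset.mem_univ, true_and]
    rw [h1]
    have h2 : ∀ b ∈ W, (∑ g : Gp cl, if x ∈ mv (V b) g then T b / (Fintype.card (Gp cl) * M)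
        else 0) = if cmp cl x = b then 1 else 0 := by
      intro b hb
      rw [← Finset.sum_filter, Finset.sum_const, nsmul_eq_mul]
      by_cases h : cmp cl x = b
      · rw [if_pos h]
        have h3 := cover cl b (V b) (hcmp b hb) x h
        rw [hcard b hb] at h3
        have h4 : ((univ.filter fun g : Gp cl => x ∈ mv (V b) g).card : ℝ) * T b =
            Fintype.card (Gp cl) * M := by
          simp only [hT]
          exact_mod_cast h3
        rw [← mul_div_assoc, h4, div_self (by positivity)]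
      · rw [if_neg h]
        have h3 : (univ.filter fun g : Gp cl => x ∈ mv (V b) g) = ∅ := by
          rw [Finset.filter_eq_empty_iff]
          intro g _ hx
          unfold mv at hx
          rw [Finset.mem_image] at hx
          obtain ⟨v, hv, rfl⟩ := hx
          exact h (by rw [cmp_comp, hcmp b hb v hv])
        rw [h3]
        simp
    rw [Finset.sum_congr rfl h2, Finset.sum_ite_eq]
  have hsum : ∑ S, wt S = ∑ b ∈ W, T b / M := by
    simp only [hwt]
    rw [Finset.sum_comm]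
    refine Finset.sum_congr rfl fun b _ => ?_
    rw [Finset.sum_comm]
    have : ∀ g : Gp cl, ∑ S : Finset (K → X), (if mv (V b) g = S then
        T b / (Fintype.card (Gp cl) * M) else 0) = T b / (Fintype.card (Gp cl) * M) := by
      intro g
      rw [Finset.sum_ite_eq]
      simp
    simp only [this]
    rw [Finset.sum_const, Finset.card_univ, nsmul_eq_mul]
    field_simp
  have key := hn0 K hK (fun k => τ (cl k)) wt d hd hwt0 (fun x => by
      rw [hcov x]; split_ifs <;> norm_num) ?_ (by rw [hsum]; exact htot)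
  · refine le_trans (le_of_eq ?_) key
    congr 2
    refine Finset.sum_congr rfl fun x _ => ?_
    rw [hcov x]
    split_ifs <;> ring
  · intro S hS
    have : ∃ b ∈ W, ∃ g : Gp cl, mv (V b) g = S := by
      by_contra hcon
      push Not at hcon
      apply hS
      simp only [hwt]
      refine Finset.sum_eq_zero fun b hb => Finset.sum_eq_zero fun g _ => ?_
      rw [if_neg (hcon b hb g)]
    obtain ⟨b, hb, g, rfl⟩ := this
    exact mv_dist f cl (V b) d (hdist b hb) g

end Pool.Agent.H712.NI
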