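import Pool.Agent.H712.NI.ProdC
import Pool.Agent.H712.NI.Inv

/-! The `w`-fold product of one site. -/

open Finset

namespace Pool.Agent.H712.NI

open Pool.Agent.H390R2.LP Pool.Agent.H235R2.QLP

section ent
variable {K A : Type} [Fintype K] [DecidableEq K] [Fintype A]

lemma negMulLog_prod (S : Finset K) (x : K → ℝ) :
    Real.negMulLog (∏ k ∈ S, x k) = ∑ k ∈ S, Real.negMulLog (x k) * ∏ l ∈ S.erase k, x l := by
  induction S using Finset.induction_on with
  | empty => simp
  | insert a S ha ih =>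
    rw [Finset.prod_insert ha, Real.negMulLog_mul, Finset.sum_insert ha,
      Finset.erase_insert ha, ih, Finset.mul_sum]
    congr 1
    · ring
    · refine Finset.sum_congr rfl fun k hk => ?_
      have hne : a ≠ k := fun h => ha (by rw [h]; exact hk)
      rw [Finset.erase_insert_of_ne hne, Finset.prod_insert]
      · ring
      · intro h; exact ha (Finset.mem_of_mem_erase h)

/-- entropy of a product law -/
lemma ent_prod (p : K → A → ℝ) (hp : ∀ k, ∑ a, p k a = 1) :
    ∑ a : K → A, Real.negMulLog (∏ k, p k (a k)) = ∑ k, ∑ a, Real.negMulLog (p k a) := by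
  classical
  simp only [negMulLog_prod]
  rw [Finset.sum_comm]
  refine Finset.sum_congr rfl fun k _ => ?_
  have h1 : ∀ a : K → A, Real.negMulLog (p k (a k)) * ∏ l ∈ univ.erase k, p l (a l) =
      ∏ l, (if l = k then Real.negMulLog (p l (a l)) else p l (a l)) := by
    intro a
    rw [← Finset.mul_prod_erase univ _ (Finset.mem_univ k), if_pos rfl]
    congr 1
    refine Finset.prod_congr rfl fun l hl => ?_
    rw [if_neg (Finset.mem_erase.mp hl).1]
  simp only [h1]
  rw [sum_prod fun l o => if l = k then Real.negMulLog (p l o) else p l o,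
    ← Finset.mul_prod_erase univ _ (Finset.mem_univ k)]
  have h2 : ∏ l ∈ univ.erase k, ∑ o, (if l = k then Real.negMulLog (p l o) else p l o) = 1 := by
    refine Finset.prod_eq_one fun l hl => ?_
    rw [Finset.mem_erase] at hl
    simp [hl.1, hp]
  rw [h2, mul_one]
  simp

end ent

variable {Ω X : Type} [Fintype Ω] [DecidableEq Ω] {w : ℕ}

/-- the product site -/
noncomputable def psite (s : Site Ω X) (w : ℕ) : Site (Fin w → Ω) (Fin w → X) where
  pos ω k := s.pos (ω k)
  u := pv (fun _ => s.u)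
  w := pv (fun _ => s.w)
  lam := Lam (fun _ : Fin w => s)
  g := Gg (fun _ : Fin w => s)
  lab c k := s.lab (c k)
  u_orth := pv_orth (fun _ => s.u) fun _ => s.u_orth
  w_orth := pv_orth (fun _ => s.w) fun _ => s.w_orth
  lam_nonneg := Lam_nonneg _
  lam_sum := Lam_sum _
  w_supp c ω h := pv_supp (fun _ => s) c ω h
  w_diag c c' h := pv_diag (fun _ => s) c c' h

lemma psite_S (s : Site Ω X) : (psite s w).S = w * s.S := by
  unfold Site.S
  have := ent_prod (K := Fin w) (fun _ => s.lam) (fun _ => s.lam_sum)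
  rw [Finset.sum_const, Finset.card_univ, Fintype.card_fin, nsmul_eq_mul] at this
  exact this

lemma psite_h (s : Site Ω X) : (psite s w).h = w * s.h := by
  unfold Site.h
  have := ent_prod (K := Fin w) (fun _ => s.g) (fun _ => Pool.Agent.H703R2.LP.site_g_sum s)
  rw [Finset.sum_const, Finset.card_univ, Fintype.card_fin, nsmul_eq_mul] at this
  exact this

lemma psite_rk (s : Site Ω X) (ω ω' : Fin w → Ω) :
    rk (psite s w) ω ω' = ∏ k, rk s (ω k) (ω' k) := by
  unfold rk
  have h1 : ∀ j : Fin w → Ω, √((psite s w).lam j) * (psite s w).u j ω * (psite s w).u j ω' =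
      ∏ k, (√(s.lam (j k)) * s.u (j k) (ω k) * s.u (j k) (ω' k)) := by
    intro j
    rw [Finset.prod_mul_distrib, Finset.prod_mul_distrib]
    have : √((psite s w).lam j) = ∏ k, √(s.lam (j k)) := by
      show √(∏ k, s.lam (j k)) = _
      exact Real.sqrt_prod _ fun k _ => s.lam_nonneg _
    rw [this]
    rfl
  simp only [h1]
  exact sum_prod fun k o => √(s.lam o) * s.u o (ω k) * s.u o (ω' k)

lemma psite_rho (s : Site Ω X) (ω ω' : Fin w → Ω) :
    rho (psite s w) ω ω' = ∏ k, rho s (ω k) (ω' k) := by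
  unfold rho
  have h1 : ∀ j : Fin w → Ω, (psite s w).lam j * (psite s w).u j ω * (psite s w).u j ω' =
      ∏ k, (s.lam (j k) * s.u (j k) (ω k) * s.u (j k) (ω' k)) := by
    intro j
    rw [Finset.prod_mul_distrib, Finset.prod_mul_distrib]
    rfl
  simp only [h1]
  exact sum_prod fun k o => s.lam o * s.u o (ω k) * s.u o (ω' k)

/-- sums over the fibre of a product position -/
lemma fiber_prod [DecidableEq X] (s : Site Ω X) (φ : Fin w → Ω → ℝ) (x : Fin w → X) :
    ∑ ω : Fin w → Ω, (if (psite s w).pos ω = x then ∏ k, φ k (ω k) else 0) =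
      ∏ k, ∑ o, (if s.pos o = x k then φ k o else 0) := by
  rw [← sum_prod fun k o => if s.pos o = x k then φ k o else 0]
  refine Finset.sum_congr rfl fun ω _ => ?_
  by_cases h : (psite s w).pos ω = x
  · rw [if_pos h]
    refine Finset.prod_congr rfl fun k _ => ?_
    have hk : s.pos (ω k) = x k := congrFun h k
    rw [if_pos hk]
  · rw [if_neg h]
    obtain ⟨k, hk⟩ := Function.ne_iff.mp h
    exact (Finset.prod_eq_zero (Finset.mem_univ k) (if_neg hk)).symm

variable [Fintype X] [DecidableEq X] [AddCommGroup X]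

/-- translations of the product -/
def ptau (τ : X → Equiv.Perm Ω) (t : Fin w → X) : Equiv.Perm (Fin w → Ω) :=
  Equiv.piCongrRight fun k => τ (t k)

lemma psite_inv {s : Site Ω X} {τ : X → Equiv.Perm Ω} (hs : Inv s τ) :
    Inv (psite s w) (ptau τ) where
  pos_shift t ω := by
    funext k
    exact hs.pos_shift (t k) (ω k)
  rho_shift t ω ω' := by
    rw [psite_rho, psite_rho]
    exact Finset.prod_congr rfl fun k _ => hs.rho_shift (t k) (ω k) (ω' k)
  lab_shift t c := by
    funext k
    exact hs.lab_shift (t k) (c k)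
  g_shift t c := by
    show Gg (fun _ : Fin w => s) _ = Gg (fun _ : Fin w => s) _
    unfold Gg
    exact Finset.prod_congr rfl fun k _ => hs.g_shift (t k) (c k)
  unif j x := by
    have h1 : ∀ ω : Fin w → Ω, (if (psite s w).pos ω = x then (psite s w).u j ω ^ 2 else 0) =
        (if (psite s w).pos ω = x then ∏ k, s.u (j k) (ω k) ^ 2 else 0) := by
      intro ω
      rw [Finset.prod_pow]; rfl
    simp only [h1]
    rw [fiber_prod s (fun k o => s.u (j k) o ^ 2) x]
    simp only [hs.unif]
    rw [Finset.prod_const, Finset.card_univ, Fintype.card_fin, Fintype.card_fun, Fintype.card_fin]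
    push_cast
    rw [inv_pow]

/-- energy of the product -/
lemma psite_E (s : Site Ω X) (φ : X → ℝ) :
    (psite s w).E (fun (i : Fin w) (x : Fin w → X) => φ (x i)) =
      w * s.E (fun (_ : Unit) (x : X) => φ x) := by
  unfold Site.E
  have h1 : ∀ i : Fin w, (∑ a, (psite s w).lam a * ∑ ω, (psite s w).u a ω ^ 2 *
      φ ((psite s w).pos ω i) ^ 2 -
      ∑ a, ∑ b, √((psite s w).lam a * (psite s w).lam b) *
        (∑ ω, (psite s w).u a ω * φ ((psite s w).pos ω i) * (psite s w).u b ω) ^ 2) =
      (∑ a, s.lam a * ∑ ω, s.u a ω ^ 2 * φ (s.pos ω) ^ 2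
        - ∑ a, ∑ b, √(s.lam a * s.lam b) * (∑ ω, s.u a ω * φ (s.pos ω) * s.u b ω) ^ 2) := by
    intro i
    congr 1
    · exact moment_prod (fun _ : Fin w => s) (fun o => φ (s.pos o) ^ 2) i
    · exact overlap_prod (fun _ : Fin w => s) (fun o => φ (s.pos o)) i
  simp only [h1]
  rw [Finset.sum_const, Finset.card_univ, Fintype.card_fin, nsmul_eq_mul]
  simp
  ring

/-- position matrix of the square root kernel -/
noncomputable def m1 (s : Site Ω X) (x y : X) : ℝ :=
  ∑ o, ∑ o', if s.pos o = x ∧ s.pos o' = y then rk s o o' ^ 2 else 0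

lemma psite_Pp (s : Site Ω X) (a : (Fin w → X) → ℝ) (x : Fin w → X) :
    Pp (psite s w) a x = ∑ y, a y ^ 2 * ∏ k, m1 s (x k) (y k) := by
  rw [Pp_eq]
  have h1 : ∀ ω ω' : Fin w → Ω, (if (psite s w).pos ω = x then
      a ((psite s w).pos ω') ^ 2 * rk (psite s w) ω ω' ^ 2 else 0) =
      ∑ y, a y ^ 2 * (if (psite s w).pos ω = x ∧ (psite s w).pos ω' = y then
        rk (psite s w) ω ω' ^ 2 else 0) := by
    intro ω ω'
    by_cases h : (psite s w).pos ω = x
    · simp [h]
    · simp [h]
  simp only [h1]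
  have h2 : ∑ ω : Fin w → Ω, ∑ ω' : Fin w → Ω, ∑ y, a y ^ 2 *
      (if (psite s w).pos ω = x ∧ (psite s w).pos ω' = y then
        rk (psite s w) ω ω' ^ 2 else 0) =
      ∑ y, a y ^ 2 * ∑ ω : Fin w → Ω, ∑ ω' : Fin w → Ω,
        (if (psite s w).pos ω = x ∧ (psite s w).pos ω' = y then
        rk (psite s w) ω ω' ^ 2 else 0) := by
    simp only [Finset.mul_sum]
    have e1 : ∀ ω : Fin w → Ω, ∑ ω' : Fin w → Ω, ∑ y, a y ^ 2 *
      (if (psite s w).pos ω = x ∧ (psite s w).pos ω' = y then
        rk (psite s w) ω ω' ^ 2 else 0) = ∑ y, ∑ ω' : Fin w → Ω, a y ^ 2 *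
      (if (psite s w).pos ω = x ∧ (psite s w).pos ω' = y then
        rk (psite s w) ω ω' ^ 2 else 0) := fun ω => Finset.sum_comm
    simp only [e1]
    rw [Finset.sum_comm]
  rw [h2]
  refine Finset.sum_congr rfl fun y _ => ?_
  congr 1
  have h3 : ∀ ω : Fin w → Ω, ∑ ω' : Fin w → Ω,
      (if (psite s w).pos ω = x ∧ (psite s w).pos ω' = y then
        rk (psite s w) ω ω' ^ 2 else 0) =
      if (psite s w).pos ω = x then
        ∏ k, ∑ o', (if s.pos o' = y k then rk s (ω k) o' ^ 2 else 0) else 0 := by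
    intro ω
    by_cases h : (psite s w).pos ω = x
    · simp only [h, true_and, if_true]
      rw [← fiber_prod s (fun k o' => rk s (ω k) o' ^ 2) y]
      refine Finset.sum_congr rfl fun ω' _ => ?_
      rw [psite_rk, Finset.prod_pow]
    · simp [h]
  simp only [h3]
  rw [fiber_prod s (fun k o => ∑ o', (if s.pos o' = y k then rk s o o' ^ 2 else 0)) x]
  refine Finset.prod_congr rfl fun k _ => ?_
  unfold m1
  refine Finset.sum_congr rfl fun o _ => ?_
  by_cases h : s.pos o = x k
  · simp [h]
  · simp [h]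

end Pool.Agent.H712.NI
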