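import Pool.Graph.R_seed8.TH753.MB3
import Pool.Agent.H712.NI.PSite

/-! The sites of law `P` built from a pair of positive semidefinite matrices. -/

open Finset

namespace Pool.Agent.H712.NI

open Pool.Agent.H390R2.LP Pool.Agent.H235R2.QLP Pool.Agent.TH753.MB

variable {ι : Type} [Fintype ι] [DecidableEq ι]

/-- the flip -/
def tau1 (t : Fin 2) : Equiv.Perm (Fin 2 × ι) := (Equiv.addRight t).prodCongr (Equiv.refl ι)

lemma tau1_fst (t : Fin 2) (ω : Fin 2 × ι) : (tau1 t ω).1 = ω.1 + t := rfl
lemma tau1_snd (t : Fin 2) (ω : Fin 2 × ι) : (tau1 t ω).2 = ω.2 := rfl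

lemma sg_add (x t : Fin 2) : sg (x + t) = sg x * sg t := by
  fin_cases x <;> fin_cases t <;> simp [sg]

lemma U_shift (d : Pair ι) (t : Fin 2) (a ω ω' : Fin 2 × ι) :
    d.U a (tau1 t ω) * d.U a (tau1 t ω') = d.U a ω * d.U a ω' := by
  unfold Pair.U
  by_cases h : a.1 = 0
  · simp only [if_pos h, tau1_snd]
  · simp only [if_neg h, tau1_snd, tau1_fst, sg_add]
    have := sg_mul_self t
    linear_combination ((√2)⁻¹ * (sg ω.1 * d.v a.2 ω.2) * ((√2)⁻¹ * (sg ω'.1 * d.v a.2 ω'.2))) *
      this

lemma pair_inv (d : Pair ι) : Inv d.site tau1 where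
  pos_shift t ω := rfl
  rho_shift t ω ω' := by
    unfold rho
    refine Finset.sum_congr rfl fun a _ => ?_
    have := U_shift d t a ω ω'
    show d.L a * d.U a (tau1 t ω) * d.U a (tau1 t ω') = d.L a * d.U a ω * d.U a ω'
    linear_combination d.L a * this
  lab_shift t c := rfl
  g_shift t c := rfl
  unif j x := by
    rw [Fintype.sum_prod_type, Finset.sum_eq_single x]
    · have hs := half
      have h1 : ∀ i, (if d.site.pos (x, i) = x then d.site.u j (x, i) ^ 2 else 0) =
          1 / 2 * (if j.1 = 0 then d.u j.2 i * d.u j.2 i else d.v j.2 i * d.v j.2 i) := by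
        intro i
        have hp : d.site.pos (x, i) = x := rfl
        rw [if_pos hp]
        show d.U j (x, i) ^ 2 = _
        unfold Pair.U
        have h3 := sg_mul_self x
        by_cases h : j.1 = 0
        · simp only [if_pos h]
          linear_combination (d.u j.2 i * d.u j.2 i) * hs
        · simp only [if_neg h]
          linear_combination (sg x * sg x * d.v j.2 i * d.v j.2 i) * hs +
            (1 / 2 * d.v j.2 i * d.v j.2 i) * h3
      simp only [h1]
      rw [← Finset.mul_sum]
      by_cases h : j.1 = 0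
      · simp only [if_pos h]
        rw [d.hu, if_pos rfl]; norm_num
      · simp only [if_neg h]
        rw [d.hv, if_pos rfl]; norm_num
    · intro y _ hy
      refine Finset.sum_eq_zero fun i _ => ?_
      rw [if_neg]
      exact hy
    · intro h; exact absurd (Finset.mem_univ x) h

section general
variable {Ω : Type} [Fintype Ω] [DecidableEq Ω] (s : Site Ω (Fin 2))

/-- partial overlaps -/
noncomputable def go (x : Fin 2) (a b : Ω) : ℝ :=
  ∑ ω, if s.pos ω = x then s.u a ω * s.u b ω else 0

lemma go_add (a b : Ω) : go s 0 a b + go s 1 a b = if a = b then 1 else 0 := by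
  unfold go
  rw [← s.u_orth a b, ← Finset.sum_add_distrib]
  refine Finset.sum_congr rfl fun ω _ => ?_
  rcases fin2_cases (s.pos ω) with h | h <;> simp [h]

lemma m1_diag (x : Fin 2) : m1 s x x = G s x := by
  unfold m1 G
  have h1 : ∀ o o', (if s.pos o = x ∧ s.pos o' = x then rk s o o' ^ 2 else 0) =
      ∑ a, ∑ b, √(s.lam a * s.lam b) * ((if s.pos o = x then s.u a o * s.u b o else 0) *
        (if s.pos o' = x then s.u a o' * s.u b o' else 0)) := by
    intro o o'
    by_cases h : s.pos o = x
    · by_cases h' : s.pos o' = x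
      · simp only [h, h', and_self, if_true]
        unfold rk
        rw [sq, Finset.sum_mul_sum]
        refine Finset.sum_congr rfl fun a _ => Finset.sum_congr rfl fun b _ => ?_
        rw [Real.sqrt_mul (s.lam_nonneg a)]
        ring
      · simp [h']
    · simp [h]
  simp only [h1]
  have h2 : ∀ o, ∑ o', ∑ a, ∑ b, √(s.lam a * s.lam b) *
      ((if s.pos o = x then s.u a o * s.u b o else 0) *
        (if s.pos o' = x then s.u a o' * s.u b o' else 0)) =
      ∑ a, ∑ b, √(s.lam a * s.lam b) * ((if s.pos o = x then s.u a o * s.u b o else 0) *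
        ∑ o', (if s.pos o' = x then s.u a o' * s.u b o' else 0)) := by
    intro o
    rw [Finset.sum_comm]
    refine Finset.sum_congr rfl fun a _ => ?_
    rw [Finset.sum_comm]
    refine Finset.sum_congr rfl fun b _ => ?_
    rw [Finset.mul_sum, Finset.mul_sum]
  simp only [h2]
  rw [Finset.sum_comm]
  refine Finset.sum_congr rfl fun a _ => ?_
  rw [Finset.sum_comm]
  refine Finset.sum_congr rfl fun b _ => ?_
  rw [← Finset.mul_sum, ← Finset.sum_mul, sq]

lemma site_E_sg : s.E (fun (_ : Unit) (x : Fin 2) => sg x / 2) = EH s := by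
  unfold Site.E EH
  rw [Fin.sum_univ_two]
  simp only [Finset.univ_unique, Finset.sum_singleton]
  have h1 : ∑ a, s.lam a * ∑ ω, s.u a ω ^ 2 * (sg (s.pos ω) / 2) ^ 2 = 1 / 4 := by
    have : ∀ a, s.lam a * ∑ ω, s.u a ω ^ 2 * (sg (s.pos ω) / 2) ^ 2 = s.lam a * (1 / 4) := by
      intro a
      have h2 := s.u_orth a a
      rw [if_pos rfl] at h2
      congr 1
      have h3 : ∀ ω, s.u a ω ^ 2 * (sg (s.pos ω) / 2) ^ 2 = (s.u a ω * s.u a ω) * (1 / 4) := by
        intro ω
        have := sg_mul_self (s.pos ω)
        linear_combination (s.u a ω ^ 2 / 4) * this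
      simp only [h3]
      rw [← Finset.sum_mul, h2, one_mul]
    simp only [this]
    rw [← Finset.sum_mul, s.lam_sum, one_mul]
  have h2 : ∀ a b, ∑ ω, s.u a ω * (sg (s.pos ω) / 2) * s.u b ω =
      (go s 0 a b - go s 1 a b) / 2 := by
    intro a b
    unfold go
    rw [← Finset.sum_sub_distrib, Finset.sum_div]
    refine Finset.sum_congr rfl fun ω _ => ?_
    rcases fin2_cases (s.pos ω) with h | h <;> simp [h, sg] <;> ring
  have h3 : ∑ a, ∑ b, √(s.lam a * s.lam b) *
      (∑ ω, s.u a ω * (sg (s.pos ω) / 2) * s.u b ω) ^ 2 = (G s 0 + G s 1) / 2 - 1 / 4 := by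
    have h4 : ∀ a b, √(s.lam a * s.lam b) *
      (∑ ω, s.u a ω * (sg (s.pos ω) / 2) * s.u b ω) ^ 2 =
      (√(s.lam a * s.lam b) * go s 0 a b ^ 2) / 2 + (√(s.lam a * s.lam b) * go s 1 a b ^ 2) / 2 -
        1 / 4 * (√(s.lam a * s.lam b) * (if a = b then 1 else 0)) := by
      intro a b
      rw [h2]
      have h5 := go_add s a b
      have h6 : (if a = b then (1 : ℝ) else 0) = (if a = b then (1 : ℝ) else 0) ^ 2 := by
        split_ifs <;> norm_num
      rw [h6, ← h5]
      ring
    simp only [h4, Finset.sum_sub_distrib, Finset.sum_add_distrib]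
    have h7 : ∑ a, ∑ b, 1 / 4 * (√(s.lam a * s.lam b) * (if a = b then (1 : ℝ) else 0)) =
        1 / 4 := by
      have : ∀ a, ∑ b, 1 / 4 * (√(s.lam a * s.lam b) * (if a = b then (1 : ℝ) else 0)) =
          1 / 4 * s.lam a := by
        intro a
        rw [← Finset.mul_sum]
        simp [Real.sqrt_mul_self (s.lam_nonneg a)]
      simp only [this]
      rw [← Finset.mul_sum, s.lam_sum, mul_one]
    rw [h7]
    unfold G go
    rw [add_div, Finset.sum_div, Finset.sum_div]
    congr 2
    · exact Finset.sum_congr rfl fun a _ => by rw [Finset.sum_div]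
    · exact Finset.sum_congr rfl fun a _ => by rw [Finset.sum_div]
  rw [h1, h3]
  ring

end general

lemma rk_shift (d : Pair ι) (t : Fin 2) (ω ω' : Fin 2 × ι) :
    rk d.site (tau1 t ω) (tau1 t ω') = rk d.site ω ω' := by
  unfold rk
  refine Finset.sum_congr rfl fun a _ => ?_
  have := U_shift d t a ω ω'
  show √(d.site.lam a) * d.U a (tau1 t ω) * d.U a (tau1 t ω') =
    √(d.site.lam a) * d.U a ω * d.U a ω'
  linear_combination √(d.site.lam a) * this

lemma m1_shift (d : Pair ι) (t x y : Fin 2) : m1 d.site (x + t) (y + t) = m1 d.site x y := by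
  unfold m1
  rw [← Equiv.sum_comp (tau1 t) (fun o => ∑ o', if d.site.pos o = x + t ∧
    d.site.pos o' = y + t then rk d.site o o' ^ 2 else 0)]
  refine Finset.sum_congr rfl fun o _ => ?_
  rw [← Equiv.sum_comp (tau1 t) (fun o' => if d.site.pos (tau1 t o) = x + t ∧
    d.site.pos o' = y + t then rk d.site (tau1 t o) o' ^ 2 else 0)]
  refine Finset.sum_congr rfl fun o' _ => ?_
  rw [rk_shift]
  have h1 : ∀ (o : Fin 2 × ι) (x : Fin 2), d.site.pos (tau1 t o) = x + t ↔ d.site.pos o = x := by
    intro o x
    show o.1 + t = x + t ↔ o.1 = x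
    exact add_left_inj t
  simp only [h1]

lemma m1_row (d : Pair ι) (x : Fin 2) : m1 d.site x 0 + m1 d.site x 1 = 1 / 2 := by
  have h1 : m1 d.site x 0 + m1 d.site x 1 =
      ∑ o, if d.site.pos o = x then ∑ o', rk d.site o o' ^ 2 else 0 := by
    unfold m1
    rw [← Finset.sum_add_distrib]
    refine Finset.sum_congr rfl fun o _ => ?_
    rw [← Finset.sum_add_distrib]
    by_cases h : d.site.pos o = x
    · rw [if_pos h]
      refine Finset.sum_congr rfl fun o' _ => ?_
      rcases fin2_cases (d.site.pos o') with h' | h' <;> simp [h, h']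
    · simp [h]
  have h2 : ∀ o, ∑ o', rk d.site o o' ^ 2 = ∑ a, d.site.lam a * d.site.u a o ^ 2 := by
    intro o
    unfold rk
    have h3 : ∀ o', (∑ j, √(d.site.lam j) * d.site.u j o * d.site.u j o') ^ 2 =
        ∑ a, ∑ b, (√(d.site.lam a) * d.site.u a o) * (√(d.site.lam b) * d.site.u b o) *
          (d.site.u a o' * d.site.u b o') := by
      intro o'
      rw [sq, Finset.sum_mul_sum]
      exact Finset.sum_congr rfl fun a _ => Finset.sum_congr rfl fun b _ => by ring
    simp only [h3]
    rw [Finset.sum_comm]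
    refine Finset.sum_congr rfl fun a _ => ?_
    rw [Finset.sum_comm]
    simp only [← Finset.mul_sum, d.site.u_orth]
    simp only [mul_ite, mul_one, mul_zero, Finset.sum_ite_eq, Finset.mem_univ, if_true]
    have := Real.mul_self_sqrt (d.site.lam_nonneg a)
    linear_combination (d.site.u a o ^ 2) * this
  rw [h1]
  simp only [h2]
  have h4 : ∀ o, (if d.site.pos o = x then ∑ a, d.site.lam a * d.site.u a o ^ 2 else 0) =
      ∑ a, d.site.lam a * (if d.site.pos o = x then d.site.u a o ^ 2 else 0) := by
    intro o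
    by_cases h : d.site.pos o = x <;> simp [h]
  simp only [h4]
  rw [Finset.sum_comm]
  simp only [← Finset.mul_sum, (pair_inv d).unif]
  rw [← Finset.sum_mul, d.site.lam_sum]
  norm_num

/-- the position matrix of a pair -/
lemma pair_m1 (d : Pair ι) (x y : Fin 2) :
    2 * m1 d.site x y = if x = y then 1 - EH d.site else EH d.site := by
  have hG : m1 d.site 0 0 + m1 d.site 1 1 = 1 - EH d.site := by
    rw [m1_diag, m1_diag]
    unfold EH
    rw [Fin.sum_univ_two]
    ring
  have h1 : m1 d.site 1 1 = m1 d.site 0 0 := m1_shift d 1 0 0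
  have h2 := m1_row d 0
  have h3 := m1_row d 1
  rcases fin2_cases x with rfl | rfl <;> rcases fin2_cases y with rfl | rfl
  · rw [if_pos rfl]; linarith
  · rw [if_neg (by norm_num)]; linarith
  · rw [if_neg (by norm_num)]; linarith
  · rw [if_pos rfl]; linarith

/-- the distribution of a word of law `P` after independent bit flips with probability `e` -/
noncomputable def Nz {w : ℕ} (e : ℝ) (P : (Fin w → Fin 2) → ℝ) (z : Fin w → Fin 2) : ℝ :=
  ∑ y, P y * ∏ k, (if z k = y k then 1 - e else e)

/-- **The site of law `P`.** -/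
theorem exists_law_site (d : Pair ι) (w : ℕ) (P : (Fin w → Fin 2) → ℝ) (hP : ∀ x, 0 ≤ P x)
    (hP1 : ∑ x, P x = 1) : ∃ s : Site (Fin w → Fin 2 × ι) (Fin w → Fin 2),
      (∀ x, s.P x = P x) ∧
      s.E (fun (i : Fin w) (x : Fin w → Fin 2) => sg (x i) / 2) ≤ w * EH d.site ∧
      ∑ x, Real.negMulLog (P x) - (s.h - s.S) ≤
        ∑ z, Real.negMulLog (Nz (EH d.site) P z) - w * cc d.site := by
  have hs := psite_inv (w := w) (pair_inv d)
  refine ⟨hs.tl P hP hP1, hs.tl_P P hP hP1, ?_, ?_⟩
  · have h1 := hs.tl_E P hP hP1 (fun (i : Fin w) (x : Fin w → Fin 2) => sg (x i) / 2)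
      (fun i t => sg (t i)) (fun i t => by
        have := sg_mul_self (t i)
        rw [sq]; exact this)
      (fun i x t => by
        show sg (x i + t i) / 2 = _
        rw [sg_add]; ring) (1 / 4) (fun i x => by
        have := sg_mul_self (x i)
        linear_combination this / 4)
    have h2 := psite_E (w := w) d.site (fun x => sg x / 2)
    rw [site_E_sg] at h2
    exact h1.trans h2.le
  · have h1 := hs.tl_value P hP hP1
    have h2 : ∀ z, Pp (psite d.site w) (av P) z = Nz (EH d.site) P z := by
      intro z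
      rw [psite_Pp]
      unfold Nz
      refine Finset.sum_congr rfl fun y _ => ?_
      rw [av_sq P hP]
      have h3 : ∀ k, (if z k = y k then 1 - EH d.site else EH d.site) =
          2 * m1 d.site (z k) (y k) := fun k => (pair_m1 d (z k) (y k)).symm
      simp only [h3]
      rw [Finset.prod_mul_distrib, Finset.prod_const, Finset.card_univ, Fintype.card_fin,
        Fintype.card_fun, Fintype.card_fin, Fintype.card_fin]
      push_cast
      ring
    simp only [h2] at h1
    have h4 : (psite d.site w).h - (psite d.site w).S = w * cc d.site := by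
      rw [psite_h, psite_S]
      unfold cc
      ring
    rw [h4] at h1
    exact h1

end Pool.Agent.H712.NI
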