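import Pool.Agent.H712.NI.Theta

/-! Parity biases and entropies of noisy laws. -/

open Finset

namespace Pool.Agent.H712.NI

/-- sign of a bit -/
def sgb (a : Bool) : ℝ := if a then -1 else 1

lemma sgb_sq (a : Bool) : sgb a ^ 2 = 1 := by cases a <;> simp [sgb]

/-- parity sign of a word -/
def psg {w : ℕ} (z : Fin w → Bool) : ℝ := ∏ i, sgb (z i)

lemma psg_cases {w : ℕ} (z : Fin w → Bool) : psg z = 1 ∨ psg z = -1 := by
  have h : psg z ^ 2 = 1 := by
    unfold psg
    rw [← Finset.prod_pow]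
    exact Finset.prod_eq_one fun i _ => sgb_sq _
  have h2 : (psg z - 1) * (psg z + 1) = 0 := by linear_combination h
  rcases mul_eq_zero.mp h2 with h3 | h3
  · left; linarith
  · right; linarith

lemma psg_sum {w : ℕ} (hw : 0 < w) : ∑ z : Fin w → Bool, psg z = 0 := by
  unfold psg
  have h := Fintype.prod_sum (fun (_ : Fin w) (c : Bool) => sgb c)
  rw [← h]
  refine Finset.prod_eq_zero (Finset.mem_univ (⟨0, hw⟩ : Fin w)) ?_
  simp [sgb]

/-- noise multiplies the parity bias by `(1 - 2 δ) ^ w` -/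
lemma bias_noisy {w : ℕ} (δ : ℝ) (P : (Fin w → Bool) → ℝ) :
    ∑ z, noisy δ P z * psg z = (1 - 2 * δ) ^ w * ∑ y, P y * psg y := by
  unfold noisy psg
  simp only [Finset.sum_mul]
  rw [Finset.sum_comm, Finset.mul_sum]
  refine Finset.sum_congr rfl fun y _ => ?_
  have h1 : ∀ z : Fin w → Bool, P y * (∏ i, if z i = y i then 1 - δ else δ) * ∏ i, sgb (z i) =
      P y * ∏ i, ((if z i = y i then 1 - δ else δ) * sgb (z i)) := by
    intro z
    rw [Finset.prod_mul_distrib, mul_assoc]
  simp only [h1]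
  rw [← Finset.mul_sum]
  have h := Fintype.prod_sum (fun (i : Fin w) (c : Bool) =>
    (if c = y i then 1 - δ else δ) * sgb c)
  rw [← h]
  have h2 : ∀ i, ∑ c : Bool, (if c = y i then 1 - δ else δ) * sgb c = (1 - 2 * δ) * sgb (y i) := by
    intro i
    cases y i <;> simp [sgb] <;> ring
  simp only [h2]
  rw [Finset.prod_mul_distrib, Finset.prod_const, Finset.card_univ, Fintype.card_fin]
  ring

/-- concavity on a set -/
lemma ent_on_set {A : Type} (T : Finset A) (hT : T.Nonempty) (Q : A → ℝ) (hQ : ∀ z ∈ T, 0 ≤ Q z) :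
    ∑ z ∈ T, Real.negMulLog (Q z) ≤
      Real.negMulLog (∑ z ∈ T, Q z) + (∑ z ∈ T, Q z) * Real.log T.card := by
  have hK : (0 : ℝ) < T.card := by exact_mod_cast Finset.card_pos.mpr hT
  have h2 := Real.concaveOn_negMulLog.le_map_sum (t := T) (w := fun _ => (T.card : ℝ)⁻¹)
    (p := Q) (fun _ _ => by positivity) (by
      rw [Finset.sum_const, nsmul_eq_mul, mul_inv_cancel₀ hK.ne'])
    (fun z hz => hQ z hz)
  simp only [smul_eq_mul, ← Finset.mul_sum] at h2
  rw [Real.negMulLog_mul] at h2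
  have h3 : Real.negMulLog (T.card : ℝ)⁻¹ = (T.card : ℝ)⁻¹ * Real.log T.card := by
    unfold Real.negMulLog
    rw [Real.log_inv]; ring
  rw [h3] at h2
  have h4 := mul_le_mul_of_nonneg_left h2 hK.le
  have h5 : (T.card : ℝ) * ((T.card : ℝ)⁻¹ * ∑ z ∈ T, Real.negMulLog (Q z)) =
      ∑ z ∈ T, Real.negMulLog (Q z) := by
    rw [← mul_assoc, mul_inv_cancel₀ hK.ne', one_mul]
  rw [h5] at h4
  refine h4.trans (le_of_eq ?_)
  field_simp
  ring

/-- the entropy of a law is at most that of a law with the same parity bias -/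
lemma ent_parity {w : ℕ} (hw : 0 < w) (Q : (Fin w → Bool) → ℝ) (hQ : ∀ z, 0 ≤ Q z)
    (h1 : ∑ z, Q z = 1) : ∑ z, Real.negMulLog (Q z) ≤
      (w - 1) * Real.log 2 + Real.binEntropy ((1 + ∑ z, Q z * psg z) / 2) := by
  classical
  set b : ℝ := ∑ z, Q z * psg z with hb
  set T0 : Finset (Fin w → Bool) := univ.filter fun z => psg z = 1 with hT0
  set T1 : Finset (Fin w → Bool) := univ.filter fun z => ¬ psg z = 1 with hT1
  have hneg : ∀ z ∈ T1, psg z = -1 := by
    intro z hz
    rw [hT1, Finset.mem_filter] at hz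
    exact (psg_cases z).resolve_left hz.2
  have hpos : ∀ z ∈ T0, psg z = 1 := by
    intro z hz
    rw [hT0, Finset.mem_filter] at hz
    exact hz.2
  have hsplit : ∀ f : (Fin w → Bool) → ℝ, ∑ z, f z = ∑ z ∈ T0, f z + ∑ z ∈ T1, f z := fun f =>
    (Finset.sum_filter_add_sum_filter_not univ (fun z => psg z = 1) f).symm
  have hcard1 : (T0.card : ℝ) + T1.card = 2 ^ w := by
    have := hsplit fun _ => 1
    simp only [Finset.sum_const, nsmul_eq_mul, mul_one, Finset.card_univ] at this
    rw [← this, Fintype.card_fun, Fintype.card_fin, Fintype.card_bool]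
    push_cast
    rfl
  have hcard2 : (T0.card : ℝ) - T1.card = 0 := by
    have := hsplit psg
    rw [psg_sum hw, Finset.sum_congr rfl hpos, Finset.sum_congr rfl hneg] at this
    simp only [Finset.sum_const, nsmul_eq_mul] at this
    linarith
  have hpw : (2 : ℝ) ^ w = 2 * 2 ^ (w - 1) := by
    rw [← pow_succ']
    congr 1
    omega
  have hc0 : (T0.card : ℝ) = 2 ^ (w - 1) := by linarith
  have hc1 : (T1.card : ℝ) = 2 ^ (w - 1) := by linarith
  have hne0 : T0.Nonempty := by
    rw [← Finset.card_pos]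
    have : (0 : ℝ) < T0.card := by rw [hc0]; positivity
    exact_mod_cast this
  have hne1 : T1.Nonempty := by
    rw [← Finset.card_pos]
    have : (0 : ℝ) < T1.card := by rw [hc1]; positivity
    exact_mod_cast this
  set q0 : ℝ := ∑ z ∈ T0, Q z with hq0
  set q1 : ℝ := ∑ z ∈ T1, Q z with hq1
  have e1 : q0 + q1 = 1 := by rw [← h1, hsplit Q]
  have e2 : q0 - q1 = b := by
    rw [hb, hsplit (fun z => Q z * psg z)]
    have a0 : ∑ z ∈ T0, Q z * psg z = q0 :=
      Finset.sum_congr rfl fun z hz => by rw [hpos z hz, mul_one]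
    have a1 : ∑ z ∈ T1, Q z * psg z = -q1 := by
      rw [hq1, ← Finset.sum_neg_distrib]
      exact Finset.sum_congr rfl fun z hz => by rw [hneg z hz]; ring
    rw [a0, a1]
    ring
  have e3 : (1 + b) / 2 = q0 := by linarith
  have e4 : 1 - q0 = q1 := by linarith
  rw [hsplit, e3, Real.binEntropy_eq_negMulLog_add_negMulLog_one_sub, e4]
  have s0 := ent_on_set T0 hne0 Q fun z _ => hQ z
  have s1 := ent_on_set T1 hne1 Q fun z _ => hQ z
  rw [hc0, Real.log_pow] at s0
  rw [hc1, Real.log_pow] at s1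
  have hw1 : ((w - 1 : ℕ) : ℝ) = w - 1 := by
    rw [Nat.cast_sub hw]
    push_cast
    ring
  rw [hw1] at s0 s1
  have h9 : q0 * ((w - 1) * Real.log 2) + q1 * ((w - 1) * Real.log 2) =
      (w - 1) * Real.log 2 := by
    rw [← add_mul, e1, one_mul]
  linarith

lemma blaw_sum {n w : ℕ} (C : Finset (Fin n → Bool)) (hC : C.Nonempty) (b : Fin w → Fin n) :
    ∑ y, blaw C b y = 1 := by
  classical
  unfold blaw
  rw [← Finset.sum_div]
  have h : (0 : ℝ) < C.card := by exact_mod_cast Finset.card_pos.mpr hC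
  rw [div_eq_one_iff_eq h.ne']
  have := Finset.card_eq_sum_card_fiberwise (f := fun (x : Fin n → Bool) (i : Fin w) => x (b i))
    (s := C) (t := univ) (fun _ _ => Finset.mem_univ _)
  have h2 : ∀ y : Fin w → Bool, (C.filter fun x => ∀ i, x (b i) = y i) =
      C.filter fun x => (fun i => x (b i)) = y := by
    intro y
    refine Finset.filter_congr fun x _ => ?_
    exact ⟨fun h => funext h, fun h i => congrFun h i⟩
  simp only [h2]
  exact_mod_cast this.symm

/-- the parity bias of a block -/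
lemma blaw_bias {n w : ℕ} (C : Finset (Fin n → Bool)) (b : Fin w → Fin n) :
    ∑ y, blaw C b y * psg y = (∑ x ∈ C, ∏ i, sgb (x (b i))) / C.card := by
  classical
  unfold blaw
  have h2 : ∀ y : Fin w → Bool, (C.filter fun x => ∀ i, x (b i) = y i) =
      C.filter fun x => (fun i => x (b i)) = y := by
    intro y
    refine Finset.filter_congr fun x _ => ?_
    exact ⟨fun h => funext h, fun h i => congrFun h i⟩
  simp only [h2, div_mul_eq_mul_div]
  rw [← Finset.sum_div]
  congr 1
  rw [← Finset.sum_fiberwise (s := C) (g := fun (x : Fin n → Bool) (i : Fin w) => x (b i))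
    (f := fun x => ∏ i, sgb (x (b i)))]
  refine Finset.sum_congr rfl fun y _ => ?_
  rw [Finset.sum_congr rfl (g := fun _ => psg y) fun x hx => by
    have := (Finset.mem_filter.mp hx).2
    unfold psg
    rw [← this]]
  rw [Finset.sum_const, nsmul_eq_mul]

/-- the gain of a parity bias, in bits -/
noncomputable def gain (b : ℝ) : ℝ := 1 - Real.binEntropy ((1 + b) / 2) / Real.log 2

lemma gain_pos {b : ℝ} (h0 : 0 < b) : 0 < gain b := by
  have hlog : 0 < Real.log 2 := Real.log_pos (by norm_num)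
  unfold gain
  rw [sub_pos, div_lt_one hlog, Real.binEntropy_lt_log_two]
  intro h
  have : (1 + b) / 2 = 1 / 2 := by rw [h]; norm_num
  linarith

lemma gain_neg (b : ℝ) : gain (-b) = gain b := by
  unfold gain
  congr 2
  rw [← Real.binEntropy_one_sub]
  congr 1
  ring

lemma gain_abs (b : ℝ) : gain |b| = gain b := by
  rcases abs_cases b with ⟨h, _⟩ | ⟨h, _⟩
  · rw [h]
  · rw [h, gain_neg]

lemma gain_mono {b b' : ℝ} (h0 : 0 ≤ b) (h : b ≤ b') (h1 : b' ≤ 1) : gain b ≤ gain b' := by
  have hlog : 0 < Real.log 2 := Real.log_pos (by norm_num)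
  unfold gain
  have h2 := Real.binEntropy_strictAntiOn.antitoneOn (a := (1 + b) / 2) (b := (1 + b') / 2)
    ⟨by rw [inv_eq_one_div]; linarith, by linarith⟩ ⟨by rw [inv_eq_one_div]; linarith, by linarith⟩
    (by linarith)
  have h3 := div_le_div_of_nonneg_right h2 hlog.le
  linarith

/-- the deficit of a block is at least the gain of its noisy parity bias -/
lemma deficit_ge {n w : ℕ} (hw : 0 < w) {δ : ℝ} (h0 : 0 ≤ δ) (h1 : δ ≤ 1 / 2)
    (C : Finset (Fin n → Bool)) (hC : C.Nonempty) (b : Fin w → Fin n) {β : ℝ} (hβ : 0 ≤ β)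
    (hb : β * C.card ≤ |∑ x ∈ C, ∏ i, sgb (x (b i))|) :
    gain (β * (1 - 2 * δ) ^ w) ≤ w - Th.Ent (noisy δ (blaw C b)) := by
  have hlog : 0 < Real.log 2 := Real.log_pos (by norm_num)
  have hCc : (0 : ℝ) < C.card := by exact_mod_cast Finset.card_pos.mpr hC
  set Q := noisy δ (blaw C b) with hQdef
  have hQ : ∀ z, 0 ≤ Q z := by
    intro z
    refine Finset.sum_nonneg fun y _ => mul_nonneg (blaw_nonneg C b y) ?_
    refine Finset.prod_nonneg fun i _ => ?_
    split_ifs <;> linarith
  have hQ1 : ∑ z, Q z = 1 := by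
    have h2 : ∀ z, Q z = Nz δ (fun y => blaw C b ((bts w).symm y)) (bts w z) := by
      intro z
      rw [← noisy_eq]
      simp only [Equiv.symm_apply_apply]
      rfl
    simp only [h2]
    rw [Equiv.sum_comp (bts w) (fun z => Nz δ (fun y => blaw C b ((bts w).symm y)) z), Nz_sum,
      Equiv.sum_comp (bts w).symm (fun y => blaw C b y), blaw_sum C hC b]
  have h3 := ent_parity hw Q hQ hQ1
  have h4 := bias_noisy δ (blaw C b)
  rw [blaw_bias] at h4
  rw [← hQdef] at h4
  set B : ℝ := ∑ z, Q z * psg z with hB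
  have h5 : gain B ≤ w - Th.Ent Q := by
    rw [Th.Ent_eq]
    unfold gain
    have h6 := div_le_div_of_nonneg_right h3 hlog.le
    rw [add_div, mul_div_assoc, div_self hlog.ne', mul_one] at h6
    linarith
  refine le_trans ?_ h5
  rw [← gain_abs B]
  have hp : 0 ≤ (1 - 2 * δ) ^ w := pow_nonneg (by linarith) _
  refine gain_mono (mul_nonneg hβ hp) ?_ ?_
  · rw [h4, abs_mul, abs_of_nonneg hp, mul_comm, abs_div, abs_of_pos hCc]
    refine mul_le_mul_of_nonneg_left ?_ hp
    rw [le_div_iff₀ hCc]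
    exact hb
  · have h7 : |B| ≤ ∑ z, Q z := by
      refine (Finset.abs_sum_le_sum_abs _ _).trans (Finset.sum_le_sum fun z _ => ?_)
      rw [abs_mul, abs_of_nonneg (hQ z)]
      rcases psg_cases z with h | h <;> rw [h] <;> simp
    linarith

end Pool.Agent.H712.NI
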