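import Pool.Agent.H712.NI.Parity

/-! The bound for disjoint biased parities, for codes over an arbitrary set of coordinates. -/

open Finset

namespace Pool.Agent.H712.NI

/-- sign of an element of `ZMod 2` -/
def sz (a : ZMod 2) : ℝ := if a = 0 then 1 else -1

lemma zmod2_cases (a : ZMod 2) : a = 0 ∨ a = 1 := by
  revert a; decide

lemma sz_add (a b : ZMod 2) : sz (a + b) = sz a * sz b := by
  rcases zmod2_cases a with rfl | rfl <;> rcases zmod2_cases b with rfl | rfl
  · simp [sz]
  · simp [sz]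
  · simp [sz]
  · have h : (1 : ZMod 2) + 1 = 0 := by decide
    rw [h]
    simp [sz]

lemma sz_zero : sz 0 = 1 := by simp [sz]

lemma sz_sq (a : ZMod 2) : sz a * sz a = 1 := by
  rcases zmod2_cases a with rfl | rfl <;> simp [sz]

lemma sz_sum {ι : Type} (s : Finset ι) (f : ι → ZMod 2) : sz (∑ i ∈ s, f i) = ∏ i ∈ s, sz (f i) := by
  classical
  induction s using Finset.induction_on with
  | empty => simp [sz_zero]
  | insert a s ha ih => rw [Finset.sum_insert ha, Finset.prod_insert ha, sz_add, ih]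

/-- `ZMod 2` as `Bool` -/
def zb : ZMod 2 ≃ Bool where
  toFun a := decide (a ≠ 0)
  invFun b := if b then 1 else 0
  left_inv a := by rcases zmod2_cases a with rfl | rfl <;> simp
  right_inv b := by cases b <;> simp

lemma sgb_zb (a : ZMod 2) : sgb (zb a) = sz a := by
  rcases zmod2_cases a with rfl | rfl <;> simp [sgb, zb, sz]

theorem parity_bound {δ θ : ℝ} (h0 : 0 < δ) (h1 : δ < 1 / 2) (hθ : (δ, θ) ∈ Th.Curve) {s : ℕ}
    (hs : 0 < s) {β0 : ℝ} (hβ : 0 ≤ β0) {ε : ℝ} (hε : 0 < ε) : ∃ n0 : ℕ,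
    ∀ (ι : Type) [Fintype ι] [DecidableEq ι], n0 ≤ Fintype.card ι →
    ∀ C : Finset (ι → ZMod 2), C.Nonempty →
      (∀ x ∈ C, ∀ y ∈ C, x ≠ y → δ * Fintype.card ι ≤ hammingDist x y) →
      ∀ (A : Type) (M : Finset A) (B : A → Finset ι), (∀ a ∈ M, (B a).card = s) →
        (∀ a ∈ M, ∀ a' ∈ M, a ≠ a' → Disjoint (B a) (B a')) →
        (∀ a ∈ M, β0 * C.card ≤ |∑ x ∈ C, ∏ i ∈ B a, sz (x i)|) →
        Real.logb 2 C.card ≤ (θ + ε) * Fintype.card ι - gain (β0 * (1 - 2 * δ) ^ s) * M.card := by
  classical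
  obtain ⟨n0, hn0⟩ := Th.local_laws h0 h1 hθ hs hε
  refine ⟨n0, fun ι _ _ hn C hC hdist A M B hBs hBd hBb => ?_⟩
  set n := Fintype.card ι with hndef
  let e : ι ≃ Fin n := Fintype.equivFin ι
  let Φ : (ι → ZMod 2) ≃ (Fin n → Bool) := Equiv.arrowCongr e zb
  have hΦ : ∀ x k, Φ x k = zb (x (e.symm k)) := fun x k => rfl
  set C' : Finset (Fin n → Bool) := C.map Φ.toEmbedding with hC'
  have hcard : C'.card = C.card := Finset.card_map _
  have hC'ne : C'.Nonempty := hC.map
  have hdist' : ∀ x ∈ C', ∀ y ∈ C', x ≠ y → δ * n ≤ hammingDist x y := by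
    intro x hx y hy hxy
    rw [hC', Finset.mem_map] at hx hy
    obtain ⟨x', hx', rfl⟩ := hx
    obtain ⟨y', hy', rfl⟩ := hy
    have h2 := hdist x' hx' y' hy' (fun h => hxy (by rw [h]))
    have h3 : hammingDist (Φ.toEmbedding x') (Φ.toEmbedding y') = hammingDist x' y' := by
      unfold hammingDist
      refine Finset.card_bij' (fun k _ => e.symm k) (fun i _ => e i) ?_ ?_ ?_ ?_
      · intro k hk
        simp only [Finset.mem_filter, Finset.mem_univ, true_and] at hk ⊢
        intro h
        apply hk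
        show zb (x' (e.symm k)) = zb (y' (e.symm k))
        rw [h]
      · intro i hi
        simp only [Finset.mem_filter, Finset.mem_univ, true_and] at hi ⊢
        intro h
        apply hi
        have h4 : zb (x' (e.symm (e i))) = zb (y' (e.symm (e i))) := h
        rw [Equiv.symm_apply_apply] at h4
        exact zb.injective h4
      · intro k _
        exact e.apply_symm_apply k
      · intro i _
        exact e.symm_apply_apply i
    rw [h3]
    exact h2
  -- the blocks
  let eM : M ≃ Fin M.card := M.equivFin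
  let eB : ∀ a : M, B a.1 ≃ Fin s := fun a => (B a.1).equivFinOfCardEq (hBs a.1 a.2)
  let b : Fin M.card → Fin s → Fin n := fun j i => e ((eB (eM.symm j)).symm i).1
  have hb : Function.Injective (fun p : Fin M.card × Fin s => b p.1 p.2) := by
    rintro ⟨j, i⟩ ⟨j', i'⟩ h
    have h2 : ((eB (eM.symm j)).symm i).1 = ((eB (eM.symm j')).symm i').1 := e.injective h
    have h3 : j = j' := by
      by_contra hne
      have h4 : (eM.symm j).1 ≠ (eM.symm j').1 := fun h5 =>
        hne (eM.symm.injective (Subtype.ext h5))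
      have h5 := hBd _ (eM.symm j).2 _ (eM.symm j').2 h4
      refine Finset.disjoint_left.mp h5 ((eB (eM.symm j)).symm i).2 ?_
      rw [h2]
      exact ((eB (eM.symm j')).symm i').2
    subst h3
    have h4 : (eB (eM.symm j)).symm i = (eB (eM.symm j)).symm i' := Subtype.ext h2
    rw [(eB (eM.symm j)).symm.injective h4]
  have key := hn0 n hn C' hC'ne hdist' M.card b hb
  rw [hcard] at key
  refine key.trans ?_
  have hsum : gain (β0 * (1 - 2 * δ) ^ s) * M.card ≤
      ∑ j, ((s : ℝ) - Th.Ent (noisy δ (blaw C' (b j)))) := by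
    have h5 : ∀ j : Fin M.card, gain (β0 * (1 - 2 * δ) ^ s) ≤
        (s : ℝ) - Th.Ent (noisy δ (blaw C' (b j))) := by
      intro j
      refine deficit_ge hs h0.le h1.le C' hC'ne (b j) hβ ?_
      rw [hcard]
      have h6 := hBb _ (eM.symm j).2
      have h7 : ∑ x ∈ C', ∏ i, sgb (x (b j i)) = ∑ x ∈ C, ∏ i ∈ B (eM.symm j).1, sz (x i) := by
        rw [hC', Finset.sum_map]
        refine Finset.sum_congr rfl fun x _ => ?_
        have h8 : ∀ i, sgb (Φ.toEmbedding x (b j i)) = sz (x ((eB (eM.symm j)).symm i).1) := by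
          intro i
          show sgb (zb (x (e.symm (e ((eB (eM.symm j)).symm i).1)))) = _
          rw [Equiv.symm_apply_apply, sgb_zb]
        simp only [h8]
        rw [Equiv.prod_comp (eB (eM.symm j)).symm (fun i : B (eM.symm j).1 => sz (x i.1))]
        exact Finset.prod_coe_sort (B (eM.symm j).1) (fun i => sz (x i))
      rw [h7]
      exact h6
    calc gain (β0 * (1 - 2 * δ) ^ s) * M.card = ∑ _j : Fin M.card,
          gain (β0 * (1 - 2 * δ) ^ s) := by
          rw [Finset.sum_const, Finset.card_univ, Fintype.card_fin, nsmul_eq_mul, mul_comm]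
      _ ≤ _ := Finset.sum_le_sum fun j _ => h5 j
  linarith

end Pool.Agent.H712.NI
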