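import Pool.Graph.R_seed8.H390R2.LP.Main

/-! Product structure of a family of one-site states (not necessarily identical). -/

open Finset

namespace Pool.Agent.H712.NI

open Pool.Agent.H390R2.LP

section prod
variable {Ω K : Type} [Fintype Ω] [DecidableEq Ω] [Fintype K] [DecidableEq K]

lemma sum_prod (φ : K → Ω → ℝ) : ∑ ω : K → Ω, ∏ k, φ k (ω k) = ∏ k, ∑ o, φ k o :=
  (Fintype.prod_sum φ).symm

/-- product vectors -/
def pv (u : K → Ω → Ω → ℝ) (a ω : K → Ω) : ℝ := ∏ k, u k (a k) (ω k)

lemma pv_inner (u w : K → Ω → Ω → ℝ) (a c : K → Ω) :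
    ∑ ω, pv u a ω * pv w c ω = ∏ k, ∑ o, u k (a k) o * w k (c k) o := by
  have : ∀ ω : K → Ω, pv u a ω * pv w c ω = ∏ k, u k (a k) (ω k) * w k (c k) (ω k) := by
    intro ω; unfold pv; rw [Finset.prod_mul_distrib]
  simp only [this]
  exact sum_prod fun k o => u k (a k) o * w k (c k) o

lemma prod_ite (a b : K → Ω) (p : K → ℝ) :
    (∏ k, if a k = b k then p k else 0) = if a = b then ∏ k, p k else 0 := by
  by_cases h : a = b
  · subst h; simp
  · rw [if_neg h]
    obtain ⟨k, hk⟩ := Function.ne_iff.mp h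
    exact Finset.prod_eq_zero (Finset.mem_univ k) (if_neg hk)

lemma pv_orth (u : K → Ω → Ω → ℝ)
    (hu : ∀ k a b, ∑ ω, u k a ω * u k b ω = if a = b then 1 else 0)
    (a b : K → Ω) : ∑ ω, pv u a ω * pv u b ω = if a = b then 1 else 0 := by
  rw [pv_inner]
  simp only [hu]
  rw [prod_ite a b fun _ => 1]
  simp

variable {X : Type} (s : K → Site Ω X)

lemma pv_supp (c ω : K → Ω) (h : (fun k => (s k).pos (ω k)) ≠ fun k => (s k).lab (c k)) :
    pv (fun k => (s k).w) c ω = 0 := by
  obtain ⟨k, hk⟩ := Function.ne_iff.mp h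
  exact Finset.prod_eq_zero (Finset.mem_univ k) ((s k).w_supp _ _ hk)

/-- eigenvalues of the product state -/
noncomputable def Lam (a : K → Ω) : ℝ := ∏ k, (s k).lam (a k)

/-- eigenvalues of the dephased product state -/
noncomputable def Gg (c : K → Ω) : ℝ := ∏ k, (s k).g (c k)

lemma Lam_nonneg (a : K → Ω) : 0 ≤ Lam s a := Finset.prod_nonneg fun _ _ => (s _).lam_nonneg _

lemma Lam_sum : ∑ a : K → Ω, Lam s a = 1 := by
  have := sum_prod (K := K) fun k o => (s k).lam o
  unfold Lam
  rw [this]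
  simp [(s _).lam_sum]

lemma Gg_nonneg (c : K → Ω) : 0 ≤ Gg s c :=
  Finset.prod_nonneg fun _ _ => Pool.Agent.H703R2.LP.site_g_nonneg (s _) _

lemma Gg_sum : ∑ c : K → Ω, Gg s c = 1 := by
  have := sum_prod (K := K) fun k o => (s k).g o
  unfold Gg
  rw [this]
  simp [Pool.Agent.H703R2.LP.site_g_sum (s _)]

lemma pv_diag (c c' : K → Ω)
    (h : (fun k => (s k).lab (c k)) = fun k => (s k).lab (c' k)) :
    ∑ a : K → Ω, Lam s a * (∑ ω, pv (fun k => (s k).u) a ω * pv (fun k => (s k).w) c ω) *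
      (∑ ω, pv (fun k => (s k).u) a ω * pv (fun k => (s k).w) c' ω) =
      if c = c' then Gg s c else 0 := by
  have h1 : ∀ a : K → Ω, Lam s a * (∑ ω, pv (fun k => (s k).u) a ω * pv (fun k => (s k).w) c ω) *
      (∑ ω, pv (fun k => (s k).u) a ω * pv (fun k => (s k).w) c' ω) = ∏ k, ((s k).lam (a k) *
        (∑ o, (s k).u (a k) o * (s k).w (c k) o) * (∑ o, (s k).u (a k) o * (s k).w (c' k) o)) := by
    intro a
    rw [pv_inner, pv_inner, Finset.prod_mul_distrib, Finset.prod_mul_distrib, Lam]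
  simp only [h1]
  rw [sum_prod fun k o => (s k).lam o * (∑ o', (s k).u o o' * (s k).w (c k) o') *
    (∑ o', (s k).u o o' * (s k).w (c' k) o')]
  have h2 : ∀ k, ∑ o, (s k).lam o * (∑ o', (s k).u o o' * (s k).w (c k) o') *
      (∑ o', (s k).u o o' * (s k).w (c' k) o') = if c k = c' k then (s k).g (c k) else 0 :=
    fun k => (s k).w_diag _ _ (congrFun h k)
  simp only [h2]
  rw [prod_ite c c' fun k => (s k).g (c k)]
  rfl

/-- quadratic form of the product state on combinations of adapted vectors at one position -/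
lemma form_le (x : K → X) (α : (K → Ω) → ℝ)
    (hα : ∀ c, α c ≠ 0 → (fun k => (s k).lab (c k)) = x) :
    ∑ a : K → Ω, Lam s a * (∑ ω, pv (fun k => (s k).u) a ω *
      ∑ c, α c * pv (fun k => (s k).w) c ω) ^ 2 = ∑ c, α c ^ 2 * Gg s c := by
  have h1 : ∀ a : K → Ω, ∑ ω, pv (fun k => (s k).u) a ω * ∑ c, α c * pv (fun k => (s k).w) c ω =
      ∑ c, α c * ∑ ω, pv (fun k => (s k).u) a ω * pv (fun k => (s k).w) c ω := by
    intro a
    simp only [Finset.mul_sum]
    rw [Finset.sum_comm]
    exact Finset.sum_congr rfl fun _ _ => Finset.sum_congr rfl fun _ _ => by ring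
  simp only [h1]
  have h2 : ∀ a : K → Ω, Lam s a *
      (∑ c, α c * ∑ ω, pv (fun k => (s k).u) a ω * pv (fun k => (s k).w) c ω) ^ 2 =
      ∑ c, ∑ c', α c * α c' *
        (Lam s a * (∑ ω, pv (fun k => (s k).u) a ω * pv (fun k => (s k).w) c ω) *
        (∑ ω, pv (fun k => (s k).u) a ω * pv (fun k => (s k).w) c' ω)) := by
    intro a
    rw [sq, Finset.sum_mul_sum, Finset.mul_sum]
    refine Finset.sum_congr rfl fun c _ => ?_
    rw [Finset.mul_sum]
    exact Finset.sum_congr rfl fun _ _ => by ring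
  simp only [h2]
  rw [Finset.sum_comm]
  refine Finset.sum_congr rfl fun c _ => ?_
  rw [Finset.sum_comm]
  simp only [← Finset.mul_sum]
  have h3 : ∀ c', α c * α c' * ∑ a : K → Ω,
        Lam s a * (∑ ω, pv (fun k => (s k).u) a ω * pv (fun k => (s k).w) c ω) *
        (∑ ω, pv (fun k => (s k).u) a ω * pv (fun k => (s k).w) c' ω) =
        if c' = c then α c ^ 2 * Gg s c else 0 := by
    intro c'
    by_cases hc : α c = 0
    · rw [hc]; simp
    · by_cases hc' : α c' = 0
      · rw [hc']
        by_cases h : c' = c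
        · subst h; exact absurd hc' hc
        · rw [if_neg h]; ring
      · rw [pv_diag s c c' ((hα c hc).trans (hα c' hc').symm)]
        by_cases h : c' = c
        · subst h; rw [if_pos rfl, if_pos rfl]; ring
        · rw [if_neg h, if_neg (Ne.symm h), mul_zero]
  simp only [h3]
  simp

lemma Gg_eq (c : K → Ω) :
    ∑ a : K → Ω, Lam s a * (∑ ω, pv (fun k => (s k).u) a ω * pv (fun k => (s k).w) c ω) ^ 2 =
      Gg s c := by
  have := pv_diag s c c rfl
  rw [if_pos rfl] at this
  rw [← this]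
  exact Finset.sum_congr rfl fun _ _ => by ring

/-- position distribution -/
lemma P_prod [DecidableEq X] (x : K → X) :
    ∑ c ∈ univ.filter (fun c : K → Ω => (fun k => (s k).lab (c k)) = x), Gg s c =
      ∏ k, (s k).P (x k) := by
  rw [Finset.sum_filter]
  have h1 : ∀ c : K → Ω, (if (fun k => (s k).lab (c k)) = x then Gg s c else 0) =
      ∏ k, if (s k).lab (c k) = x k then (s k).g (c k) else 0 := by
    intro c
    by_cases h : (fun k => (s k).lab (c k)) = x
    · rw [if_pos h]
      refine Finset.prod_congr rfl fun k _ => ?_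
      rw [if_pos (congrFun h k)]
    · rw [if_neg h]
      obtain ⟨k, hk⟩ := Function.ne_iff.mp h
      exact (Finset.prod_eq_zero (Finset.mem_univ k) (if_neg hk)).symm
  simp only [h1]
  rw [sum_prod fun k o => if (s k).lab o = x k then (s k).g o else 0]
  refine Finset.prod_congr rfl fun k _ => ?_
  unfold Site.P
  rw [Finset.sum_filter]

/-- one-coordinate matrix elements of product vectors -/
lemma pv_one (φ : Ω → ℝ) (k : K) (a b : K → Ω) :
    ∑ ω, pv (fun k => (s k).u) a ω * φ (ω k) * pv (fun k => (s k).u) b ω =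
      (∑ o, (s k).u (a k) o * φ o * (s k).u (b k) o) *
        ∏ l ∈ univ.erase k, (if a l = b l then 1 else 0) := by
  have h1 : ∀ ω : K → Ω, pv (fun k => (s k).u) a ω * φ (ω k) * pv (fun k => (s k).u) b ω =
      ∏ l, ((s l).u (a l) (ω l) * (if l = k then φ (ω l) else 1) * (s l).u (b l) (ω l)) := by
    intro ω
    rw [Finset.prod_mul_distrib, Finset.prod_mul_distrib]
    simp [pv]
  simp only [h1]
  rw [sum_prod fun l o => (s l).u (a l) o * (if l = k then φ o else 1) * (s l).u (b l) o,
    ← Finset.mul_prod_erase univ _ (Finset.mem_univ k)]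
  congr 1
  · simp
  · refine Finset.prod_congr rfl fun l hl => ?_
    rw [Finset.mem_erase] at hl
    simp only [hl.1, if_false, mul_one]
    exact (s l).u_orth _ _

/-- overlap sum at coordinate `k` -/
lemma overlap_prod (φ : Ω → ℝ) (k : K) :
    ∑ a : K → Ω, ∑ b : K → Ω, √(Lam s a * Lam s b) *
      (∑ ω, pv (fun k => (s k).u) a ω * φ (ω k) * pv (fun k => (s k).u) b ω) ^ 2 =
      ∑ a, ∑ b, √((s k).lam a * (s k).lam b) * (∑ o, (s k).u a o * φ o * (s k).u b o) ^ 2 := by
  have h1 : ∀ a b : K → Ω, √(Lam s a * Lam s b) *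
      (∑ ω, pv (fun k => (s k).u) a ω * φ (ω k) * pv (fun k => (s k).u) b ω) ^ 2 =
      ∏ l, (if l = k then √((s l).lam (a l) * (s l).lam (b l)) *
        (∑ o, (s l).u (a l) o * φ o * (s l).u (b l) o) ^ 2 else
          (if a l = b l then (s l).lam (a l) else 0)) := by
    intro a b
    rw [← Finset.mul_prod_erase univ _ (Finset.mem_univ k), if_pos rfl, pv_one]
    have h2 : ∏ l ∈ univ.erase k, (if l = k then √((s l).lam (a l) * (s l).lam (b l)) *
        (∑ o, (s l).u (a l) o * φ o * (s l).u (b l) o) ^ 2 else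
          (if a l = b l then (s l).lam (a l) else 0)) =
        ∏ l ∈ univ.erase k, (if a l = b l then (s l).lam (a l) else 0) := by
      refine Finset.prod_congr rfl fun l hl => ?_
      rw [Finset.mem_erase] at hl
      rw [if_neg hl.1]
    rw [h2]
    have h3 : √(Lam s a * Lam s b) = √((s k).lam (a k) * (s k).lam (b k)) *
        ∏ l ∈ univ.erase k, √((s l).lam (a l) * (s l).lam (b l)) := by
      unfold Lam
      rw [← Finset.prod_mul_distrib, Finset.mul_prod_erase univ
        (fun l => √((s l).lam (a l) * (s l).lam (b l))) (Finset.mem_univ k)]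
      exact Real.sqrt_prod _ fun l _ => mul_nonneg ((s l).lam_nonneg _) ((s l).lam_nonneg _)
    rw [h3]
    have h4 : (∏ l ∈ univ.erase k, √((s l).lam (a l) * (s l).lam (b l))) *
        (∏ l ∈ univ.erase k, (if a l = b l then (1:ℝ) else 0)) ^ 2 =
        ∏ l ∈ univ.erase k, (if a l = b l then (s l).lam (a l) else 0) := by
      rw [← Finset.prod_pow, ← Finset.prod_mul_distrib]
      refine Finset.prod_congr rfl fun l _ => ?_
      by_cases h : a l = b l
      · rw [if_pos h, if_pos h, h, Real.sqrt_mul_self ((s l).lam_nonneg _)]; ring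
      · rw [if_neg h, if_neg h]; ring
    rw [← h4]; ring
  simp only [h1]
  have h5 : ∀ a : K → Ω, ∑ b : K → Ω,
      ∏ l, (if l = k then √((s l).lam (a l) * (s l).lam (b l)) *
        (∑ o, (s l).u (a l) o * φ o * (s l).u (b l) o) ^ 2 else
          (if a l = b l then (s l).lam (a l) else 0)) =
      ∏ l, (if l = k then ∑ o', √((s l).lam (a l) * (s l).lam o') *
        (∑ o, (s l).u (a l) o * φ o * (s l).u o' o) ^ 2 else (s l).lam (a l)) := by
    intro a
    rw [sum_prod fun l o' => (if l = k then √((s l).lam (a l) * (s l).lam o') *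
        (∑ o, (s l).u (a l) o * φ o * (s l).u o' o) ^ 2 else
          (if a l = o' then (s l).lam (a l) else 0))]
    refine Finset.prod_congr rfl fun l _ => ?_
    by_cases h : l = k
    · simp [h]
    · simp [h]
  simp only [h5]
  rw [sum_prod fun l o'' => (if l = k then ∑ o', √((s l).lam o'' * (s l).lam o') *
        (∑ o, (s l).u o'' o * φ o * (s l).u o' o) ^ 2 else (s l).lam o''),
    ← Finset.mul_prod_erase univ _ (Finset.mem_univ k)]
  have h6 : ∏ l ∈ univ.erase k, ∑ o'', (if l = k then ∑ o', √((s l).lam o'' * (s l).lam o') *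
        (∑ o, (s l).u o'' o * φ o * (s l).u o' o) ^ 2 else (s l).lam o'') = 1 := by
    refine Finset.prod_eq_one fun l hl => ?_
    rw [Finset.mem_erase] at hl
    simp [hl.1, (s l).lam_sum]
  rw [h6, mul_one]
  simp

/-- second moment at coordinate `k` -/
lemma moment_prod (φ : Ω → ℝ) (k : K) :
    ∑ a : K → Ω, Lam s a * ∑ ω, pv (fun k => (s k).u) a ω ^ 2 * φ (ω k) =
      ∑ a, (s k).lam a * ∑ o, (s k).u a o ^ 2 * φ o := by
  have h1 : ∀ a : K → Ω, Lam s a * ∑ ω, pv (fun k => (s k).u) a ω ^ 2 * φ (ω k) =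
      ∏ l, (if l = k then (s l).lam (a l) * ∑ o, (s l).u (a l) o ^ 2 * φ o else
        (s l).lam (a l)) := by
    intro a
    rw [← Finset.mul_prod_erase univ _ (Finset.mem_univ k), if_pos rfl]
    have h2 : ∏ l ∈ univ.erase k, (if l = k then (s l).lam (a l) *
        ∑ o, (s l).u (a l) o ^ 2 * φ o else
        (s l).lam (a l)) = ∏ l ∈ univ.erase k, (s l).lam (a l) := by
      refine Finset.prod_congr rfl fun l hl => ?_
      rw [Finset.mem_erase] at hl
      rw [if_neg hl.1]
    rw [h2]
    have h3 := pv_one s φ k a a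
    have h4 : ∑ ω, pv (fun k => (s k).u) a ω ^ 2 * φ (ω k) =
        ∑ ω, pv (fun k => (s k).u) a ω * φ (ω k) * pv (fun k => (s k).u) a ω :=
      Finset.sum_congr rfl fun _ _ => by ring
    rw [h4, h3]
    simp only [if_true, Finset.prod_const_one, mul_one]
    have h5 : Lam s a = (s k).lam (a k) * ∏ l ∈ univ.erase k, (s l).lam (a l) := by
      unfold Lam
      rw [Finset.mul_prod_erase univ (fun l => (s l).lam (a l)) (Finset.mem_univ k)]
    rw [h5]
    have h6 : ∑ o, (s k).u (a k) o * φ o * (s k).u (a k) o = ∑ o, (s k).u (a k) o ^ 2 * φ o :=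
      Finset.sum_congr rfl fun _ _ => by ring
    rw [h6]; ring
  simp only [h1]
  rw [sum_prod fun l o' => (if l = k then (s l).lam o' * ∑ o, (s l).u o' o ^ 2 * φ o else
      (s l).lam o'),
    ← Finset.mul_prod_erase univ _ (Finset.mem_univ k)]
  have h6 : ∏ l ∈ univ.erase k, ∑ o'', (if l = k then (s l).lam o'' *
      ∑ o, (s l).u o'' o ^ 2 * φ o else (s l).lam o'') = 1 := by
    refine Finset.prod_eq_one fun l hl => ?_
    rw [Finset.mem_erase] at hl
    simp [hl.1, (s l).lam_sum]
  rw [h6, mul_one]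
  simp

end prod

end Pool.Agent.H712.NI
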