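import Pool.Agent.H712.NI.ProdA

/-! Truncation, typicality and energy of the product state. -/

open Finset

namespace Pool.Agent.H712.NI

open Pool.Agent.H390R2.LP

section cheb
variable {A K : Type} [Fintype A] [DecidableEq A] [Fintype K] [DecidableEq K]

theorem sum_prod_mul (P : K → A → ℝ) (hP : ∀ k, ∑ x, P k x = 1) (Y : K → A → ℝ)
    (hY : ∀ k, ∑ x, P k x * Y k x = 0) (i j : K) :
    ∑ x : K → A, (∏ k, P k (x k)) * (Y i (x i) * Y j (x j)) =
      if i = j then ∑ x, P i x * Y i x ^ 2 else 0 := by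
  have h1 : ∀ x : K → A, (∏ k, P k (x k)) * (Y i (x i) * Y j (x j)) =
      ∏ k, (P k (x k) * ((if k = i then Y k (x k) else 1) * (if k = j then Y k (x k) else 1))) := by
    intro x
    rw [Finset.prod_mul_distrib, Finset.prod_mul_distrib]
    simp
  simp_rw [h1]
  rw [← Fintype.prod_sum (fun k a => P k a * ((if k = i then Y k a else 1) *
    (if k = j then Y k a else 1)))]
  split_ifs with hij
  · subst hij
    rw [Finset.prod_eq_single i]
    · refine Finset.sum_congr rfl fun x _ => ?_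
      rw [if_pos rfl, sq]
    · intro k _ hk
      simp [hk, hP]
    · simp
  · apply Finset.prod_eq_zero (Finset.mem_univ i)
    simp [hij, hY]

theorem cheb_var (P : K → A → ℝ) (hP : ∀ k, ∑ x, P k x = 1) (Y : K → A → ℝ)
    (hY : ∀ k, ∑ x, P k x * Y k x = 0) :
    ∑ x : K → A, (∏ k, P k (x k)) * (∑ k, Y k (x k)) ^ 2 = ∑ k, ∑ x, P k x * Y k x ^ 2 := by
  have h1 : ∀ x : K → A, (∏ k, P k (x k)) * (∑ k, Y k (x k)) ^ 2 =
      ∑ i, ∑ j, (∏ k, P k (x k)) * (Y i (x i) * Y j (x j)) := by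
    intro x
    rw [sq, Finset.sum_mul_sum, Finset.mul_sum]
    refine Finset.sum_congr rfl fun i _ => ?_
    rw [Finset.mul_sum]
  simp_rw [h1]
  rw [Finset.sum_comm]
  refine Finset.sum_congr rfl fun i _ => ?_
  rw [Finset.sum_comm]
  simp_rw [sum_prod_mul P hP Y hY i]
  simp

/-- Chebyshev for products of different laws. -/
theorem cheb (P : K → A → ℝ) (hP0 : ∀ k x, 0 ≤ P k x) (hP : ∀ k, ∑ x, P k x = 1)
    (Z : K → A → ℝ) {δ V : ℝ} (hδ : 0 < δ) (B : Finset (K → A))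
    (hV : ∑ k, ∑ y, P k y * (Z k y - ∑ y', P k y' * Z k y') ^ 2 ≤ V)
    (hB : ∀ x ∈ B, δ ≤ |∑ k, Z k (x k) - ∑ k, ∑ y, P k y * Z k y|) :
    ∑ x ∈ B, ∏ k, P k (x k) ≤ V / δ ^ 2 := by
  set Y : K → A → ℝ := fun k x => Z k x - ∑ y', P k y' * Z k y' with hYdef
  have hY : ∀ k, ∑ x, P k x * Y k x = 0 := by
    intro k
    simp only [hYdef, mul_sub, Finset.sum_sub_distrib, ← Finset.sum_mul, hP]
    ring
  have h1 := cheb_var P hP Y hY
  have hpn : ∀ x : K → A, 0 ≤ ∏ k, P k (x k) := fun x => Finset.prod_nonneg fun k _ => hP0 _ _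
  have h2 : ∑ x ∈ B, (∏ k, P k (x k)) * δ ^ 2 ≤
      ∑ x : K → A, (∏ k, P k (x k)) * (∑ k, Y k (x k)) ^ 2 := by
    calc ∑ x ∈ B, (∏ k, P k (x k)) * δ ^ 2
        ≤ ∑ x ∈ B, (∏ k, P k (x k)) * (∑ k, Y k (x k)) ^ 2 := by
          apply Finset.sum_le_sum
          intro x hx
          apply mul_le_mul_of_nonneg_left _ (hpn x)
          have h3 : ∑ k, Y k (x k) = ∑ k, Z k (x k) - ∑ k, ∑ y, P k y * Z k y := by
            simp [hYdef, Finset.sum_sub_distrib]
          rw [h3, ← sq_abs (_ - _)]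
          exact pow_le_pow_left₀ (by positivity) (hB x hx) 2
      _ ≤ _ := Finset.sum_le_sum_of_subset_of_nonneg (Finset.subset_univ _)
          fun x _ _ => mul_nonneg (hpn x) (sq_nonneg _)
  rw [h1, ← Finset.sum_mul] at h2
  rw [le_div_iff₀ (by positivity)]
  exact h2.trans hV

end cheb

section general
variable {A K : Type} [Fintype A] [DecidableEq A] [Fintype K] [DecidableEq K]

/-- mass of product atoms that are too light -/
lemma aep_light (p : K → A → ℝ) (hp : ∀ k a, 0 ≤ p k a) (hs : ∀ k, ∑ a, p k a = 1) {δ V : ℝ}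
    (hδ : 0 < δ)
    (hV : ∑ k, ∑ o, p k o * (-Real.log (p k o) - ∑ o', Real.negMulLog (p k o')) ^ 2 ≤ V) :
    ∑ a ∈ univ.filter (fun a : K → A =>
      ∏ k, p k (a k) < Real.exp (-(∑ k, ∑ o, Real.negMulLog (p k o) + δ))), ∏ k, p k (a k) ≤
      V / δ ^ 2 := by
  classical
  have hm : ∀ k, ∑ o', Real.negMulLog (p k o') = ∑ y, p k y * (-Real.log (p k y)) := fun k =>
    Finset.sum_congr rfl fun _ _ => by unfold Real.negMulLog; ring
  simp only [hm] at hV ⊢
  set B : Finset (K → A) := univ.filter (fun a : K → A => ∏ k, p k (a k) ≠ 0 ∧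
      ∏ k, p k (a k) < Real.exp (-(∑ k, ∑ o, p k o * (-Real.log (p k o)) + δ))) with hB
  have h1 : ∑ a ∈ univ.filter (fun a : K → A =>
      ∏ k, p k (a k) < Real.exp (-(∑ k, ∑ o, p k o * (-Real.log (p k o)) + δ))),
      ∏ k, p k (a k) = ∑ a ∈ B, ∏ k, p k (a k) := by
    rw [Finset.sum_filter, Finset.sum_filter]
    refine Finset.sum_congr rfl fun a _ => ?_
    by_cases h : ∏ k, p k (a k) = 0
    · simp [h]
    · by_cases h' : ∏ k, p k (a k) < Real.exp (-(∑ k, ∑ o, p k o * (-Real.log (p k o)) + δ))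
      · rw [if_pos h', if_pos ⟨h, h'⟩]
      · rw [if_neg h', if_neg (fun h'' => h' h''.2)]
  rw [h1]
  refine cheb p hp hs (fun k o => -Real.log (p k o)) hδ B hV ?_
  intro x hx
  rw [hB, Finset.mem_filter] at hx
  obtain ⟨_, h0, h2⟩ := hx
  have hpos : ∀ k, p k (x k) ≠ 0 := fun k => Finset.prod_ne_zero_iff.mp h0 k (Finset.mem_univ k)
  have hlog : Real.log (∏ k, p k (x k)) = ∑ k, Real.log (p k (x k)) :=
    Real.log_prod (fun k _ => hpos k)
  have hppos : 0 < ∏ k, p k (x k) :=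
    lt_of_le_of_ne (Finset.prod_nonneg fun k _ => hp _ _) (Ne.symm h0)
  have h3 : Real.log (∏ k, p k (x k)) < -(∑ k, ∑ o, p k o * (-Real.log (p k o)) + δ) := by
    rw [← Real.log_exp (-(∑ k, ∑ o, p k o * (-Real.log (p k o)) + δ))]
    exact Real.log_lt_log hppos h2
  rw [hlog] at h3
  refine le_trans ?_ (le_abs_self _)
  rw [Finset.sum_neg_distrib]
  linarith

/-- mass of product atoms that are too heavy -/
lemma aep_heavy (p : K → A → ℝ) (hp : ∀ k a, 0 ≤ p k a) (hs : ∀ k, ∑ a, p k a = 1) {δ V : ℝ}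
    (hδ : 0 < δ)
    (hV : ∑ k, ∑ o, p k o * (-Real.log (p k o) - ∑ o', Real.negMulLog (p k o')) ^ 2 ≤ V) :
    ∑ a ∈ univ.filter (fun a : K → A =>
      ¬ ∏ k, p k (a k) ≤ Real.exp (-(∑ k, ∑ o, Real.negMulLog (p k o) - δ))), ∏ k, p k (a k) ≤
      V / δ ^ 2 := by
  classical
  have hm : ∀ k, ∑ o', Real.negMulLog (p k o') = ∑ y, p k y * (-Real.log (p k y)) := fun k =>
    Finset.sum_congr rfl fun _ _ => by unfold Real.negMulLog; ring
  simp only [hm] at hV ⊢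
  refine cheb p hp hs (fun k o => -Real.log (p k o)) hδ _ hV ?_
  intro x hx
  rw [Finset.mem_filter, not_le] at hx
  obtain ⟨_, h2⟩ := hx
  have hppos : 0 < ∏ k, p k (x k) := lt_trans (Real.exp_pos _) h2
  have hpos : ∀ k, p k (x k) ≠ 0 := fun k =>
    Finset.prod_ne_zero_iff.mp hppos.ne' k (Finset.mem_univ k)
  have hlog : Real.log (∏ k, p k (x k)) = ∑ k, Real.log (p k (x k)) :=
    Real.log_prod (fun k _ => hpos k)
  have h3 : -(∑ k, ∑ y, p k y * (-Real.log (p k y)) - δ) < Real.log (∏ k, p k (x k)) := by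
    rw [← Real.log_exp (-(∑ k, ∑ y, p k y * (-Real.log (p k y)) - δ))]
    exact Real.log_lt_log (Real.exp_pos _) h2
  rw [hlog] at h3
  rw [abs_sub_comm]
  refine le_trans ?_ (le_abs_self _)
  rw [Finset.sum_neg_distrib]
  linarith

end general

section prod
variable {Ω X I K : Type} [Fintype Ω] [DecidableEq Ω] [Fintype I] [Fintype K] [DecidableEq K]
  (s : K → Site Ω X)

/-- truncated amplitudes -/
noncomputable def tt (τ : ℝ) (a : K → Ω) : ℝ := max (√(Lam s a) - τ) 0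

lemma tt_nonneg (τ : ℝ) (a : K → Ω) : 0 ≤ tt s τ a := le_max_right _ _

lemma tt_lip (τ : ℝ) (a b : K → Ω) :
    (tt s τ a - tt s τ b) ^ 2 ≤ (√(Lam s a) - √(Lam s b)) ^ 2 := by
  have h := abs_max_sub_max_le_abs (√(Lam s a) - τ) (√(Lam s b) - τ) 0
  have h2 : √(Lam s a) - τ - (√(Lam s b) - τ) = √(Lam s a) - √(Lam s b) := by ring
  rw [h2] at h
  exact sq_le_sq.mpr h

lemma energy_le (f : I → X → ℝ) (τ : ℝ) :
    2 * ∑ i : K × I, (∑ j : K → Ω, tt s τ j ^ 2 *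
      ∑ ω, pv (fun k => (s k).u) j ω ^ 2 * f i.2 ((s i.1).pos (ω i.1)) ^ 2 -
      ∑ j : K → Ω, ∑ l : K → Ω, tt s τ j * tt s τ l *
        (∑ ω, pv (fun k => (s k).u) j ω * f i.2 ((s i.1).pos (ω i.1)) *
          pv (fun k => (s k).u) l ω) ^ 2) ≤ ∑ k, (s k).E f := by
  have hone : ∀ (k : K) (i : I), 2 * (∑ j : K → Ω, tt s τ j ^ 2 *
      ∑ ω, pv (fun k => (s k).u) j ω ^ 2 * f i ((s k).pos (ω k)) ^ 2 -
      ∑ j : K → Ω, ∑ l : K → Ω, tt s τ j * tt s τ l *
        (∑ ω, pv (fun k => (s k).u) j ω * f i ((s k).pos (ω k)) *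
          pv (fun k => (s k).u) l ω) ^ 2) ≤
      2 * (∑ a, (s k).lam a * ∑ ω, (s k).u a ω ^ 2 * f i ((s k).pos ω) ^ 2
        - ∑ a, ∑ b, √((s k).lam a * (s k).lam b) *
          (∑ ω, (s k).u a ω * f i ((s k).pos ω) * (s k).u b ω) ^ 2) := by
    intro k i
    rw [energy_form (pv (fun k => (s k).u)) (pv_orth (fun k => (s k).u) fun k => (s k).u_orth)
      (fun ω => f i ((s k).pos (ω k))) (tt s τ)]
    have h1 : ∑ j : K → Ω, ∑ l : K → Ω, (tt s τ j - tt s τ l) ^ 2 *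
        (∑ ω, pv (fun k => (s k).u) j ω * f i ((s k).pos (ω k)) *
          pv (fun k => (s k).u) l ω) ^ 2 ≤
        ∑ j : K → Ω, ∑ l : K → Ω, (√(Lam s j) - √(Lam s l)) ^ 2 *
        (∑ ω, pv (fun k => (s k).u) j ω * f i ((s k).pos (ω k)) *
          pv (fun k => (s k).u) l ω) ^ 2 :=
      Finset.sum_le_sum fun j _ => Finset.sum_le_sum fun l _ =>
        mul_le_mul_of_nonneg_right (tt_lip s τ j l) (sq_nonneg _)
    refine h1.trans (le_of_eq ?_)
    rw [← energy_form (pv (fun k => (s k).u)) (pv_orth (fun k => (s k).u) fun k => (s k).u_orth)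
      (fun ω => f i ((s k).pos (ω k))) (fun a => √(Lam s a))]
    congr 1
    have h2 : ∑ j : K → Ω, √(Lam s j) ^ 2 * ∑ ω, pv (fun k => (s k).u) j ω ^ 2 *
        f i ((s k).pos (ω k)) ^ 2 =
        ∑ a, (s k).lam a * ∑ ω, (s k).u a ω ^ 2 * f i ((s k).pos ω) ^ 2 := by
      rw [← moment_prod s (fun o => f i ((s k).pos o) ^ 2) k]
      exact Finset.sum_congr rfl fun j _ => by rw [Real.sq_sqrt (Lam_nonneg s j)]
    have h3 : ∑ j : K → Ω, ∑ l : K → Ω, √(Lam s j) * √(Lam s l) *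
        (∑ ω, pv (fun k => (s k).u) j ω * f i ((s k).pos (ω k)) *
          pv (fun k => (s k).u) l ω) ^ 2 =
        ∑ a, ∑ b, √((s k).lam a * (s k).lam b) *
          (∑ ω, (s k).u a ω * f i ((s k).pos ω) * (s k).u b ω) ^ 2 := by
      rw [← overlap_prod s (fun o => f i ((s k).pos o)) k]
      exact Finset.sum_congr rfl fun j _ => Finset.sum_congr rfl fun l _ => by
        rw [Real.sqrt_mul (Lam_nonneg s j)]
    rw [h2, h3]
  rw [Finset.mul_sum, Fintype.sum_prod_type]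
  refine Finset.sum_le_sum fun k _ => ?_
  rw [Site.E, Finset.mul_sum]
  exact Finset.sum_le_sum fun i _ => hone k i

/-- the sum of the truncated amplitudes -/
lemma tt_sum_le {τ : ℝ} (hτ : 0 < τ) : ∑ a : K → Ω, tt s τ a ≤ 1 / τ := by
  have h1 : ∀ a : K → Ω, tt s τ a ≤ Lam s a / τ := by
    intro a
    refine max_le ?_ (div_nonneg (Lam_nonneg s a) hτ.le)
    rw [le_div_iff₀ hτ]
    have h2 := Real.sq_sqrt (Lam_nonneg s a)
    have h3 := Real.sqrt_nonneg (Lam s a)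
    by_cases h : √(Lam s a) ≤ τ
    · nlinarith
    · push Not at h
      nlinarith
  calc ∑ a : K → Ω, tt s τ a ≤ ∑ a : K → Ω, Lam s a / τ :=
        Finset.sum_le_sum fun a _ => h1 a
    _ = 1 / τ := by rw [← Finset.sum_div, Lam_sum s]

/-- lower bound of the total mass of the truncated state -/
lemma tt_sq_sum_ge {τ r A : ℝ} (hτ : 0 < τ) (hr0 : 0 < r) (hr1 : r ≤ 1)
    (hA : ∑ a ∈ univ.filter (fun a : K → Ω => Lam s a < (τ / r) ^ 2), Lam s a ≤ A) :
    1 - A - 2 * r ≤ ∑ a : K → Ω, tt s τ a ^ 2 := by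
  have h1 : ∀ a : K → Ω, ¬ (Lam s a < (τ / r) ^ 2) → (1 - 2 * r) * Lam s a ≤ tt s τ a ^ 2 := by
    intro a ha
    push Not at ha
    have h2 := Real.sq_sqrt (Lam_nonneg s a)
    have h3 : τ / r ≤ √(Lam s a) := Real.le_sqrt_of_sq_le ha
    rw [div_le_iff₀ hr0] at h3
    have h4 : √(Lam s a) * (1 - r) ≤ tt s τ a := by
      refine le_trans ?_ (le_max_left _ _)
      nlinarith
    have h5 : 0 ≤ √(Lam s a) * (1 - r) := mul_nonneg (Real.sqrt_nonneg _) (by linarith)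
    calc (1 - 2 * r) * Lam s a ≤ (1 - r) ^ 2 * Lam s a := by
          refine mul_le_mul_of_nonneg_right ?_ (Lam_nonneg s a)
          nlinarith [sq_nonneg r]
      _ = (√(Lam s a) * (1 - r)) ^ 2 := by rw [mul_pow, h2]; ring
      _ ≤ tt s τ a ^ 2 := pow_le_pow_left₀ h5 h4 2
  have h2 : ∑ a ∈ univ.filter (fun a : K → Ω => ¬ (Lam s a < (τ / r) ^ 2)),
      (1 - 2 * r) * Lam s a ≤ ∑ a : K → Ω, tt s τ a ^ 2 := by
    calc _ ≤ ∑ a ∈ univ.filter (fun a : K → Ω => ¬ (Lam s a < (τ / r) ^ 2)), tt s τ a ^ 2 :=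
          Finset.sum_le_sum fun a ha => h1 a (Finset.mem_filter.mp ha).2
      _ ≤ _ := Finset.sum_le_sum_of_subset_of_nonneg (Finset.filter_subset _ _)
          fun _ _ _ => sq_nonneg _
  rw [← Finset.mul_sum] at h2
  have h3 := Finset.sum_filter_add_sum_filter_not univ
    (fun a : K → Ω => Lam s a < (τ / r) ^ 2) (Lam s)
  rw [Lam_sum s] at h3
  set y := ∑ a ∈ univ.filter (fun a : K → Ω => ¬ (Lam s a < (τ / r) ^ 2)), Lam s a
  set z := ∑ a ∈ univ.filter (fun a : K → Ω => Lam s a < (τ / r) ^ 2), Lam s a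
  have hz : 0 ≤ z := Finset.sum_nonneg fun a _ => Lam_nonneg s a
  nlinarith

end prod

end Pool.Agent.H712.NI
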