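import Pool.Agent.H712.NI.Ldpc

/-! Codes whose biased words of small weight span a space of linear dimension. -/

open Finset

namespace Pool.Agent.H712.NI

/-- the bias of a parity -/
noncomputable def bias {n : ℕ} (C : Finset (Fin n → ZMod 2)) (y : Fin n → ZMod 2) : ℝ :=
  |∑ x ∈ C, if ∑ i, y i * x i = 0 then (1 : ℝ) else -1| / C.card

theorem biased_span {δ θ : ℝ} (h0 : 0 < δ) (h1 : δ < 1 / 2) (hθ : (δ, θ) ∈ Th.Curve) (w : ℕ)
    {β ρ : ℝ} (hβ : 0 < β) (hρ : 0 < ρ) :
    ∃ c : ℝ, 0 < c ∧ ∃ n0 : ℕ, ∀ n ≥ n0, ∀ C : Finset (Fin n → ZMod 2),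
      (∀ x ∈ C, ∀ y ∈ C, x ≠ y → δ * n ≤ hammingDist x y) →
      ρ * n ≤ Module.finrank (ZMod 2) (Submodule.span (ZMod 2)
        {y : Fin n → ZMod 2 | hammingNorm y ≤ w ∧ β ≤ bias C y}) →
      (C.card : ℝ) ≤ (2 : ℝ) ^ ((θ - c) * n) := by
  classical
  obtain ⟨c, hc, n0, hn0⟩ := biased_checks h0 h1 hθ (w := w + 1) (Nat.succ_pos w)
    (β := min β 1) (ρ := ρ) (lt_min hβ one_pos) (min_le_right _ _) hρ
  refine ⟨c, hc, n0, fun n hn C hdist hrank => ?_⟩
  rcases C.eq_empty_or_nonempty with he | hne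
  · rw [he]
    simp only [Finset.card_empty, Nat.cast_zero]
    positivity
  have hCc : (0 : ℝ) < C.card := by exact_mod_cast Finset.card_pos.mpr hne
  set S : Set (Fin n → ZMod 2) := {y | hammingNorm y ≤ w ∧ β ≤ bias C y} with hS
  obtain ⟨b, hbS, hbspan, hbli⟩ := exists_linearIndependent (ZMod 2) S
  set T : Finset (Fin n → ZMod 2) := b.toFinset with hT
  have hTb : ∀ y ∈ T, y ∈ b := fun y hy => Set.mem_toFinset.mp hy
  have hTli : LinearIndependent (ZMod 2) (fun y : T => y.1) :=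
    hbli.comp (fun y : T => (⟨y.1, hTb y.1 y.2⟩ : b)) (fun a a' h => by
      have := congrArg Subtype.val h
      exact Subtype.ext this)
  have hcard : Module.finrank (ZMod 2) (Submodule.span (ZMod 2) S) = T.card := by
    rw [← hbspan]
    exact finrank_span_set_eq_card hbli
  have key := hn0 n hn C hne hdist T hTli (fun y hy => le_trans (hbS (hTb y hy)).1 (Nat.le_succ w))
    (fun y hy => by
      have h2 := (hbS (hTb y hy)).2
      unfold bias at h2
      rw [le_div_iff₀ hCc] at h2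
      refine le_trans (mul_le_mul_of_nonneg_right (min_le_left _ _) hCc.le) ?_
      exact h2) (by rw [← hcard]; exact hrank)
  rw [Real.logb_le_iff_le_rpow (by norm_num) hCc] at key
  exact key

end Pool.Agent.H712.NI
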