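import Pool.Agent.H712.NI.TwoBit
import Pool.Graph.R_seed8.TH753.FF15

/-! Pairs of matrices near the curve. -/

open Filter

namespace Pool.Agent.H712.NI

open Pool.Agent.H390R2.LP Pool.Agent.H235R2.QLP Pool.Agent.TH753.MB Pool.Agent.TH753.FF

/-- sites over pairs of bits give pairs of matrices -/
theorem exists_pair_of_G2 {δ K : ℝ} (hδ : 0 < δ)
    (h : ∀ η : ℝ, 0 < η → ∃ (Ω : Type) (_ : Fintype Ω) (_ : DecidableEq Ω) (s : Site Ω G2),
      s.E ff ≤ 2 * δ + η ∧ K - η ≤ cc s) {η : ℝ} (hη : 0 < η) :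
    ∃ (ι : Type) (_ : Fintype ι) (_ : DecidableEq ι) (d : Pair ι),
      EH d.site < δ ∧ K / 2 - η ≤ cc d.site := by
  have hden : 0 < 1 / 2 + |K| / (2 * δ) := by positivity
  set η' : ℝ := min (δ / 2) (η / (1 / 2 + |K| / (2 * δ))) with hη'
  have hη'0 : 0 < η' := lt_min (by linarith) (by positivity)
  have hη'1 : η' ≤ δ / 2 := min_le_left _ _
  have hη'2 : η' * (1 / 2 + |K| / (2 * δ)) ≤ η := by
    have h1 : η' ≤ η / (1 / 2 + |K| / (2 * δ)) := min_le_right _ _
    rwa [le_div_iff₀ hden] at h1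
  obtain ⟨Ω, i1, i2, s, hE, hc⟩ := h η' hη'0
  obtain ⟨s1, s2, hE12, hc12⟩ := two_bit s
  set m := mix s1 s2 (1 / 2) (by norm_num) (by norm_num) with hm
  have hmE : EH m ≤ δ + η' / 2 := by
    rw [hm, EH_mix]
    linarith
  have hmc : (K - η') / 2 ≤ cc m := by
    rw [hm, cc_mix]
    linarith
  set t : ℝ := η' / δ with ht
  have ht0 : 0 < t := by positivity
  have ht1 : t ≤ 1 / 2 := by
    rw [ht, div_le_iff₀ hδ]
    linarith
  have htδ : t * δ = η' := div_mul_cancel₀ _ hδ.ne'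
  set m' := mix m (triv (0 : Fin 2)) (1 - t) (by linarith) (by linarith) with hm'
  have hE' : EH m' < δ := by
    rw [hm', EH_mix, EH_triv, mul_zero, add_zero]
    have h1 : (1 - t) * EH m ≤ (1 - t) * (δ + η' / 2) :=
      mul_le_mul_of_nonneg_left hmE (by linarith)
    have h2 : 0 < t * η' := by positivity
    nlinarith
  have hc' : K / 2 - η ≤ cc m' := by
    rw [hm', cc_mix, cc_triv, mul_zero, add_zero]
    have h1 : (1 - t) * ((K - η') / 2) ≤ (1 - t) * cc m :=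
      mul_le_mul_of_nonneg_left hmc (by linarith)
    have h2 : t * K ≤ t * |K| := mul_le_mul_of_nonneg_left (le_abs_self K) ht0.le
    have h3 : 0 ≤ t * η' := by positivity
    have h4 : η' * (|K| / (2 * δ)) = t * |K| / 2 := by
      rw [ht]; field_simp
    nlinarith
  obtain ⟨P, Q, hP, hQ, htr, hPQ, hent⟩ := pair_of_site m'
  have a1 : (P ^ 2).IsHermitian := by
    have := hP.isHermitian
    exact this.pow 2
  have a2 : (Q ^ 2).IsHermitian := by
    have := hQ.isHermitian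
    exact this.pow 2
  obtain ⟨d, hd1, hd2⟩ := exists_pair P Q hP hQ htr a1 a2 (a1.add a2)
  refine ⟨_, _, _, d, ?_, ?_⟩
  · rw [hd2, hPQ]
    linarith
  · rw [hd1, hent a1 a2 (a1.add a2)]
    linarith

/-- the pairs of a lattice -/
theorem exists_pair_lattice (a : ℝ) {e δ : ℝ} (he : 0 < e) (hδ : 0 < δ)
    (hα : 1 - 2 * δ = (∑' j, g2 a e j) / (∑' j, g1 a e j)) {η : ℝ} (hη : 0 < η) :
    ∃ (ι : Type) (_ : Fintype ι) (_ : DecidableEq ι) (d : Pair ι), EH d.site < δ ∧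
      (1 - (1 / 2 + 1 / 2 * (∑' j : ℤ, (se (a + 2 * (j : ℝ) * e)
        - se (a + (2 * (j : ℝ) + 1) * e))))) * Real.log 2 - η ≤ cc d.site := by
  obtain ⟨ι, i1, i2, d, h1, h2⟩ := exists_pair_of_G2 (K := Real.log 2 *
    (1 - ∑' j : ℤ, (se (a + 2 * (j : ℝ) * e) - se (a + (2 * (j : ℝ) + 1) * e)))) hδ
    (fun η hη => by
      obtain ⟨Ω, i1, i2, s, h1, h2⟩ := theta_sites a he hη
      refine ⟨Ω, i1, i2, s, ?_, h2⟩
      rw [← hα] at h1
      linarith) hη
  refine ⟨ι, i1, i2, d, h1, ?_⟩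
  refine le_trans (le_of_eq ?_) h2
  ring

/-- the pairs at the arcsine point -/
theorem exists_pair_arcsine {δ : ℝ} (hδ : 0 < δ) (hα : 1 - 2 * δ = 2 / Real.pi) {η : ℝ}
    (hη : 0 < η) : ∃ (ι : Type) (_ : Fintype ι) (_ : DecidableEq ι) (d : Pair ι),
      EH d.site < δ ∧ (1 - 1 / 2) * Real.log 2 - η ≤ cc d.site := by
  have hlog : 0 < Real.log 2 := Real.log_pos (by norm_num)
  obtain ⟨ι, i1, i2, d, h1, h2⟩ := exists_pair_of_G2 (K := Real.log 2) hδ
    (fun η hη => by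
    have hη2 : 0 < η / (2 * Real.log 2) := by positivity
    have u1 := tendsto_al.eventually (lt_mem_nhds (show 2 / Real.pi - η / 2 < 2 / Real.pi by
      linarith))
    have u2 := tendsto_S.eventually (gt_mem_nhds hη2)
    obtain ⟨e, ⟨h1, h2⟩, h3⟩ := ((u1.and u2).and self_mem_nhdsWithin).exists
    have he : (0 : ℝ) < e := h3
    obtain ⟨Ω, i1, i2, s, h4, h5⟩ := theta_sites 0 he (half_pos hη)
    refine ⟨Ω, i1, i2, s, ?_, ?_⟩
    · have e1 : (∑' j, g2 0 e j) / (∑' j, g1 0 e j) = al 0 e := by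
        unfold al Wl Zl g1 g2 xl
        simp
      rw [e1] at h4
      linarith
    · refine le_trans ?_ h5
      have h6 : Real.log 2 * (∑' j : ℤ, (se (0 + 2 * (j : ℝ) * e)
          - se (0 + (2 * (j : ℝ) + 1) * e))) ≤ η / 2 := by
        have := mul_le_mul_of_nonneg_left h2.le hlog.le
        refine this.trans (le_of_eq ?_)
        field_simp
      linarith) hη
  refine ⟨ι, i1, i2, d, h1, ?_⟩
  refine le_trans (le_of_eq ?_) h2
  ring

end Pool.Agent.H712.NI
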