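import Pool.Graph.R_seed8.H390R2.LP.Main
import Pool.Graph.R_seed8.H235R2.QLP.Basic

/-! Tilting a site by a function of the position. -/

open Finset

namespace Pool.Agent.H712.NI

open Pool.Agent.H390R2.LP Pool.Agent.H235R2.QLP

variable {Ω X : Type} [Fintype Ω] [DecidableEq Ω]

/-- bilinear form of a block matrix in its eigenbasis -/
lemma form_bilin {J : Type} [Fintype J] (ψ : J → Ω → ℝ) (t : J → ℝ) (e : Ω → Ω → ℝ) (b : Ω → ℝ)
    (he : ∀ m m', ∑ ω, e m ω * e m' ω = if m = m' then 1 else 0)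
    (hd : ∀ m m', ∑ j, t j ^ 2 * ((∑ ω, ψ j ω * e m ω) * (∑ ω, ψ j ω * e m' ω)) =
        if m = m' then b m ^ 2 else 0) (φ φ' : Ω → ℝ) :
    ∑ j, t j ^ 2 * ((∑ ω, ψ j ω * φ ω) * (∑ ω, ψ j ω * φ' ω)) =
      ∑ m, b m ^ 2 * (∑ ω, e m ω * φ ω) * (∑ ω, e m ω * φ' ω) := by
  have h1 : ∀ j, t j ^ 2 * ((∑ ω, ψ j ω * φ ω) * (∑ ω, ψ j ω * φ' ω)) =
      ∑ m, ∑ m', (∑ ω, e m ω * φ ω) *
      (∑ ω, e m' ω * φ' ω) * (t j ^ 2 * ((∑ ω, ψ j ω * e m ω) * (∑ ω, ψ j ω * e m' ω))) := by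
    intro j
    rw [← Pool.Agent.H390R2.LP.parseval e he (ψ j) φ,
      ← Pool.Agent.H390R2.LP.parseval e he (ψ j) φ',
      Finset.sum_mul_sum, Finset.mul_sum]
    refine Finset.sum_congr rfl fun m _ => ?_
    rw [Finset.mul_sum]
    refine Finset.sum_congr rfl fun m' _ => ?_
    have c1 : ∑ ω, φ ω * e m ω = ∑ ω, e m ω * φ ω := Finset.sum_congr rfl fun _ _ => mul_comm _ _
    have c2 : ∑ ω, φ' ω * e m' ω = ∑ ω, e m' ω * φ' ω :=
      Finset.sum_congr rfl fun _ _ => mul_comm _ _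
    rw [c1, c2]
    ring
  simp only [h1]
  rw [Finset.sum_comm]
  refine Finset.sum_congr rfl fun m _ => ?_
  rw [Finset.sum_comm]
  simp only [← Finset.mul_sum, hd]
  simp only [mul_ite, mul_zero, Finset.sum_ite_eq, Finset.mem_univ, if_true]
  ring

/-- the eigenvectors and the square roots of the eigenvalues of the tilted state -/
theorem tilt_block (s : Site Ω X) (a : X → ℝ) :
    ∃ (eb : (Ω → Ω → ℝ) × (Ω → ℝ)), (∀ m, 0 ≤ eb.2 m) ∧
      (∀ m m', ∑ ω, eb.1 m ω * eb.1 m' ω = if m = m' then 1 else 0) ∧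
      (∀ m m', ∑ j, √(s.lam j) ^ 2 * ((∑ ω, a (s.pos ω) * s.u j ω * eb.1 m ω) *
        (∑ ω, a (s.pos ω) * s.u j ω * eb.1 m' ω)) = if m = m' then eb.2 m ^ 2 else 0) := by
  obtain ⟨e, b, h1, h2, h3⟩ := block (fun j ω => a (s.pos ω) * s.u j ω) (fun j => √(s.lam j))
  exact ⟨(e, b), h1, h2, h3⟩

/-- eigenvectors of the tilted state -/
noncomputable def te (s : Site Ω X) (a : X → ℝ) : Ω → Ω → ℝ := (tilt_block s a).choose.1
/-- square roots of the eigenvalues of the tilted state -/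
noncomputable def tb (s : Site Ω X) (a : X → ℝ) : Ω → ℝ := (tilt_block s a).choose.2

lemma tb_nonneg (s : Site Ω X) (a : X → ℝ) (m : Ω) : 0 ≤ tb s a m :=
  (tilt_block s a).choose_spec.1 m
lemma te_orth (s : Site Ω X) (a : X → ℝ) (m m' : Ω) :
    ∑ ω, te s a m ω * te s a m' ω = if m = m' then 1 else 0 :=
  (tilt_block s a).choose_spec.2.1 m m'
lemma te_diag (s : Site Ω X) (a : X → ℝ) (m m' : Ω) :
    ∑ j, √(s.lam j) ^ 2 * ((∑ ω, a (s.pos ω) * s.u j ω * te s a m ω) *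
        (∑ ω, a (s.pos ω) * s.u j ω * te s a m' ω)) = if m = m' then tb s a m ^ 2 else 0 :=
  (tilt_block s a).choose_spec.2.2 m m'

/-- inner products with the adapted basis -/
lemma tilt_ip (s : Site Ω X) (a : X → ℝ) (j c : Ω) :
    ∑ ω, a (s.pos ω) * s.u j ω * s.w c ω = a (s.lab c) * ∑ ω, s.u j ω * s.w c ω := by
  rw [Finset.mul_sum]
  refine Finset.sum_congr rfl fun ω _ => ?_
  by_cases h : s.pos ω = s.lab c
  · rw [h]; ring
  · rw [s.w_supp c ω h]; ring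

lemma norm_psi (s : Site Ω X) (a : X → ℝ) (j : Ω) :
    ∑ ω, (a (s.pos ω) * s.u j ω) ^ 2 = ∑ c, a (s.lab c) ^ 2 * (∑ ω, s.u j ω * s.w c ω) ^ 2 := by
  rw [← parseval_sq s.w s.w_orth (fun ω => a (s.pos ω) * s.u j ω)]
  refine Finset.sum_congr rfl fun c _ => ?_
  rw [tilt_ip, mul_pow]

lemma g_eq (s : Site Ω X) (c : Ω) : s.g c = ∑ a, s.lam a * (∑ ω, s.u a ω * s.w c ω) ^ 2 :=
  Pool.Agent.H703R2.LP.site_g_eq s c

lemma tb_sum (s : Site Ω X) (a : X → ℝ) : ∑ m, tb s a m ^ 2 = ∑ c, a (s.lab c) ^ 2 * s.g c := by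
  have h1 : ∀ m, tb s a m ^ 2 = ∑ j, s.lam j * (∑ ω, a (s.pos ω) * s.u j ω * te s a m ω) ^ 2 := by
    intro m
    have := te_diag s a m m
    rw [if_pos rfl] at this
    rw [← this]
    refine Finset.sum_congr rfl fun j _ => ?_
    rw [Real.sq_sqrt (s.lam_nonneg j)]; ring
  simp only [h1]
  rw [Finset.sum_comm]
  have h2 : ∀ j, ∑ m, s.lam j * (∑ ω, a (s.pos ω) * s.u j ω * te s a m ω) ^ 2 =
      s.lam j * ∑ c, a (s.lab c) ^ 2 * (∑ ω, s.u j ω * s.w c ω) ^ 2 := by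
    intro j
    rw [← Finset.mul_sum, ← norm_psi,
      ← parseval_sq (te s a) (te_orth s a) (fun ω => a (s.pos ω) * s.u j ω)]
  simp only [h2]
  simp only [Finset.mul_sum]
  rw [Finset.sum_comm]
  refine Finset.sum_congr rfl fun c _ => ?_
  rw [g_eq, Finset.mul_sum]
  exact Finset.sum_congr rfl fun j _ => by ring

/-- The tilted site `A ρ A`, where `A` multiplies by `a (position)`. -/
noncomputable def tilt (s : Site Ω X) (a : X → ℝ) (ha : ∑ c, a (s.lab c) ^ 2 * s.g c = 1) :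
    Site Ω X where
  pos := s.pos
  u := te s a
  w := s.w
  lam m := tb s a m ^ 2
  g c := a (s.lab c) ^ 2 * s.g c
  lab := s.lab
  u_orth := te_orth s a
  w_orth := s.w_orth
  lam_nonneg m := sq_nonneg _
  lam_sum := by rw [tb_sum, ha]
  w_supp := s.w_supp
  w_diag := by
    intro c c' h
    have h1 := form_bilin (fun j ω => a (s.pos ω) * s.u j ω) (fun j => √(s.lam j)) (te s a)
      (tb s a) (te_orth s a) (te_diag s a) (s.w c) (s.w c')
    rw [← h1]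
    have h2 : ∀ j, √(s.lam j) ^ 2 * ((∑ ω, a (s.pos ω) * s.u j ω * s.w c ω) *
        (∑ ω, a (s.pos ω) * s.u j ω * s.w c' ω)) = a (s.lab c) * a (s.lab c') *
        (s.lam j * (∑ ω, s.u j ω * s.w c ω) * (∑ ω, s.u j ω * s.w c' ω)) := by
      intro j
      rw [tilt_ip, tilt_ip, Real.sq_sqrt (s.lam_nonneg j)]
      ring
    simp only [h2]
    rw [← Finset.mul_sum, s.w_diag c c' h]
    by_cases hc : c = c'
    · subst hc
      rw [if_pos rfl, if_pos rfl]; ring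
    · rw [if_neg hc, if_neg hc, mul_zero]

lemma tilt_P [DecidableEq X] (s : Site Ω X) (a : X → ℝ)
    (ha : ∑ c, a (s.lab c) ^ 2 * s.g c = 1) (x : X) :
    (tilt s a ha).P x = a x ^ 2 * s.P x := by
  unfold Site.P tilt
  simp only
  rw [Finset.mul_sum]
  refine Finset.sum_congr rfl fun c hc => ?_
  rw [(Finset.mem_filter.mp hc).2]

/-- the square root kernel of a site -/
noncomputable def rk (s : Site Ω X) (ω ω' : Ω) : ℝ := ∑ j, √(s.lam j) * s.u j ω * s.u j ω'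

/-- the state kernel of a site -/
noncomputable def rho (s : Site Ω X) (ω ω' : Ω) : ℝ := ∑ j, s.lam j * s.u j ω * s.u j ω'

end Pool.Agent.H712.NI
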