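import Pool.Agent.H712.NI.Tilt

/-! The entropy of a tilted state: monotonicity of relative entropy under the position
measurement, proved with harmonic means. -/

open Finset

namespace Pool.Agent.H712.NI

open Pool.Agent.H390R2.LP Pool.Agent.H235R2.QLP

variable {Ω X : Type} [Fintype Ω] [DecidableEq Ω]

/-- coefficients of the eigenvectors of the conjugate state in the basis `u` -/
noncomputable def kk (s : Site Ω X) (a : X → ℝ) (m j : Ω) : ℝ :=
  √(s.lam j) * (∑ ω, a (s.pos ω) * s.u j ω * te s a m ω) / tb s a m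

/-- the matrix of the conjugate state in the basis `u` -/
noncomputable def sg2 (s : Site Ω X) (a : X → ℝ) (j l : Ω) : ℝ :=
  √(s.lam j) * √(s.lam l) * ∑ ω, a (s.pos ω) ^ 2 * (s.u j ω * s.u l ω)

lemma kk_zero (s : Site Ω X) (a : X → ℝ) (m j : Ω) (h : tb s a m = 0) : kk s a m j = 0 := by
  unfold kk; rw [h, div_zero]

lemma kk_orth (s : Site Ω X) (a : X → ℝ) (m m' : Ω) (h : tb s a m ≠ 0) (h' : tb s a m' ≠ 0) :
    ∑ j, kk s a m j * kk s a m' j = if m = m' then 1 else 0 := by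
  have h1 : ∑ j, kk s a m j * kk s a m' j = (∑ j, √(s.lam j) ^ 2 *
      ((∑ ω, a (s.pos ω) * s.u j ω * te s a m ω) *
        (∑ ω, a (s.pos ω) * s.u j ω * te s a m' ω))) / (tb s a m * tb s a m') := by
    rw [Finset.sum_div]
    refine Finset.sum_congr rfl fun j _ => ?_
    unfold kk
    field_simp
  rw [h1, te_diag]
  by_cases hm : m = m'
  · subst hm
    rw [if_pos rfl, if_pos rfl]
    field_simp
  · rw [if_neg hm, if_neg hm, zero_div]

lemma kk_sq (s : Site Ω X) (a : X → ℝ) (m : Ω) :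
    ∑ j, kk s a m j ^ 2 = if tb s a m = 0 then 0 else 1 := by
  by_cases h : tb s a m = 0
  · rw [if_pos h]
    exact Finset.sum_eq_zero fun j _ => by rw [kk_zero s a m j h]; ring
  · rw [if_neg h]
    have := kk_orth s a m m h h
    rw [if_pos rfl] at this
    rw [← this]
    exact Finset.sum_congr rfl fun j _ => sq _

/-- if the eigenvalue vanishes then so do the coefficients -/
lemma ip_zero (s : Site Ω X) (a : X → ℝ) (m j : Ω) (h : tb s a m = 0) :
    √(s.lam j) * (∑ ω, a (s.pos ω) * s.u j ω * te s a m ω) = 0 := by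
  have h1 := te_diag s a m m
  rw [if_pos rfl, h] at h1
  have h2 : ∀ j ∈ (univ : Finset Ω), 0 ≤ √(s.lam j) ^ 2 *
      ((∑ ω, a (s.pos ω) * s.u j ω * te s a m ω) *
        (∑ ω, a (s.pos ω) * s.u j ω * te s a m ω)) := fun j _ =>
    mul_nonneg (sq_nonneg _) (mul_self_nonneg _)
  rw [show (0 : ℝ) ^ 2 = 0 by norm_num, Finset.sum_eq_zero_iff_of_nonneg h2] at h1
  have h3 := h1 j (Finset.mem_univ j)
  have h4 : (√(s.lam j) * (∑ ω, a (s.pos ω) * s.u j ω * te s a m ω)) ^ 2 = 0 := by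
    rw [← h3]; ring
  exact pow_eq_zero_iff two_ne_zero |>.mp h4

lemma kk_form (s : Site Ω X) (a : X → ℝ) (j l : Ω) :
    ∑ m, tb s a m ^ 2 * (kk s a m j * kk s a m l) = sg2 s a j l := by
  have h1 : ∀ m, tb s a m ^ 2 * (kk s a m j * kk s a m l) =
      √(s.lam j) * √(s.lam l) * ((∑ ω, (a (s.pos ω) * s.u j ω) * te s a m ω) *
        (∑ ω, (a (s.pos ω) * s.u l ω) * te s a m ω)) := by
    intro m
    by_cases h : tb s a m = 0
    · have h2 := ip_zero s a m j h
      rw [h, kk_zero s a m j h]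
      linear_combination (-(√(s.lam l) * ∑ ω, (a (s.pos ω) * s.u l ω) * te s a m ω)) * h2
    · unfold kk
      field_simp
  simp only [h1]
  rw [← Finset.mul_sum, Pool.Agent.H390R2.LP.parseval (te s a) (te_orth s a)]
  unfold sg2
  congr 1
  exact Finset.sum_congr rfl fun ω _ => by ring

/-- eigenvectors of the conjugate state -/
noncomputable def Fv (s : Site Ω X) (a : X → ℝ) (m ω : Ω) : ℝ := ∑ j, kk s a m j * s.u j ω

lemma Fv_ip (s : Site Ω X) (a : X → ℝ) (m j : Ω) : ∑ ω, Fv s a m ω * s.u j ω = kk s a m j := by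
  unfold Fv
  simp only [Finset.sum_mul]
  rw [Finset.sum_comm]
  have h1 : ∀ l, ∑ ω, kk s a m l * s.u l ω * s.u j ω = if l = j then kk s a m l else 0 := by
    intro l
    have := s.u_orth l j
    have h2 : ∑ ω, kk s a m l * s.u l ω * s.u j ω = kk s a m l * ∑ ω, s.u l ω * s.u j ω := by
      rw [Finset.mul_sum]; exact Finset.sum_congr rfl fun _ _ => by ring
    rw [h2, this]; split_ifs <;> simp
  simp only [h1]
  simp

/-- the outcome distribution -/
noncomputable def Pp [DecidableEq X] (s : Site Ω X) (a : X → ℝ) (x : X) : ℝ :=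
  ∑ m, tb s a m ^ 2 * ∑ ω, if s.pos ω = x then Fv s a m ω ^ 2 else 0

lemma Pp_eq [DecidableEq X] (s : Site Ω X) (a : X → ℝ) (x : X) :
    Pp s a x = ∑ ω, ∑ ω', if s.pos ω = x then a (s.pos ω') ^ 2 * rk s ω ω' ^ 2 else 0 := by
  unfold Pp
  simp only [Finset.mul_sum]
  rw [Finset.sum_comm]
  refine Finset.sum_congr rfl fun ω _ => ?_
  by_cases h : s.pos ω = x
  · simp only [if_pos h]
    have h1 : ∀ m, tb s a m ^ 2 * Fv s a m ω ^ 2 =
        ∑ j, ∑ l, tb s a m ^ 2 * (kk s a m j * kk s a m l) * (s.u j ω * s.u l ω) := by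
      intro m
      unfold Fv
      rw [sq (∑ j, kk s a m j * s.u j ω), Finset.sum_mul_sum, Finset.mul_sum]
      refine Finset.sum_congr rfl fun j _ => ?_
      rw [Finset.mul_sum]
      exact Finset.sum_congr rfl fun l _ => by ring
    simp only [h1]
    rw [Finset.sum_comm]
    have h2 : ∀ j, ∑ m, ∑ l, tb s a m ^ 2 * (kk s a m j * kk s a m l) * (s.u j ω * s.u l ω) =
        ∑ l, sg2 s a j l * (s.u j ω * s.u l ω) := by
      intro j
      rw [Finset.sum_comm]
      refine Finset.sum_congr rfl fun l _ => ?_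
      rw [← Finset.sum_mul, kk_form]
    simp only [h2]
    have h3 : ∀ ω', a (s.pos ω') ^ 2 * rk s ω ω' ^ 2 = ∑ j, ∑ l, √(s.lam j) * √(s.lam l) *
        (a (s.pos ω') ^ 2 * (s.u j ω' * s.u l ω')) * (s.u j ω * s.u l ω) := by
      intro ω'
      unfold rk
      rw [sq (∑ j, √(s.lam j) * s.u j ω * s.u j ω'), Finset.sum_mul_sum, Finset.mul_sum]
      refine Finset.sum_congr rfl fun j _ => ?_
      rw [Finset.mul_sum]
      exact Finset.sum_congr rfl fun l _ => by ring
    simp only [h3]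
    symm
    rw [Finset.sum_comm]
    refine Finset.sum_congr rfl fun j _ => ?_
    rw [Finset.sum_comm]
    refine Finset.sum_congr rfl fun l _ => ?_
    unfold sg2
    rw [Finset.mul_sum, Finset.sum_mul]
  · simp only [if_neg h]
    simp

/-- the basic inequality for one parameter -/
lemma gs_ineq [Fintype X] [DecidableEq X] (s : Site Ω X) (a : X → ℝ) (U : ℝ)
    (hU : 0 ≤ U) (hunif : ∀ j x, ∑ ω, (if s.pos ω = x then s.u j ω ^ 2 else 0) = U)
    {t : ℝ} (ht : 0 < t) :
    ∑ m, ∑ j, gs t (tb s a m ^ 2) (s.lam j) * kk s a m j ^ 2 ≤ ∑ x, gs t (Pp s a x) U := by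
  set P' := Pp s a with hP'
  have hP0 : ∀ x, 0 ≤ P' x := fun x => Finset.sum_nonneg fun m _ =>
    mul_nonneg (sq_nonneg _) (Finset.sum_nonneg fun ω _ => by split_ifs <;> positivity)
  set y : X → ℝ := fun x => 1 * P' x / (P' x + t ^ 2 * U) with hy
  -- the splitting
  have h1 : ∀ m j, kk s a m j = ∑ ω, (1 - y (s.pos ω)) * Fv s a m ω * s.u j ω +
      ∑ ω, y (s.pos ω) * Fv s a m ω * s.u j ω := by
    intro m j
    rw [← Fv_ip, ← Finset.sum_add_distrib]
    exact Finset.sum_congr rfl fun ω _ => by ring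
  have h2 : ∀ m j, t ^ 2 * (gs t (tb s a m ^ 2) (s.lam j) * kk s a m j ^ 2) ≤
      tb s a m ^ 2 * (∑ ω, (1 - y (s.pos ω)) * Fv s a m ω * s.u j ω) ^ 2 +
      t ^ 2 * (s.lam j * (∑ ω, y (s.pos ω) * Fv s a m ω * s.u j ω) ^ 2) := by
    intro m j
    have := gs_le ht (sq_nonneg (tb s a m)) (s.lam_nonneg j)
      (∑ ω, (1 - y (s.pos ω)) * Fv s a m ω * s.u j ω)
      (∑ ω, y (s.pos ω) * Fv s a m ω * s.u j ω)
    rw [← h1 m j] at this
    linarith
  have h3 : ∀ m, ∑ j, (∑ ω, (1 - y (s.pos ω)) * Fv s a m ω * s.u j ω) ^ 2 =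
      ∑ ω, ((1 - y (s.pos ω)) * Fv s a m ω) ^ 2 := fun m =>
    parseval_sq s.u s.u_orth (fun ω => (1 - y (s.pos ω)) * Fv s a m ω)
  -- Bessel for the second term
  have h4 : ∀ j, ∑ m, (∑ ω, y (s.pos ω) * Fv s a m ω * s.u j ω) ^ 2 ≤
      ∑ ω, (y (s.pos ω) * s.u j ω) ^ 2 := by
    intro j
    have hsub : ∀ f : Ω → ℝ, ∑ m : {m : Ω // tb s a m ≠ 0}, f m =
        ∑ m ∈ univ.filter (fun m => tb s a m ≠ 0), f m := fun f =>
      (Finset.sum_subtype (univ.filter (fun m => tb s a m ≠ 0)) (fun x => by simp) f).symm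
    have horth : ∀ m m' : {m : Ω // tb s a m ≠ 0},
        ∑ ω, Fv s a m ω * Fv s a m' ω = if m = m' then 1 else 0 := by
      intro m m'
      have e1 : ∑ ω, Fv s a m ω * Fv s a m' ω = ∑ l, kk s a m l * kk s a m' l := by
        have e2 : ∀ ω, Fv s a m ω * Fv s a m' ω = ∑ l, kk s a m' l * (Fv s a m ω * s.u l ω) := by
          intro ω
          conv_lhs => rw [show Fv s a m' ω = ∑ l, kk s a m' l * s.u l ω from rfl]
          rw [Finset.mul_sum]
          exact Finset.sum_congr rfl fun _ _ => by ring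
        simp only [e2]
        rw [Finset.sum_comm]
        refine Finset.sum_congr rfl fun l _ => ?_
        rw [← Finset.mul_sum, Fv_ip]; ring
      rw [e1, kk_orth s a m m' m.2 m'.2]
      by_cases h : m = m'
      · rw [if_pos h, if_pos (by rw [h])]
      · rw [if_neg h, if_neg (fun h' => h (Subtype.ext h'))]
    have hb := bessel (fun m : {m : Ω // tb s a m ≠ 0} => Fv s a m) horth
      (fun ω => y (s.pos ω) * s.u j ω)
    refine le_trans (le_of_eq ?_) hb
    rw [hsub (fun m => (∑ ω, y (s.pos ω) * s.u j ω * Fv s a m ω) ^ 2), Finset.sum_filter]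
    refine Finset.sum_congr rfl fun m _ => ?_
    by_cases h : tb s a m = 0
    · rw [if_neg (fun h' => h' h)]
      have : ∀ ω, Fv s a m ω = 0 := fun ω => by
        unfold Fv; exact Finset.sum_eq_zero fun l _ => by rw [kk_zero s a m l h, zero_mul]
      simp [this]
    · rw [if_pos h]
      congr 1
      exact Finset.sum_congr rfl fun _ _ => by ring
  -- collect
  have h5 : t ^ 2 * ∑ m, ∑ j, gs t (tb s a m ^ 2) (s.lam j) * kk s a m j ^ 2 ≤
      ∑ m, tb s a m ^ 2 * ∑ ω, ((1 - y (s.pos ω)) * Fv s a m ω) ^ 2 +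
      t ^ 2 * ∑ j, s.lam j * ∑ ω, (y (s.pos ω) * s.u j ω) ^ 2 := by
    calc t ^ 2 * ∑ m, ∑ j, gs t (tb s a m ^ 2) (s.lam j) * kk s a m j ^ 2
        = ∑ m, ∑ j, t ^ 2 * (gs t (tb s a m ^ 2) (s.lam j) * kk s a m j ^ 2) := by
          simp only [Finset.mul_sum]
      _ ≤ ∑ m, ∑ j, (tb s a m ^ 2 * (∑ ω, (1 - y (s.pos ω)) * Fv s a m ω * s.u j ω) ^ 2 +
          t ^ 2 * (s.lam j * (∑ ω, y (s.pos ω) * Fv s a m ω * s.u j ω) ^ 2)) :=
          Finset.sum_le_sum fun m _ => Finset.sum_le_sum fun j _ => h2 m j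
      _ = ∑ m, tb s a m ^ 2 * ∑ j, (∑ ω, (1 - y (s.pos ω)) * Fv s a m ω * s.u j ω) ^ 2 +
          t ^ 2 * ∑ j, s.lam j * ∑ m, (∑ ω, y (s.pos ω) * Fv s a m ω * s.u j ω) ^ 2 := by
          simp only [Finset.sum_add_distrib]
          congr 1
          · simp only [Finset.mul_sum]
          · rw [Finset.sum_comm]
            simp only [Finset.mul_sum]
      _ ≤ _ := by
          refine add_le_add (le_of_eq ?_) ?_
          · exact Finset.sum_congr rfl fun m _ => by rw [h3]
          · refine mul_le_mul_of_nonneg_left ?_ (by positivity)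
            exact Finset.sum_le_sum fun j _ => mul_le_mul_of_nonneg_left (h4 j) (s.lam_nonneg j)
  have h6 : ∑ m, tb s a m ^ 2 * ∑ ω, ((1 - y (s.pos ω)) * Fv s a m ω) ^ 2 =
      ∑ x, (1 - y x) ^ 2 * P' x := by
    have e1 : ∀ m, ∑ ω, ((1 - y (s.pos ω)) * Fv s a m ω) ^ 2 =
        ∑ x, (1 - y x) ^ 2 * ∑ ω, (if s.pos ω = x then Fv s a m ω ^ 2 else 0) := by
      intro m
      simp only [Finset.mul_sum]
      rw [Finset.sum_comm]
      refine Finset.sum_congr rfl fun ω _ => ?_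
      simp only [mul_ite, mul_zero, Finset.sum_ite_eq, Finset.mem_univ, if_true]
      ring
    simp only [e1]
    simp only [Finset.mul_sum]
    rw [Finset.sum_comm]
    refine Finset.sum_congr rfl fun x _ => ?_
    rw [hP']
    unfold Pp
    rw [Finset.mul_sum]
    refine Finset.sum_congr rfl fun m _ => ?_
    rw [Finset.mul_sum, Finset.mul_sum]
    exact Finset.sum_congr rfl fun ω _ => by ring
  have h7 : ∑ j, s.lam j * ∑ ω, (y (s.pos ω) * s.u j ω) ^ 2 = ∑ x, y x ^ 2 * U := by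
    have e1 : ∀ j, ∑ ω, (y (s.pos ω) * s.u j ω) ^ 2 = ∑ x, y x ^ 2 * U := by
      intro j
      have e2 : ∀ x, y x ^ 2 * U = ∑ ω, (if s.pos ω = x then y x ^ 2 * s.u j ω ^ 2 else 0) := by
        intro x
        rw [← hunif j x, Finset.mul_sum]
        exact Finset.sum_congr rfl fun ω _ => by split_ifs <;> simp
      simp only [e2]
      rw [Finset.sum_comm]
      refine Finset.sum_congr rfl fun ω _ => ?_
      simp only [Finset.sum_ite_eq, Finset.mem_univ, if_true]
      ring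
    simp only [e1]
    rw [← Finset.sum_mul, s.lam_sum, one_mul]
  rw [h6, h7] at h5
  have h8 : ∑ x, (1 - y x) ^ 2 * P' x + t ^ 2 * ∑ x, y x ^ 2 * U =
      t ^ 2 * ∑ x, gs t (P' x) U := by
    rw [Finset.mul_sum, Finset.mul_sum, ← Finset.sum_add_distrib]
    refine Finset.sum_congr rfl fun x _ => ?_
    have := gs_opt ht (hP0 x) hU 1
    simp only [hy]
    linarith
  rw [h8] at h5
  exact le_of_mul_le_mul_left h5 (by positivity)

end Pool.Agent.H712.NI
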