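import Pool.Agent.H712.NI.TiltEnt

/-! The entropy bound for tilted states. -/

open Finset MeasureTheory Set

namespace Pool.Agent.H712.NI

open Pool.Agent.H390R2.LP Pool.Agent.H235R2.QLP

lemma int_phi (a b T : ℝ) (ha : 0 ≤ a) (hb : 0 ≤ b) (hT : 0 < T) :
    IntegrableOn (fun u => a * b / (a + u * b)) (Ioc 0 T) ∧
      ∫ u in Ioc 0 T, a * b / (a + u * b) = a * (Real.log (a + T * b) - Real.log a) := by
  rcases ha.eq_or_lt with rfl | ha
  · simp
  · have hpos : ∀ u ∈ Set.Icc 0 T, 0 < a + u * b := fun u hu => by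
      have := mul_nonneg hu.1 hb
      linarith
    have hc : ContinuousOn (fun u => a * b / (a + u * b)) (Set.Icc 0 T) :=
      ContinuousOn.div continuousOn_const (by fun_prop) fun u hu => (hpos u hu).ne'
    refine ⟨(hc.integrableOn_Icc).mono_set Ioc_subset_Icc_self, ?_⟩
    rw [← intervalIntegral.integral_of_le hT.le]
    have hd : ∀ u ∈ Set.uIcc 0 T, HasDerivAt (fun u => a * Real.log (a + u * b))
        (a * b / (a + u * b)) u := by
      intro u hu
      rw [Set.uIcc_of_le hT.le] at hu
      have h1 : HasDerivAt (fun u => a + u * b) b u := by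
        simpa using ((hasDerivAt_id u).mul_const b).const_add a
      have h2 := (h1.log (hpos u hu).ne').const_mul a
      refine h2.congr_deriv ?_
      ring
    rw [intervalIntegral.integral_eq_sub_of_hasDerivAt hd]
    · simp only [zero_mul, add_zero]; ring
    · exact (hc.mono (by rw [Set.uIcc_of_le hT.le])).intervalIntegrable

variable {Ω X : Type} [Fintype Ω] [DecidableEq Ω] [Fintype X] [DecidableEq X]

lemma Pp_nonneg (s : Site Ω X) (a : X → ℝ) (x : X) : 0 ≤ Pp s a x :=
  Finset.sum_nonneg fun m _ =>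
    mul_nonneg (sq_nonneg _) (Finset.sum_nonneg fun ω _ => by split_ifs <;> positivity)

lemma Fv_norm (s : Site Ω X) (a : X → ℝ) (m : Ω) :
    ∑ ω, Fv s a m ω ^ 2 = if tb s a m = 0 then 0 else 1 := by
  rw [← kk_sq, ← parseval_sq s.u s.u_orth (Fv s a m)]
  exact Finset.sum_congr rfl fun j _ => by rw [Fv_ip]

lemma Pp_sum (s : Site Ω X) (a : X → ℝ) : ∑ x, Pp s a x = ∑ m, tb s a m ^ 2 := by
  unfold Pp
  rw [Finset.sum_comm]
  refine Finset.sum_congr rfl fun m _ => ?_
  rw [← Finset.mul_sum, Finset.sum_comm]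
  have h1 : ∑ ω, ∑ x, (if s.pos ω = x then Fv s a m ω ^ 2 else 0) = ∑ ω, Fv s a m ω ^ 2 :=
    Finset.sum_congr rfl fun ω _ => by simp
  rw [h1, Fv_norm]
  by_cases h : tb s a m = 0
  · rw [if_pos h, h]; ring
  · rw [if_neg h, mul_one]

/-- the integrated inequality -/
lemma log_ineq (s : Site Ω X) (a : X → ℝ) (U : ℝ)
    (hU : 0 ≤ U) (hunif : ∀ j x, ∑ ω, (if s.pos ω = x then s.u j ω ^ 2 else 0) = U)
    {T : ℝ} (hT : 0 < T) :
    ∑ m, ∑ j, tb s a m ^ 2 * (Real.log (tb s a m ^ 2 + T * s.lam j) -
      Real.log (tb s a m ^ 2)) * kk s a m j ^ 2 ≤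
      ∑ x, Pp s a x * (Real.log (Pp s a x + T * U) - Real.log (Pp s a x)) := by
  have h1 := fun m j => int_phi (tb s a m ^ 2) (s.lam j) T (sq_nonneg _) (s.lam_nonneg j) hT
  have h2 := fun x => int_phi (Pp s a x) U T (Pp_nonneg s a x) hU hT
  have e1 : ∑ m, ∑ j, tb s a m ^ 2 * (Real.log (tb s a m ^ 2 + T * s.lam j) -
      Real.log (tb s a m ^ 2)) * kk s a m j ^ 2 =
      ∫ u in Ioc 0 T, ∑ m, ∑ j, tb s a m ^ 2 * s.lam j / (tb s a m ^ 2 + u * s.lam j) *
        kk s a m j ^ 2 := by
    rw [integral_finsetSum _ fun m _ => integrable_finsetSum _ fun j _ =>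
      (h1 m j).1.mul_const _]
    refine Finset.sum_congr rfl fun m _ => ?_
    rw [integral_finsetSum _ fun j _ => (h1 m j).1.mul_const _]
    refine Finset.sum_congr rfl fun j _ => ?_
    rw [integral_mul_const, (h1 m j).2]
  have e2 : ∑ x, Pp s a x * (Real.log (Pp s a x + T * U) - Real.log (Pp s a x)) =
      ∫ u in Ioc 0 T, ∑ x, Pp s a x * U / (Pp s a x + u * U) := by
    rw [integral_finsetSum _ fun x _ => (h2 x).1]
    exact Finset.sum_congr rfl fun x _ => (h2 x).2.symm
  rw [e1, e2]
  refine setIntegral_mono_on ?_ ?_ measurableSet_Ioc ?_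
  · exact integrable_finsetSum _ fun m _ => integrable_finsetSum _ fun j _ =>
      (h1 m j).1.mul_const _
  · exact integrable_finsetSum _ fun x _ => (h2 x).1
  · intro u hu
    have hu0 : 0 < u := hu.1
    have h3 := gs_ineq s a U hU hunif (Real.sqrt_pos.mpr hu0)
    unfold gs at h3
    simp only [Real.sq_sqrt hu0.le] at h3
    exact h3

/-- **Entropy of the tilted state.** -/
theorem tilt_S_le (s : Site Ω X) (a : X → ℝ) (U : ℝ)
    (hU : 0 < U) (hunif : ∀ j x, ∑ ω, (if s.pos ω = x then s.u j ω ^ 2 else 0) = U)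
    (ha2 : ∑ x, a x ^ 2 * U = 1) (ha : ∑ c, a (s.lab c) ^ 2 * s.g c = 1) :
    (tilt s a ha).S ≤ s.S + Real.log U + ∑ x, Real.negMulLog (Pp s a x) := by
  have htb : ∑ m, tb s a m ^ 2 = 1 := by rw [tb_sum, ha]
  have hPs : ∑ x, Pp s a x = 1 := by rw [Pp_sum, htb]
  have hP0 := Pp_nonneg s a
  have hP1 : ∀ x, Pp s a x ≤ 1 := fun x => by
    rw [← hPs]; exact Finset.single_le_sum (fun y _ => hP0 y) (Finset.mem_univ x)
  -- sums of weights
  have w1 : ∑ m, ∑ j, tb s a m ^ 2 * kk s a m j ^ 2 = 1 := by
    rw [← htb]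
    refine Finset.sum_congr rfl fun m _ => ?_
    rw [← Finset.mul_sum, kk_sq]
    by_cases h : tb s a m = 0
    · rw [if_pos h, h]; ring
    · rw [if_neg h, mul_one]
  have w2 : ∑ m, ∑ j, tb s a m ^ 2 * kk s a m j ^ 2 * Real.log (tb s a m ^ 2) =
      -(tilt s a ha).S := by
    unfold Site.S tilt
    simp only
    rw [← Finset.sum_neg_distrib]
    refine Finset.sum_congr rfl fun m _ => ?_
    have : ∀ j, tb s a m ^ 2 * kk s a m j ^ 2 * Real.log (tb s a m ^ 2) =
        (tb s a m ^ 2 * Real.log (tb s a m ^ 2)) * kk s a m j ^ 2 := fun j => by ring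
    simp only [this]
    rw [← Finset.mul_sum, kk_sq]
    unfold Real.negMulLog
    by_cases h : tb s a m = 0
    · rw [if_pos h, h]; simp
    · rw [if_neg h]; ring
  have w3 : ∑ m, ∑ j, tb s a m ^ 2 * kk s a m j ^ 2 * Real.log (s.lam j) = -s.S := by
    rw [Finset.sum_comm]
    unfold Site.S
    rw [← Finset.sum_neg_distrib]
    refine Finset.sum_congr rfl fun j _ => ?_
    rw [← Finset.sum_mul]
    have h1 : ∑ m, tb s a m ^ 2 * kk s a m j ^ 2 = s.lam j := by
      have h2 := kk_form s a j j
      have h3 : ∑ m, tb s a m ^ 2 * kk s a m j ^ 2 = sg2 s a j j := by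
        rw [← h2]; exact Finset.sum_congr rfl fun m _ => by ring
      rw [h3]
      unfold sg2
      rw [Real.mul_self_sqrt (s.lam_nonneg j)]
      have h4 : ∑ ω, a (s.pos ω) ^ 2 * (s.u j ω * s.u j ω) = 1 := by
        rw [← ha2]
        have h5 : ∀ x, a x ^ 2 * U =
            ∑ ω, (if s.pos ω = x then a x ^ 2 * s.u j ω ^ 2 else 0) := by
          intro x
          rw [← hunif j x, Finset.mul_sum]
          exact Finset.sum_congr rfl fun ω _ => by split_ifs <;> simp
        simp only [h5]
        rw [Finset.sum_comm]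
        refine Finset.sum_congr rfl fun ω _ => ?_
        simp only [Finset.sum_ite_eq, Finset.mem_univ, if_true]
        ring
      rw [h4, mul_one]
    rw [h1]
    unfold Real.negMulLog
    ring
  have key : ∀ T : ℝ, 0 < T → (tilt s a ha).S ≤ s.S + Real.log U +
      ∑ x, Real.negMulLog (Pp s a x) + 1 / (T * U) := by
    intro T hT
    have h1 := log_ineq s a U hU.le hunif hT
    -- lower bound of the left side
    have h2 : Real.log T - s.S + (tilt s a ha).S ≤
        ∑ m, ∑ j, tb s a m ^ 2 * (Real.log (tb s a m ^ 2 + T * s.lam j) -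
          Real.log (tb s a m ^ 2)) * kk s a m j ^ 2 := by
      have h3 : Real.log T - s.S + (tilt s a ha).S = ∑ m, ∑ j, tb s a m ^ 2 * kk s a m j ^ 2 *
          (Real.log T + Real.log (s.lam j) - Real.log (tb s a m ^ 2)) := by
        have h4 : ∀ m j, tb s a m ^ 2 * kk s a m j ^ 2 *
            (Real.log T + Real.log (s.lam j) - Real.log (tb s a m ^ 2)) =
            Real.log T * (tb s a m ^ 2 * kk s a m j ^ 2) +
            tb s a m ^ 2 * kk s a m j ^ 2 * Real.log (s.lam j) -
            tb s a m ^ 2 * kk s a m j ^ 2 * Real.log (tb s a m ^ 2) := fun m j => by ring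
        have w4 : ∑ m, ∑ j, Real.log T * (tb s a m ^ 2 * kk s a m j ^ 2) = Real.log T := by
          have w5 : ∀ m, ∑ j, Real.log T * (tb s a m ^ 2 * kk s a m j ^ 2) =
              Real.log T * ∑ j, tb s a m ^ 2 * kk s a m j ^ 2 := fun m => by
            rw [Finset.mul_sum]
          simp only [w5]
          rw [← Finset.mul_sum, w1, mul_one]
        simp only [h4, Finset.sum_sub_distrib, Finset.sum_add_distrib, w2, w3, w4]
        ring
      rw [h3]
      refine Finset.sum_le_sum fun m _ => Finset.sum_le_sum fun j _ => ?_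
      by_cases hk : kk s a m j = 0
      · rw [hk]; simp
      · have hl : 0 < s.lam j := by
          refine lt_of_le_of_ne (s.lam_nonneg j) fun h => hk ?_
          unfold kk
          rw [← h]; simp
        have h5 : Real.log T + Real.log (s.lam j) ≤ Real.log (tb s a m ^ 2 + T * s.lam j) := by
          rw [← Real.log_mul hT.ne' hl.ne']
          refine Real.log_le_log (by positivity) ?_
          nlinarith [sq_nonneg (tb s a m)]
        have h6 : 0 ≤ tb s a m ^ 2 * kk s a m j ^ 2 := by positivity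
        calc _ ≤ tb s a m ^ 2 * kk s a m j ^ 2 *
            (Real.log (tb s a m ^ 2 + T * s.lam j) - Real.log (tb s a m ^ 2)) :=
              mul_le_mul_of_nonneg_left (by linarith) h6
          _ = _ := by ring
    -- upper bound of the right side
    have h3 : ∑ x, Pp s a x * (Real.log (Pp s a x + T * U) - Real.log (Pp s a x)) ≤
        Real.log T + Real.log U + ∑ x, Real.negMulLog (Pp s a x) + 1 / (T * U) := by
      have h4 : ∀ x, Pp s a x * (Real.log (Pp s a x + T * U) - Real.log (Pp s a x)) ≤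
          Pp s a x * (Real.log T + Real.log U) + Real.negMulLog (Pp s a x) +
          Pp s a x * (1 / (T * U)) := by
        intro x
        have hTU : 0 < T * U := by positivity
        have h5 : Real.log (Pp s a x + T * U) ≤ Real.log T + Real.log U +
            Pp s a x * (1 / (T * U)) := by
          have h6 : Pp s a x + T * U = T * U * (1 + Pp s a x * (1 / (T * U))) := by
            field_simp
            ring
          have h7 : 0 ≤ Pp s a x * (1 / (T * U)) := mul_nonneg (hP0 x) (by positivity)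
          rw [h6, Real.log_mul hTU.ne' (by linarith), Real.log_mul hT.ne' hU.ne']
          have := Real.log_le_sub_one_of_pos (show 0 < 1 + Pp s a x * (1 / (T * U)) by linarith)
          linarith
        have h8 : Pp s a x * (Pp s a x * (1 / (T * U))) ≤ Pp s a x * (1 / (T * U)) := by
          have h7 : 0 ≤ Pp s a x * (1 / (T * U)) := mul_nonneg (hP0 x) (by positivity)
          nlinarith [hP1 x]
        have h9 := mul_le_mul_of_nonneg_left h5 (hP0 x)
        unfold Real.negMulLog
        nlinarith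
      refine (Finset.sum_le_sum fun x _ => h4 x).trans (le_of_eq ?_)
      rw [Finset.sum_add_distrib, Finset.sum_add_distrib, ← Finset.sum_mul, ← Finset.sum_mul,
        hPs]
      ring
    linarith
  refine le_of_forall_pos_le_add fun ε hε => ?_
  have h := key (1 / (ε * U)) (by positivity)
  have : 1 / (1 / (ε * U) * U) = ε := by field_simp
  rw [this] at h
  exact h

end Pool.Agent.H712.NI
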