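import Pool.Agent.H712.NI.PairSite
import Pool.Graph.R_seed8.TH753.FF4

/-! From sites over pairs of bits to sites over one bit. -/

open Finset

namespace Pool.Agent.H712.NI

open Pool.Agent.H390R2.LP Pool.Agent.H235R2.QLP Pool.Agent.TH753.MB Pool.Agent.TH753.FF

variable {Ω X : Type} [Fintype Ω] [DecidableEq Ω]

/-- every state and position map has an adapted basis -/
theorem exists_adapted [DecidableEq X] (pos : Ω → X) (u : Ω → Ω → ℝ) (lam : Ω → ℝ)
    (hlam : ∀ a, 0 ≤ lam a) :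
    ∃ (w : Ω → Ω → ℝ) (g : Ω → ℝ), (∀ a b, ∑ ω, w a ω * w b ω = if a = b then 1 else 0) ∧
      (∀ c, 0 ≤ g c) ∧ (∀ c ω, pos ω ≠ pos c → w c ω = 0) ∧
      (∀ c c', pos c = pos c' →
        ∑ a, lam a * (∑ ω, u a ω * w c ω) * (∑ ω, u a ω * w c' ω) = if c = c' then g c else 0) := by
  classical
  have hb : ∀ x : X, ∃ (e : {ω // pos ω = x} → {ω // pos ω = x} → ℝ) (b : {ω // pos ω = x} → ℝ),
      (∀ m, 0 ≤ b m) ∧ (∀ m m', ∑ ω, e m ω * e m' ω = if m = m' then 1 else 0) ∧
      (∀ m m', ∑ j : Ω, √(lam j) ^ 2 * ((∑ ω, u j ω.1 * e m ω) * (∑ ω, u j ω.1 * e m' ω)) =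
        if m = m' then b m ^ 2 else 0) := fun x =>
    block (fun (j : Ω) (ω : {ω // pos ω = x}) => u j ω.1) (fun j => √(lam j))
  choose e b hb0 he hd using hb
  set w : Ω → Ω → ℝ := fun c ω => if h : pos ω = pos c then e (pos c) ⟨c, rfl⟩ ⟨ω, h⟩ else 0
    with hw
  set g : Ω → ℝ := fun c => b (pos c) ⟨c, rfl⟩ ^ 2 with hg
  have hwx : ∀ (x : X) (c : Ω) (hc : pos c = x) (ω : Ω) (hω : pos ω = x),
      w c ω = e x ⟨c, hc⟩ ⟨ω, hω⟩ := by
    intro x c hc ω hω
    subst hc
    simp only [hw]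
    rw [dif_pos hω]
  have hgx : ∀ (x : X) (c : Ω) (hc : pos c = x), g c = b x ⟨c, hc⟩ ^ 2 := by
    intro x c hc
    subst hc
    rfl
  have hw0 : ∀ c ω, pos ω ≠ pos c → w c ω = 0 := by
    intro c ω h
    simp only [hw]
    rw [dif_neg h]
  have hsum : ∀ (x : X) (c : Ω) (hc : pos c = x) (F : Ω → ℝ),
      ∑ ω, F ω * w c ω = ∑ ω : {ω // pos ω = x}, F ω.1 * e x ⟨c, hc⟩ ω := by
    intro x c hc F
    have h1 : ∑ ω, F ω * w c ω = ∑ ω ∈ univ.filter (fun ω => pos ω = x), F ω * w c ω := by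
      symm
      refine Finset.sum_subset (Finset.filter_subset _ _) fun ω _ hω => ?_
      have : pos ω ≠ x := fun h => hω (by simp [h])
      rw [hw0 c ω (by rw [hc]; exact this), mul_zero]
    rw [h1, Finset.sum_subtype (univ.filter (fun ω => pos ω = x)) (p := fun ω => pos ω = x)
      (fun ω => by simp)]
    refine Finset.sum_congr rfl fun ω _ => ?_
    rw [hwx x c hc ω.1 ω.2]
  refine ⟨w, g, ?_, fun c => sq_nonneg _, hw0, ?_⟩
  · intro a c
    by_cases h : pos a = pos c
    · rw [hsum (pos c) c rfl (fun ω => w a ω)]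
      have h1 : ∀ ω : {ω // pos ω = pos c}, w a ω.1 * e (pos c) ⟨c, rfl⟩ ω =
          e (pos c) ⟨a, h⟩ ω * e (pos c) ⟨c, rfl⟩ ω := by
        intro ω
        rw [hwx (pos c) a h ω.1 ω.2]
      simp only [h1]
      rw [he]
      by_cases hac : a = c
      · subst hac; simp
      · rw [if_neg hac, if_neg (fun h' => hac (congrArg Subtype.val h'))]
    · rw [if_neg (fun h' => h (by rw [h']))]
      refine Finset.sum_eq_zero fun ω _ => ?_
      by_cases h1 : pos ω = pos a
      · rw [hw0 c ω (by rw [h1]; exact h), mul_zero]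
      · rw [hw0 a ω h1, zero_mul]
  · intro a c h
    have h1 := hd (pos c) ⟨a, h⟩ ⟨c, rfl⟩
    have h2 : ∀ j, lam j * (∑ ω, u j ω * w a ω) * (∑ ω, u j ω * w c ω) =
        √(lam j) ^ 2 * ((∑ ω : {ω // pos ω = pos c}, u j ω.1 * e (pos c) ⟨a, h⟩ ω) *
          (∑ ω : {ω // pos ω = pos c}, u j ω.1 * e (pos c) ⟨c, rfl⟩ ω)) := by
      intro j
      rw [hsum (pos c) a h, hsum (pos c) c rfl, Real.sq_sqrt (hlam j)]
      ring
    simp only [h2]
    rw [h1]
    by_cases hac : a = c
    · subst hac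
      rw [if_pos rfl, if_pos rfl]
    · rw [if_neg hac, if_neg (fun h' => hac (congrArg Subtype.val h'))]

/-- A site over pairs of bits splits into two sites over one bit. -/
theorem two_bit (s : Site Ω G2) : ∃ s1 s2 : Site Ω (Fin 2),
    EH s1 + EH s2 ≤ s.E ff ∧ cc s1 + cc s2 = cc s := by
  classical
  obtain ⟨w1, g1, ho, hg0, hsupp, hdiag⟩ :=
    exists_adapted (fun ω => (s.pos ω).1) s.u s.lam s.lam_nonneg
  -- first bit
  let s1 : Site Ω (Fin 2) :=
    { pos := fun ω => (s.pos ω).1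
      u := s.u
      w := w1
      lam := s.lam
      g := g1
      lab := fun c => (s.pos c).1
      u_orth := s.u_orth
      w_orth := ho
      lam_nonneg := s.lam_nonneg
      lam_sum := s.lam_sum
      w_supp := hsupp
      w_diag := hdiag }
  have hg1 : ∑ c, g1 c = 1 := Pool.Agent.H235R2.QLP.g_sum s1
  -- the state after dephasing the first bit
  have hform : ∀ φ φ' : Ω → ℝ, (∀ ω ω', (s.pos ω).1 ≠ (s.pos ω').1 → φ ω * φ' ω' = 0) →
      ∑ a, g1 a * (∑ ω, w1 a ω * φ ω) * (∑ ω, w1 a ω * φ' ω) =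
        ∑ j, s.lam j * (∑ ω, s.u j ω * φ ω) * (∑ ω, s.u j ω * φ' ω) := by
    intro φ φ' hφ
    have h1 : ∀ j, s.lam j * (∑ ω, s.u j ω * φ ω) * (∑ ω, s.u j ω * φ' ω) =
        ∑ m, ∑ m', (∑ ω, w1 m ω * φ ω) * (∑ ω, w1 m' ω * φ' ω) *
          (s.lam j * (∑ ω, s.u j ω * w1 m ω) * (∑ ω, s.u j ω * w1 m' ω)) := by
      intro j
      rw [← Pool.Agent.H390R2.LP.parseval w1 ho (s.u j) φ,
        ← Pool.Agent.H390R2.LP.parseval w1 ho (s.u j) φ', mul_assoc, Finset.sum_mul_sum,
        Finset.mul_sum]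
      refine Finset.sum_congr rfl fun m _ => ?_
      rw [Finset.mul_sum]
      refine Finset.sum_congr rfl fun m' _ => ?_
      have c1 : ∑ ω, φ ω * w1 m ω = ∑ ω, w1 m ω * φ ω :=
        Finset.sum_congr rfl fun _ _ => mul_comm _ _
      have c2 : ∑ ω, φ' ω * w1 m' ω = ∑ ω, w1 m' ω * φ' ω :=
        Finset.sum_congr rfl fun _ _ => mul_comm _ _
      rw [c1, c2]
      ring
    simp only [h1]
    rw [Finset.sum_comm]
    refine Finset.sum_congr rfl fun m _ => ?_
    rw [Finset.sum_comm]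
    have h4 : ∀ m', ∑ j, (∑ ω, w1 m ω * φ ω) * (∑ ω, w1 m' ω * φ' ω) *
        (s.lam j * (∑ ω, s.u j ω * w1 m ω) * (∑ ω, s.u j ω * w1 m' ω)) =
        (∑ ω, w1 m ω * φ ω) * (∑ ω, w1 m' ω * φ' ω) *
        ∑ j, s.lam j * (∑ ω, s.u j ω * w1 m ω) * (∑ ω, s.u j ω * w1 m' ω) := fun m' =>
      (Finset.mul_sum _ _ _).symm
    rw [Finset.sum_congr rfl fun m' _ => h4 m']
    symm
    rw [Finset.sum_eq_single m]
    · have h2 := hdiag m m rfl
      rw [if_pos rfl] at h2
      rw [h2]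
      ring
    · intro m' _ hm
      by_cases hp : (s.pos m).1 = (s.pos m').1
      · rw [hdiag m m' hp, if_neg (Ne.symm hm), mul_zero]
      · have h3 : (∑ ω, w1 m ω * φ ω) * (∑ ω, w1 m' ω * φ' ω) = 0 := by
          rw [Finset.sum_mul_sum]
          refine Finset.sum_eq_zero fun ω _ => Finset.sum_eq_zero fun ω' _ => ?_
          by_cases e1 : (s.pos ω).1 = (s.pos m).1
          · by_cases e2 : (s.pos ω').1 = (s.pos m').1
            · have := hφ ω ω' (by rw [e1, e2]; exact hp)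
              linear_combination (w1 m ω * w1 m' ω') * this
            · rw [hsupp m' ω' e2]; ring
          · rw [hsupp m ω e1]; ring
        rw [h3, zero_mul]
    · intro h; exact absurd (Finset.mem_univ m) h
  let s2 : Site Ω (Fin 2) :=
    { pos := fun ω => (s.pos ω).2
      u := w1
      w := s.w
      lam := g1
      g := s.g
      lab := fun c => (s.lab c).2
      u_orth := ho
      w_orth := s.w_orth
      lam_nonneg := hg0
      lam_sum := hg1
      w_supp := by
        intro c ω h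
        exact s.w_supp c ω (fun h' => h (by rw [h']))
      w_diag := by
        intro c c' h
        by_cases hl : (s.lab c).1 = (s.lab c').1
        · rw [hform (s.w c) (s.w c') ?_]
          · exact s.w_diag c c' (Prod.ext hl h)
          · intro ω ω' hne
            by_cases e1 : s.pos ω = s.lab c
            · by_cases e2 : s.pos ω' = s.lab c'
              · exact absurd (by rw [e1, e2]; exact hl) hne
              · rw [s.w_supp c' ω' e2, mul_zero]
            · rw [s.w_supp c ω e1, zero_mul]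
        · rw [if_neg (fun e => hl (by rw [e]))]
          refine Finset.sum_eq_zero fun a _ => ?_
          have h3 : (∑ ω, w1 a ω * s.w c ω) * (∑ ω, w1 a ω * s.w c' ω) = 0 := by
            rw [Finset.sum_mul_sum]
            refine Finset.sum_eq_zero fun ω _ => Finset.sum_eq_zero fun ω' _ => ?_
            by_cases e1 : s.pos ω = s.lab c
            · by_cases e2 : s.pos ω' = s.lab c'
              · by_cases e3 : (s.pos ω).1 = (s.pos a).1
                · have e4 : (s.pos ω').1 ≠ (s.pos a).1 := by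
                    intro e5
                    apply hl
                    rw [← e1, ← e2, e3, e5]
                  rw [hsupp a ω' e4]; ring
                · rw [hsupp a ω e3]; ring
              · rw [s.w_supp c' ω' e2]; ring
            · rw [s.w_supp c ω e1]; ring
          rw [mul_assoc, h3, mul_zero] }
  refine ⟨s1, s2, ?_, ?_⟩
  · rw [← site_E_sg s1, ← site_E_sg s2]
    unfold Site.E
    rw [Fin.sum_univ_two]
    simp only [Finset.univ_unique, Finset.sum_singleton]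
    have f0 : ∀ x : G2, ff 0 x = Pool.Agent.TH753.MB.sg x.1 / 2 := by
      intro x
      unfold ff Pool.Agent.TH753.MB.sg
      rw [if_pos rfl]
      split_ifs <;> norm_num
    have f1 : ∀ x : G2, ff 1 x = Pool.Agent.TH753.MB.sg x.2 / 2 := by
      intro x
      unfold ff Pool.Agent.TH753.MB.sg
      have h1 : (1 : Fin 2) ≠ 0 := by norm_num
      simp only [if_neg h1]
      split_ifs <;> norm_num
    have hquart : ∀ (v : Ω → Ω → ℝ) (l : Ω → ℝ) (f : Ω → ℝ), (∀ ω, f ω ^ 2 = 1 / 4) →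
        (∀ a b, ∑ ω, v a ω * v b ω = if a = b then 1 else 0) → ∑ a, l a = 1 →
        ∑ a, l a * ∑ ω, v a ω ^ 2 * f ω ^ 2 = 1 / 4 := by
      intro v l f hf hv hl
      have h1 : ∀ a, l a * ∑ ω, v a ω ^ 2 * f ω ^ 2 = l a * (1 / 4) := by
        intro a
        have h2 := hv a a
        rw [if_pos rfl] at h2
        simp only [hf]
        rw [← Finset.sum_mul]
        have h3 : ∑ ω, v a ω ^ 2 = 1 := by
          rw [← h2]; exact Finset.sum_congr rfl fun ω _ => by ring
        rw [h3, one_mul]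
      simp only [h1]
      rw [← Finset.sum_mul, hl, one_mul]
    have hsq : ∀ x : Fin 2, (Pool.Agent.TH753.MB.sg x / 2) ^ 2 = 1 / 4 := by
      intro x
      have := sg_mul_self x
      linear_combination this / 4
    have q1 := hquart s.u s.lam (fun ω => Pool.Agent.TH753.MB.sg (s.pos ω).1 / 2)
      (fun ω => hsq _) s.u_orth s.lam_sum
    have q2 := hquart s.u s.lam (fun ω => Pool.Agent.TH753.MB.sg (s.pos ω).2 / 2)
      (fun ω => hsq _) s.u_orth s.lam_sum
    have q3 := hquart w1 g1 (fun ω => Pool.Agent.TH753.MB.sg (s.pos ω).2 / 2)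
      (fun ω => hsq _) ho hg1
    simp only [f0, f1]
    show 2 * (∑ a, s.lam a * ∑ ω, s.u a ω ^ 2 * (Pool.Agent.TH753.MB.sg (s.pos ω).1 / 2) ^ 2 -
        ∑ a, ∑ b, √(s.lam a * s.lam b) *
          (∑ ω, s.u a ω * (Pool.Agent.TH753.MB.sg (s.pos ω).1 / 2) * s.u b ω) ^ 2) +
      2 * (∑ a, g1 a * ∑ ω, w1 a ω ^ 2 * (Pool.Agent.TH753.MB.sg (s.pos ω).2 / 2) ^ 2 -
        ∑ a, ∑ b, √(g1 a * g1 b) *
          (∑ ω, w1 a ω * (Pool.Agent.TH753.MB.sg (s.pos ω).2 / 2) * w1 b ω) ^ 2) ≤ _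
    rw [q1, q2, q3]
    have key := wy (fun (j k : Ω) => ∑ ω, s.u j ω * w1 k ω) (fun j l => by
        rw [Pool.Agent.H390R2.LP.parseval w1 ho]
        exact s.u_orth j l) (fun j => √(s.lam j)) (fun j => Real.sqrt_nonneg _)
      (fun k => √(g1 k)) (fun k => Real.sqrt_nonneg _) (fun k => (s.pos k).1)
      (fun k k' h => by
        simp only [Real.sq_sqrt (s.lam_nonneg _), Real.sq_sqrt (hg0 _)]
        rw [← hdiag k k' h]
        exact Finset.sum_congr rfl fun a _ => by ring)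
      (fun k k' => ∑ ω, w1 k ω * (Pool.Agent.TH753.MB.sg (s.pos ω).2 / 2) * w1 k' ω)
      (fun k k' h => Finset.sum_eq_zero fun ω _ => by
        by_cases e1 : (s.pos ω).1 = (s.pos k).1
        · rw [hsupp k' ω (by rw [e1]; exact h), mul_zero]
        · rw [hsupp k ω e1]; ring)
    have hl : ∀ j l, ∑ k, ∑ k', (∑ ω, s.u j ω * w1 k ω) *
        (∑ ω, w1 k ω * (Pool.Agent.TH753.MB.sg (s.pos ω).2 / 2) * w1 k' ω) *
        (∑ ω, s.u l ω * w1 k' ω) =
        ∑ ω, s.u j ω * (Pool.Agent.TH753.MB.sg (s.pos ω).2 / 2) * s.u l ω := by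
      intro j l
      have e1 : ∀ k, ∑ k', (∑ ω, s.u j ω * w1 k ω) *
          (∑ ω, w1 k ω * (Pool.Agent.TH753.MB.sg (s.pos ω).2 / 2) * w1 k' ω) *
          (∑ ω, s.u l ω * w1 k' ω) = (∑ ω, s.u j ω * w1 k ω) *
          ∑ ω, ((Pool.Agent.TH753.MB.sg (s.pos ω).2 / 2) * s.u l ω) * w1 k ω := by
        intro k
        have e2 := Pool.Agent.H390R2.LP.parseval w1 ho
          (fun ω => w1 k ω * (Pool.Agent.TH753.MB.sg (s.pos ω).2 / 2)) (s.u l)
        simp only [mul_assoc (∑ ω, s.u j ω * w1 k ω)]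
        rw [← Finset.mul_sum, e2]
        congr 1
        exact Finset.sum_congr rfl fun ω _ => by ring
      simp only [e1]
      rw [Pool.Agent.H390R2.LP.parseval w1 ho]
      exact Finset.sum_congr rfl fun ω _ => by ring
    simp only [hl] at key
    have hs1 : ∀ a b, √(s.lam a * s.lam b) = √(s.lam a) * √(s.lam b) := fun a b =>
      Real.sqrt_mul (s.lam_nonneg a) _
    have hs2 : ∀ a b, √(g1 a * g1 b) = √(g1 a) * √(g1 b) := fun a b =>
      Real.sqrt_mul (hg0 a) _
    simp only [hs1, hs2]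
    linarith
  · unfold cc
    show (∑ c, Real.negMulLog (g1 c) - ∑ a, Real.negMulLog (s.lam a)) +
      (∑ c, Real.negMulLog (s.g c) - ∑ a, Real.negMulLog (g1 a)) = _
    unfold Site.h Site.S
    ring

end Pool.Agent.H712.NI
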