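import Pool.Agent.H712.NI.TypeCore3

/-! Bound for sets of words of one composition: asymptotic form. -/

open Finset Filter

namespace Pool.Agent.H712.NI

open Pool.Agent.H390R2.LP

lemma eventually_div_le (A ε : ℝ) (hε : 0 < ε) : ∀ᶠ n : ℕ in atTop, A / n ≤ ε := by
  have h : Tendsto (fun n : ℕ => A / (n : ℝ)) atTop (nhds 0) :=
    tendsto_const_div_atTop_nhds_zero_nat A
  exact (h.eventually_lt_const hε).mono fun n hn => hn.le

lemma eventually_log_le (A B C ε : ℝ) (hA : 0 < A) (hε : 0 < ε) :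
    ∀ᶠ n : ℕ in atTop, C * Real.log (A * n + B) ≤ ε * n := by
  have h1 := Real.tendsto_pow_log_div_mul_add_atTop (1 / A) (-(B / A)) 1 (by positivity)
  have h2 : Tendsto (fun n : ℕ => A * (n : ℝ) + B) atTop atTop :=
    tendsto_atTop_add_const_right _ _
      ((tendsto_natCast_atTop_atTop).const_mul_atTop hA)
  have h3 := h1.comp h2
  have h4 : Tendsto (fun n : ℕ => C * (Real.log (A * n + B) / n)) atTop (nhds (C * 0)) := by
    refine Tendsto.const_mul C (h3.congr' ?_)
    filter_upwards with n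
    simp only [Function.comp_apply, pow_one]
    congr 1
    field_simp
    ring
  rw [mul_zero] at h4
  filter_upwards [h4.eventually_lt_const hε, eventually_ge_atTop 1] with n hn hn1
  have hnR : (0 : ℝ) < n := by exact_mod_cast hn1
  have h5 : C * (Real.log (A * n + B) / n) = C * Real.log (A * n + B) / n := by ring
  rw [h5, div_lt_iff₀ hnR] at hn
  exact hn.le

variable {Ω X I Cl : Type} [Fintype Ω] [DecidableEq Ω] [Fintype X] [DecidableEq X]
    [Fintype I] [Fintype Cl] [DecidableEq Cl]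

theorem type_bound (f : I → X → ℝ) (Em : ℝ) (hEm : 0 ≤ Em) (F : (X → ℝ) → ℝ)
    (hFc : Continuous F) (hF : ∀ (t : ℝ) (m : X → ℝ), 0 ≤ t → F (fun x => t * m x) = t * F m)
    (hlaw : ∀ P : X → ℝ, (∀ x, 0 ≤ P x) → ∑ x, P x = 1 → ∃ s : Site Ω X, (∀ x, s.P x = P x) ∧
      s.E f ≤ Em ∧ ∑ x, Real.negMulLog (P x) - (s.h - s.S) ≤ F P)
    (ε : ℝ) (hε : 0 < ε) : ∃ n0 : ℕ, ∀ n, n0 ≤ n → ∀ (c : Fin n → Cl)
    (S : Finset (Fin n → X)) (a : Cl × X → ℕ), S.Nonempty → (∀ x ∈ S, cmp c x = a) →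
    ∀ d : ℝ, n * (Em + ε) ≤ d →
    (∀ x ∈ S, ∀ y ∈ S, x ≠ y → d ≤ ∑ k, ∑ i, (f i (x k) - f i (y k)) ^ 2) →
    Real.log S.card ≤ ∑ κ, F (fun z => (a (κ, z) : ℝ)) + n * ε := by
  classical
  by_cases hX : Nonempty X
  swap
  · refine ⟨1, fun n hn c S a hS => ?_⟩
    obtain ⟨x, _⟩ := hS
    exact absurd ⟨x ⟨0, by omega⟩⟩ hX
  choose s hs1 hs2 hs3 using hlaw
  set q : ℝ := (Fintype.card (Cl × X) : ℝ) with hq
  have hq0 : 0 ≤ q := Nat.cast_nonneg _
  set cX : ℝ := (Fintype.card X : ℝ) with hcX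
  have hcX1 : (1 : ℝ) ≤ cX := by
    rw [hcX]; exact_mod_cast Fintype.card_pos_iff.mpr hX
  set cC : ℝ := (Fintype.card Cl : ℝ) with hcC
  have hcC0 : 0 ≤ cC := Nat.cast_nonneg _
  -- small parameters
  set ε1 : ℝ := ε / (4 * (2 + 3 * Em + 2 * ε)) with hε1
  have hden : 0 < 4 * (2 + 3 * Em + 2 * ε) := by positivity
  have hε1p : 0 < ε1 := by positivity
  have hε1m : ε1 * (4 * (2 + 3 * Em + 2 * ε)) = ε := by rw [hε1]; field_simp
  have hε1a : ε1 ≤ 1 / 8 := by
    rw [hε1, div_le_iff₀ hden]; nlinarith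
  have hε1b : 2 * ε1 ≤ ε / 4 := by
    nlinarith [mul_nonneg hε1p.le hEm, mul_nonneg hε1p.le hε.le]
  set ε2 : ℝ := ε / (4 * (cC + 1)) with hε2
  have hε2p : 0 < ε2 := by positivity
  have hε2m : cC * ε2 ≤ ε / 4 := by
    rw [hε2, ← mul_div_assoc, div_le_div_iff₀ (by positivity) (by norm_num)]
    nlinarith
  -- uniform continuity
  have hcomp : IsCompact (Set.pi Set.univ (fun _ : X => Set.Icc (0 : ℝ) 3)) :=
    isCompact_univ_pi fun _ => isCompact_Icc
  obtain ⟨δF, hδF, hunif⟩ := Metric.uniformContinuousOn_iff.mp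
    (hcomp.uniformContinuousOn_of_continuous hFc.continuousOn) ε2 hε2p
  -- choice of the grid
  obtain ⟨K0, hK1, hK2, hK3, hK4⟩ : ∃ K0 : ℕ, 0 < K0 ∧ 2 / (K0 : ℝ) ≤ min (δF / 4) 1 ∧
      2 * q / (K0 : ℝ) ≤ ε1 / 2 ∧ q * Real.log (cX * K0 + cX * 3) ≤ ε / 8 * K0 := by
    obtain ⟨K0, h1⟩ := (((eventually_div_le 2 (min (δF / 4) 1) (by positivity)).and
      (eventually_div_le (2 * q) (ε1 / 2) (by positivity))).and
      ((eventually_log_le cX (cX * 3) q (ε / 8) (by positivity) (by positivity)).and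
      (eventually_gt_atTop 0))).exists
    exact ⟨K0, h1.2.2, h1.1.1, h1.1.2, h1.2.1⟩
  have hK0R : (0 : ℝ) < K0 := by exact_mod_cast hK1
  obtain ⟨n1, hn1⟩ := type_core (Cl := Cl) K0 hK1
    (fun r => s (law r) (fun x => (law_pos r x).le) (law_sum r)) f Em F
    (fun r x => hs1 _ _ _ x) (fun r => hs2 _ _ _) (fun r => hs3 _ _ _) hF ε1 hε1p
  obtain ⟨n2, hn2⟩ := eventually_atTop.mp
    ((((eventually_div_le (K0 + 2) (min (δF / 4) (1 / 2)) (by positivity)).and
      (eventually_div_le (q * (K0 + 2)) (ε1 / 2) (by positivity))).and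
      ((eventually_div_le (q * Real.log (cX * K0 + cX * 3)) (ε / 8) (by positivity)).and
      (eventually_log_le 2 1 q (ε / 8) (by norm_num) (by positivity)))).and
      ((eventually_div_le (q * (2 * K0 ^ 2)) ε1 hε1p).and (eventually_gt_atTop 0)))
  refine ⟨max n1 n2, fun n hn c S a hS hcmp d hd hdist => ?_⟩
  obtain ⟨⟨⟨e1, e2⟩, e3, e4⟩, e5, e6⟩ := hn2 n (le_trans (le_max_right _ _) hn)
  have hnR : (0 : ℝ) < n := by exact_mod_cast e6
  obtain ⟨x0, hx0⟩ := hS
  have hale : ∀ p, a p ≤ n := by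
    intro p
    rw [← hcmp x0 hx0]
    have := cmp_le c x0 p
    rwa [Fintype.card_fin] at this
  have hasum : ∑ p, a p = n := by
    rw [← hcmp x0 hx0, sum_cmp, Fintype.card_fin]
  have hd0 : 0 ≤ d := le_trans (by positivity) hd
  have hcore := hn1 n (le_trans (le_max_left _ _) hn) e6 c S a ⟨x0, hx0⟩ hcmp d hd0 hdist
  set u : ℕ := uu K0 n with hu
  set N : ℝ := ((∑ p, tq K0 n a p * u : ℕ) : ℝ) with hN
  have huR : (u : ℝ) ≤ n / K0 + 1 := by
    rw [hu]; unfold uu
    push_cast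
    have : ((n / K0 : ℕ) : ℝ) ≤ n / K0 := Nat.cast_div_le
    linarith
  have huR2 : (n : ℝ) / K0 ≤ u := by
    rw [div_le_iff₀ hK0R, hu]
    unfold uu
    have h2 : n < (n / K0 + 1) * K0 := Nat.lt_mul_of_div_lt (by omega) hK1
    exact_mod_cast h2.le
  have huR0 : (0 : ℝ) < u := lt_of_lt_of_le (by positivity) huR2
  have hNn : (n : ℝ) ≤ N := by
    have h1 : n ≤ ∑ p, tq K0 n a p * u := by
      conv_lhs => rw [← hasum]
      refine Finset.sum_le_sum fun p _ => ?_
      have := tq_ge K0 n hK1 e6 a p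
      rw [hu]
      omega
    rw [hN]; exact_mod_cast h1
  have hN1 : N ≤ n * (1 + ε1) := by
    have h1 : N ≤ ∑ p : Cl × X, ((a p : ℝ) + (2 * n / K0 + K0 + 2)) := by
      rw [hN]
      rw [Nat.cast_sum]
      refine Finset.sum_le_sum fun p _ => ?_
      have := tq_le K0 n hK1 e6 a p (hale p)
      rw [hu]
      linarith
    have h2 : ∑ p : Cl × X, ((a p : ℝ) + (2 * n / K0 + K0 + 2)) =
        n + q * (2 * n / K0 + K0 + 2) := by
      rw [Finset.sum_add_distrib, Finset.sum_const, Finset.card_univ, nsmul_eq_mul]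
      congr 1
      exact_mod_cast hasum
    rw [h2] at h1
    have h3 : q * (2 * n / K0 + K0 + 2) ≤ n * ε1 := by
      have h4 : q * (2 * n / K0) = n * (2 * q / K0) := by ring
      rw [div_le_iff₀ hnR] at e2
      have h5 := mul_le_mul_of_nonneg_left hK3 hnR.le
      nlinarith
    linarith
  have hN2 : N ≤ 2 * n := by nlinarith
  have hN0 : 0 ≤ N := hnR.le.trans hNn
  have H1 : q * (N / (u : ℝ) ^ 2) ≤ ε1 := by
    have h1 : N / (u : ℝ) ^ 2 ≤ 2 * K0 ^ 2 / n := by
      have h2 : ((n : ℝ) / K0) ^ 2 ≤ (u : ℝ) ^ 2 := pow_le_pow_left₀ (by positivity) huR2 2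
      calc N / (u : ℝ) ^ 2 ≤ 2 * n / ((n : ℝ) / K0) ^ 2 :=
            div_le_div₀ (by positivity) hN2 (by positivity) h2
        _ = 2 * K0 ^ 2 / n := by field_simp
    calc q * (N / (u : ℝ) ^ 2) ≤ q * (2 * K0 ^ 2 / n) := mul_le_mul_of_nonneg_left h1 hq0
      _ = q * (2 * K0 ^ 2) / n := by ring
      _ ≤ ε1 := e5
  have H2 : N * (Em + ε1) < d * (1 - 2 * ε1) := by
    have h1 : N * (Em + ε1) ≤ n * (1 + ε1) * (Em + ε1) :=
      mul_le_mul_of_nonneg_right hN1 (by positivity)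
    have h2 : n * (Em + ε) * (1 - 2 * ε1) ≤ d * (1 - 2 * ε1) :=
      mul_le_mul_of_nonneg_right hd (by linarith)
    have h3 : (1 + ε1) * (Em + ε1) < (Em + ε) * (1 - 2 * ε1) := by nlinarith
    have h4 := mul_lt_mul_of_pos_left h3 hnR
    nlinarith
  have key := hcore H1 H2
  -- estimate the terms
  have t1 : q * Real.log (N + 1) ≤ ε / 8 * n := by
    refine le_trans ?_ e4
    refine mul_le_mul_of_nonneg_left ?_ hq0
    exact Real.log_le_log (by positivity) (by linarith)
  have t2 : (u : ℝ) * (q * Real.log (cX * (K0 + 3))) ≤ ε / 4 * n := by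
    have h0 : cX * ((K0 : ℝ) + 3) = cX * K0 + cX * 3 := by ring
    rw [h0]
    have hl0 : 0 ≤ q * Real.log (cX * K0 + cX * 3) := by
      refine mul_nonneg hq0 (Real.log_nonneg ?_)
      nlinarith
    rw [div_le_iff₀ hnR] at e3
    calc (u : ℝ) * (q * Real.log (cX * K0 + cX * 3))
        ≤ (n / K0 + 1) * (q * Real.log (cX * K0 + cX * 3)) :=
          mul_le_mul_of_nonneg_right huR hl0
      _ = n / K0 * (q * Real.log (cX * K0 + cX * 3)) +
          q * Real.log (cX * K0 + cX * 3) := by ring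
      _ ≤ n / K0 * (ε / 8 * K0) + ε / 8 * n :=
          add_le_add (mul_le_mul_of_nonneg_left hK4 (by positivity)) e3
      _ = ε / 4 * n := by field_simp; ring
  have t3 : ∑ κ, F (fun z => (tq K0 n a (κ, z) : ℝ) * u) ≤
      ∑ κ, F (fun z => (a (κ, z) : ℝ)) + ε / 4 * n := by
    have h1 : ∀ κ, F (fun z => (tq K0 n a (κ, z) : ℝ) * u) ≤
        F (fun z => (a (κ, z) : ℝ)) + n * ε2 := by
      intro κ
      have g1 : F (fun z => (tq K0 n a (κ, z) : ℝ) * u) =
          n * F (fun z => (tq K0 n a (κ, z) : ℝ) * u / n) := by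
        rw [← hF _ _ hnR.le]
        congr 1
        funext z
        field_simp
      have g2 : F (fun z => (a (κ, z) : ℝ)) = n * F (fun z => (a (κ, z) : ℝ) / n) := by
        rw [← hF _ _ hnR.le]
        congr 1
        funext z
        field_simp
      have b1 : ∀ z, (a (κ, z) : ℝ) / n ≤ 1 := fun z => by
        rw [div_le_one hnR]; exact_mod_cast hale _
      have b2 : ∀ z, (a (κ, z) : ℝ) / n ≤ (tq K0 n a (κ, z) : ℝ) * u / n := fun z => by
        refine div_le_div_of_nonneg_right ?_ hnR.le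
        have := tq_ge K0 n hK1 e6 a (κ, z)
        rw [← hu] at this
        have h5 : a (κ, z) ≤ tq K0 n a (κ, z) * u := by omega
        exact_mod_cast h5
      have b3 : ∀ z, (tq K0 n a (κ, z) : ℝ) * u / n ≤
          (a (κ, z) : ℝ) / n + (2 / K0 + (K0 + 2) / n) := fun z => by
        have := tq_le K0 n hK1 e6 a (κ, z) (hale _)
        rw [← hu] at this
        push_cast at this
        rw [div_le_iff₀ hnR]
        refine this.trans (le_of_eq ?_)
        field_simp
        ring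
      have hsm : 2 / (K0 : ℝ) + (K0 + 2) / n ≤ δF / 2 := by
        have := le_min_iff.mp hK2
        have := le_min_iff.mp e1
        linarith [(le_min_iff.mp hK2).1, (le_min_iff.mp e1).1]
      have hsm2 : 2 / (K0 : ℝ) + (K0 + 2) / n ≤ 3 / 2 := by
        linarith [(le_min_iff.mp hK2).2, (le_min_iff.mp e1).2]
      have m1 : (fun z => (tq K0 n a (κ, z) : ℝ) * u / n) ∈
          Set.pi Set.univ (fun _ : X => Set.Icc (0 : ℝ) 3) := by
        rw [Set.mem_univ_pi]
        intro z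
        constructor
        · positivity
        · have := b3 z; have := b1 z; linarith
      have m2 : (fun z => (a (κ, z) : ℝ) / n) ∈
          Set.pi Set.univ (fun _ : X => Set.Icc (0 : ℝ) 3) := by
        rw [Set.mem_univ_pi]
        intro z
        constructor
        · positivity
        · have := b1 z; linarith
      have hdd : dist (fun z => (tq K0 n a (κ, z) : ℝ) * u / n)
          (fun z => (a (κ, z) : ℝ) / n) < δF := by
        rw [dist_pi_lt_iff hδF]
        intro z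
        rw [Real.dist_eq, abs_of_nonneg (by have := b2 z; linarith)]
        have := b3 z
        linarith
      have h6 := hunif _ m1 _ m2 hdd
      rw [Real.dist_eq] at h6
      have h7 := (abs_lt.mp h6).2
      rw [g1, g2]
      nlinarith
    calc _ ≤ ∑ κ, (F (fun z => (a (κ, z) : ℝ)) + n * ε2) := Finset.sum_le_sum fun κ _ => h1 κ
      _ = ∑ κ, F (fun z => (a (κ, z) : ℝ)) + cC * (n * ε2) := by
          rw [Finset.sum_add_distrib, Finset.sum_const, Finset.card_univ, nsmul_eq_mul]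
      _ ≤ _ := by nlinarith
  have t4 : N * ε1 ≤ ε / 4 * n := by nlinarith
  have hfin : Real.log S.card ≤ q * Real.log (N + 1) +
      (u : ℝ) * (q * Real.log (cX * (K0 + 3))) +
      ∑ κ, F (fun z => (tq K0 n a (κ, z) : ℝ) * u) + N * ε1 := key
  nlinarith

end Pool.Agent.H712.NI
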