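import Pool.Agent.H712.NI.OneShot

/-! Bound for sets of words of one composition: the finite inequality. -/

open Finset

namespace Pool.Agent.H712.NI

open Pool.Agent.H390R2.LP

section law
variable {X : Type} [Fintype X] [Nonempty X] {K0 : ℕ}

/-- the law with weights `r + 1` -/
noncomputable def law (r : X → Fin (K0 + 3)) (x : X) : ℝ :=
  ((r x : ℕ) + 1 : ℝ) / ∑ y, (((r y : ℕ) : ℝ) + 1)

lemma law_den_pos (r : X → Fin (K0 + 3)) : 0 < ∑ y, (((r y : ℕ) : ℝ) + 1) :=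
  Finset.sum_pos (fun _ _ => by positivity) Finset.univ_nonempty

lemma law_pos (r : X → Fin (K0 + 3)) (x : X) : 0 < law r x :=
  div_pos (by positivity) (law_den_pos r)

lemma law_sum (r : X → Fin (K0 + 3)) : ∑ x, law r x = 1 := by
  unfold law
  rw [← Finset.sum_div, div_self (law_den_pos r).ne']

lemma law_le_one (r : X → Fin (K0 + 3)) (x : X) : law r x ≤ 1 := by
  rw [← law_sum r]
  exact Finset.single_le_sum (fun y _ => (law_pos r y).le) (Finset.mem_univ x)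

lemma neg_log_law (r : X → Fin (K0 + 3)) (x : X) :
    -Real.log (law r x) ≤ Real.log (Fintype.card X * (K0 + 3)) := by
  have h1 := law_den_pos r
  have h2 : ∑ y, (((r y : ℕ) : ℝ) + 1) ≤ Fintype.card X * (K0 + 3) := by
    calc ∑ y, (((r y : ℕ) : ℝ) + 1) ≤ ∑ _y : X, ((K0 : ℝ) + 3) := by
          refine Finset.sum_le_sum fun y _ => ?_
          have h3 : (r y : ℕ) + 1 ≤ K0 + 3 := (r y).2
          exact_mod_cast h3
      _ = Fintype.card X * (K0 + 3) := by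
          rw [Finset.sum_const, Finset.card_univ, nsmul_eq_mul]
  unfold law
  rw [Real.log_div (by positivity) h1.ne']
  have h3 : 0 ≤ Real.log (((r x : ℕ) : ℝ) + 1) :=
    Real.log_nonneg (by have : (0 : ℝ) ≤ ((r x : ℕ) : ℝ) := Nat.cast_nonneg _; linarith)
  have h4 := Real.log_le_log h1 h2
  linarith

end law

variable {Ω X I Cl : Type} [Fintype Ω] [DecidableEq Ω] [Fintype X] [DecidableEq X]
    [Fintype I] [Fintype Cl] [DecidableEq Cl]

/-- unit of the grid -/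
def uu (K0 n : ℕ) : ℕ := n / K0 + 1

/-- rounded composition -/
def tq (K0 n : ℕ) (a : Cl × X → ℕ) (p : Cl × X) : ℕ := K0 * a p / n + 2

/-- its law index -/
def ri (K0 n : ℕ) (a : Cl × X → ℕ) (ha : ∀ p, a p ≤ n) (κ : Cl) : X → Fin (K0 + 3) := fun z =>
  ⟨K0 * a (κ, z) / n + 1, by
    have h1 : K0 * a (κ, z) / n ≤ K0 := by
      rcases Nat.eq_zero_or_pos n with h | h
      · rw [h]; simp
      · calc K0 * a (κ, z) / n ≤ K0 * n / n := Nat.div_le_div_right (Nat.mul_le_mul_left _ (ha _))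
          _ = K0 := Nat.mul_div_cancel _ h
    omega⟩

lemma tq_ge (K0 n : ℕ) (hK : 0 < K0) (hn : 0 < n) (a : Cl × X → ℕ) (p : Cl × X) :
    a p + uu K0 n ≤ tq K0 n a p * uu K0 n := by
  have hnR : (0 : ℝ) < n := by exact_mod_cast hn
  have hKR : (0 : ℝ) < K0 := by exact_mod_cast hK
  have h1 : (K0 * a p : ℕ) < (K0 * a p / n + 1) * n := Nat.lt_mul_of_div_lt (by omega) hn
  have h2 : n < (n / K0 + 1) * K0 := Nat.lt_mul_of_div_lt (by omega) hK
  have h1R : (K0 : ℝ) * a p ≤ ((K0 * a p / n : ℕ) + 1 : ℝ) * n := by exact_mod_cast h1.le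
  have h2R : (n : ℝ) ≤ ((n / K0 : ℕ) + 1 : ℝ) * K0 := by exact_mod_cast h2.le
  have hu : (0 : ℝ) < ((n / K0 : ℕ) + 1 : ℝ) := by positivity
  have key : (a p : ℝ) + ((n / K0 : ℕ) + 1 : ℝ) ≤
      ((K0 * a p / n : ℕ) + 2 : ℝ) * ((n / K0 : ℕ) + 1 : ℝ) := by
    have h3 : (a p : ℝ) ≤ ((K0 * a p / n : ℕ) + 1 : ℝ) * ((n / K0 : ℕ) + 1 : ℝ) := by
      have h4 : (K0 : ℝ) * a p ≤
          ((K0 * a p / n : ℕ) + 1 : ℝ) * (((n / K0 : ℕ) + 1 : ℝ) * K0) :=
        h1R.trans (mul_le_mul_of_nonneg_left h2R (by positivity))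
      have h5 : (K0 : ℝ) * a p ≤
          K0 * (((K0 * a p / n : ℕ) + 1 : ℝ) * ((n / K0 : ℕ) + 1 : ℝ)) := by
        calc (K0 : ℝ) * a p ≤ _ := h4
          _ = _ := by ring
      exact le_of_mul_le_mul_left h5 hKR
    nlinarith
  unfold tq uu
  exact_mod_cast key

lemma tq_le (K0 n : ℕ) (hK : 0 < K0) (hn : 0 < n) (a : Cl × X → ℕ) (p : Cl × X)
    (ha : a p ≤ n) :
    ((tq K0 n a p * uu K0 n : ℕ) : ℝ) ≤ a p + 2 * n / K0 + K0 + 2 := by
  have hnR : (0 : ℝ) < n := by exact_mod_cast hn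
  have hKR : (0 : ℝ) < K0 := by exact_mod_cast hK
  have haR : (a p : ℝ) ≤ n := by exact_mod_cast ha
  have h1 : ((K0 * a p / n : ℕ) : ℝ) ≤ K0 * a p / n := by
    have := Nat.cast_div_le (m := K0 * a p) (n := n) (α := ℝ)
    push_cast at this
    exact this
  have h2 : ((n / K0 : ℕ) : ℝ) ≤ n / K0 := Nat.cast_div_le
  have h3 : (0 : ℝ) ≤ ((K0 * a p / n : ℕ) : ℝ) := Nat.cast_nonneg _
  have h4 : (0 : ℝ) ≤ ((n / K0 : ℕ) : ℝ) := Nat.cast_nonneg _
  unfold tq uu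
  push_cast
  calc (((K0 * a p / n : ℕ) : ℝ) + 2) * (((n / K0 : ℕ) : ℝ) + 1)
      ≤ (K0 * a p / n + 2) * (n / K0 + 1) :=
        mul_le_mul (by linarith) (by linarith) (by positivity) (by positivity)
    _ = a p + 2 * n / K0 + K0 * a p / n + 2 := by field_simp; ring
    _ ≤ a p + 2 * n / K0 + K0 + 2 := by
        have : (K0 : ℝ) * a p / n ≤ K0 := by
          rw [div_le_iff₀ hnR]
          exact mul_le_mul_of_nonneg_left haR hKR.le
        linarith

end Pool.Agent.H712.NI
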