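import Pool.Agent.H712.NI.TypeCore

/-! Bound for sets of words of one composition: the finite inequality, second part. -/

open Finset

namespace Pool.Agent.H712.NI

open Pool.Agent.H390R2.LP

variable {X Cl : Type} [Fintype X] [DecidableEq X] [Fintype Cl] [DecidableEq Cl]

/-- number of padding positions -/
def m0 (K0 n : ℕ) (a : Cl × X → ℕ) (p : Cl × X) : ℕ := tq K0 n a p * uu K0 n - a p

/-- the extended positions -/
abbrev KK (K0 n : ℕ) (a : Cl × X → ℕ) := Fin n ⊕ Pad (m0 K0 n a)

/-- the extended classes -/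
def clx (K0 n : ℕ) (a : Cl × X → ℕ) (c : Fin n → Cl) : KK K0 n a → Cl :=
  Sum.elim c (fun q => q.1.1)

lemma card_pad (m : Cl × X → ℕ) : Fintype.card (Pad m) = ∑ p, m p := by
  rw [Fintype.card_sigma]
  simp

lemma sum_cmp {J : Type} [Fintype J] [DecidableEq J] (c : J → Cl) (x : J → X) :
    ∑ p, cmp c x p = Fintype.card J := by
  unfold cmp
  rw [← Finset.card_univ]
  exact (Finset.card_eq_sum_card_fiberwise (f := fun j => (c j, x j)) (t := univ)
    (fun _ _ => Finset.mem_univ _)).symm

lemma cmp_le {J : Type} [Fintype J] [DecidableEq J] (c : J → Cl) (x : J → X) (p : Cl × X) :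
    cmp c x p ≤ Fintype.card J := by
  unfold cmp
  exact Finset.card_le_univ _

lemma card_KK (K0 n : ℕ) (hK : 0 < K0) (hn : 0 < n) (a : Cl × X → ℕ) (ha : ∑ p, a p = n) :
    Fintype.card (KK K0 n a) = ∑ p, tq K0 n a p * uu K0 n := by
  rw [Fintype.card_sum, Fintype.card_fin, card_pad]
  have h1 : n + ∑ p, m0 K0 n a p = ∑ p, a p + ∑ p, m0 K0 n a p := by rw [ha]
  rw [h1, ← Finset.sum_add_distrib]
  refine Finset.sum_congr rfl fun p _ => ?_
  have := tq_ge K0 n hK hn a p
  unfold m0
  omega

lemma pad_class (m : Cl × X → ℕ) (κ : Cl) :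
    (univ.filter fun q : Pad m => q.1.1 = κ).card = ∑ z, m (κ, z) := by
  rw [Finset.card_eq_sum_card_fiberwise (f := fun q : Pad m => q.1.2) (t := univ)
    (fun _ _ => Finset.mem_univ _)]
  refine Finset.sum_congr rfl fun z _ => ?_
  have : ((univ.filter fun q : Pad m => q.1.1 = κ).filter fun q => q.1.2 = z) =
      (univ : Finset (Fin (m (κ, z)))).map ⟨fun i => (⟨(κ, z), i⟩ : Pad m), fun i j hij => by
        simpa using hij⟩ := by
    ext ⟨⟨κ', z'⟩, i⟩
    simp only [Finset.mem_filter, Finset.mem_univ, true_and, Finset.mem_map,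
      Function.Embedding.coeFn_mk]
    constructor
    · rintro ⟨h1, h2⟩
      subst h1; subst h2
      exact ⟨i, rfl⟩
    · rintro ⟨i', hi'⟩
      rw [Sigma.mk.injEq] at hi'
      obtain ⟨h1, h2⟩ := hi'
      rw [Prod.mk.injEq] at h1
      exact ⟨h1.1.symm, h1.2.symm⟩
  rw [this, Finset.card_map, Finset.card_univ, Fintype.card_fin]

lemma class_KK (K0 n : ℕ) (hK : 0 < K0) (hn : 0 < n) (a : Cl × X → ℕ) (c : Fin n → Cl) (κ : Cl)
    (hc : ∑ z, a (κ, z) = (univ.filter fun j => c j = κ).card) :
    (univ.filter fun k : KK K0 n a => clx K0 n a c k = κ).card =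
      ∑ z, tq K0 n a (κ, z) * uu K0 n := by
  rw [Finset.card_filter, Fintype.sum_sum_type]
  have h1 : ∑ j : Fin n, (if clx K0 n a c (Sum.inl j) = κ then 1 else 0) = ∑ z, a (κ, z) := by
    rw [hc, Finset.card_filter]; rfl
  have h2 : ∑ q : Pad (m0 K0 n a), (if clx K0 n a c (Sum.inr q) = κ then 1 else 0) =
      ∑ z, m0 K0 n a (κ, z) := by
    rw [← pad_class, Finset.card_filter]; rfl
  rw [h1, h2, ← Finset.sum_add_distrib]
  refine Finset.sum_congr rfl fun z _ => ?_
  have := tq_ge K0 n hK hn a (κ, z)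
  unfold m0
  omega

/-- product of the laws over the positions in terms of the composition -/
lemma log_prod_cmp {J : Type} [Fintype J] [DecidableEq J] (cl : J → Cl) (P : Cl → X → ℝ)
    (hP : ∀ κ z, 0 < P κ z) (y : J → X) :
    ∏ k, P (cl k) (y k) = Real.exp (∑ p : Cl × X, cmp cl y p * Real.log (P p.1 p.2)) := by
  have h1 : ∑ p : Cl × X, (cmp cl y p : ℝ) * Real.log (P p.1 p.2) =
      ∑ k, Real.log (P (cl k) (y k)) := by
    have h2 : ∑ k, Real.log (P (cl k) (y k)) = ∑ p : Cl × X,
        ∑ k ∈ univ.filter (fun k => (cl k, y k) = p), Real.log (P (cl k) (y k)) :=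
      (Finset.sum_fiberwise _ _ _).symm
    rw [h2]
    refine Finset.sum_congr rfl fun p _ => ?_
    unfold cmp
    rw [← nsmul_eq_mul, ← Finset.sum_const]
    refine Finset.sum_congr rfl fun k hk => ?_
    rw [← (Finset.mem_filter.mp hk).2]
  rw [h1, Real.exp_sum]
  exact Finset.prod_congr rfl fun k _ => (Real.exp_log (hP _ _)).symm

/-- size of a composition class -/
lemma card_class_le {J : Type} [Fintype J] [DecidableEq J] (cl : J → Cl) (P : Cl → X → ℝ)
    (hP : ∀ κ z, 0 < P κ z) (hP1 : ∀ κ, ∑ z, P κ z = 1) (b : Cl × X → ℕ) :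
    ((univ.filter fun y : J → X => cmp cl y = b).card : ℝ) ≤
      Real.exp (-∑ p : Cl × X, b p * Real.log (P p.1 p.2)) := by
  have h1 : ∑ y : J → X, ∏ k, P (cl k) (y k) = 1 := by
    rw [← Fintype.prod_sum (fun k z => P (cl k) z)]
    exact Finset.prod_eq_one fun k _ => hP1 _
  have h2 : ∑ y ∈ univ.filter (fun y : J → X => cmp cl y = b), ∏ k, P (cl k) (y k) ≤ 1 := by
    rw [← h1]
    exact Finset.sum_le_sum_of_subset_of_nonneg (Finset.filter_subset _ _)
      fun y _ _ => Finset.prod_nonneg fun k _ => (hP _ _).le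
  have h3 : ∑ y ∈ univ.filter (fun y : J → X => cmp cl y = b), ∏ k, P (cl k) (y k) =
      ((univ.filter fun y : J → X => cmp cl y = b).card : ℝ) *
        Real.exp (∑ p : Cl × X, b p * Real.log (P p.1 p.2)) := by
    rw [← nsmul_eq_mul, ← Finset.sum_const]
    refine Finset.sum_congr rfl fun y hy => ?_
    rw [log_prod_cmp cl P hP, (Finset.mem_filter.mp hy).2]
  rw [h3] at h2
  rw [Real.exp_neg, ← one_div, le_div_iff₀ (Real.exp_pos _)]
  exact h2

/-- the mass of words of atypical composition -/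
lemma atypical {J : Type} [Fintype J] [DecidableEq J] (cl : J → Cl) (P : Cl → X → ℝ)
    (hP : ∀ κ z, 0 ≤ P κ z) (hP1 : ∀ κ, ∑ z, P κ z = 1) (μ : Cl × X → ℝ)
    (hμ : ∀ p : Cl × X, ((univ.filter fun k => cl k = p.1).card : ℝ) * P p.1 p.2 = μ p)
    (u : ℝ) (hu : 0 < u) :
    ∑ y ∈ univ.filter (fun y : J → X => ¬ ∀ p, |(cmp cl y p : ℝ) - μ p| ≤ u),
      ∏ k, P (cl k) (y k) ≤ Fintype.card (Cl × X) * (Fintype.card J / u ^ 2) := by
  classical
  have hone : ∀ p : Cl × X, ∑ y ∈ univ.filter (fun y : J → X => u ≤ |(cmp cl y p : ℝ) - μ p|),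
      ∏ k, P (cl k) (y k) ≤ Fintype.card J / u ^ 2 := by
    intro p
    set Z : J → X → ℝ := fun k x => if (cl k, x) = p then 1 else 0 with hZ
    have hZ1 : ∀ y : J → X, ∑ k, Z k (y k) = cmp cl y p := by
      intro y
      unfold cmp
      rw [Finset.card_filter]
      push_cast
      rfl
    have hm : ∀ k, ∑ x, P (cl k) x * Z k x = if cl k = p.1 then P p.1 p.2 else 0 := by
      intro k
      by_cases h : cl k = p.1
      · rw [if_pos h, Finset.sum_eq_single p.2]
        · simp only [hZ]
          rw [if_pos (by rw [h]), mul_one, h]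
        · intro x _ hx
          simp only [hZ]
          rw [if_neg (fun h' => hx (by rw [← h'])), mul_zero]
        · intro h'; exact absurd (Finset.mem_univ _) h'
      · rw [if_neg h]
        refine Finset.sum_eq_zero fun x _ => ?_
        simp only [hZ]
        rw [if_neg (fun h' => h (by rw [← h'])), mul_zero]
    have hmean : ∑ k, ∑ x, P (cl k) x * Z k x = μ p := by
      simp only [hm]
      rw [← hμ p, ← Finset.sum_filter, Finset.sum_const, nsmul_eq_mul]
    have hm01 : ∀ k, 0 ≤ ∑ x, P (cl k) x * Z k x ∧ ∑ x, P (cl k) x * Z k x ≤ 1 := by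
      intro k
      constructor
      · refine Finset.sum_nonneg fun x _ => mul_nonneg (hP _ _) ?_
        simp only [hZ]; split_ifs <;> norm_num
      · rw [← hP1 (cl k)]
        refine Finset.sum_le_sum fun x _ => ?_
        have : Z k x ≤ 1 := by simp only [hZ]; split_ifs <;> norm_num
        nlinarith [hP (cl k) x]
    have hV : ∑ k, ∑ y, P (cl k) y * (Z k y - ∑ y', P (cl k) y' * Z k y') ^ 2 ≤
        Fintype.card J := by
      calc _ ≤ ∑ _k : J, (1 : ℝ) := by
            refine Finset.sum_le_sum fun k _ => ?_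
            rw [← hP1 (cl k)]
            refine Finset.sum_le_sum fun y _ => ?_
            obtain ⟨h1, h2⟩ := hm01 k
            have h3 : 0 ≤ Z k y ∧ Z k y ≤ 1 := by
              simp only [hZ]; split_ifs <;> norm_num
            have h4 : (Z k y - ∑ y', P (cl k) y' * Z k y') ^ 2 ≤ 1 := by
              rw [sq_le_one_iff_abs_le_one, abs_le]
              constructor <;> linarith [h3.1, h3.2]
            nlinarith [hP (cl k) y]
        _ = Fintype.card J := by simp
    refine cheb (fun k => P (cl k)) (fun k x => hP _ _) (fun k => hP1 _) Z hu _ hV ?_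
    intro y hy
    rw [Finset.mem_filter] at hy
    rw [hZ1, hmean]
    exact hy.2
  calc _ ≤ ∑ y : J → X, ∑ p : Cl × X, (if u ≤ |(cmp cl y p : ℝ) - μ p| then
        ∏ k, P (cl k) (y k) else 0) := by
        rw [Finset.sum_filter]
        refine Finset.sum_le_sum fun y _ => ?_
        have hpr : 0 ≤ ∏ k, P (cl k) (y k) := Finset.prod_nonneg fun k _ => hP _ _
        have hnn : ∀ p ∈ (univ : Finset (Cl × X)), 0 ≤ (if u ≤ |(cmp cl y p : ℝ) - μ p| then
          ∏ k, P (cl k) (y k) else 0) := fun p _ => by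
          split_ifs
          · exact hpr
          · exact le_rfl
        by_cases h : ∀ p, |(cmp cl y p : ℝ) - μ p| ≤ u
        · rw [if_neg (fun h' => h' h)]
          exact Finset.sum_nonneg hnn
        · rw [if_pos h]
          push Not at h
          obtain ⟨p, hp⟩ := h
          refine le_trans ?_ (Finset.single_le_sum hnn (Finset.mem_univ p))
          rw [if_pos hp.le]
    _ = ∑ p : Cl × X, ∑ y ∈ univ.filter (fun y : J → X => u ≤ |(cmp cl y p : ℝ) - μ p|),
        ∏ k, P (cl k) (y k) := by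
        rw [Finset.sum_comm]
        exact Finset.sum_congr rfl fun p _ => by rw [Finset.sum_filter]
    _ ≤ ∑ _p : Cl × X, (Fintype.card J / u ^ 2 : ℝ) := Finset.sum_le_sum fun p _ => hone p
    _ = _ := by rw [Finset.sum_const, Finset.card_univ, nsmul_eq_mul]

end Pool.Agent.H712.NI
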