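import Pool.Agent.H712.NI.TypeCore2

/-! Bound for sets of words of one composition: the finite inequality, conclusion. -/

open Finset

namespace Pool.Agent.H712.NI

open Pool.Agent.H390R2.LP

variable {Ω X I Cl : Type} [Fintype Ω] [DecidableEq Ω] [Fintype X] [DecidableEq X]
    [Fintype I] [Fintype Cl] [DecidableEq Cl] [Nonempty X]

lemma law_ri (K0 n : ℕ) (a : Cl × X → ℕ) (ha : ∀ p, a p ≤ n) (κ : Cl) (z : X) :
    law (ri K0 n a ha κ) z = (tq K0 n a (κ, z) : ℝ) / ∑ y, (tq K0 n a (κ, y) : ℝ) := by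
  unfold law ri tq
  push_cast
  congr 1
  · ring
  · exact Finset.sum_congr rfl fun y _ => by ring

lemma tq_sum_pos (K0 n : ℕ) (a : Cl × X → ℕ) (κ : Cl) :
    0 < ∑ y, (tq K0 n a (κ, y) : ℝ) := by
  refine Finset.sum_pos (fun y _ => ?_) Finset.univ_nonempty
  unfold tq
  positivity

theorem type_core (K0 : ℕ) (hK : 0 < K0) (s : (X → Fin (K0 + 3)) → Site Ω X) (f : I → X → ℝ)
    (Em : ℝ) (F : (X → ℝ) → ℝ) (hs1 : ∀ r x, (s r).P x = law r x) (hs2 : ∀ r, (s r).E f ≤ Em)
    (hs3 : ∀ r, ∑ x, Real.negMulLog (law r x) - ((s r).h - (s r).S) ≤ F (law r))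
    (hF : ∀ (t : ℝ) (m : X → ℝ), 0 ≤ t → F (fun x => t * m x) = t * F m)
    (ε1 : ℝ) (hε1 : 0 < ε1) : ∃ n1 : ℕ, ∀ n, n1 ≤ n → 0 < n → ∀ (c : Fin n → Cl)
    (S : Finset (Fin n → X)) (a : Cl × X → ℕ), S.Nonempty → (∀ x ∈ S, cmp c x = a) →
    ∀ d : ℝ, 0 ≤ d →
    (∀ x ∈ S, ∀ y ∈ S, x ≠ y → d ≤ ∑ k, ∑ i, (f i (x k) - f i (y k)) ^ 2) →
    ((Fintype.card (Cl × X) : ℕ) : ℝ) * (((∑ p, tq K0 n a p * uu K0 n : ℕ) : ℝ) /
      (uu K0 n : ℝ) ^ 2) ≤ ε1 →
    ((∑ p, tq K0 n a p * uu K0 n : ℕ) : ℝ) * (Em + ε1) < d * (1 - 2 * ε1) →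
    Real.log S.card ≤
      Fintype.card (Cl × X) * Real.log (((∑ p, tq K0 n a p * uu K0 n : ℕ) : ℝ) + 1) +
      uu K0 n * (Fintype.card (Cl × X) * Real.log (Fintype.card X * (K0 + 3))) +
      ∑ κ, F (fun z => (tq K0 n a (κ, z) : ℝ) * uu K0 n) +
      ((∑ p, tq K0 n a p * uu K0 n : ℕ) : ℝ) * ε1 := by
  classical
  obtain ⟨n1, hn1⟩ := one_shot (Cl := Cl) s f ε1 hε1
  refine ⟨n1, fun n hn hn0 c S a hSne hcmp d hd hdist H1 H2 => ?_⟩
  obtain ⟨x0, hx0⟩ := hSne
  have hasum : ∑ p, a p = n := by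
    rw [← hcmp x0 hx0, sum_cmp, Fintype.card_fin]
  have hale : ∀ p, a p ≤ n := by
    intro p
    rw [← hcmp x0 hx0]
    have := cmp_le c x0 p
    rwa [Fintype.card_fin] at this
  have hacl : ∀ κ, ∑ z, a (κ, z) = (univ.filter fun j => c j = κ).card := by
    intro κ
    rw [← hcmp x0 hx0]
    exact cmp_class c x0 κ
  set u : ℕ := uu K0 n with hu
  have hu0 : 0 < u := Nat.succ_pos _
  have huR : (0 : ℝ) < u := by exact_mod_cast hu0
  set t : Cl × X → ℕ := tq K0 n a with ht
  set n' : ℕ := ∑ p, t p * u with hn'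
  have hcardK : Fintype.card (KK K0 n a) = n' := card_KK K0 n hK hn0 a hasum
  set cl : KK K0 n a → Cl := clx K0 n a c with hcl
  set τ : Cl → (X → Fin (K0 + 3)) := ri K0 n a hale with hτ
  set P : Cl → X → ℝ := fun κ z => law (τ κ) z with hP
  have hPpos : ∀ κ z, 0 < P κ z := fun κ z => law_pos _ _
  have hPsum : ∀ κ, ∑ z, P κ z = 1 := fun κ => law_sum _
  have hclass : ∀ κ, (univ.filter fun k => cl k = κ).card = ∑ z, t (κ, z) * u := fun κ =>
    class_KK K0 n hK hn0 a c κ (hacl κ)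
  have hclassR : ∀ κ, ((univ.filter fun k => cl k = κ).card : ℝ) =
      (∑ z, (t (κ, z) : ℝ)) * u := by
    intro κ
    rw [hclass κ]
    push_cast
    rw [Finset.sum_mul]
  have hPt : ∀ κ z, (∑ y, (t (κ, y) : ℝ)) * P κ z = t (κ, z) := by
    intro κ z
    simp only [hP]
    rw [hτ, law_ri]
    have := (tq_sum_pos K0 n a κ).ne'
    field_simp
    rfl
  -- typical words
  set μ : Cl × X → ℝ := fun p => (t p : ℝ) * u with hμ
  set typ : (KK K0 n a → X) → Prop := fun y => ∀ p, |(cmp cl y p : ℝ) - μ p| ≤ u with htyp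
  set W : Finset (Cl × X → ℕ) := (univ.filter typ).image (fun y => cmp cl y) with hW
  have hWmem : ∀ y, cmp cl y ∈ W ↔ typ y := by
    intro y
    rw [hW, Finset.mem_image]
    constructor
    · rintro ⟨y', hy', he⟩
      have h1 := (Finset.mem_filter.mp hy').2
      intro p
      rw [← he]
      exact h1 p
    · intro hy
      exact ⟨y, Finset.mem_filter.mpr ⟨Finset.mem_univ _, hy⟩, rfl⟩
  have hWge : ∀ b ∈ W, ∀ p, a p ≤ b p := by
    intro b hb p
    rw [hW, Finset.mem_image] at hb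
    obtain ⟨y, hy, rfl⟩ := hb
    have h1 := (Finset.mem_filter.mp hy).2 p
    rw [abs_le] at h1
    have h2 := tq_ge K0 n hK hn0 a p
    have h3 : (a p : ℝ) + u ≤ t p * u := by
      rw [ht, hu]
      exact_mod_cast h2
    have h4 : (a p : ℝ) ≤ cmp cl y p := by
      have h5 := h1.1
      simp only [hμ] at h5
      linarith
    exact_mod_cast h4
  have hWle : ∀ b ∈ W, ∀ p, (b p : ℝ) ≤ t p * u + u := by
    intro b hb p
    rw [hW, Finset.mem_image] at hb
    obtain ⟨y, hy, rfl⟩ := hb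
    have h1 := (Finset.mem_filter.mp hy).2 p
    rw [abs_le] at h1
    have h5 := h1.2
    simp only [hμ] at h5
    linarith
  have hWcl : ∀ b ∈ W, ∀ κ, ∑ z, b (κ, z) = ∑ z, t (κ, z) * u := by
    intro b hb κ
    rw [hW, Finset.mem_image] at hb
    obtain ⟨y, hy, rfl⟩ := hb
    rw [cmp_class, hclass]
  -- padding words
  have hpad : ∀ b : Cl × X → ℕ, ∃ y : Pad (m0 K0 n a) → X, b ∈ W →
      cmp (fun q : Pad (m0 K0 n a) => q.1.1) y = fun p => b p - a p := by
    intro b
    by_cases hb : b ∈ W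
    · obtain ⟨y, hy⟩ := exists_pad (m0 K0 n a) (fun p => b p - a p) (by
        intro κ
        have h1 : ∑ z, (b (κ, z) - a (κ, z)) + ∑ z, a (κ, z) = ∑ z, b (κ, z) := by
          rw [← Finset.sum_add_distrib]
          exact Finset.sum_congr rfl fun z _ => Nat.sub_add_cancel (hWge b hb _)
        have h2 : ∑ z, m0 K0 n a (κ, z) + ∑ z, a (κ, z) = ∑ z, t (κ, z) * u := by
          rw [← Finset.sum_add_distrib]
          refine Finset.sum_congr rfl fun z _ => ?_
          have := tq_ge K0 n hK hn0 a (κ, z)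
          rw [ht, hu]
          unfold m0
          omega
        have h3 := hWcl b hb κ
        omega)
      exact ⟨y, fun _ => hy⟩
    · exact ⟨fun _ => Classical.arbitrary X, fun h => absurd h hb⟩
  choose py hpy using hpad
  set V : (Cl × X → ℕ) → Finset (KK K0 n a → X) := fun b => S.image fun x => Sum.elim x (py b)
    with hV
  have hinj : ∀ b, Function.Injective (fun x : Fin n → X => (Sum.elim x (py b) :
      KK K0 n a → X)) := by
    intro b x y hxy
    funext j
    exact congrFun hxy (Sum.inl j)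
  have hVcard : ∀ b ∈ W, (V b).card = S.card := fun b _ =>
    Finset.card_image_of_injective _ (hinj b)
  have hVcmp : ∀ b ∈ W, ∀ v ∈ V b, cmp cl v = b := by
    intro b hb v hv
    simp only [hV, Finset.mem_image] at hv
    obtain ⟨x, hx, rfl⟩ := hv
    funext p
    have h1 := cmp_sum c (fun q : Pad (m0 K0 n a) => q.1.1) x (py b) p
    have h2 : cmp cl (Sum.elim x (py b)) p = cmp c x p +
        cmp (fun q : Pad (m0 K0 n a) => q.1.1) (py b) p := h1
    rw [h2, hcmp x hx, hpy b hb]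
    exact Nat.add_sub_cancel' (hWge b hb p)
  have hVdist : ∀ b ∈ W, ∀ x ∈ V b, ∀ y ∈ V b, x ≠ y →
      d ≤ ∑ k, ∑ i, (f i (x k) - f i (y k)) ^ 2 := by
    intro b _ v hv v' hv' hne
    simp only [hV, Finset.mem_image] at hv hv'
    obtain ⟨x, hx, rfl⟩ := hv
    obtain ⟨y, hy, rfl⟩ := hv'
    have hxy : x ≠ y := fun e => hne (by rw [e])
    rw [Fintype.sum_sum_type]
    simp only [Sum.elim_inl, Sum.elim_inr, sub_self]
    have := hdist x hx y hy hxy
    simpa using this
  have hSpos : 0 < S.card := Finset.card_pos.mpr ⟨x0, hx0⟩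
  have hSR : (0 : ℝ) < S.card := by exact_mod_cast hSpos
  have hKcard : n1 ≤ Fintype.card (KK K0 n a) := by
    rw [Fintype.card_sum, Fintype.card_fin]
    omega
  have key := hn1 (KK K0 n a) hKcard cl τ W V S.card d hd hSpos hVcard hVcmp hVdist
  rw [hcardK] at key
  -- the deficit
  have hdef : ∑ x : KK K0 n a → X, (∏ k, (s (τ (cl k))).P (x k)) *
      (if cmp cl x ∈ W then 0 else 1) ≤ ε1 := by
    have h1 := atypical cl P (fun κ z => (hPpos κ z).le) hPsum μ (by
      intro p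
      rw [hclassR, mul_right_comm, hPt]) u huR
    rw [hcardK] at h1
    refine le_trans (le_of_eq ?_) (h1.trans H1)
    rw [Finset.sum_filter]
    refine Finset.sum_congr rfl fun y _ => ?_
    have h2 : ∏ k, (s (τ (cl k))).P (y k) = ∏ k, P (cl k) (y k) :=
      Finset.prod_congr rfl fun k _ => hs1 _ _
    rw [h2]
    by_cases h : typ y
    · rw [if_pos ((hWmem y).mpr h), mul_zero, if_neg (fun h' => h' h)]
    · rw [if_neg (fun h' => h ((hWmem y).mp h')), mul_one, if_pos h]
  -- the sum of the energies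
  have hEn : ∑ k, (s (τ (cl k))).E f + n' * ε1 ≤ n' * (Em + ε1) := by
    have h1 : ∑ k : KK K0 n a, (s (τ (cl k))).E f ≤ ∑ _k : KK K0 n a, Em :=
      Finset.sum_le_sum fun k _ => hs2 _
    rw [Finset.sum_const, Finset.card_univ, hcardK, nsmul_eq_mul] at h1
    linarith
  -- contradiction if there are few sets
  have hbig : Real.exp (∑ k, ((s (τ (cl k))).h - (s (τ (cl k))).S) - n' * ε1) <
      ∑ b ∈ W, ((univ.filter fun y : KK K0 n a → X => cmp cl y = b).card : ℝ) / S.card := by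
    by_contra hcon
    push Not at hcon
    have h1 := key hcon
    have h2 : d * (1 - 2 * ε1) ≤ d * (1 - ε1 - ∑ x : KK K0 n a → X,
        (∏ k, (s (τ (cl k))).P (x k)) * (if cmp cl x ∈ W then 0 else 1)) :=
      mul_le_mul_of_nonneg_left (by linarith) hd
    linarith
  -- sizes of the composition classes
  have hℓ : ∀ p : Cl × X, -Real.log (P p.1 p.2) ≤ Real.log (Fintype.card X * (K0 + 3)) :=
    fun p => neg_log_law _ _
  have hlogP : ∀ p : Cl × X, 0 ≤ -Real.log (P p.1 p.2) := by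
    intro p
    have := Real.log_nonpos (hPpos p.1 p.2).le (law_le_one _ _)
    linarith
  set L : ℝ := ∑ p : Cl × X, ((t p : ℝ) * u + u) * (-Real.log (P p.1 p.2)) with hL
  have hTb : ∀ b ∈ W, ((univ.filter fun y : KK K0 n a → X => cmp cl y = b).card : ℝ) ≤
      Real.exp L := by
    intro b hb
    refine (card_class_le cl P hPpos hPsum b).trans (Real.exp_le_exp.mpr ?_)
    rw [hL, ← Finset.sum_neg_distrib]
    refine Finset.sum_le_sum fun p _ => ?_
    rw [← mul_neg]
    exact mul_le_mul_of_nonneg_right (hWle b hb p) (hlogP p)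
  have hWcard : (W.card : ℝ) ≤ ((n' : ℝ) + 1) ^ (Fintype.card (Cl × X)) := by
    have h1 : W ⊆ Fintype.piFinset (fun _ : Cl × X => Finset.range (n' + 1)) := by
      intro b hb
      rw [Fintype.mem_piFinset]
      intro p
      rw [hW, Finset.mem_image] at hb
      obtain ⟨y, hy, rfl⟩ := hb
      rw [Finset.mem_range]
      have := cmp_le cl y p
      rw [hcardK] at this
      omega
    have h2 := Finset.card_le_card h1
    rw [Fintype.card_piFinset] at h2
    simp only [Finset.card_range, Finset.prod_const, Finset.card_univ] at h2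
    exact_mod_cast h2
  have hsumT : ∑ b ∈ W, ((univ.filter fun y : KK K0 n a → X => cmp cl y = b).card : ℝ) /
      S.card ≤ ((n' : ℝ) + 1) ^ (Fintype.card (Cl × X)) * Real.exp L / S.card := by
    rw [← Finset.sum_div]
    refine div_le_div_of_nonneg_right ?_ hSR.le
    calc _ ≤ ∑ _b ∈ W, Real.exp L := Finset.sum_le_sum hTb
      _ = W.card * Real.exp L := by rw [Finset.sum_const, nsmul_eq_mul]
      _ ≤ _ := mul_le_mul_of_nonneg_right hWcard (Real.exp_pos _).le
  have hlog : Real.log S.card ≤ Fintype.card (Cl × X) * Real.log ((n' : ℝ) + 1) + L -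
      (∑ k, ((s (τ (cl k))).h - (s (τ (cl k))).S) - n' * ε1) := by
    have h1 := hbig.trans_le hsumT
    rw [lt_div_iff₀ hSR] at h1
    have h2 := Real.log_lt_log (mul_pos (Real.exp_pos _) hSR) h1
    rw [Real.log_mul (Real.exp_pos _).ne' hSR.ne', Real.log_exp,
      Real.log_mul (by positivity) (Real.exp_pos _).ne', Real.log_exp, Real.log_pow] at h2
    linarith
  -- rewrite the sum over positions
  have hks : ∑ k, ((s (τ (cl k))).h - (s (τ (cl k))).S) =
      ∑ κ, (∑ z, (t (κ, z) : ℝ)) * u * ((s (τ κ)).h - (s (τ κ)).S) := by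
    rw [← Finset.sum_fiberwise (s := univ) (g := cl)
      (f := fun k => ((s (τ (cl k))).h - (s (τ (cl k))).S))]
    refine Finset.sum_congr rfl fun κ _ => ?_
    have h1 : ∑ k ∈ univ.filter (fun k => cl k = κ), ((s (τ (cl k))).h - (s (τ (cl k))).S) =
        ∑ _k ∈ univ.filter (fun k => cl k = κ), ((s (τ κ)).h - (s (τ κ)).S) :=
      Finset.sum_congr rfl fun k hk => by rw [(Finset.mem_filter.mp hk).2]
    rw [h1, Finset.sum_const, nsmul_eq_mul, hclassR]
  have hL2 : L ≤ ∑ κ, (∑ z, (t (κ, z) : ℝ)) * u * ∑ z, Real.negMulLog (P κ z) +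
      u * (Fintype.card (Cl × X) * Real.log (Fintype.card X * (K0 + 3))) := by
    have h1 : L = ∑ p : Cl × X, (t p : ℝ) * u * (-Real.log (P p.1 p.2)) +
        u * ∑ p : Cl × X, (-Real.log (P p.1 p.2)) := by
      rw [hL, Finset.mul_sum, ← Finset.sum_add_distrib]
      exact Finset.sum_congr rfl fun p _ => by ring
    have h2 : ∑ p : Cl × X, (t p : ℝ) * u * (-Real.log (P p.1 p.2)) =
        ∑ κ, (∑ z, (t (κ, z) : ℝ)) * u * ∑ z, Real.negMulLog (P κ z) := by
      rw [Fintype.sum_prod_type]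
      refine Finset.sum_congr rfl fun κ _ => ?_
      rw [Finset.mul_sum]
      refine Finset.sum_congr rfl fun z _ => ?_
      unfold Real.negMulLog
      linear_combination (u * Real.log (P κ z)) * (hPt κ z)
    have h3 : ∑ p : Cl × X, (-Real.log (P p.1 p.2)) ≤
        Fintype.card (Cl × X) * Real.log (Fintype.card X * (K0 + 3)) := by
      calc _ ≤ ∑ _p : Cl × X, Real.log (Fintype.card X * (K0 + 3)) :=
            Finset.sum_le_sum fun p _ => hℓ p
        _ = _ := by rw [Finset.sum_const, Finset.card_univ, nsmul_eq_mul]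
    rw [h1, h2]
    have := mul_le_mul_of_nonneg_left h3 huR.le
    linarith
  have hFs : ∑ κ, (∑ z, (t (κ, z) : ℝ)) * u * ∑ z, Real.negMulLog (P κ z) -
      ∑ κ, (∑ z, (t (κ, z) : ℝ)) * u * ((s (τ κ)).h - (s (τ κ)).S) ≤
      ∑ κ, F (fun z => (t (κ, z) : ℝ) * u) := by
    rw [← Finset.sum_sub_distrib]
    refine Finset.sum_le_sum fun κ _ => ?_
    have h1 := hs3 (τ κ)
    have h2 : 0 ≤ (∑ z, (t (κ, z) : ℝ)) * u := by positivity
    have h3 : (fun z => (t (κ, z) : ℝ) * u) =
        fun z => (∑ z, (t (κ, z) : ℝ)) * u * law (τ κ) z := by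
      funext z
      have := hPt κ z
      simp only [hP] at this
      linear_combination (-(u : ℝ)) * this
    rw [h3, hF _ _ h2]
    have h4 := mul_le_mul_of_nonneg_left h1 h2
    simp only [hP]
    linarith
  linarith

end Pool.Agent.H712.NI
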